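import Pool.Agent.H25.BC.Def

/-!
# Module A1: coefficient formulas and commutation relations of `Λ`

All statements are linear in `v`, so check them on `v = monomial j f` (`Polynomial.induction_on'`);
`Polynomial.lsum_apply`, `Polynomial.sum_monomial_index`.

* `DD_coeff_zero`, `DD_coeff_succ`: both sides are derivations/linear in `f`; check on monomials
  (`MvPolynomial.induction_on`, or `mkDerivation` + `Derivation` extensionality after composing with
  the linear map `coeff (i+1)`); `DD (X k) = monomial (k+1) (C (al (k+1)))`.
* `coeff0_Lam`: for `v = w^j f`: `w^j DD f` has no constant term in `w` (`DD_coeff_zero`), in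
  `∑_{i<j} monomial (j-1-i) (X i * f)` the term `i = j-1` gives `X (j-1) * f`, and
  `monomial j (C (b j) f)` contributes `0` (for `j = 0` because `b * 0 = 0`).
* `Lam_X_mul`: for `v = w^j f`: `Λ(w^{j+1} f) = w^{j+1} DD f + ∑_{i<j+1} w^{j-i} X_i f + b (j+1) w^{j+1} f`
  and `X * Λ(w^j f) = w^{j+1} DD f + ∑_{i<j} w^{j-i} X_i f + b j w^{j+1} f`; the difference is
  `b w^{j+1} f + w^0 X_j f`, and `Θ(w^{j+1} f) = X_j f`.
* `Lam_Xm_mul`: `DD (X m * f) = X m • DD f + f • monomial (m+1) (C (al (m+1)))` (Leibniz).
-/

open MvPolynomial

namespace H25BC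

variable {S : Type*} [CommRing S] (al b : S)

theorem Lam_monomial (j : ℕ) (f : MvPolynomial ℕ S) :
    Lam al b (Polynomial.monomial j f) =
      Polynomial.X ^ j * DD al f
        + ∑ i ∈ Finset.range j, Polynomial.monomial (j - 1 - i) (X i * f)
        + Polynomial.monomial j (C (b * (j : S)) * f) := by
  rw [Lam, Polynomial.lsum_apply, Polynomial.sum_monomial_index]
  · simp only [LinearMap.add_apply, LinearMap.comp_apply, LinearMap.mulLeft_apply,
      LinearMap.sum_apply, LinearMap.smul_apply, LinearMap.coe_restrictScalars,
      Derivation.coeFn_coe]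
    congr 1
    rw [C_mul', Polynomial.smul_monomial]
  · simp

theorem Theta_monomial_zero (f : MvPolynomial ℕ S) :
    Theta S (Polynomial.monomial 0 f) = 0 := by
  rw [Theta, Polynomial.lsum_apply, Polynomial.sum_monomial_index]
  · simp
  · simp

theorem Theta_monomial_succ (j : ℕ) (f : MvPolynomial ℕ S) :
    Theta S (Polynomial.monomial (j + 1) f) = X j * f := by
  rw [Theta, Polynomial.lsum_apply, Polynomial.sum_monomial_index]
  · simp
  · simp

private theorem DD_X (i : ℕ) : DD al (X i : MvPolynomial ℕ S) =
    Polynomial.monomial (i + 1) (C (al * ((i : S) + 1))) := by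
  rw [DD, mkDerivation_X]

theorem DD_coeff_zero (f : MvPolynomial ℕ S) : (DD al f).coeff 0 = 0 := by
  induction f using MvPolynomial.induction_on with
  | C a => 
    rw [← MvPolynomial.algebraMap_eq, Derivation.map_algebraMap, Polynomial.coeff_zero]
  | add p q hp hq => rw [map_add, Polynomial.coeff_add, hp, hq, add_zero]
  | mul_X p i hp =>
    rw [Derivation.leibniz, Polynomial.coeff_add, Polynomial.coeff_smul, Polynomial.coeff_smul, hp,
      DD_X, Polynomial.coeff_monomial, if_neg (by omega), smul_zero, smul_zero, add_zero]

private theorem aop_X (i k : ℕ) : aop al i (X k : MvPolynomial ℕ S) =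
    if k = i then C (al * ((i : S) + 1)) else 0 := by
  rw [aop, Derivation.smul_apply, pderiv_X]
  by_cases h : k = i
  · subst h
    rw [if_pos rfl, Pi.single_eq_same, MvPolynomial.smul_eq_C_mul, mul_one]
  · rw [if_neg h, Pi.single_eq_of_ne (by omega), smul_zero]

theorem DD_coeff_succ (i : ℕ) (f : MvPolynomial ℕ S) :
    (DD al f).coeff (i + 1) = aop al i f := by
  induction f using MvPolynomial.induction_on with
  | C a => 
    rw [← MvPolynomial.algebraMap_eq, Derivation.map_algebraMap, Derivation.map_algebraMap, 
      Polynomial.coeff_zero]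
  | add p q hp hq => rw [map_add, Polynomial.coeff_add, hp, hq, map_add]
  | mul_X p k hp =>
    rw [Derivation.leibniz, Derivation.leibniz, Polynomial.coeff_add, Polynomial.coeff_smul,
      Polynomial.coeff_smul, hp, DD_X, Polynomial.coeff_monomial, aop_X]
    congr 1
    by_cases h : k = i
    · subst h
      rw [if_pos rfl, if_pos rfl]
    · rw [if_neg (by omega), if_neg h]

private theorem ext_lin {V : Type*} [AddCommMonoid V]
    (F G : Polynomial (MvPolynomial ℕ S) →+ V)
    (h : ∀ j f, F (Polynomial.monomial j f) = G (Polynomial.monomial j f))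
    (v : Polynomial (MvPolynomial ℕ S)) : F v = G v := by
  induction v using Polynomial.induction_on' with
  | add p q hp hq => rw [map_add, map_add, hp, hq]
  | monomial j f => exact h j f

theorem coeff0_Lam (v : Polynomial (MvPolynomial ℕ S)) :
    (Lam al b v).coeff 0 = Theta S v := by
  induction v using Polynomial.induction_on' with
  | add p q hp hq => rw [map_add, Polynomial.coeff_add, hp, hq, map_add]
  | monomial j f =>
    rw [Lam_monomial, Polynomial.coeff_add, Polynomial.coeff_add, Polynomial.finsetSum_coeff,
      Polynomial.mul_coeff_zero, DD_coeff_zero, mul_zero, zero_add, Polynomial.coeff_monomial]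
    rcases j with _ | j
    · rw [Theta_monomial_zero]
      simp
    · rw [Theta_monomial_succ, if_neg (by omega), add_zero, Finset.sum_range_succ]
      rw [Finset.sum_eq_zero, zero_add, Polynomial.coeff_monomial, if_pos (by omega)]
      intro i hi
      rw [Finset.mem_range] at hi
      rw [Polynomial.coeff_monomial, if_neg (by omega)]

theorem Lam_C (f : MvPolynomial ℕ S) : Lam al b (Polynomial.C f) = DD al f := by
  rw [← Polynomial.monomial_zero_left, Lam_monomial]
  simp

theorem Lam_X_mul (v : Polynomial (MvPolynomial ℕ S)) :
    Lam al b (Polynomial.X * v) =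
      Polynomial.X * Lam al b v + Polynomial.C (C b) * (Polynomial.X * v)
        + Polynomial.C (Theta S (Polynomial.X * v)) := by
  induction v using Polynomial.induction_on' with
  | add p q hp hq => 
    rw [mul_add, map_add, map_add, map_add, map_add, hp, hq]
    ring
  | monomial j f =>
    rw [Polynomial.X_mul_monomial, Lam_monomial, Lam_monomial, Theta_monomial_succ, 
      Finset.sum_range_succ, Polynomial.C_mul_monomial, mul_add, mul_add, Finset.mul_sum,
      Polynomial.X_mul_monomial]
    have h1 : ∀ i ∈ Finset.range j, (Polynomial.monomial (j + 1 - 1 - i)) (X i * f) =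
        Polynomial.X * (Polynomial.monomial (j - 1 - i)) (X i * f) := by
      intro i hi
      rw [Finset.mem_range] at hi
      rw [Polynomial.X_mul_monomial, show j + 1 - 1 - i = j - 1 - i + 1 by omega]
    rw [Finset.sum_congr rfl h1]
    have h2 : (C (b * ((j + 1 : ℕ) : S)) * f : MvPolynomial ℕ S) = 
        C (b * (j : S)) * f + C b * f := by
      rw [← add_mul, ← C_add]
      congr 2
      push_cast
      ring
    rw [h2, map_add, show j + 1 - 1 - j = 0 by omega, Polynomial.monomial_zero_left]
    ring

theorem Lam_Xm_mul (m : ℕ) (v : Polynomial (MvPolynomial ℕ S)) :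
    Lam al b (Polynomial.C (X m) * v) =
      Polynomial.C (X m) * Lam al b v
        + Polynomial.C (C (al * ((m : S) + 1))) * (Polynomial.X ^ (m + 1) * v) := by
  induction v using Polynomial.induction_on' with
  | add p q hp hq => 
    rw [mul_add, map_add, map_add, hp, hq]
    ring
  | monomial j f =>
    rw [Polynomial.C_mul_monomial, Lam_monomial, Lam_monomial, Derivation.leibniz, DD_X]
    generalize al * ((m : S) + 1) = c
    rw [mul_add, mul_add, mul_add, Polynomial.C_mul_monomial, Finset.mul_sum]
    have h1 : ∀ i ∈ Finset.range j, (Polynomial.monomial (j - 1 - i)) (X i * (X m * f)) =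
        Polynomial.C (X m) * (Polynomial.monomial (j - 1 - i)) (X i * f) := by
      intro i _
      rw [Polynomial.C_mul_monomial]
      congr 1
      ring
    rw [Finset.sum_congr rfl h1, Polynomial.smul_eq_C_mul, Polynomial.smul_eq_C_mul,
      Polynomial.C_mul_monomial, ← Polynomial.C_mul_X_pow_eq_monomial,
      ← Polynomial.C_mul_X_pow_eq_monomial (n := j) (a := f), mul_left_comm (C (b * (j : S))) (X m) f]
    simp only [map_mul]
    ring

end H25BC
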