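import Pool.Agent.H25.BC.Def

/-!
# Module A2: the scalar product

`pair_eq_sum`: outside the support the terms vanish.
`pair_X_mul`: both sides are bilinear (`pair_add_left`, ...), check on `f = monomial m c`,
`g = monomial m' c'`: the left side is `c c' z_{m+δ_i} al^{len m + 1}` if `m' = m + δ_i`, else `0`;
the right side: `aop al i g = al (i+1) m'_i c' monomial (m' - δ_i)`, so it is
`c c' al (i+1) m'_i z_m al^{len m}` if `m = m' - δ_i` (and `m'_i ≥ 1`). And
`z_{m+δ_i} = (i+1) (m_i+1) z_m`, `len (m + δ_i) = len m + 1`.
(A direct way: `pair al (X i * f) g = ∑_{m ∈ f.support} f_m g_{m+δ_i} z_{m+δ_i} al^{len m+1}`.)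
-/

open MvPolynomial

namespace H25BC

theorem zz_add_single (m : ℕ →₀ ℕ) (i : ℕ) :
    zz (m + Finsupp.single i 1) = (i + 1) * (m i + 1) * zz m := by
  have h0 : ∀ (a : ℕ →₀ ℕ) (s : Finset ℕ), a.support ⊆ s →
      zz a = ∏ k ∈ s, (k + 1) ^ a k * (a k).factorial := by
    intro a s hs
    exact Finsupp.prod_of_support_subset _ hs _ (by simp)
  set s := insert i (m.support) with hs
  have h1 : (m + Finsupp.single i 1).support ⊆ s := by
    intro k hk
    rw [Finsupp.mem_support_iff, Finsupp.add_apply] at hk
    rw [hs, Finset.mem_insert]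
    by_cases h : k = i
    · exact Or.inl h
    · right
      rw [Finsupp.single_eq_of_ne h, add_zero] at hk
      exact Finsupp.mem_support_iff.mpr hk
  have h2 : m.support ⊆ s := Finset.subset_insert _ _
  rw [h0 _ s h1, h0 _ s h2]
  have hi : i ∈ s := Finset.mem_insert_self _ _
  rw [← Finset.mul_prod_erase s _ hi, ← Finset.mul_prod_erase s (fun k => (k + 1) ^ m k *
    (m k).factorial) hi]
  have h3 : ∏ k ∈ s.erase i, (k + 1) ^ (m + Finsupp.single i 1 : ℕ →₀ ℕ) k *
      ((m + Finsupp.single i 1 : ℕ →₀ ℕ) k).factorial =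
      ∏ k ∈ s.erase i, (k + 1) ^ m k * (m k).factorial := by
    refine Finset.prod_congr rfl fun k hk => ?_
    rw [Finset.mem_erase] at hk
    rw [Finsupp.add_apply, Finsupp.single_eq_of_ne hk.1, add_zero]
  rw [h3, Finsupp.add_apply, Finsupp.single_eq_same, pow_succ, Nat.factorial_succ]
  ring

theorem len_add (m m' : ℕ →₀ ℕ) : len (m + m') = len m + len m' := by
  exact Finsupp.sum_add_index' (by simp) (by simp)

theorem wt_add (m m' : ℕ →₀ ℕ) : wt (m + m') = wt m + wt m' := by
  exact Finsupp.sum_add_index' (by simp) (by intro a b c; ring)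

theorem wt_single (i k : ℕ) : wt (Finsupp.single i k) = (i + 1) * k := by
  exact Finsupp.sum_single_index (by simp)

theorem len_single (i k : ℕ) : len (Finsupp.single i k) = k := by
  exact Finsupp.sum_single_index (by simp)

variable {S : Type*} [CommRing S] (al : S)

theorem pair_eq_sum (f g : MvPolynomial ℕ S) (s : Finset (ℕ →₀ ℕ)) (hs : f.support ⊆ s) :
    pair al f g = ∑ m ∈ s, f.coeff m * g.coeff m * ((zz m : S) * al ^ len m) := by
  refine Finset.sum_subset hs fun m _ hm => ?_
  rw [notMem_support_iff] at hm
  rw [hm, zero_mul, zero_mul]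

theorem pair_comm (f g : MvPolynomial ℕ S) : pair al f g = pair al g f := by
  classical
  rw [pair_eq_sum al f g (f.support ∪ g.support) Finset.subset_union_left,
    pair_eq_sum al g f (f.support ∪ g.support) Finset.subset_union_right]
  refine Finset.sum_congr rfl fun m _ => ?_
  rw [mul_comm (f.coeff m)]

theorem pair_add_left (f f' g : MvPolynomial ℕ S) :
    pair al (f + f') g = pair al f g + pair al f' g := by
  classical
  rw [pair_eq_sum al f g (f.support ∪ f'.support) Finset.subset_union_left,
    pair_eq_sum al f' g (f.support ∪ f'.support) Finset.subset_union_right,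
    pair_eq_sum al (f + f') g (f.support ∪ f'.support) support_add, ← Finset.sum_add_distrib]
  refine Finset.sum_congr rfl fun m _ => ?_
  rw [coeff_add]
  ring

theorem pair_add_right (f g g' : MvPolynomial ℕ S) :
    pair al f (g + g') = pair al f g + pair al f g' := by
  rw [pair_comm, pair_add_left, pair_comm al g, pair_comm al g']

theorem pair_C_mul_left (c : S) (f g : MvPolynomial ℕ S) :
    pair al (C c * f) g = c * pair al f g := by
  classical
  rw [pair_eq_sum al f g (f.support ∪ (C c * f).support) Finset.subset_union_left,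
    pair_eq_sum al (C c * f) g (f.support ∪ (C c * f).support) Finset.subset_union_right,
    Finset.mul_sum]
  refine Finset.sum_congr rfl fun m _ => ?_
  rw [coeff_C_mul]
  ring

theorem pair_C_mul_right (c : S) (f g : MvPolynomial ℕ S) :
    pair al f (C c * g) = c * pair al f g := by
  rw [pair_comm, pair_C_mul_left, pair_comm]

theorem pair_zero_left (g : MvPolynomial ℕ S) : pair al 0 g = 0 := by
  rw [pair, support_zero, Finset.sum_empty]

theorem pair_zero_right (f : MvPolynomial ℕ S) : pair al f 0 = 0 := by
  rw [pair_comm, pair_zero_left]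

theorem pair_sum_left {κ : Type*} (s : Finset κ) (F : κ → MvPolynomial ℕ S)
    (g : MvPolynomial ℕ S) : pair al (∑ i ∈ s, F i) g = ∑ i ∈ s, pair al (F i) g := by
  classical
  induction s using Finset.induction_on with
  | empty => rw [Finset.sum_empty, Finset.sum_empty, pair_zero_left]
  | insert a s ha ih => rw [Finset.sum_insert ha, Finset.sum_insert ha, pair_add_left, ih]

theorem pair_sum_right {κ : Type*} (s : Finset κ) (f : MvPolynomial ℕ S)
    (F : κ → MvPolynomial ℕ S) : pair al f (∑ i ∈ s, F i) = ∑ i ∈ s, pair al f (F i) := by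
  rw [pair_comm, pair_sum_left]
  exact Finset.sum_congr rfl fun i _ => pair_comm _ _ _

/-- different weights are orthogonal -/
theorem pair_of_ne (f g : MvPolynomial ℕ S) (n n' : ℕ) (hf : IsHom n f) (hg : IsHom n' g)
    (h : n ≠ n') : pair al f g = 0 := by
  refine Finset.sum_eq_zero fun m _ => ?_
  by_cases h1 : f.coeff m = 0
  · rw [h1, zero_mul, zero_mul]
  by_cases h2 : g.coeff m = 0
  · rw [h2, mul_zero, zero_mul]
  exact absurd ((hf m h1).symm.trans (hg m h2)) h

theorem pair_X_mul (i : ℕ) (f g : MvPolynomial ℕ S) :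
    pair al (X i * f) g = pair al f (aop al i g) := by
  classical
  have h1 : (X i * f).support ⊆ f.support.image (fun m => m + Finsupp.single i 1) := by
    intro m hm
    rw [mem_support_iff, coeff_X_mul'] at hm
    split_ifs at hm with h
    · rw [Finset.mem_image]
      refine ⟨m - Finsupp.single i 1, mem_support_iff.mpr hm, ?_⟩
      refine tsub_add_cancel_of_le ?_
      rw [Finsupp.single_le_iff]
      exact Nat.one_le_iff_ne_zero.mpr (Finsupp.mem_support_iff.mp h)
    · exact absurd rfl hm
  rw [pair_eq_sum al _ _ _ h1, Finset.sum_image (fun a _ b _ hab => by simpa using hab), pair]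
  refine Finset.sum_congr rfl fun m _ => ?_
  rw [add_comm m, coeff_X_mul, add_comm _ m, zz_add_single, len_add, len_single, aop,
    Derivation.smul_apply, coeff_smul, smul_eq_mul]
  have h2 : (pderiv i g).coeff m = g.coeff (m + Finsupp.single i 1) * ((m i : S) + 1) := by
    rw [coeff_pderiv]
  rw [h2]
  push_cast
  ring

end H25BC
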