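import Pool.Agent.H25.BC.A1
import Pool.Agent.H25.BC.A2

/-!
# Module A2V: `Λ` is self-adjoint on `K[p][w]`

`pairV u v = ∑_j pair (u_j) (v_j)`; it is bilinear, symmetric.
`pairV_Lam`: by bilinearity take `u = w^j f`, `v = w^k g`. With `Lam_monomial`:
`⟨Λ(w^j f), w^k g⟩ = [k > j] ⟨a_{k-j-1} f, g⟩ + [k < j] ⟨X_{j-1-k} f, g⟩ + [j = k] b j ⟨f, g⟩`
(coefficient of `w^k` in `w^j DD f` is `a_{k-j-1} f` if `k > j`, else `0`, by `DD_coeff_succ`,
`DD_coeff_zero`), and `⟨w^j f, Λ(w^k g)⟩ = [j > k] ⟨f, a_{j-k-1} g⟩ + [j < k] ⟨f, X_{k-1-j} g⟩ + ..`.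
Equal by `pair_X_mul` and `pair_comm`.
-/

open MvPolynomial

namespace H25BC

variable {K : Type*} [Field K] (al b : K)

theorem pairV_eq_sum (u v : Polynomial (MvPolynomial ℕ K)) (s : Finset ℕ) (hs : u.support ⊆ s) :
    pairV al u v = ∑ j ∈ s, pair al (u.coeff j) (v.coeff j) := by
  unfold pairV
  refine Finset.sum_subset hs fun j _ hj => ?_
  rw [Polynomial.notMem_support_iff] at hj
  rw [hj, pair_zero_left]

theorem pairV_comm (u v : Polynomial (MvPolynomial ℕ K)) : pairV al u v = pairV al v u := by
  classical
  rw [pairV_eq_sum al u v (u.support ∪ v.support) Finset.subset_union_left,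
    pairV_eq_sum al v u (u.support ∪ v.support) Finset.subset_union_right]
  exact Finset.sum_congr rfl fun j _ => pair_comm al _ _

theorem pairV_add_left (u u' v : Polynomial (MvPolynomial ℕ K)) :
    pairV al (u + u') v = pairV al u v + pairV al u' v := by
  classical
  rw [pairV_eq_sum al (u + u') v (u.support ∪ u'.support) Polynomial.support_add,
    pairV_eq_sum al u v (u.support ∪ u'.support) Finset.subset_union_left,
    pairV_eq_sum al u' v (u.support ∪ u'.support) Finset.subset_union_right,
    ← Finset.sum_add_distrib]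
  refine Finset.sum_congr rfl fun j _ => ?_
  rw [Polynomial.coeff_add, pair_add_left]

theorem pairV_smul_left (c : K) (u v : Polynomial (MvPolynomial ℕ K)) :
    pairV al (c • u) v = c * pairV al u v := by
  rw [pairV_eq_sum al (c • u) v u.support (Polynomial.support_smul c u),
    pairV_eq_sum al u v u.support subset_rfl, Finset.mul_sum]
  refine Finset.sum_congr rfl fun j _ => ?_
  rw [Polynomial.coeff_smul, smul_eq_C_mul, pair_C_mul_left]

theorem pairV_C (f : MvPolynomial ℕ K) (v : Polynomial (MvPolynomial ℕ K)) :
    pairV al (Polynomial.C f) v = pair al f (v.coeff 0) := by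
  rw [pairV_eq_sum al (Polynomial.C f) v {0} (Polynomial.support_C_subset f),
    Finset.sum_singleton, Polynomial.coeff_C_zero]

theorem pairV_X_mul (u v : Polynomial (MvPolynomial ℕ K)) :
    pairV al (Polynomial.X * u) (Polynomial.X * v) = pairV al u v := by
  have h1 : (Polynomial.X * u).support ⊆ Finset.range (u.natDegree + 1 + 1) := by
    intro j hj
    rw [Finset.mem_range]
    have h2 := Polynomial.le_natDegree_of_mem_supp j hj
    have h3 : (Polynomial.X * u).natDegree ≤ 1 + u.natDegree :=
      Polynomial.natDegree_mul_le.trans (by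
        have := Polynomial.natDegree_X_le (R := MvPolynomial ℕ K)
        omega)
    omega
  have h2 : u.support ⊆ Finset.range (u.natDegree + 1) := Polynomial.supp_subset_range_natDegree_succ
  rw [pairV_eq_sum al _ _ _ h1, pairV_eq_sum al _ _ _ h2, Finset.sum_range_succ']
  rw [Polynomial.coeff_X_mul_zero, pair_zero_left, add_zero]
  refine Finset.sum_congr rfl fun j _ => ?_
  rw [Polynomial.coeff_X_mul, Polynomial.coeff_X_mul]

private theorem pairV_monomial_right (u : Polynomial (MvPolynomial ℕ K)) (k : ℕ)
    (g : MvPolynomial ℕ K) : pairV al u (Polynomial.monomial k g) = pair al (u.coeff k) g := by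
  rw [pairV_comm, pairV_eq_sum al _ u {k} (Polynomial.support_monomial_subset k g),
    Finset.sum_singleton, Polynomial.coeff_monomial, if_pos rfl, pair_comm]

private theorem Lam_coeff (j k : ℕ) (f : MvPolynomial ℕ K) :
    (Lam al b (Polynomial.monomial j f)).coeff k =
      (if j ≤ k then (DD al f).coeff (k - j) else 0) +
        (if k < j then X (j - 1 - k) * f else 0) +
        (if j = k then C (b * (j : K)) * f else 0) := by
  rw [Lam_monomial, Polynomial.coeff_add, Polynomial.coeff_add, Polynomial.coeff_X_pow_mul',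
    Polynomial.coeff_monomial, Polynomial.finsetSum_coeff]
  congr 2
  simp only [Polynomial.coeff_monomial]
  split_ifs with h
  · rw [Finset.sum_eq_single (j - 1 - k)]
    · rw [if_pos (by omega)]
    · intro i hi hik
      rw [Finset.mem_range] at hi
      rw [if_neg (by omega)]
    · intro h2
      rw [Finset.mem_range] at h2
      omega
  · refine Finset.sum_eq_zero fun i hi => ?_
    rw [Finset.mem_range] at hi
    rw [if_neg (by omega)]

private theorem pair_Lam_monomial (j k : ℕ) (hjk : j < k) (f g : MvPolynomial ℕ K) :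
    pair al ((Lam al b (Polynomial.monomial j f)).coeff k) g =
      pair al f ((Lam al b (Polynomial.monomial k g)).coeff j) := by
  rw [Lam_coeff, Lam_coeff, if_pos hjk.le, if_neg (by omega), if_neg (by omega),
    if_neg (by omega), if_pos hjk, if_neg (by omega), add_zero, add_zero, add_zero, zero_add]
  obtain ⟨i, hi⟩ : ∃ i, k - j = i + 1 := ⟨k - j - 1, by omega⟩
  have h2 : k - 1 - j = i := by omega
  rw [hi, h2, DD_coeff_succ, pair_comm, ← pair_X_mul, pair_comm]

theorem pairV_Lam (u v : Polynomial (MvPolynomial ℕ K)) :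
    pairV al (Lam al b u) v = pairV al u (Lam al b v) := by
  induction u using Polynomial.induction_on' with
  | add p q hp hq => rw [map_add, pairV_add_left, hp, hq, pairV_add_left]
  | monomial j f =>
    induction v using Polynomial.induction_on' with
    | add p q hp hq =>
      rw [pairV_comm, pairV_add_left, pairV_comm al p, pairV_comm al q, hp, hq, map_add,
        pairV_comm al (Polynomial.monomial j f) (Lam al b p + Lam al b q), pairV_add_left,
        pairV_comm al (Lam al b p), pairV_comm al (Lam al b q)]
    | monomial k g =>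
      rw [pairV_monomial_right, pairV_comm al (Polynomial.monomial j f), pairV_monomial_right]
      rcases lt_trichotomy j k with h | h | h
      · rw [pair_Lam_monomial al b j k h f g, pair_comm]
      · subst h
        rw [Lam_coeff, Lam_coeff, if_pos le_rfl, if_neg (lt_irrefl _), if_pos rfl, if_pos le_rfl,
          if_neg (lt_irrefl _), if_pos rfl, Nat.sub_self, DD_coeff_zero, DD_coeff_zero, add_zero,
          zero_add, zero_add, pair_C_mul_left, pair_C_mul_left, pair_comm]
      · rw [pair_comm, ← pair_Lam_monomial al b k j h g f]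

/-- positivity-type property: `⟨u,u⟩ = 0` forces `u = 0` -/
theorem pairV_self_eq_zero (han : Aniso al) (u : Polynomial (MvPolynomial ℕ K))
    (h : pairV al u u = 0) : u = 0 := by
  rw [pairV_eq_sum al u u (Finset.range (u.natDegree + 1))
    Polynomial.supp_subset_range_natDegree_succ] at h
  have h1 := han (u.natDegree + 1) (fun j => u.coeff j) h
  refine Polynomial.ext fun j => ?_
  by_cases hj : j < u.natDegree + 1
  · rw [h1 j hj, Polynomial.coeff_zero]
  · rw [Polynomial.coeff_eq_zero_of_natDegree_lt (by omega), Polynomial.coeff_zero]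

/-- `Mom_l` is self-adjoint:
`⟨Mom_l f, g⟩ = pairV (Λ^l (C f)) (C g) = pairV (C f) (Λ^l (C g)) = ⟨f, Mom_l g⟩` -/
theorem pair_Mom (l : ℕ) (f g : MvPolynomial ℕ K) :
    pair al (Mom al b l f) g = pair al f (Mom al b l g) := by
  have h1 : ∀ h : MvPolynomial ℕ K, Mom al b l h =
      (((Lam al b) ^ l) (Polynomial.C h)).coeff 0 := by
    intro h
    simp [Mom, Cl]
  have h2 : ∀ (k : ℕ) (u v : Polynomial (MvPolynomial ℕ K)),
      pairV al (((Lam al b) ^ k) u) v = pairV al u (((Lam al b) ^ k) v) := by
    intro k
    induction k with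
    | zero => intro u v; simp
    | succ k ih =>
      intro u v
      rw [pow_succ', Module.End.mul_apply, pairV_Lam, ih, ← Module.End.mul_apply, ← pow_succ,
        pow_succ']
  rw [h1, h1, pair_comm, ← pairV_C, pairV_comm, h2, pairV_C]

end H25BC
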