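import Pool.Agent.H25.BC.A1

/-!
# Module A3: the commutator `[D, p_{m+1}]`

`Mom_2 f = Θ (DD f)`, `Mom_3 f = Θ (Λ (DD f))` (because `coeff 0 (Λ v) = Θ v`, `Λ (C f) = DD f`).
`DD (X m * f) = X m • DD f + al (m+1) w^{m+1} f`, `Θ (C (X m) * v) = X m * Θ v`, so
`Mom_2 (X m * f) = X m * Mom_2 f + al (m+1) X m * f`. With `Lam_Xm_mul`
`Λ (DD (X m f)) = C (X m) Λ (DD f) + al (m+1) w^{m+1} DD f + al (m+1) Λ (w^{m+1} f)` and by
`Lam_monomial`, `Θ (Λ (w^{m+1} f)) = Θ (w^{m+1} DD f) + ∑_{i<m} X_{m-1-i} X_i f + b (m+1) X_m f`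
(the term `i = m` of the sum is `w^0 X_m f`, killed by `Θ`). Hence
`Mom_3 (X m f) = X m Mom_3 f + al (m+1) (2 Θ (w^{m+1} DD f) + ∑_{i<m} X_i X_{m-1-i} f + b (m+1) X_m f)`
and `D = (Mom_3 - b Mom_2)/(2 al)`.
-/

open MvPolynomial

namespace H25BC

variable {K : Type*} [Field K] (al b : K)

private theorem Mom_succ (l : ℕ) (f : MvPolynomial ℕ K) :
    Mom al b (l + 1) f = Theta K (((Lam al b) ^ l) (Polynomial.C f)) := by
  rw [← coeff0_Lam al b, ← Module.End.mul_apply, ← pow_succ']
  rfl

theorem Mom_two (f : MvPolynomial ℕ K) : Mom al b 2 f = Theta K (DD al f) := by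
  rw [Mom_succ, pow_one, Lam_C]

theorem Mom_three (f : MvPolynomial ℕ K) : Mom al b 3 f = Theta K (Lam al b (DD al f)) := by
  rw [Mom_succ, pow_two, Module.End.mul_apply, Lam_C]

theorem Theta_C_mul (h : MvPolynomial ℕ K) (v : Polynomial (MvPolynomial ℕ K)) :
    Theta K (Polynomial.C h * v) = h * Theta K v := by
  induction v using Polynomial.induction_on' with
  | add p q hp hq => rw [mul_add, map_add, map_add, hp, hq, mul_add]
  | monomial j f =>
    rw [Polynomial.C_mul_monomial]
    rcases j with _ | j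
    · rw [Theta_monomial_zero, Theta_monomial_zero, mul_zero]
    · rw [Theta_monomial_succ, Theta_monomial_succ]
      ring

private theorem smul_eq (c : K) (v : Polynomial (MvPolynomial ℕ K)) :
    c • v = Polynomial.C (C c) * v := by
  ext1 j
  rw [Polynomial.coeff_smul, Polynomial.coeff_C_mul, MvPolynomial.smul_eq_C_mul]

private theorem DD_X_mul (m : ℕ) (f : MvPolynomial ℕ K) :
    DD al (X m * f) = Polynomial.C (X m) * DD al f +
      Polynomial.monomial (m + 1) (C (al * ((m : K) + 1)) * f) := by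
  have h := Lam_Xm_mul al (0 : K) m (Polynomial.C f)
  rw [← Polynomial.C_mul, Lam_C, Lam_C] at h
  rw [h, mul_comm (Polynomial.X ^ (m + 1)) (Polynomial.C f), ← mul_assoc, ← Polynomial.C_mul,
    Polynomial.C_mul_X_pow_eq_monomial]

private theorem Mom_two_X_mul (m : ℕ) (f : MvPolynomial ℕ K) :
    Theta K (DD al (X m * f)) = X m * Theta K (DD al f) + C (al * ((m : K) + 1)) * (X m * f) := by
  rw [DD_X_mul, map_add, Theta_C_mul, Theta_monomial_succ]
  ring

private theorem Mom_three_X_mul (m : ℕ) (f : MvPolynomial ℕ K) :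
    Theta K (Lam al b (DD al (X m * f))) = X m * Theta K (Lam al b (DD al f)) + 
      C (al * ((m : K) + 1)) * (2 * Theta K (Polynomial.X ^ (m + 1) * DD al f)
        + (∑ i ∈ Finset.range m, (X i : MvPolynomial ℕ K) * X (m - 1 - i)) * f
        + C (b * ((m : K) + 1)) * (X m * f)) := by
  rw [DD_X_mul, map_add, map_add, Lam_Xm_mul, map_add, Theta_C_mul, Theta_C_mul, Lam_monomial,
    Finset.sum_range_succ, map_add, map_add, map_add, Theta_monomial_succ, map_sum,
    show m + 1 - 1 - m = 0 by omega, Theta_monomial_zero, add_zero]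
  have h1 : ∀ i ∈ Finset.range m, Theta K (Polynomial.monomial (m + 1 - 1 - i)
      (X i * (C (al * ((m : K) + 1)) * f))) =
      C (al * ((m : K) + 1)) * (((X i : MvPolynomial ℕ K) * X (m - 1 - i)) * f) := by
    intro i hi
    rw [Finset.mem_range] at hi
    rw [show m + 1 - 1 - i = (m - 1 - i) + 1 by omega, Theta_monomial_succ]
    ring
  rw [Finset.sum_congr rfl h1, ← Finset.mul_sum, ← Finset.sum_mul]
  have h2 : DD al (C (al * ((m : K) + 1)) * f) = Polynomial.C (C (al * ((m : K) + 1))) * DD al f := by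
    rw [← MvPolynomial.smul_eq_C_mul, Derivation.map_smul, smul_eq]
  rw [h2]
  have h3 : Polynomial.X ^ (m + 1) * (Polynomial.C (C (al * ((m : K) + 1))) * DD al f) = 
     Polynomial.C (C (al * ((m : K) + 1))) * (Polynomial.X ^ (m + 1) * DD al f) := by ring
  rw [h3, Theta_C_mul]
  push_cast
  ring

private theorem E_leibniz (f g : MvPolynomial ℕ K) :
    Theta K (DD al (f * g)) = f * Theta K (DD al g) + g * Theta K (DD al f) := by
  rw [Derivation.leibniz, map_add, Polynomial.smul_eq_C_mul, Polynomial.smul_eq_C_mul,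
    Theta_C_mul, Theta_C_mul]

private theorem E_single (i k : ℕ) (a : K) :
    Theta K (DD al (monomial (Finsupp.single i k) a)) =
      C (al * (((i + 1) * k : ℕ) : K)) * monomial (Finsupp.single i k) a := by
  induction k with
  | zero =>
    rw [Finsupp.single_zero, ← C_apply, ← MvPolynomial.algebraMap_eq, Derivation.map_algebraMap]
    simp
  | succ k ih =>
    have h : (monomial (Finsupp.single i (k + 1)) a : MvPolynomial ℕ K) =
        X i * monomial (Finsupp.single i k) a := by
      rw [X, monomial_mul, one_mul, ← Finsupp.single_add, add_comm 1 k]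
    rw [h, Mom_two_X_mul, ih]
    push_cast
    simp only [map_mul, map_add, map_one, mul_add, add_mul]
    ring

private theorem E_monomial (s : ℕ →₀ ℕ) (a : K) :
    Theta K (DD al (monomial s a)) = C (al * (wt s : K)) * monomial s a := by
  induction s using Finsupp.induction_linear generalizing a with
  | zero =>
    rw [← C_apply, ← MvPolynomial.algebraMap_eq, Derivation.map_algebraMap]
    simp [wt]
  | add s t hs ht =>
    have h : (monomial (s + t) a : MvPolynomial ℕ K) = monomial s a * monomial t 1 := by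
      rw [monomial_mul, mul_one]
    have h1 : wt (s + t) = wt s + wt t :=
      Finsupp.sum_add_index' (by simp) (by intro a b c; ring)
    rw [h, E_leibniz, hs, ht, h1]
    push_cast
    simp only [map_mul, map_add, mul_add]
    ring
  | single i k =>
    rw [E_single]
    have h1 : wt (Finsupp.single i k) = (i + 1) * k := Finsupp.sum_single_index (by simp)
    rw [h1]

/-- on `IsHom n` the operator `Mom_2 = ∑ p_i a_i` is `al * n` -/
theorem Mom_two_hom (n : ℕ) (f : MvPolynomial ℕ K) (hf : IsHom n f) :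
    Mom al b 2 f = C (al * (n : K)) * f := by
  rw [Mom_two]
  conv_lhs => rw [f.as_sum]
  conv_rhs => rw [f.as_sum]
  rw [map_sum, map_sum, Finset.mul_sum]
  refine Finset.sum_congr rfl fun m hm => ?_
  rw [E_monomial, hf m (mem_support_iff.mp hm)]

theorem Dop_X_mul (hal : al ≠ 0) (h2 : (2 : K) ≠ 0) (m : ℕ) (f : MvPolynomial ℕ K) :
    Dop al b (X m * f) = X m * Dop al b f +
      C (((m : K) + 1) / 2) *
        (2 * Theta K (Polynomial.X ^ (m + 1) * DD al f)
          + (∑ i ∈ Finset.range m, (X i : MvPolynomial ℕ K) * X (m - 1 - i)) * f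
          + C (b * (m : K)) * X m * f) := by
  rw [Dop, LinearMap.smul_apply, LinearMap.smul_apply, LinearMap.sub_apply, LinearMap.sub_apply,
    LinearMap.smul_apply, LinearMap.smul_apply, Mom_three, Mom_three, Mom_two, Mom_two,
    Mom_two_X_mul, Mom_three_X_mul]
  simp only [MvPolynomial.smul_eq_C_mul]
  set A := Theta K (Lam al b (DD al f))
  set B := Theta K (DD al f)
  set T := Theta K (Polynomial.X ^ (m + 1) * DD al f)
  set Q := ∑ i ∈ Finset.range m, (X i : MvPolynomial ℕ K) * X (m - 1 - i)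
  have e1 : (C ((2 * al)⁻¹) * C (al * ((m : K) + 1)) : MvPolynomial ℕ K) = C (((m : K) + 1) / 2) := by
    rw [← C_mul]
    congr 1
    field_simp
  have e2 : (C (b * ((m : K) + 1)) : MvPolynomial ℕ K) = C (b * (m : K)) + C b := by
    rw [← C_add]
    congr 1
    ring
  have e3 : C ((2 * al)⁻¹) * (X m * A + C (al * ((m : K) + 1)) * (2 * T + Q * f +
        C (b * ((m : K) + 1)) * (X m * f)) -
        C b * (X m * B + C (al * ((m : K) + 1)) * (X m * f))) =
      X m * (C ((2 * al)⁻¹) * (A - C b * B)) +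
        (C ((2 * al)⁻¹) * C (al * ((m : K) + 1))) * (2 * T + Q * f + C (b * (m : K)) * X m * f) := by
    rw [e2]
    ring
  rw [e3, e1]

end H25BC
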