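import Pool.Agent.H25.BC.A1
import Pool.Agent.H25.BC.A3

/-!
# Module A4: first properties of `Dext`

`Dext (w^j f) = w^j D f + ∑_{i<j} w^{j-i} Λ (w^i f)`.
* `Dext_X_mul`: compare the formulas for `w^{j+1} f` and `w^j f`.
* `Dext_coeff0`: `w^{j-i}` with `i < j` kills the constant term.
* `Theta_Dext`: for `v = C f` both sides vanish. For `v = w^{m+1} f`: by `Lam_monomial`
  `Θ (w^{m+1-i} Λ(w^i f)) = Θ(w^{m+1} DD f) + ∑_{a<i} X_{m-1-a} X_a f + b i X_m f` for `i ≤ m`; sum
  over `i = 0..m`: `(m+1) Θ(w^{m+1} DD f) + ∑_{a<m} (m-a) X_a X_{m-1-a} f + b m(m+1)/2 X_m f`, and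
  `∑_{a<m} (m-a) X_a X_{m-1-a} = (m+1)/2 ∑_{a<m} X_a X_{m-1-a}` by the reflection `a ↦ m-1-a`.
  This is `D (X m f)` by `Dop_X_mul`.
-/

open MvPolynomial

namespace H25BC

variable {K : Type*} [Field K] (al b : K)

private theorem A4_Xl_pow (j : ℕ) (v : Polynomial (MvPolynomial ℕ K)) :
    ((Xl K) ^ j) v = Polynomial.X ^ j * v := by
  induction j with
  | zero => rw [pow_zero, pow_zero, one_mul]; rfl
  | succ j ih =>
    rw [pow_succ', Module.End.mul_apply, ih, pow_succ', mul_assoc]
    rfl

private theorem A4_X_monomial (i j : ℕ) (f : MvPolynomial ℕ K) :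
    Polynomial.X ^ i * Polynomial.monomial j f = Polynomial.monomial (i + j) f := by
  rw [Polynomial.X_pow_eq_monomial, Polynomial.monomial_mul_monomial, one_mul]

private theorem A4_half {R : Type*} [CommRing R] (m : ℕ) (G : ℕ → R)
    (hG : ∀ a < m, G (m - 1 - a) = G a) :
    2 * ∑ i ∈ Finset.range (m + 1), ∑ a ∈ Finset.range i, G a =
      ((m : R) + 1) * ∑ a ∈ Finset.range m, G a := by
  have h1 : ∀ i, i ≤ m → ∑ a ∈ Finset.range i, G a + ∑ a ∈ Finset.range (m - i), G a =
      ∑ a ∈ Finset.range m, G a := by
    intro i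
    induction i with
    | zero => intro _; rw [Finset.sum_range_zero, zero_add, Nat.sub_zero]
    | succ i ih =>
      intro hi
      rw [← ih (by omega), Finset.sum_range_succ, show m - i = m - (i + 1) + 1 by omega,
        Finset.sum_range_succ (fun a => G a) (m - (i + 1)),
        show m - (i + 1) = m - 1 - i by omega, hG i (by omega)]
      ring
  have h2 : ∑ i ∈ Finset.range (m + 1), ∑ a ∈ Finset.range i, G a =
      ∑ i ∈ Finset.range (m + 1), ∑ a ∈ Finset.range (m - i), G a :=
    (Finset.sum_range_reflect (fun i => ∑ a ∈ Finset.range i, G a) (m + 1)).symm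
  calc 2 * ∑ i ∈ Finset.range (m + 1), ∑ a ∈ Finset.range i, G a
      = ∑ i ∈ Finset.range (m + 1), ∑ a ∈ Finset.range i, G a +
        ∑ i ∈ Finset.range (m + 1), ∑ a ∈ Finset.range i, G a := two_mul _
    _ = ∑ i ∈ Finset.range (m + 1), ∑ a ∈ Finset.range i, G a +
        ∑ i ∈ Finset.range (m + 1), ∑ a ∈ Finset.range (m - i), G a := by rw [← h2]
    _ = ∑ i ∈ Finset.range (m + 1), ∑ a ∈ Finset.range m, G a := by
        rw [← Finset.sum_add_distrib]
        exact Finset.sum_congr rfl fun i hi => h1 i (by rw [Finset.mem_range] at hi; omega)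
    _ = ((m : R) + 1) * ∑ a ∈ Finset.range m, G a := by
        rw [Finset.sum_const, Finset.card_range, nsmul_eq_mul, Nat.cast_add, Nat.cast_one]

theorem Dext_monomial (j : ℕ) (f : MvPolynomial ℕ K) :
    Dext al b (Polynomial.monomial j f) = Polynomial.monomial j (Dop al b f)
      + ∑ i ∈ Finset.range j, Polynomial.X ^ (j - i) * Lam al b (Polynomial.monomial i f) := by
  have h0 : ∀ g : MvPolynomial ℕ K, Cl K g = Polynomial.monomial 0 g := fun g => rfl
  rw [Dext, Polynomial.lsum_apply, Polynomial.sum_monomial_index]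
  swap
  · exact LinearMap.map_zero _
  rw [LinearMap.add_apply, LinearMap.sum_apply]
  refine congrArg₂ (· + ·) ?_ (Finset.sum_congr rfl fun i _ => ?_)
  · rw [LinearMap.comp_apply, LinearMap.comp_apply, A4_Xl_pow, h0, A4_X_monomial, add_zero]
  · rw [LinearMap.comp_apply, LinearMap.comp_apply, LinearMap.comp_apply, A4_Xl_pow, A4_Xl_pow, h0,
      A4_X_monomial, add_zero]

theorem Dext_C (f : MvPolynomial ℕ K) :
    Dext al b (Polynomial.C f) = Polynomial.C (Dop al b f) := by
  rw [← Polynomial.monomial_zero_left, Dext_monomial, Finset.sum_range_zero, add_zero,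
    Polynomial.monomial_zero_left]

theorem Dext_X_mul (v : Polynomial (MvPolynomial ℕ K)) :
    Dext al b (Polynomial.X * v) = Polynomial.X * Dext al b v + Polynomial.X * Lam al b v := by
  induction v using Polynomial.induction_on' with
  | add p q hp hq =>
    rw [mul_add, map_add, map_add, map_add, hp, hq]
    ring
  | monomial j f =>
    have h1 : (Polynomial.X : Polynomial (MvPolynomial ℕ K)) * Polynomial.monomial j f =
        Polynomial.monomial (j + 1) f := by
      have h2 := A4_X_monomial 1 j f
      rw [pow_one, add_comm] at h2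
      exact h2
    have h3 : (Polynomial.X : Polynomial (MvPolynomial ℕ K)) *
        Polynomial.monomial j (Dop al b f) = Polynomial.monomial (j + 1) (Dop al b f) := by
      have h2 := A4_X_monomial 1 j (Dop al b f)
      rw [pow_one, add_comm] at h2
      exact h2
    have h4 : ∑ i ∈ Finset.range j, Polynomial.X ^ (j + 1 - i) *
        Lam al b (Polynomial.monomial i f) = Polynomial.X * ∑ i ∈ Finset.range j,
        Polynomial.X ^ (j - i) * Lam al b (Polynomial.monomial i f) := by
      rw [Finset.mul_sum]
      refine Finset.sum_congr rfl fun i hi => ?_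
      rw [Finset.mem_range] at hi
      rw [show j + 1 - i = (j - i) + 1 by omega, pow_succ', mul_assoc]
    rw [h1, Dext_monomial, Dext_monomial, Finset.sum_range_succ, mul_add, h3, h4,
      Nat.add_sub_cancel_left, pow_one, add_assoc]

theorem Dext_coeff0 (v : Polynomial (MvPolynomial ℕ K)) :
    (Dext al b v).coeff 0 = Dop al b (v.coeff 0) := by
  induction v using Polynomial.induction_on' with
  | add p q hp hq => rw [map_add, Polynomial.coeff_add, Polynomial.coeff_add, map_add, hp, hq]
  | monomial j f =>
    rw [Dext_monomial, Polynomial.coeff_add, Polynomial.finsetSum_coeff]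
    have h1 : ∑ i ∈ Finset.range j, (Polynomial.X ^ (j - i) *
        Lam al b (Polynomial.monomial i f)).coeff 0 = 0 := by
      refine Finset.sum_eq_zero fun i hi => ?_
      rw [Finset.mem_range] at hi
      rw [Polynomial.mul_coeff_zero, Polynomial.coeff_X_pow, if_neg (by omega), zero_mul]
    rw [h1, add_zero, Polynomial.coeff_monomial, Polynomial.coeff_monomial]
    split_ifs
    · rfl
    · rw [map_zero]

theorem Theta_Dext (hal : al ≠ 0) (h2 : (2 : K) ≠ 0) (v : Polynomial (MvPolynomial ℕ K)) :
    Theta K (Dext al b v) = Dop al b (Theta K v) := by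
  induction v using Polynomial.induction_on' with
  | add p q hp hq => rw [map_add, map_add, map_add, map_add, hp, hq]
  | monomial j f =>
    rcases j with _ | m
    · rw [Dext_monomial, Finset.sum_range_zero, add_zero, Theta_monomial_zero,
        Theta_monomial_zero, map_zero]
    · have h2' : (2 : MvPolynomial ℕ K) ≠ 0 := by
        intro h
        apply h2
        have h3 : (C (2 : K) : MvPolynomial ℕ K) = C 0 := by
          rw [map_zero, ← h, map_ofNat]
        exact C_injective _ _ h3
      have hterm : ∀ i ∈ Finset.range (m + 1), Theta K (Polynomial.X ^ (m + 1 - i) *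
          Lam al b (Polynomial.monomial i f)) = Theta K (Polynomial.X ^ (m + 1) * DD al f) +
          ∑ a ∈ Finset.range i, X (m - 1 - a) * (X a * f) + X m * (C (b * (i : K)) * f) := by
        intro i hi
        rw [Finset.mem_range] at hi
        rw [Lam_monomial, mul_add, mul_add, ← mul_assoc, ← pow_add,
          show m + 1 - i + i = m + 1 by omega, Finset.mul_sum, map_add, map_add, map_sum,
          A4_X_monomial, show m + 1 - i + i = m + 1 by omega, Theta_monomial_succ]
        congr 2
        refine Finset.sum_congr rfl fun a ha => ?_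
        rw [Finset.mem_range] at ha
        rw [A4_X_monomial, show m + 1 - i + (i - 1 - a) = (m - 1 - a) + 1 by omega,
          Theta_monomial_succ]
      have hG := A4_half m (fun a => (X (m - 1 - a) * (X a * f) : MvPolynomial ℕ K))
        (fun a ha => by
          rw [show m - 1 - (m - 1 - a) = a by omega]
          ring)
      have hb : (2 : MvPolynomial ℕ K) * ∑ i ∈ Finset.range (m + 1),
          (X m * (C (b * (i : K)) * f) : MvPolynomial ℕ K) =
          ((m : MvPolynomial ℕ K) + 1) * (C (b * (m : K)) * X m * f) := by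
        have h4 : (∑ i ∈ Finset.range (m + 1), (i : MvPolynomial ℕ K)) * 2 =
            ((m : MvPolynomial ℕ K) + 1) * m := by
          have h5 := Finset.sum_range_id_mul_two (m + 1)
          rw [Nat.add_sub_cancel] at h5
          have h9 := congrArg (Nat.cast : ℕ → MvPolynomial ℕ K) h5
          rw [Nat.cast_mul, Nat.cast_sum, Nat.cast_mul, Nat.cast_add, Nat.cast_one,
            Nat.cast_ofNat] at h9
          exact h9
        have h6 : ∑ i ∈ Finset.range (m + 1), (X m * (C (b * (i : K)) * f) : MvPolynomial ℕ K) =
            (∑ i ∈ Finset.range (m + 1), (i : MvPolynomial ℕ K)) * (X m * C b * f) := by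
          rw [Finset.sum_mul]
          refine Finset.sum_congr rfl fun i _ => ?_
          rw [map_mul, map_natCast]
          ring
        rw [h6, map_mul, map_natCast]
        linear_combination (X m * C b * f : MvPolynomial ℕ K) * h4
      have hc : (2 : MvPolynomial ℕ K) * C (((m : K) + 1) / 2) = (m : MvPolynomial ℕ K) + 1 := by
        have h7 : (2 : MvPolynomial ℕ K) = C (2 : K) := (map_ofNat C 2).symm
        rw [h7, ← map_mul, mul_div_cancel₀ _ h2, map_add, map_natCast, map_one]
      rw [Dext_monomial, map_add, map_sum, Finset.sum_congr rfl hterm, Theta_monomial_succ,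
        Theta_monomial_succ, Dop_X_mul al b hal h2, Finset.sum_add_distrib,
        Finset.sum_add_distrib, Finset.sum_const, Finset.card_range, nsmul_eq_mul, Nat.cast_add,
        Nat.cast_one]
      congr 1
      apply mul_left_cancel₀ h2'
      have h8 : ∑ a ∈ Finset.range m, (X (m - 1 - a) * (X a * f) : MvPolynomial ℕ K) =
          (∑ i ∈ Finset.range m, (X i : MvPolynomial ℕ K) * X (m - 1 - i)) * f := by
        rw [Finset.sum_mul]
        refine Finset.sum_congr rfl fun i _ => ?_
        ring
      rw [← mul_assoc 2 (C _), hc, mul_add 2, mul_add 2, hG, hb, h8]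
      ring

end H25BC
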