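import Pool.Agent.H25.BC.A1
import Pool.Agent.H25.BC.A3

/-!
# Module A5a: the commutator `[a_m, D]`

Let `A_m v` be `a_m = aop al m` applied to all coefficients of `v` (a `K`-linear map of
`K[p][w]`; define it locally, e.g. `Polynomial.lsum fun j => monomial j ∘ aop al m`). The `a`'s
commute (`pderiv`'s commute), hence `A_m (DD f) = DD (a_m f)` (compare the coefficients with
`DD_coeff_succ`), `a_m (Θ v) = Θ (A_m v) + al (m+1) (v.coeff (m+1))` (check `v = w^j f`), and
`A_m (Λ v) = Λ (A_m v) + al (m+1) low v`, `low (w^j f) = w^{j-1-m} f` if `m < j`, else `0`.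
So for `E f = Θ (Λ (DD f)) = Mom_3 f`:
`a_m (E f) = E (a_m f) + al (m+1) (Θ (low (DD f)) + (Λ (DD f)).coeff (m+1))`. Here
`Θ (low (DD f)) = ∑_{j>m} X_{j-m-1} a_j f` (`DD f = ∑_j w^{j+1} a_j f`; `low` gives `w^{j-m}`), and
`(Λ (DD f)).coeff (m+1) = ∑_{i+j=m-1} a_i a_j f + ∑_{j>m} X_{j-m-1} a_j f + b (m+1) a_m f`
(by `Lam_monomial`). Also `a_m Mom_2 f = Mom_2 a_m f + al (m+1) a_m f`. All infinite sums are
finite: take `j < M` where `a_j f = 0` for `j ≥ M` (hypothesis `hM`).
-/

open MvPolynomial

namespace H25BC

variable {K : Type*} [Field K] (al b : K)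

private theorem A5a_apply (i : ℕ) (f : MvPolynomial ℕ K) :
    aop al i f = C (al * ((i : K) + 1)) * pderiv i f := by
  rw [aop, Derivation.smul_apply, MvPolynomial.smul_eq_C_mul]

private theorem A5a_X (m k : ℕ) (g : MvPolynomial ℕ K) :
    aop al m (X k * g) = X k * aop al m g +
      (if k = m then C (al * ((m : K) + 1)) * g else 0) := by
  rw [A5a_apply, A5a_apply, pderiv_mul, pderiv_X]
  by_cases h : k = m
  · subst h
    rw [if_pos rfl, Pi.single_eq_same]
    ring
  · rw [if_neg h, Pi.single_eq_of_ne h]
    ring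

private theorem A5a_C (m : ℕ) (c : K) (g : MvPolynomial ℕ K) :
    aop al m (C c * g) = C c * aop al m g := by
  rw [← MvPolynomial.smul_eq_C_mul, ← MvPolynomial.smul_eq_C_mul, Derivation.map_smul]

theorem aop_comm (i j : ℕ) (f : MvPolynomial ℕ K) :
    aop al i (aop al j f) = aop al j (aop al i f) := by
  induction f using MvPolynomial.induction_on with
  | C a =>
    rw [A5a_apply al j (C a), A5a_apply al i (C a), pderiv_C, pderiv_C, mul_zero, mul_zero,
      map_zero, map_zero]
  | add p q hp hq => rw [map_add, map_add, map_add, map_add, hp, hq]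
  | mul_X p k hp =>
    have h0 : ∀ (c : K), aop al i (C c : MvPolynomial ℕ K) = 0 := fun c => by
      rw [A5a_apply, pderiv_C, mul_zero]
    have h1 : ∀ (c : K), aop al j (C c : MvPolynomial ℕ K) = 0 := fun c => by
      rw [A5a_apply, pderiv_C, mul_zero]
    rw [mul_comm, A5a_X, A5a_X, map_add, map_add, A5a_X, A5a_X, hp]
    by_cases hi : k = i
    · by_cases hj : k = j
      · rw [if_pos hi, if_pos hj, if_pos hi, if_pos hj, A5a_C, A5a_C]
        subst hi
        subst hj
        ring
      · rw [if_pos hi, if_neg hj, if_pos hi, if_neg hj, A5a_C, map_zero]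
        ring
    · by_cases hj : k = j
      · rw [if_neg hi, if_pos hj, if_neg hi, if_pos hj, A5a_C, map_zero]
        ring
      · rw [if_neg hi, if_neg hj, if_neg hi, if_neg hj, map_zero, map_zero]

/-- only finitely many `a_j f` are non-zero -/
theorem exists_aop_eq_zero (f : MvPolynomial ℕ K) : ∃ M, ∀ j, M ≤ j → aop al j f = 0 := by
  refine ⟨f.vars.sup id + 1, fun j hj => ?_⟩
  have h1 : j ∉ f.vars := by
    intro h
    have h2 : j ≤ f.vars.sup id := Finset.le_sup (f := id) h
    omega
  rw [A5a_apply, pderiv_eq_zero_of_notMem_vars h1, mul_zero]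

theorem DD_eq_sum (f : MvPolynomial ℕ K) (M : ℕ) (hM : ∀ j, M ≤ j → aop al j f = 0) :
    DD al f = ∑ j ∈ Finset.range M, Polynomial.monomial (j + 1) (aop al j f) := by
  ext1 k
  rw [Polynomial.finsetSum_coeff]
  rcases k with _ | i
  · rw [DD_coeff_zero]
    symm
    refine Finset.sum_eq_zero fun j _ => ?_
    rw [Polynomial.coeff_monomial, if_neg (by omega)]
  · rw [DD_coeff_succ]
    by_cases hi : i < M
    · rw [Finset.sum_eq_single i]
      · rw [Polynomial.coeff_monomial, if_pos rfl]
      · intro j _ hji
        rw [Polynomial.coeff_monomial, if_neg (by omega)]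
      · intro h
        exact absurd (Finset.mem_range.2 hi) h
    · rw [hM i (by omega)]
      symm
      refine Finset.sum_eq_zero fun j hj => ?_
      rw [Finset.mem_range] at hj
      rw [Polynomial.coeff_monomial, if_neg (by omega)]

private theorem A5a_mom2 (f : MvPolynomial ℕ K) (M : ℕ) (hM : ∀ j, M ≤ j → aop al j f = 0) :
    Mom al b 2 f = ∑ j ∈ Finset.range M, X j * aop al j f := by
  rw [Mom_two, DD_eq_sum al f M hM, map_sum]
  exact Finset.sum_congr rfl fun j _ => Theta_monomial_succ j _

private theorem A5a_mom3 (f : MvPolynomial ℕ K) (M : ℕ) (hM : ∀ j, M ≤ j → aop al j f = 0) :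
    Mom al b 3 f = ∑ j ∈ Finset.range M,
      (∑ k ∈ Finset.range M, X (j + 1 + k) * aop al k (aop al j f) +
        ∑ i ∈ Finset.range j, X (j - 1 - i) * (X i * aop al j f) +
        X j * (C (b * ((j : K) + 1)) * aop al j f)) := by
  rw [Mom_three, DD_eq_sum al f M hM, map_sum, map_sum]
  refine Finset.sum_congr rfl fun j hj => ?_
  have h0 : ∀ k, M ≤ k → aop al k (aop al j f) = 0 := fun k hk => by
    rw [aop_comm, hM k hk, map_zero]
  rw [Lam_monomial, DD_eq_sum al _ M h0, Finset.mul_sum, map_add, map_add, map_sum, map_sum,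
    Theta_monomial_succ, Nat.add_sub_cancel, Finset.sum_range_succ, Nat.sub_self,
    Theta_monomial_zero, add_zero, Nat.cast_add, Nat.cast_one]
  refine congrArg₂ (· + ·) (congrArg₂ (· + ·) (Finset.sum_congr rfl fun k _ => ?_)
    (Finset.sum_congr rfl fun i hi => ?_)) rfl
  · rw [Polynomial.X_pow_eq_monomial, Polynomial.monomial_mul_monomial, one_mul, ← add_assoc,
      Theta_monomial_succ]
  · rw [Finset.mem_range] at hi
    rw [show j - i = (j - 1 - i) + 1 by omega, Theta_monomial_succ]

private theorem A5a_key (m : ℕ) (f : MvPolynomial ℕ K) (M : ℕ) (hmM : m ≤ M)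
    (hM : ∀ j, M ≤ j → aop al j f = 0) :
    aop al m (Mom al b 3 f) = Mom al b 3 (aop al m f) + C (al * ((m : K) + 1)) *
      ((∑ i ∈ Finset.range m, aop al i (aop al (m - 1 - i) f))
        + 2 * (∑ j ∈ Finset.Ico (m + 1) M, X (j - m - 1) * aop al j f)
        + C (b * ((m : K) + 1)) * aop al m f) := by
  have hM' : ∀ j, M ≤ j → aop al j (aop al m f) = 0 := fun j hj => by
    rw [aop_comm, hM j hj, map_zero]
  rw [A5a_mom3 al b f M hM, A5a_mom3 al b _ M hM', map_sum]
  have h1 : ∀ j ∈ Finset.range M, aop al m
      (∑ k ∈ Finset.range M, X (j + 1 + k) * aop al k (aop al j f) +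
        ∑ i ∈ Finset.range j, X (j - 1 - i) * (X i * aop al j f) +
        X j * (C (b * ((j : K) + 1)) * aop al j f)) =
      (∑ k ∈ Finset.range M, X (j + 1 + k) * aop al k (aop al j (aop al m f)) +
        ∑ i ∈ Finset.range j, X (j - 1 - i) * (X i * aop al j (aop al m f)) +
        X j * (C (b * ((j : K) + 1)) * aop al j (aop al m f))) +
      C (al * ((m : K) + 1)) *
        ((if j < m then aop al (m - 1 - j) (aop al j f) else 0) +
        2 * (if m < j then X (j - m - 1) * aop al j f else 0) +
        (if j = m then C (b * ((j : K) + 1)) * aop al j f else 0)) := by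
    intro j hj
    rw [Finset.mem_range] at hj
    have e1 : aop al m (∑ k ∈ Finset.range M, X (j + 1 + k) * aop al k (aop al j f)) =
        ∑ k ∈ Finset.range M, X (j + 1 + k) * aop al k (aop al j (aop al m f)) +
        C (al * ((m : K) + 1)) * (if j < m then aop al (m - 1 - j) (aop al j f) else 0) := by
      rw [map_sum, Finset.sum_congr rfl fun k _ => A5a_X al m (j + 1 + k) _,
        Finset.sum_add_distrib]
      refine congrArg₂ (· + ·) (Finset.sum_congr rfl fun k _ => ?_) ?_
      · rw [aop_comm al m k, aop_comm al m j]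
      · by_cases hjm : j < m
        · rw [if_pos hjm, Finset.sum_eq_single (m - 1 - j)]
          · rw [if_pos (by omega)]
          · intro k _ hk
            rw [if_neg (by omega)]
          · intro h
            exact absurd (Finset.mem_range.2 (by omega)) h
        · rw [if_neg hjm, mul_zero]
          refine Finset.sum_eq_zero fun k _ => ?_
          rw [if_neg (by omega)]
    have e2 : aop al m (∑ i ∈ Finset.range j, X (j - 1 - i) * (X i * aop al j f)) =
        ∑ i ∈ Finset.range j, X (j - 1 - i) * (X i * aop al j (aop al m f)) +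
        C (al * ((m : K) + 1)) * (2 * (if m < j then X (j - m - 1) * aop al j f else 0)) := by
      have e3 : ∀ i ∈ Finset.range j, aop al m (X (j - 1 - i) * (X i * aop al j f)) =
          X (j - 1 - i) * (X i * aop al j (aop al m f)) +
          ((if i = m then C (al * ((m : K) + 1)) * (X (j - 1 - i) * aop al j f) else 0) +
          (if j - 1 - i = m then C (al * ((m : K) + 1)) * (X i * aop al j f) else 0)) := by
        intro i _
        rw [A5a_X, A5a_X, aop_comm al m j]
        by_cases hi : i = m
        · rw [if_pos hi, if_pos hi]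
          ring
        · rw [if_neg hi, if_neg hi]
          ring
      rw [map_sum, Finset.sum_congr rfl e3, Finset.sum_add_distrib, Finset.sum_add_distrib]
      congr 1
      by_cases hmj : m < j
      · rw [if_pos hmj, Finset.sum_eq_single m, Finset.sum_eq_single (j - 1 - m), if_pos rfl,
          if_pos (by omega), show j - 1 - m = j - m - 1 by omega]
        · ring
        · intro i hi hi'
          rw [Finset.mem_range] at hi
          rw [if_neg (by omega)]
        · intro h
          exact absurd (Finset.mem_range.2 (by omega)) h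
        · intro i _ hi
          rw [if_neg hi]
        · intro h
          exact absurd (Finset.mem_range.2 hmj) h
      · rw [if_neg hmj, mul_zero, mul_zero, Finset.sum_eq_zero, Finset.sum_eq_zero, add_zero]
        · intro i hi
          rw [Finset.mem_range] at hi
          rw [if_neg (by omega)]
        · intro i hi
          rw [Finset.mem_range] at hi
          rw [if_neg (by omega)]
    have e4 : aop al m (X j * (C (b * ((j : K) + 1)) * aop al j f)) =
        X j * (C (b * ((j : K) + 1)) * aop al j (aop al m f)) +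
        C (al * ((m : K) + 1)) *
          (if j = m then C (b * ((j : K) + 1)) * aop al j f else 0) := by
      rw [A5a_X, A5a_C, aop_comm al m j]
      by_cases hjm : j = m
      · rw [if_pos hjm, if_pos hjm]
      · rw [if_neg hjm, if_neg hjm, mul_zero]
    rw [map_add, map_add, e1, e2, e4]
    ring
  rw [Finset.sum_congr rfl h1, Finset.sum_add_distrib, ← Finset.mul_sum]
  congr 2
  rw [Finset.sum_add_distrib, Finset.sum_add_distrib, ← Finset.mul_sum]
  refine congrArg₂ (· + ·) (congrArg₂ (· + ·) ?_ (congrArg (2 * ·) ?_)) ?_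
  · rw [← Finset.sum_filter]
    have e5 : (Finset.range M).filter (fun j => j < m) = Finset.range m := by
      ext j
      simp only [Finset.mem_filter, Finset.mem_range]
      omega
    rw [e5]
    exact Finset.sum_congr rfl fun j _ => aop_comm al _ _ f ▸ rfl
  · rw [← Finset.sum_filter]
    have e6 : (Finset.range M).filter (fun j => m < j) = Finset.Ico (m + 1) M := by
      ext j
      simp only [Finset.mem_filter, Finset.mem_range, Finset.mem_Ico]
      omega
    rw [e6]
  · by_cases hm : m < M
    · rw [Finset.sum_eq_single m, if_pos rfl]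
      · intro j _ hj
        rw [if_neg hj]
      · intro h
        exact absurd (Finset.mem_range.2 hm) h
    · rw [hM m (by omega), mul_zero]
      refine Finset.sum_eq_zero fun j hj => ?_
      rw [Finset.mem_range] at hj
      rw [if_neg (by omega)]

private theorem A5a_key2 (m : ℕ) (f : MvPolynomial ℕ K) (M : ℕ)
    (hM : ∀ j, M ≤ j → aop al j f = 0) :
    aop al m (Mom al b 2 f) = Mom al b 2 (aop al m f) +
      C (al * ((m : K) + 1)) * aop al m f := by
  have hM' : ∀ j, M ≤ j → aop al j (aop al m f) = 0 := fun j hj => by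
    rw [aop_comm, hM j hj, map_zero]
  rw [A5a_mom2 al b f M hM, A5a_mom2 al b _ M hM', map_sum,
    Finset.sum_congr rfl fun j _ => A5a_X al m j _, Finset.sum_add_distrib]
  refine congrArg₂ (· + ·) (Finset.sum_congr rfl fun j _ => ?_) ?_
  · rw [aop_comm al m j]
  · by_cases hm : m < M
    · rw [Finset.sum_eq_single m, if_pos rfl]
      · intro j _ hj
        rw [if_neg hj]
      · intro h
        exact absurd (Finset.mem_range.2 hm) h
    · rw [hM m (by omega), mul_zero]
      refine Finset.sum_eq_zero fun j hj => ?_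
      rw [Finset.mem_range] at hj
      rw [if_neg (by omega)]

theorem aop_Dop (hal : al ≠ 0) (h2 : (2 : K) ≠ 0) (m : ℕ) (f : MvPolynomial ℕ K) (M : ℕ)
    (hM : ∀ j, M ≤ j → aop al j f = 0) :
    aop al m (Dop al b f) = Dop al b (aop al m f) +
      C (((m : K) + 1) / 2) *
        ((∑ i ∈ Finset.range m, aop al i (aop al (m - 1 - i) f))
          + 2 * (∑ j ∈ Finset.Ico (m + 1) M, X (j - m - 1) * aop al j f)
          + C (b * (m : K)) * aop al m f) := by
  have hM2 : ∀ j, M + m ≤ j → aop al j f = 0 := fun j hj => hM j (by omega)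
  have h1 := A5a_key al b m f (M + m) (by omega) hM2
  have h3 := A5a_key2 al b m f M hM
  have h4 : ∑ j ∈ Finset.Ico (m + 1) (M + m), (X (j - m - 1) * aop al j f : MvPolynomial ℕ K) =
      ∑ j ∈ Finset.Ico (m + 1) M, X (j - m - 1) * aop al j f := by
    symm
    refine Finset.sum_subset (Finset.Ico_subset_Ico le_rfl (by omega)) fun j hj hj' => ?_
    rw [Finset.mem_Ico] at hj hj'
    rw [hM j (by omega), mul_zero]
  rw [h4] at h1
  have hD : ∀ g : MvPolynomial ℕ K, Dop al b g = C ((2 * al)⁻¹) *
      (Mom al b 3 g - C b * Mom al b 2 g) := by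
    intro g
    rw [Dop, LinearMap.smul_apply, LinearMap.sub_apply, LinearMap.smul_apply,
      MvPolynomial.smul_eq_C_mul, MvPolynomial.smul_eq_C_mul]
  rw [hD, hD, A5a_C, map_sub, A5a_C, h1, h3]
  have e1 : (C (((m : K) + 1) / 2) : MvPolynomial ℕ K) =
      C ((2 * al)⁻¹) * C (al * ((m : K) + 1)) := by
    rw [← map_mul]
    congr 1
    field_simp
  have e2 : (C (b * ((m : K) + 1)) : MvPolynomial ℕ K) = C (b * (m : K)) + C b := by
    rw [← map_add]
    congr 1
    ring
  rw [e1, e2]
  ring

end H25BC
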