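import Pool.Agent.H25.BC.A4
import Pool.Agent.H25.BC.A5a

/-!
# Module A5b: `Dext (DD f) = DD (D f)`

Compare the coefficients of `w^{m+1}` (the constant coefficients vanish: `Dext_coeff0`,
`DD_coeff_zero`). Choose `M` with `a_j f = 0` for `j ≥ M` (`exists_aop_eq_zero`), `DD_eq_sum`,
`DD f = ∑_{j<M} w^{j+1} a_j f`. By `Dext_monomial` and `Lam_monomial`, with `g = a_j f`,
`Dext (w^{j+1} g) = w^{j+1} D g + ∑_{i ≤ j} (w^{j+1} DD g + ∑_{a<i} w^{j-a} X_a g + b i w^{j+1} g)`.
The coefficient of `w^{m+1}`, summed over `j < M`: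
`D a_m f` (from `j = m`; if `m ≥ M` it is `0` as well) `+ ∑_{j<m} (j+1) a_{m-1-j} a_j f`
`+ (m+1) ∑_{m<j<M} X_{j-m-1} a_j f + b m(m+1)/2 a_m f` (in the second sum `a = j-m-1`, and
`a < i ≤ j` has `m+1` solutions). By reflection `∑_{j<m} (j+1) a_{m-1-j} a_j = (m+1)/2 ∑_{j<m} ..`.
This is `a_m D f` by `aop_Dop`, i.e. the coefficient of `w^{m+1}` in `DD (D f)`.
-/

open MvPolynomial

namespace H25BC

variable {K : Type*} [Field K] (al b : K)

private theorem A5b_coeff (j m i : ℕ) (hi : i ≤ j) (g : MvPolynomial ℕ K) :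
    (Polynomial.X ^ (j + 1 - i) * Lam al b (Polynomial.monomial i g)).coeff (m + 1) =
      (if j < m then aop al (m - 1 - j) g else 0) +
      (if m < j ∧ j - m - 1 < i then X (j - m - 1) * g else 0) +
      (if j = m then C b * (i : MvPolynomial ℕ K) * g else 0) := by
  rw [Lam_monomial, mul_add, mul_add, ← mul_assoc, ← pow_add, show j + 1 - i + i = j + 1 by omega,
    Polynomial.coeff_add, Polynomial.coeff_add, Finset.mul_sum, Polynomial.finsetSum_coeff]
  refine congrArg₂ (· + ·) (congrArg₂ (· + ·) ?_ ?_) ?_
  · by_cases h : j < m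
    · rw [if_pos h, Polynomial.coeff_X_pow_mul', if_pos (by omega),
        show m + 1 - (j + 1) = (m - 1 - j) + 1 by omega, DD_coeff_succ]
    · rw [if_neg h, Polynomial.coeff_X_pow_mul']
      by_cases h2 : j + 1 ≤ m + 1
      · rw [if_pos h2, show m + 1 - (j + 1) = 0 by omega, DD_coeff_zero]
      · rw [if_neg h2]
  · have h3 : ∀ a ∈ Finset.range i, (Polynomial.X ^ (j + 1 - i) *
        Polynomial.monomial (i - 1 - a) (X a * g)).coeff (m + 1) =
        if a = j - m - 1 ∧ m < j then X a * g else 0 := by
      intro a ha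
      rw [Finset.mem_range] at ha
      rw [Polynomial.X_pow_eq_monomial, Polynomial.monomial_mul_monomial, one_mul,
        Polynomial.coeff_monomial]
      by_cases h4 : a = j - m - 1 ∧ m < j
      · rw [if_pos h4, if_pos (by omega)]
      · rw [if_neg h4, if_neg (by omega)]
    rw [Finset.sum_congr rfl h3]
    by_cases h5 : m < j ∧ j - m - 1 < i
    · rw [if_pos h5, Finset.sum_eq_single (j - m - 1), if_pos ⟨rfl, h5.1⟩]
      · intro a _ ha
        rw [if_neg fun h => ha h.1]
      · intro h
        exact absurd (Finset.mem_range.2 h5.2) h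
    · rw [if_neg h5]
      refine Finset.sum_eq_zero fun a ha => ?_
      rw [Finset.mem_range] at ha
      rw [if_neg (by omega)]
  · rw [Polynomial.X_pow_eq_monomial, Polynomial.monomial_mul_monomial, one_mul,
      Polynomial.coeff_monomial, map_mul, map_natCast]
    by_cases h6 : j = m
    · rw [if_pos h6, if_pos (by omega)]
    · rw [if_neg h6, if_neg (by omega)]

private theorem A5b_term (j m : ℕ) (g : MvPolynomial ℕ K) :
    2 * (Dext al b (Polynomial.monomial (j + 1) g)).coeff (m + 1) =
      (if j = m then 2 * Dop al b g else 0) +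
      (if j < m then 2 * ((j : MvPolynomial ℕ K) + 1) * aop al (m - 1 - j) g else 0) +
      (if m < j then 2 * ((m : MvPolynomial ℕ K) + 1) * (X (j - m - 1) * g) else 0) +
      (if j = m then C b * (((m : MvPolynomial ℕ K) + 1) * (m : MvPolynomial ℕ K)) * g else 0) := by
  have h0 : ∀ i ∈ Finset.range (j + 1), (Polynomial.X ^ (j + 1 - i) *
      Lam al b (Polynomial.monomial i g)).coeff (m + 1) =
      (if j < m then aop al (m - 1 - j) g else 0) +
      (if m < j ∧ j - m - 1 < i then X (j - m - 1) * g else 0) +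
      (if j = m then C b * (i : MvPolynomial ℕ K) * g else 0) := fun i hi =>
    A5b_coeff al b j m i (Nat.lt_succ_iff.1 (Finset.mem_range.1 hi)) g
  rw [Dext_monomial, Polynomial.coeff_add, Polynomial.finsetSum_coeff,
    Finset.sum_congr rfl h0, Finset.sum_add_distrib, Finset.sum_add_distrib, Finset.sum_const, Finset.card_range,
    Polynomial.coeff_monomial, nsmul_eq_mul, Nat.cast_add, Nat.cast_one, mul_add, mul_add, mul_add,
    ← add_assoc, ← add_assoc]
  refine congrArg₂ (· + ·) (congrArg₂ (· + ·) (congrArg₂ (· + ·) ?_ ?_) ?_) ?_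
  · by_cases h : j = m
    · rw [if_pos h, if_pos (by omega)]
    · rw [if_neg h, if_neg (by omega), mul_zero]
  · by_cases h : j < m
    · rw [if_pos h, if_pos h, mul_assoc]
    · rw [if_neg h, if_neg h, mul_zero, mul_zero]
  · by_cases h : m < j
    · rw [if_pos h, ← Finset.sum_filter, Finset.sum_const]
      have e : (Finset.range (j + 1)).filter (fun i => m < j ∧ j - m - 1 < i) =
          Finset.Ico (j - m) (j + 1) := by
        ext i
        simp only [Finset.mem_filter, Finset.mem_range, Finset.mem_Ico]
        omega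
      rw [e, Nat.card_Ico, nsmul_eq_mul, show j + 1 - (j - m) = m + 1 by omega, Nat.cast_add,
        Nat.cast_one, mul_assoc]
    · rw [if_neg h, Finset.sum_eq_zero, mul_zero]
      intro i _
      rw [if_neg fun h' => h h'.1]
  · by_cases h : j = m
    · subst h
      have h4 : (∑ i ∈ Finset.range (j + 1), (i : MvPolynomial ℕ K)) * 2 =
          ((j : MvPolynomial ℕ K) + 1) * (j : MvPolynomial ℕ K) := by
        have h5 := Finset.sum_range_id_mul_two (j + 1)
        rw [Nat.add_sub_cancel] at h5
        have h9 := congrArg (Nat.cast : ℕ → MvPolynomial ℕ K) h5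
        rw [Nat.cast_mul, Nat.cast_sum, Nat.cast_mul, Nat.cast_add, Nat.cast_one,
          Nat.cast_ofNat] at h9
        exact h9
      rw [if_pos rfl, ← h4, Finset.sum_congr rfl fun i _ => if_pos rfl, ← Finset.sum_mul,
        ← Finset.mul_sum]
      ring
    · rw [if_neg h, Finset.sum_eq_zero, mul_zero]
      intro i _
      rw [if_neg h]

theorem Dext_DD (hal : al ≠ 0) (h2 : (2 : K) ≠ 0) (f : MvPolynomial ℕ K) :
    Dext al b (DD al f) = DD al (Dop al b f) := by
  ext1 k
  rcases k with _ | m
  · rw [Dext_coeff0, DD_coeff_zero, DD_coeff_zero, map_zero]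
  · obtain ⟨M0, hM0⟩ := exists_aop_eq_zero al f
    have hM : ∀ j, M0 + m + 1 ≤ j → aop al j f = 0 := fun j hj => hM0 j (by omega)
    have h2' : (2 : MvPolynomial ℕ K) ≠ 0 := by
      intro h
      apply h2
      have h3 : (C (2 : K) : MvPolynomial ℕ K) = C 0 := by
        rw [map_zero, ← h, map_ofNat]
      exact C_injective _ _ h3
    have hc : (2 : MvPolynomial ℕ K) * C (((m : K) + 1) / 2) = (m : MvPolynomial ℕ K) + 1 := by
      have h7 : (2 : MvPolynomial ℕ K) = C (2 : K) := (map_ofNat C 2).symm
      rw [h7, ← map_mul, mul_div_cancel₀ _ h2, map_add, map_natCast, map_one]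
    rw [DD_coeff_succ, aop_Dop al b hal h2 m f _ hM]
    apply mul_left_cancel₀ h2'
    rw [DD_eq_sum al f _ hM, map_sum, Polynomial.finsetSum_coeff, Finset.mul_sum,
      Finset.sum_congr rfl fun j _ => A5b_term al b j m (aop al j f), Finset.sum_add_distrib,
      Finset.sum_add_distrib, Finset.sum_add_distrib, mul_add 2 (Dop al b (aop al m f)),
      ← mul_assoc 2 (C _), hc]
    have e1 : ∑ j ∈ Finset.range (M0 + m + 1),
        (if j = m then 2 * Dop al b (aop al j f) else 0) = 2 * Dop al b (aop al m f) := by
      rw [Finset.sum_eq_single m, if_pos rfl]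
      · intro j _ hj
        rw [if_neg hj]
      · intro h
        exact absurd (Finset.mem_range.2 (by omega)) h
    have e4 : ∑ j ∈ Finset.range (M0 + m + 1),
        (if j = m then C b * (((m : MvPolynomial ℕ K) + 1) * (m : MvPolynomial ℕ K)) * aop al j f
          else 0) =
        C b * (((m : MvPolynomial ℕ K) + 1) * (m : MvPolynomial ℕ K)) * aop al m f := by
      rw [Finset.sum_eq_single m, if_pos rfl]
      · intro j _ hj
        rw [if_neg hj]
      · intro h
        exact absurd (Finset.mem_range.2 (by omega)) h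
    have e3 : ∑ j ∈ Finset.range (M0 + m + 1),
        (if m < j then 2 * ((m : MvPolynomial ℕ K) + 1) * (X (j - m - 1) * aop al j f) else 0) =
        2 * ((m : MvPolynomial ℕ K) + 1) *
          ∑ j ∈ Finset.Ico (m + 1) (M0 + m + 1), X (j - m - 1) * aop al j f := by
      rw [← Finset.sum_filter, Finset.mul_sum]
      have e : (Finset.range (M0 + m + 1)).filter (fun j => m < j) =
          Finset.Ico (m + 1) (M0 + m + 1) := by
        ext j
        simp only [Finset.mem_filter, Finset.mem_range, Finset.mem_Ico]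
        omega
      rw [e]
    have e2 : ∑ j ∈ Finset.range (M0 + m + 1),
        (if j < m then 2 * ((j : MvPolynomial ℕ K) + 1) * aop al (m - 1 - j) (aop al j f)
          else 0) =
        ((m : MvPolynomial ℕ K) + 1) *
          ∑ i ∈ Finset.range m, aop al i (aop al (m - 1 - i) f) := by
      rw [← Finset.sum_filter]
      have e : (Finset.range (M0 + m + 1)).filter (fun j => j < m) = Finset.range m := by
        ext j
        simp only [Finset.mem_filter, Finset.mem_range]
        omega
      rw [e]
      have r1 : ∑ j ∈ Finset.range m,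
          ((j : MvPolynomial ℕ K) + 1) * aop al (m - 1 - j) (aop al j f) =
          ∑ j ∈ Finset.range m,
          (((m - 1 - j : ℕ) : MvPolynomial ℕ K) + 1) * aop al j (aop al (m - 1 - j) f) := by
        rw [← Finset.sum_range_reflect]
        refine Finset.sum_congr rfl fun j hj => ?_
        rw [Finset.mem_range] at hj
        rw [show m - 1 - (m - 1 - j) = j by omega]
      have r2 : ∑ j ∈ Finset.range m,
          2 * ((j : MvPolynomial ℕ K) + 1) * aop al (m - 1 - j) (aop al j f) =
          ∑ j ∈ Finset.range m,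
          ((j : MvPolynomial ℕ K) + 1) * aop al (m - 1 - j) (aop al j f) +
          ∑ j ∈ Finset.range m,
          ((j : MvPolynomial ℕ K) + 1) * aop al (m - 1 - j) (aop al j f) := by
        rw [← Finset.sum_add_distrib]
        refine Finset.sum_congr rfl fun j _ => ?_
        ring
      rw [r2]
      nth_rw 2 [r1]
      rw [← Finset.sum_add_distrib, Finset.mul_sum]
      refine Finset.sum_congr rfl fun j hj => ?_
      rw [Finset.mem_range] at hj
      rw [aop_comm al (m - 1 - j) j f]
      have r3 : ((m - 1 - j : ℕ) : MvPolynomial ℕ K) + 1 + j = m := by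
        have r4 : m - 1 - j + 1 + j = m := by omega
        calc ((m - 1 - j : ℕ) : MvPolynomial ℕ K) + 1 + j = ((m - 1 - j + 1 + j : ℕ) :
            MvPolynomial ℕ K) := by rw [Nat.cast_add, Nat.cast_add, Nat.cast_one]
          _ = m := by rw [r4]
      linear_combination (aop al j (aop al (m - 1 - j) f)) * r3
    rw [e1, e2, e3, e4, map_mul, map_natCast]
    ring

end H25BC
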