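import Pool.Agent.H25.BC.A5b

/-!
# Module A5c: `Dext` commutes with `Λ`

By linearity `v = w^j f` (`Polynomial.monomial j f`), induction on `j`. `j = 0`: `Lam_C`, `Dext_C`,
`Dext_DD`. Step (`v ↦ w v`): with `δ v = Λ (Dext v) - Dext (Λ v)`, `Lam_X_mul`, `Dext_X_mul`,
`Dext_C`: `Λ Dext (X v) = Λ (X Dext v + X Λ v)
= X Λ Dext v + b X Dext v + C Θ(X Dext v) + X Λ Λ v + b X Λ v + C Θ(X Λ v)` and
`Dext Λ (X v) = Dext (X Λ v + b X v + C Θ(X v))
= X Dext Λ v + X Λ Λ v + b X Dext v + b X Λ v + C D Θ(X v)`; the difference is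
`X δ v + C (Θ(X Dext v + X Λ v) - D Θ(X v)) = X δ v + C (Θ (Dext (X v)) - D Θ(X v)) = X δ v`
by `Theta_Dext`.
-/

open MvPolynomial

namespace H25BC

variable {K : Type*} [Field K] (al b : K)

theorem Dext_Lam (hal : al ≠ 0) (h2 : (2 : K) ≠ 0) (v : Polynomial (MvPolynomial ℕ K)) :
    Dext al b (Lam al b v) = Lam al b (Dext al b v) := by
  have step : ∀ v : Polynomial (MvPolynomial ℕ K), Dext al b (Lam al b v) = Lam al b (Dext al b v) →
      Dext al b (Lam al b (Polynomial.X * v)) = Lam al b (Dext al b (Polynomial.X * v)) := by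
    intro v hv
    have hCb : ∀ u : Polynomial (MvPolynomial ℕ K),
        Dext al b (Polynomial.C (C b) * u) = Polynomial.C (C b) * Dext al b u := by
      intro u
      have h1 : ∀ w : Polynomial (MvPolynomial ℕ K), Polynomial.C (C b) * w = b • w := by
        intro w
        rw [← Polynomial.smul_eq_C_mul]
        ext1 k
        rw [Polynomial.coeff_smul, Polynomial.coeff_smul, smul_eq_mul,
          MvPolynomial.smul_eq_C_mul]
      rw [h1, h1, map_smul]
    have hT := Theta_Dext al b hal h2 (Polynomial.X * v)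
    rw [Dext_X_mul, map_add] at hT
    rw [Dext_X_mul, map_add (Lam al b), Lam_X_mul, Lam_X_mul, Lam_X_mul, map_add, map_add,
      Dext_X_mul, hCb, Dext_X_mul, Dext_C, ← hT, hv, map_add]
    ring
  induction v using Polynomial.induction_on' with
  | add p q hp hq => rw [map_add, map_add, map_add, map_add, hp, hq]
  | monomial j f =>
    induction j with
    | zero =>
      rw [Polynomial.monomial_zero_left, Lam_C, Dext_C, Lam_C, Dext_DD al b hal h2]
    | succ j ih =>
      have h1 : (Polynomial.monomial (j + 1) f : Polynomial (MvPolynomial ℕ K)) =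
          Polynomial.X * Polynomial.monomial j f := by
        rw [Polynomial.X_mul_monomial]
      rw [h1]
      exact step _ ih

end H25BC
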