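import Pool.Agent.H25.BC.A1
import Pool.Agent.H25.BC.A2

/-!
# Module A6: homogeneity

`HomV n v`: every monomial `p_m w^j` of `v` has `wt m + j = n`. `HomV` and `IsHom` are closed under
sums and scalars. `Λ` keeps `HomV n`: check the coefficient of `w^k p_m` in each part of
`Lam_monomial` applied to the monomials of `v`: `a_i` lowers the weight by `i+1` while `w^{i+1}`
raises it, `X_i` raises it by `i+1` while `w^j ↦ w^{j-1-i}` lowers it. (Write
`v = ∑_j monomial j (v.coeff j)`, each `v.coeff j` is `IsHom (n-j)` or zero.)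
-/

open MvPolynomial

namespace H25BC

variable {S : Type*} [CommRing S] (al b : S)

theorem IsHom_add {n : ℕ} {f g : MvPolynomial ℕ S} (hf : IsHom n f) (hg : IsHom n g) :
    IsHom n (f + g) := by
  intro m hm
  rw [coeff_add] at hm
  by_cases h : f.coeff m = 0
  · rw [h, zero_add] at hm
    exact hg m hm
  · exact hf m h

theorem IsHom_sum {n : ℕ} {κ : Type*} (s : Finset κ) (F : κ → MvPolynomial ℕ S)
    (h : ∀ i ∈ s, IsHom n (F i)) : IsHom n (∑ i ∈ s, F i) := by
  intro m hm
  rw [coeff_sum] at hm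
  obtain ⟨i, hi, hi'⟩ := Finset.exists_ne_zero_of_sum_ne_zero hm
  exact h i hi m hi'

theorem IsHom_C_mul {n : ℕ} {f : MvPolynomial ℕ S} (c : S) (hf : IsHom n f) :
    IsHom n (C c * f) := by
  intro m hm
  rw [coeff_C_mul] at hm
  exact hf m (right_ne_zero_of_mul hm)

theorem IsHom_mul {n n' : ℕ} {f g : MvPolynomial ℕ S} (hf : IsHom n f) (hg : IsHom n' g) :
    IsHom (n + n') (f * g) := by
  classical
  intro m hm
  rw [coeff_mul] at hm
  obtain ⟨x, hx, hx'⟩ := Finset.exists_ne_zero_of_sum_ne_zero hm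
  rw [Finset.HasAntidiagonal.mem_antidiagonal] at hx
  rw [← hx, wt_add, hf _ (left_ne_zero_of_mul hx'), hg _ (right_ne_zero_of_mul hx')]

theorem IsHom_X_mul {n : ℕ} {f : MvPolynomial ℕ S} (i : ℕ) (hf : IsHom n f) :
    IsHom (n + i + 1) (X i * f) := by
  have h : IsHom (i + 1) (X i : MvPolynomial ℕ S) := by
    intro m hm
    rw [coeff_X] at hm
    have : Finsupp.single i 1 = m := by
      by_contra h
      rw [if_neg h] at hm
      exact hm rfl
    rw [← this, wt_single, mul_one]
  have h2 := IsHom_mul h hf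
  rwa [add_comm (i + 1) n, ← add_assoc] at h2

theorem IsHom_aop {n : ℕ} {f : MvPolynomial ℕ S} (i : ℕ) (hf : IsHom (n + i + 1) f) :
    IsHom n (aop al i f) := by
  intro m hm
  rw [aop, Derivation.smul_apply, coeff_smul, smul_eq_mul, coeff_pderiv] at hm
  have h := hf _ (left_ne_zero_of_mul (right_ne_zero_of_mul hm))
  rw [wt_add, wt_single] at h
  omega

theorem aop_eq_zero {n : ℕ} {f : MvPolynomial ℕ S} (i : ℕ) (hf : IsHom n f) (h : n < i + 1) :
    aop al i f = 0 := by
  ext m
  rw [coeff_zero, aop, Derivation.smul_apply, coeff_smul, smul_eq_mul, coeff_pderiv]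
  by_contra hm
  have h' := hf _ (left_ne_zero_of_mul (right_ne_zero_of_mul hm))
  rw [wt_add, wt_single] at h'
  omega

end H25BC
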