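import Pool.Agent.H25.BC.A6

/-!
# Module A6b: homogeneity on `K[p][w]`

`HomV n v`: every monomial `p_m w^j` of `v` has `wt m + j = n`; closed under sums and scalars.
`Λ` keeps `HomV n`: write `v = ∑_j monomial j (v.coeff j)`, each `v.coeff j` is `IsHom (n-j)` (or
zero if `j > n`), and use `Lam_monomial` (module A1), `IsHom_aop`, `IsHom_X_mul`:
`a_i` lowers the weight by `i+1` while `w^{i+1}` raises it (`DD_coeff_succ`, `aop_eq_zero`), `X_i`
raises it by `i+1` while `w^j ↦ w^{j-1-i}` lowers it. Then `Θ`, `coeff 0`, `Mom = coeff 0 ∘ Λ^l ∘ C`,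
`Zop = w (1 + ∑ g_l Λ^{l+1})`, `Bop j = Θ Zop^{j+1} C` (`Bop j f` is `IsHom (n + j + 1)`).
-/

open MvPolynomial

namespace H25BC

variable {S : Type*} [CommRing S] (al b : S)

theorem HomV_C {n : ℕ} {f : MvPolynomial ℕ S} (hf : IsHom n f) : HomV n (Polynomial.C f) := by
  intro j m hm
  rw [Polynomial.coeff_C] at hm
  split_ifs at hm with h
  · rw [h, add_zero]
    exact hf m hm
  · exact absurd (coeff_zero m) hm

theorem HomV_add {n : ℕ} {u v : Polynomial (MvPolynomial ℕ S)} (hu : HomV n u) (hv : HomV n v) :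
    HomV n (u + v) := by
  intro j m hm
  rw [Polynomial.coeff_add, coeff_add] at hm
  by_cases h : (u.coeff j).coeff m = 0
  · rw [h, zero_add] at hm
    exact hv j m hm
  · exact hu j m h

theorem HomV_smul {n : ℕ} {u : Polynomial (MvPolynomial ℕ S)} (c : S) (hu : HomV n u) :
    HomV n (c • u) := by
  intro j m hm
  rw [Polynomial.coeff_smul, coeff_smul, smul_eq_mul] at hm
  exact hu j m (right_ne_zero_of_mul hm)

private theorem HomV_zero (n : ℕ) : HomV n (0 : Polynomial (MvPolynomial ℕ S)) := by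
  intro j m hm
  rw [Polynomial.coeff_zero] at hm
  exact absurd (coeff_zero m) hm

private theorem HomV_sum {n : ℕ} {κ : Type*} (s : Finset κ)
    (F : κ → Polynomial (MvPolynomial ℕ S)) (h : ∀ i ∈ s, HomV n (F i)) :
    HomV n (∑ i ∈ s, F i) := by
  classical
  induction s using Finset.induction_on with
  | empty => exact HomV_zero n
  | insert a s ha ih =>
    rw [Finset.sum_insert ha]
    exact HomV_add (h a (Finset.mem_insert_self _ _))
      (ih fun i hi => h i (Finset.mem_insert_of_mem hi))

theorem HomV_X_mul {n : ℕ} {u : Polynomial (MvPolynomial ℕ S)} (hu : HomV n u) :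
    HomV (n + 1) (Polynomial.X * u) := by
  intro j m hm
  rcases j with _ | j
  · rw [Polynomial.mul_coeff_zero, Polynomial.coeff_X_zero, zero_mul] at hm
    exact absurd (coeff_zero m) hm
  · rw [Polynomial.coeff_X_mul] at hm
    have := hu j m hm
    omega

private theorem HomV_X_pow_mul {n : ℕ} {u : Polynomial (MvPolynomial ℕ S)} (k : ℕ)
    (hu : HomV n u) : HomV (n + k) (Polynomial.X ^ k * u) := by
  induction k with
  | zero => simpa using hu
  | succ k ih =>
    rw [pow_succ', mul_assoc]
    exact HomV_X_mul ih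

theorem HomV_divX {n : ℕ} {u : Polynomial (MvPolynomial ℕ S)} (hu : HomV (n + 1) u) :
    HomV n u.divX := by
  intro j m hm
  rw [Polynomial.coeff_divX] at hm
  have := hu (j + 1) m hm
  omega

private theorem HomV_monomial {n : ℕ} (j : ℕ) {f : MvPolynomial ℕ S} (hj : j ≤ n)
    (hf : IsHom (n - j) f) : HomV n (Polynomial.monomial j f) := by
  intro i m hm
  rw [Polynomial.coeff_monomial] at hm
  split_ifs at hm with h
  · have := hf m hm
    omega
  · exact absurd (coeff_zero m) hm

private theorem HomV_DD {n : ℕ} {f : MvPolynomial ℕ S} (hf : IsHom n f) :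
    HomV n (DD al f) := by
  intro j m hm
  rcases j with _ | j
  · rw [DD_coeff_zero] at hm
    exact absurd (coeff_zero m) hm
  · rw [DD_coeff_succ] at hm
    by_cases h : n < j + 1
    · rw [aop_eq_zero al j hf h] at hm
      exact absurd (coeff_zero m) hm
    · obtain ⟨k, rfl⟩ : ∃ k, n = k + j + 1 := ⟨n - (j + 1), by omega⟩
      have := IsHom_aop al j hf m hm
      omega

private theorem HomV_parts {n : ℕ} {u : Polynomial (MvPolynomial ℕ S)} (hu : HomV n u) (j : ℕ) :
    u.coeff j = 0 ∨ (j ≤ n ∧ IsHom (n - j) (u.coeff j)) := by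
  by_cases h : u.coeff j = 0
  · exact Or.inl h
  · right
    obtain ⟨m, hm⟩ := (MvPolynomial.ne_zero_iff).mp h
    refine ⟨?_, fun m' hm' => ?_⟩
    · have := hu j m hm
      omega
    · have := hu j m' hm'
      omega

theorem HomV_Lam {n : ℕ} {u : Polynomial (MvPolynomial ℕ S)} (hu : HomV n u) :
    HomV n (Lam al b u) := by
  rw [u.as_sum_support, map_sum]
  refine HomV_sum _ _ fun j _ => ?_
  rcases HomV_parts hu j with h | ⟨hj, hf⟩
  · rw [h, map_zero, map_zero]
    exact HomV_zero n
  · rw [Lam_monomial]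
    refine HomV_add (HomV_add ?_ (HomV_sum _ _ fun i hi => ?_)) ?_
    · have := HomV_X_pow_mul j (HomV_DD al hf)
      rwa [Nat.sub_add_cancel hj] at this
    · rw [Finset.mem_range] at hi
      refine HomV_monomial _ (by omega) ?_
      have := IsHom_X_mul i hf
      rwa [show n - j + i + 1 = n - (j - 1 - i) by omega] at this
    · exact HomV_monomial _ hj (IsHom_C_mul _ hf)

theorem IsHom_Theta {n : ℕ} {u : Polynomial (MvPolynomial ℕ S)} (hu : HomV n u) :
    IsHom n (Theta S u) := by
  rw [u.as_sum_support, map_sum]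
  refine IsHom_sum _ _ fun j _ => ?_
  rcases HomV_parts hu j with h | ⟨hj, hf⟩
  · rw [h, map_zero, map_zero]
    intro m hm
    exact absurd (coeff_zero m) hm
  · rcases j with _ | j
    · rw [Theta_monomial_zero]
      intro m hm
      exact absurd (coeff_zero m) hm
    · rw [Theta_monomial_succ]
      have := IsHom_X_mul j hf
      rwa [show n - (j + 1) + j + 1 = n by omega] at this

theorem IsHom_coeff0 {n : ℕ} {u : Polynomial (MvPolynomial ℕ S)} (hu : HomV n u) :
    IsHom n (u.coeff 0) := by
  intro m hm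
  exact hu 0 m hm

private theorem HomV_Lam_pow {n : ℕ} {u : Polynomial (MvPolynomial ℕ S)} (l : ℕ)
    (hu : HomV n u) : HomV n (((Lam al b) ^ l) u) := by
  induction l with
  | zero => simpa using hu
  | succ l ih =>
    rw [pow_succ', Module.End.mul_apply]
    exact HomV_Lam al b ih

theorem IsHom_Mom {n : ℕ} {f : MvPolynomial ℕ S} (l : ℕ) (hf : IsHom n f) :
    IsHom n (Mom al b l f) :=
  IsHom_coeff0 (HomV_Lam_pow al b l (HomV_C hf))

theorem HomV_Zop {n : ℕ} (L : ℕ) (g : ℕ → S) {u : Polynomial (MvPolynomial ℕ S)}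
    (hu : HomV n u) : HomV (n + 1) (Zop al b L g u) := by
  refine HomV_X_mul ?_
  change HomV n (Gop al b L g u)
  rw [Gop, LinearMap.add_apply, LinearMap.sum_apply]
  refine HomV_add hu (HomV_sum _ _ fun l _ => ?_)
  exact HomV_smul _ (HomV_Lam_pow al b _ hu)

theorem IsHom_Bop {n : ℕ} (L : ℕ) (g : ℕ → S) (j : ℕ) {f : MvPolynomial ℕ S}
    (hf : IsHom n f) : IsHom (n + j + 1) (Bop al b L g j f) := by
  have h : ∀ k, HomV (n + k) (((Zop al b L g) ^ k) (Polynomial.C f)) := by
    intro k
    induction k with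
    | zero => simpa using HomV_C hf
    | succ k ih =>
      rw [pow_succ', Module.End.mul_apply]
      exact HomV_Zop al b L g ih
  exact IsHom_Theta (h (j + 1))

end H25BC
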