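import Pool.Agent.H25.BC.A1

/-!
# Module A7: base change

For a ring homomorphism `φ : S → S'` all operators commute with the coefficientwise maps.
Check on monomials; `DD (map φ f)`: both sides are `DD`-like derivations, induction on `f`
(`MvPolynomial.induction_on`).
-/

open MvPolynomial

namespace H25BC

variable {S S' : Type*} [CommRing S] [CommRing S'] (φ : S →+* S') (al b : S)

theorem map_aop (i : ℕ) (f : MvPolynomial ℕ S) :
    map φ (aop al i f) = aop (φ al) i (map φ f) := by
  ext m
  rw [coeff_map, aop, aop, Derivation.smul_apply, Derivation.smul_apply, coeff_smul, coeff_smul,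
    coeff_pderiv, coeff_pderiv, coeff_map]
  simp

theorem map_DD (f : MvPolynomial ℕ S) :
    Polynomial.map (map φ) (DD al f) = DD (φ al) (map φ f) := by
  ext1 j
  rw [Polynomial.coeff_map]
  rcases j with _ | j
  · rw [DD_coeff_zero, DD_coeff_zero, map_zero]
  · rw [DD_coeff_succ, DD_coeff_succ, map_aop]

theorem map_Lam (v : Polynomial (MvPolynomial ℕ S)) :
    Polynomial.map (map φ) (Lam al b v) = Lam (φ al) (φ b) (Polynomial.map (map φ) v) := by
  induction v using Polynomial.induction_on' with
  | add p q hp hq => rw [map_add, Polynomial.map_add, Polynomial.map_add, map_add, hp, hq]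
  | monomial j f =>
    rw [Polynomial.map_monomial, Lam_monomial, Lam_monomial, Polynomial.map_add,
      Polynomial.map_add, Polynomial.map_mul, Polynomial.map_pow, Polynomial.map_X, map_DD,
      Polynomial.map_sum, Polynomial.map_monomial]
    congr 1
    · congr 1
      refine Finset.sum_congr rfl fun i _ => ?_
      rw [Polynomial.map_monomial, map_mul, map_X]
    · have h : map φ (C (b * (j : S)) * f) = C (φ b * (j : S')) * map φ f := by
        rw [map_mul, map_C, map_mul, map_natCast]
      rw [h]

theorem map_Theta (v : Polynomial (MvPolynomial ℕ S)) :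
    map φ (Theta S v) = Theta S' (Polynomial.map (map φ) v) := by
  induction v using Polynomial.induction_on' with
  | add p q hp hq => rw [map_add, map_add, Polynomial.map_add, map_add, hp, hq]
  | monomial j f =>
    rw [Polynomial.map_monomial]
    rcases j with _ | j
    · rw [Theta_monomial_zero, Theta_monomial_zero, map_zero]
    · rw [Theta_monomial_succ, Theta_monomial_succ, map_mul, map_X]

private theorem map_Lam_pow (l : ℕ) (v : Polynomial (MvPolynomial ℕ S)) :
    Polynomial.map (map φ) (((Lam al b) ^ l) v) =
      ((Lam (φ al) (φ b)) ^ l) (Polynomial.map (map φ) v) := by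
  induction l with
  | zero => simp
  | succ l ih => rw [pow_succ', pow_succ', Module.End.mul_apply, Module.End.mul_apply, map_Lam, ih]

private theorem map_smul_V (c : S) (v : Polynomial (MvPolynomial ℕ S)) :
    Polynomial.map (map φ) (c • v) = φ c • Polynomial.map (map φ) v := by
  ext1 j
  rw [Polynomial.coeff_map, Polynomial.coeff_smul, Polynomial.coeff_smul, Polynomial.coeff_map,
    MvPolynomial.smul_eq_C_mul, MvPolynomial.smul_eq_C_mul, map_mul, map_C]

theorem map_Zop (L : ℕ) (g : ℕ → S) (v : Polynomial (MvPolynomial ℕ S)) :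
    Polynomial.map (map φ) (Zop al b L g v) =
      Zop (φ al) (φ b) L (fun l => φ (g l)) (Polynomial.map (map φ) v) := by
  change Polynomial.map (map φ) (Polynomial.X * (Gop al b L g v)) =
    Polynomial.X * (Gop (φ al) (φ b) L (fun l => φ (g l)) (Polynomial.map (map φ) v))
  rw [Polynomial.map_mul, Polynomial.map_X, Gop, Gop, LinearMap.add_apply, LinearMap.add_apply,
    LinearMap.sum_apply, LinearMap.sum_apply, Polynomial.map_add, Polynomial.map_sum]
  congr 2
  refine Finset.sum_congr rfl fun l _ => ?_
  rw [LinearMap.smul_apply, LinearMap.smul_apply, map_smul_V, map_Lam_pow]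

theorem map_Bop (L : ℕ) (g : ℕ → S) (j : ℕ) (f : MvPolynomial ℕ S) :
    map φ (Bop al b L g j f) = Bop (φ al) (φ b) L (fun l => φ (g l)) j (map φ f) := by
  have h : ∀ k, Polynomial.map (map φ) (((Zop al b L g) ^ k) (Polynomial.C f)) =
      ((Zop (φ al) (φ b) L (fun l => φ (g l))) ^ k) (Polynomial.C (map φ f)) := by
    intro k
    induction k with
    | zero => simp
    | succ k ih =>
      rw [pow_succ', pow_succ', Module.End.mul_apply, Module.End.mul_apply, map_Zop, ih]
  change map φ (Theta S (((Zop al b L g) ^ (j + 1)) (Polynomial.C f))) =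
    Theta S' (((Zop (φ al) (φ b) L (fun l => φ (g l))) ^ (j + 1)) (Polynomial.C (map φ f)))
  rw [map_Theta, h]

theorem map_pair (f h : MvPolynomial ℕ S) :
    φ (pair al f h) = pair (φ al) (map φ f) (map φ h) := by
  have h1 : (map φ f).support ⊆ f.support := support_map_subset _ _
  have h2 : pair (φ al) (map φ f) (map φ h) = ∑ m ∈ f.support,
      (map φ f).coeff m * (map φ h).coeff m * ((zz m : S') * (φ al) ^ len m) := by
    refine Finset.sum_subset h1 fun m _ hm => ?_
    rw [notMem_support_iff] at hm
    rw [hm, zero_mul, zero_mul]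
  rw [h2, pair, map_sum]
  refine Finset.sum_congr rfl fun m _ => ?_
  rw [coeff_map, coeff_map]
  simp

end H25BC
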