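import Pool.Agent.H25.BC.P3

/-!
# Module P3b: multiplication by `p_{j+1}` and its adjoint in the Jack basis

`X_mul_J`: `basis_expand` for `X j * J n θ` (weight `n+j+1`, `IsHom_X_mul`).
`aop_J`: `basis_expand` for `aop al j (J φ)` (`IsHom_aop`), and
`pair (aop_j J_φ) J_θ = pair (X_j J_θ) J_φ = kap * nrm φ` (`pair_X_mul`, `pair_comm`).
`J_zero`: `J 0 θ` is a constant (weight `0`), equal to `eps (J 0 θ) = 1` (`eps_J`).
-/

open MvPolynomial

namespace H25BC

variable {K : Type*} [Field K] [CharZero K] {al : K}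
  {J : ∀ n : ℕ, n.Partition → MvPolynomial ℕ K}

theorem X_mul_J (hJ : IsJack al J) (han : Aniso al) (j n : ℕ) (θ : n.Partition) :
    X j * J n θ = ∑ φ : (n + j + 1).Partition, C (kap al J j n θ φ) * J (n + j + 1) φ :=
  basis_expand hJ han _ (IsHom_X_mul j (hJ.hom n θ))

theorem aop_J (hJ : IsJack al J) (han : Aniso al) (j n : ℕ) (φ : (n + j + 1).Partition) :
    aop al j (J (n + j + 1) φ) =
      ∑ θ : n.Partition, C (kap al J j n θ φ * nrm al J _ φ * (nrm al J n θ)⁻¹) * J n θ := by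
  refine (basis_expand hJ han _ (IsHom_aop al j (hJ.hom _ φ))).trans ?_
  refine Finset.sum_congr rfl fun θ _ => ?_
  congr 2
  have h1 : pair al (aop al j (J (n + j + 1) φ)) (J n θ) = kap al J j n θ φ * nrm al J _ φ := by
    rw [pair_comm, ← pair_X_mul, kap, mul_assoc, mul_comm _ (nrm al J _ φ), ← mul_assoc,
      inv_mul_cancel₀ (nrm_ne_zero hJ han _ φ), one_mul]
  rw [h1, mul_comm]

private theorem wt_eq_zero {m : ℕ →₀ ℕ} (h : wt m = 0) : m = 0 := by
  ext i
  by_contra hi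
  have h1 : i ∈ m.support := Finsupp.mem_support_iff.mpr hi
  rw [wt, Finsupp.sum, Finset.sum_eq_zero_iff] at h
  have h2 := h i h1
  rw [mul_eq_zero] at h2
  rcases h2 with h2 | h2
  · omega
  · exact hi h2

theorem J_zero (hJ : IsJack al J) (θ : (0 : ℕ).Partition) : J 0 θ = 1 := by
  have h1 : J 0 θ = C ((J 0 θ).coeff 0) := by
    ext m
    rw [coeff_C]
    split_ifs with h
    · rw [h]
    · by_contra h2
      exact h (wt_eq_zero (hJ.hom 0 θ m h2)).symm
  have h2 := eps_J hJ 0 θ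
  rw [h1] at h2
  have h3 : eps K (C ((J 0 θ).coeff 0)) = (J 0 θ).coeff 0 := by
    rw [eps, aeval_C, Algebra.algebraMap_self, RingHom.id_apply]
  rw [h3] at h2
  rw [h1, h2, C_1]

/-- for every `φ ⊢ n+1` some `θ ⊢ n` has `kap 0 θ φ ≠ 0`: otherwise `aop al 0 (J φ) = 0`, i.e.
`J φ` does not contain `p_1`, but its coefficient at `p_1^{n+1}` is `1` -/
theorem exists_kap_ne_zero (hJ : IsJack al J) (han : Aniso al) (hal : al ≠ 0) (n : ℕ)
    (φ : (n + 1).Partition) : ∃ θ : n.Partition, kap al J 0 n θ φ ≠ 0 := by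
  by_contra hcon
  have hcon : ∀ θ : n.Partition, kap al J 0 n θ φ = 0 := fun θ => by
    by_contra h
    exact hcon ⟨θ, h⟩
  have h1 : aop al 0 (J (n + 1) φ) = 0 := by
    refine (aop_J hJ han 0 n φ).trans (Finset.sum_eq_zero fun θ _ => ?_)
    have h2 : kap al J 0 n θ φ = 0 := hcon θ
    rw [h2, zero_mul, zero_mul, C_0, zero_mul]
  have h2 : pair al (X 0 * X 0 ^ n) (J (n + 1) φ) = 0 := by
    rw [pair_X_mul, h1, pair_zero_right]
  have h3 : (X 0 * X 0 ^ n : MvPolynomial ℕ K) = monomial (Finsupp.single 0 (n + 1)) 1 := by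
    rw [← pow_succ', X_pow_eq_monomial]
  rw [h3, pair_eq_sum al _ _ {Finsupp.single 0 (n + 1)} support_monomial_subset,
    Finset.sum_singleton, coeff_monomial, if_pos rfl, one_mul,
    ← eps_eq_coeff _ (hJ.hom (n + 1) φ), eps_J hJ, one_mul, len_single] at h2
  rcases mul_eq_zero.mp h2 with h4 | h4
  · have h5 : zz (Finsupp.single 0 (n + 1)) = (n + 1).factorial := by
      rw [zz, Finsupp.prod_single_index]
      · rw [zero_add, one_pow, one_mul]
      · simp
    rw [h5] at h4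
    exact Nat.factorial_ne_zero _ (Nat.cast_eq_zero.mp h4)
  · exact hal (pow_eq_zero_iff (Nat.succ_ne_zero n) |>.mp h4)

end H25BC
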