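import Pool.Agent.H25.BC.E3b
import Pool.Agent.H25.BC.P3b
import Pool.Agent.H25.BC.A7

/-!
# Module E4: `ω(J_θ) = H_θ`

`Om al J H = ∑_n t^n ∑_{θ ⊢ n} j_θ^{-1} H_θ J_θ`. By `omg_eq` (or directly) and orthogonality
`ω(map J_θ) = pair (map J_θ) (∑_φ j_φ^{-1} H_φ map J_φ) = H_θ` (`map_pair`).
`lift_omg`: apply this to the coefficients of `Om al J H`.
-/

open MvPolynomial

namespace H25BC

variable {K : Type*} [Field K] [CharZero K] {al : K}
  {J : ∀ n : ℕ, n.Partition → MvPolynomial ℕ K}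
  {S : Type*} [CommRing S] [Algebra K S]

theorem E4_map_hom {R R' : Type*} [CommRing R] [CommRing R'] (φ : R →+* R') {n : ℕ}
    {f : MvPolynomial ℕ R} (hf : IsHom n f) : IsHom n (map φ f) := by
  intro m hm
  apply hf m
  intro h0
  apply hm
  rw [coeff_map, h0, map_zero]

theorem E4_pair_one {R : Type*} [CommRing R] (al : R) : pair al (1 : MvPolynomial ℕ R) 1 = 1 := by
  classical
  have hs : (1 : MvPolynomial ℕ R).support ⊆ {0} := by
    intro m hm
    rw [mem_support_iff, coeff_one] at hm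
    rw [Finset.mem_singleton]
    by_contra h
    apply hm
    rw [if_neg (fun h' => h h'.symm)]
  rw [pair_eq_sum al 1 1 {0} hs, Finset.sum_singleton, coeff_one, if_pos rfl]
  simp [zz, len]

theorem Om_hom (hJ : IsJack al J) (H : ∀ n : ℕ, n.Partition → S) (n : ℕ) :
    IsHom n (PowerSeries.coeff n (Om al J H)) := by
  unfold Om
  rw [PowerSeries.coeff_mk]
  refine IsHom_sum _ _ fun θ _ => ?_
  exact IsHom_C_mul _ (E4_map_hom _ (hJ.hom n θ))

theorem Om_zero (hJ : IsJack al J) (H : ∀ n : ℕ, n.Partition → S) (hH : ∀ θ, H 0 θ = 1) :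
    PowerSeries.coeff 0 (Om al J H) = 1 := by
  unfold Om
  rw [PowerSeries.coeff_mk]
  have h1 : ∀ θ : (0 : ℕ).Partition,
      C (algebraMap K S (nrm al J 0 θ)⁻¹ * H 0 θ) * map (algebraMap K S) (J 0 θ) = 1 := by
    intro θ
    unfold nrm
    rw [J_zero hJ θ, hH θ, E4_pair_one, inv_one, map_one, map_one, mul_one, mul_one, C_1]
  rw [Finset.sum_congr rfl fun θ _ => h1 θ]
  simp

theorem omg_J (hJ : IsJack al J) (han : Aniso al) (H : ∀ n : ℕ, n.Partition → S) (n : ℕ)
    (θ : n.Partition) :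
    omg (algebraMap K S al) (Om al J H) (map (algebraMap K S) (J n θ)) = H n θ := by
  have hhom : IsHom n (map (algebraMap K S) (J n θ)) := E4_map_hom _ (hJ.hom n θ)
  rw [omg_eq (Om al J H) (Om_hom hJ H) _ n (fun m hm => (hhom m hm).le)]
  rw [Finset.sum_eq_single_of_mem n (Finset.self_mem_range_succ n)]
  · unfold Om
    rw [PowerSeries.coeff_mk, pair_sum_right]
    rw [Finset.sum_eq_single_of_mem θ (Finset.mem_univ θ)]
    · rw [pair_C_mul_right, ← map_pair]
      have h1 : pair al (J n θ) (J n θ) = nrm al J n θ := rfl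
      have h2 := nrm_ne_zero hJ han n θ
      rw [h1, mul_right_comm, ← map_mul, inv_mul_cancel₀ h2, map_one, one_mul]
    · intro φ _ hφ
      rw [pair_C_mul_right, ← map_pair, hJ.orth n θ φ hφ.symm, map_zero, mul_zero]
  · intro k _ hk
    exact pair_of_ne _ _ _ n k hhom (Om_hom hJ H k) hk.symm

theorem lift_omg (hJ : IsJack al J) (han : Aniso al) (H H' : ∀ n : ℕ, n.Partition → S) :
    lift (omg (algebraMap K S al) (Om al J H')) (Om al J H) =
      PowerSeries.mk fun n => ∑ θ : n.Partition,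
        algebraMap K S (nrm al J n θ)⁻¹ * H n θ * H' n θ := by
  ext n
  rw [coeff_lift, PowerSeries.coeff_mk]
  have h1 : PowerSeries.coeff n (Om al J H) = ∑ θ : n.Partition,
      C (algebraMap K S (nrm al J n θ)⁻¹ * H n θ) * map (algebraMap K S) (J n θ) := by
    unfold Om
    rw [PowerSeries.coeff_mk]
  rw [h1, map_sum]
  refine Finset.sum_congr rfl fun θ _ => ?_
  rw [C_mul', map_smul, omg_J hJ han H' n θ, smul_eq_mul]

theorem omg_one (hJ : IsJack al J) (H : ∀ n : ℕ, n.Partition → S) (hH : ∀ θ, H 0 θ = 1) :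
    omg (algebraMap K S al) (Om al J H) 1 = 1 := by
  classical
  have h1 : ∀ m, (1 : MvPolynomial ℕ S).coeff m ≠ 0 → wt m ≤ 0 := by
    intro m hm
    rw [coeff_one] at hm
    have h2 : 0 = m := by
      by_contra h
      exact hm (if_neg h)
    rw [← h2]
    simp [wt]
  rw [omg_eq (Om al J H) (Om_hom hJ H) _ 0 h1, Finset.sum_range_one, Om_zero hJ H hH,
    E4_pair_one]

end H25BC
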