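import Pool.Agent.H25.BC.N2b
import Pool.Agent.H25.BC.E4

/-!
# Module C1: two groups of alphabets glued along one alphabet

External ring `S2 = K[(inl a, i), (inr c, i)]`.
`jA : K[Option ι × ℕ] → S2[x]`, `(none, i) ↦ X i`, `(some a, i) ↦ C (X (inl a, i))`; `jB` similarly
with `inr`. `HA θ = ∏_{a : ι} J_θ(p^{inl a})`, `HB θ = ∏_{c : κ} J_θ(p^{inr c})`.
Same proofs as in `N1` (`Fintype.prod_option`). `omg_HA`: `lift_omg` and
`Fintype.prod_sum_type`: `HA θ * HB θ = ∏_{ι ⊕ κ}`. `omg_aop_HA`: `aopF (inl a) j` is a derivation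
killing `HB θ`.
-/

open MvPolynomial

namespace H25BC

set_option linter.unusedSectionVars false

variable {K : Type*} [Field K] [CharZero K] {al : K}
  {J : ∀ n : ℕ, n.Partition → MvPolynomial ℕ K} {ι κ : Type*} [Fintype ι] [Fintype κ]

/-- external ring -/
abbrev S2 (K ι κ : Type*) [Field K] : Type _ := MvPolynomial ((ι ⊕ κ) × ℕ) K

noncomputable def jA (K ι κ : Type*) [Field K] :
    MvPolynomial (Option ι × ℕ) K →ₐ[K] MvPolynomial ℕ (S2 K ι κ) :=
  aeval fun s => match s.1 with
    | none => X s.2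
    | some a => C (X (Sum.inl a, s.2))

noncomputable def jB (K ι κ : Type*) [Field K] :
    MvPolynomial (Option κ × ℕ) K →ₐ[K] MvPolynomial ℕ (S2 K ι κ) :=
  aeval fun s => match s.1 with
    | none => X s.2
    | some a => C (X (Sum.inr a, s.2))

noncomputable def HA (κ : Type*) (J : ∀ n : ℕ, n.Partition → MvPolynomial ℕ K) (n : ℕ)
    (θ : n.Partition) : S2 K ι κ :=
  ∏ a : ι, rename (fun i => (Sum.inl a, i)) (J n θ)

noncomputable def HB (ι : Type*) (J : ∀ n : ℕ, n.Partition → MvPolynomial ℕ K) (n : ℕ)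
    (θ : n.Partition) : S2 K ι κ :=
  ∏ a : κ, rename (fun i => (Sum.inr a, i)) (J n θ)

/-- common form of `jA`, `jB` -/
private noncomputable def jj {S : Type*} [CommRing S] [Algebra K S] {ι : Type*} (y : ι → ℕ → S) :
    MvPolynomial (Option ι × ℕ) K →ₐ[K] MvPolynomial ℕ S :=
  aeval fun s => match s.1 with
    | none => X s.2
    | some a => C (y a s.2)

private theorem jj_none {S : Type*} [CommRing S] [Algebra K S] {ι : Type*} (y : ι → ℕ → S)
    (f : MvPolynomial ℕ K) :
    jj y (rename (fun i => ((none : Option ι), i)) f) = map (algebraMap K S) f := by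
  rw [jj, aeval_rename]
  induction f using MvPolynomial.induction_on with
  | C a => rw [aeval_C, map_C]; rfl
  | add p q hp hq => rw [map_add, map_add, hp, hq]
  | mul_X p i hp => rw [map_mul, map_mul, hp, aeval_X, map_X]; rfl

private theorem jj_some {S : Type*} [CommRing S] [Algebra K S] {ι : Type*} (y : ι → ℕ → S)
    (a : ι) (f : MvPolynomial ℕ K) :
    jj y (rename (fun i => (some a, i)) f) = C (aeval (y a) f) := by
  rw [jj, aeval_rename]
  induction f using MvPolynomial.induction_on with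
  | C a => rw [aeval_C, aeval_C]; rfl
  | add p q hp hq => rw [map_add, map_add, hp, hq, map_add]
  | mul_X p i hp => rw [map_mul, map_mul, hp, aeval_X, aeval_X, map_mul]; rfl

private theorem jj_tau {S : Type*} [CommRing S] [Algebra K S] {ι : Type*} [Fintype ι]
    (y : ι → ℕ → S) (al : K) (J : ∀ n : ℕ, n.Partition → MvPolynomial ℕ K) :
    PowerSeries.map ((jj y : MvPolynomial (Option ι × ℕ) K →ₐ[K] MvPolynomial ℕ S) :
      MvPolynomial (Option ι × ℕ) K →+* MvPolynomial ℕ S) (tau (Option ι) al J) =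
      Om al J (fun n θ => ∏ a : ι, aeval (y a) (J n θ)) := by
  ext1 n
  rw [PowerSeries.coeff_map, tau, Om, PowerSeries.coeff_mk, PowerSeries.coeff_mk, map_sum]
  refine Finset.sum_congr rfl fun θ _ => ?_
  rw [map_mul, map_prod, Fintype.prod_option]
  change jj y (C _) * (jj y _ * ∏ a : ι, jj y _) = _
  rw [jj_none]
  have h1 : ∀ a ∈ (Finset.univ : Finset ι),
      jj y (rename (fun i => (some a, i)) (J n θ)) = C (aeval (y a) (J n θ)) :=
    fun a _ => jj_some y a _
  rw [Finset.prod_congr rfl h1, ← map_prod, ← MvPolynomial.algebraMap_eq, AlgHom.commutes, map_mul C]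
  have h2 : algebraMap K (MvPolynomial ℕ S) ((nrm al J n θ)⁻¹) =
      C (algebraMap K S (nrm al J n θ)⁻¹) := rfl
  rw [h2]
  ring

private theorem aopF_none_none (al : K) {ι : Type*} (i k : ℕ) :
    aopF al (none : Option ι) i (X (none, k)) = if k = i then C (al * ((i : K) + 1)) else 0 := by
  classical
  rw [aopF, Derivation.smul_apply, pderiv_X]
  by_cases h : k = i
  · subst h
    rw [if_pos rfl, Pi.single_eq_same, MvPolynomial.smul_eq_C_mul, mul_one]
  · rw [if_neg h, Pi.single_eq_of_ne (by simpa using h), smul_zero]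

private theorem aopF_none_some (al : K) {ι : Type*} (i k : ℕ) (a : ι) :
    aopF al (none : Option ι) i (X (some a, k)) = 0 := by
  classical
  rw [aopF, Derivation.smul_apply, pderiv_X, Pi.single_eq_of_ne (by simp), smul_zero]

private theorem aop_X' {S : Type*} [CommRing S] (al : S) (i k : ℕ) :
    aop al i (X k : MvPolynomial ℕ S) = if k = i then C (al * ((i : S) + 1)) else 0 := by
  rw [aop, Derivation.smul_apply, pderiv_X]
  by_cases h : k = i
  · subst h
    rw [if_pos rfl, Pi.single_eq_same, MvPolynomial.smul_eq_C_mul, mul_one]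
  · rw [if_neg h, Pi.single_eq_of_ne (by omega), smul_zero]

private theorem jj_aop {S : Type*} [CommRing S] [Algebra K S] {ι : Type*}
    (y : ι → ℕ → S) (al : K) (i : ℕ) (f : MvPolynomial (Option ι × ℕ) K) :
    jj y (aopF al none i f) = aop (algebraMap K S al) i (jj y f) := by
  induction f using MvPolynomial.induction_on with
  | C a =>
    have h : jj y (C a : MvPolynomial (Option ι × ℕ) K) = C (algebraMap K S a) := by
      rw [jj, aeval_C]; rfl
    rw [h, ← MvPolynomial.algebraMap_eq, ← MvPolynomial.algebraMap_eq, Derivation.map_algebraMap,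
      Derivation.map_algebraMap, map_zero]
  | add p q hp hq => rw [map_add, map_add, map_add, map_add, hp, hq]
  | mul_X p s hp =>
    rw [Derivation.leibniz, map_mul, Derivation.leibniz, map_add, smul_eq_mul, smul_eq_mul,
      map_mul, map_mul, hp, smul_eq_mul, smul_eq_mul]
    congr 2
    obtain ⟨o, k⟩ := s
    rcases o with _ | a
    · rw [aopF_none_none]
      have h : jj y (X ((none : Option ι), k) : MvPolynomial (Option ι × ℕ) K) = X k := by
        rw [jj, aeval_X]
      rw [h, aop_X']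
      split_ifs
      · rw [jj, aeval_C]
        have h3 : algebraMap K (MvPolynomial ℕ S) (al * ((i : K) + 1)) =
            C (algebraMap K S (al * ((i : K) + 1))) := rfl
        rw [h3, map_mul, map_add, map_natCast, map_one]
      · rw [map_zero]
    · rw [aopF_none_some]
      have h : jj y (X (some a, k) : MvPolynomial (Option ι × ℕ) K) = C (y a k) := by
        rw [jj, aeval_X]
      rw [h, map_zero, ← MvPolynomial.algebraMap_eq,
        Derivation.map_algebraMap (aop (algebraMap K S al) i) (y a k)]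

private theorem aeval_X_eq {σ τ : Type*} (g : σ → τ) (f : MvPolynomial σ K) :
    aeval (fun i => (X (g i) : MvPolynomial τ K)) f = rename g f := by
  induction f using MvPolynomial.induction_on with
  | C a => rw [aeval_C, rename_C]; rfl
  | add p q hp hq => rw [map_add, map_add, hp, hq]
  | mul_X p i hp => rw [map_mul, map_mul, hp, aeval_X, rename_X]

private theorem jA_eq : jA K ι κ = jj (S := S2 K ι κ) (fun a i => X (Sum.inl a, i)) := rfl

private theorem jB_eq : jB K ι κ = jj (S := S2 K ι κ) (fun a i => X (Sum.inr a, i)) := rfl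

private theorem HA_eq : (HA (ι := ι) κ J : ∀ n : ℕ, n.Partition → S2 K ι κ) =
    fun n θ => ∏ a : ι, aeval (fun i => (X (Sum.inl a, i) : S2 K ι κ)) (J n θ) := by
  funext n θ
  rw [HA]
  refine Finset.prod_congr rfl fun a _ => ?_
  exact (aeval_X_eq _ _).symm

private theorem HB_eq : (HB (κ := κ) ι J : ∀ n : ℕ, n.Partition → S2 K ι κ) =
    fun n θ => ∏ a : κ, aeval (fun i => (X (Sum.inr a, i) : S2 K ι κ)) (J n θ) := by
  funext n θ
  rw [HB]
  refine Finset.prod_congr rfl fun a _ => ?_
  exact (aeval_X_eq _ _).symm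

theorem jA_tau :
    PowerSeries.map ((jA K ι κ : MvPolynomial (Option ι × ℕ) K →ₐ[K] MvPolynomial ℕ (S2 K ι κ)) :
      MvPolynomial (Option ι × ℕ) K →+* MvPolynomial ℕ (S2 K ι κ)) (tau (Option ι) al J) =
      Om al J (HA (ι := ι) κ J) := by
  rw [HA_eq, jA_eq]
  exact jj_tau (S := S2 K ι κ) (fun a i => X (Sum.inl a, i)) al J

theorem jB_tau :
    PowerSeries.map ((jB K ι κ : MvPolynomial (Option κ × ℕ) K →ₐ[K] MvPolynomial ℕ (S2 K ι κ)) :
      MvPolynomial (Option κ × ℕ) K →+* MvPolynomial ℕ (S2 K ι κ)) (tau (Option κ) al J) =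
      Om al J (HB (κ := κ) ι J) := by
  rw [HB_eq, jB_eq]
  exact jj_tau (S := S2 K ι κ) (fun a i => X (Sum.inr a, i)) al J

theorem jA_aop (i : ℕ) (f : MvPolynomial (Option ι × ℕ) K) :
    jA K ι κ (aopF al none i f) = aop (algebraMap K (S2 K ι κ) al) i (jA K ι κ f) := by
  rw [jA_eq]
  exact jj_aop (S := S2 K ι κ) (fun a i => X (Sum.inl a, i)) al i f

theorem jB_aop (i : ℕ) (f : MvPolynomial (Option κ × ℕ) K) :
    jB K ι κ (aopF al none i f) = aop (algebraMap K (S2 K ι κ) al) i (jB K ι κ f) := by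
  rw [jB_eq]
  exact jj_aop (S := S2 K ι κ) (fun a i => X (Sum.inr a, i)) al i f

theorem jA_mem (𝒞 : Subsemiring K) (f : MvPolynomial (Option ι × ℕ) K) (hf : f ∈ cS _ 𝒞) :
    jA K ι κ f ∈ cS ℕ (cS ((ι ⊕ κ) × ℕ) 𝒞) := by
  rw [f.as_sum, map_sum]
  refine sum_mem fun m _ => ?_
  rw [jA, aeval_monomial]
  refine mul_mem ?_ ?_
  · exact C_mem_cS ℕ _ (C_mem_cS _ _ (hf m))
  · refine prod_mem fun s _ => pow_mem ?_ _
    obtain ⟨o, k⟩ := s
    rcases o with _ | a
    · exact X_mem_cS ℕ k
    · exact C_mem_cS ℕ _ (X_mem_cS _ _)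

end H25BC
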