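import Pool.Agent.H25.BC.C1

/-!
# Module C1b: the functional for two groups of alphabets

`jA_root`: `aopF (some a) j` acts on `∏_{a : Option ι}` only through the factor `a`; after `jA` this
is `aopF (inl a) j` on `HA θ` (check `jA (aopF al (some a) j f)` against the derivation
`aopF (inl a) j` on coefficients; or induction on `f` as for `jA_aop`).
`omg_HA`: `lift_omg` (module E4) with `S = S2`, `H = HA`, `H' = HB`, and
`Fintype.prod_sum_type`: `HA θ * HB θ = ∏_{ι ⊕ κ}`. `omg_aop_HA`: the same with
`H = aopF (inl a) j (HA θ)`; `aopF (inl a) j` is a derivation killing `HB θ`.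
-/

open MvPolynomial

namespace H25BC

set_option linter.unusedSectionVars false

variable {K : Type*} [Field K] [CharZero K] {al : K}
  {J : ∀ n : ℕ, n.Partition → MvPolynomial ℕ K} {ι κ : Type*} [Fintype ι] [Fintype κ]

private theorem jA_none (f : MvPolynomial ℕ K) :
    jA K ι κ (rename (fun i => ((none : Option ι), i)) f) = map (algebraMap K (S2 K ι κ)) f := by
  rw [jA, aeval_rename]
  induction f using MvPolynomial.induction_on with
  | C a => rw [aeval_C, map_C]; rfl
  | add p q hp hq => rw [map_add, map_add, hp, hq]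
  | mul_X p i hp => rw [map_mul, map_mul, hp, aeval_X, map_X]; rfl

private theorem jA_some (g : MvPolynomial (ι × ℕ) K) :
    jA K ι κ (rename (Prod.map some id) g) =
      C (rename (Prod.map (Sum.inl : ι → ι ⊕ κ) id) g) := by
  rw [jA, aeval_rename]
  induction g using MvPolynomial.induction_on with
  | C a => rw [aeval_C, rename_C]; rfl
  | add p q hp hq => rw [map_add, map_add, hp, hq, map_add]
  | mul_X p i hp => rw [map_mul, map_mul, hp, aeval_X, rename_X, map_mul]; rfl

private theorem pderiv_rename_zero {σ τ : Type*} (g : σ → τ) (x : τ) (hx : ∀ s, g s ≠ x)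
    (f : MvPolynomial σ K) : pderiv x (rename g f) = 0 := by
  classical
  induction f using MvPolynomial.induction_on with
  | C a => rw [rename_C, pderiv_C]
  | add p q hp hq => rw [map_add, map_add, hp, hq, add_zero]
  | mul_X p i hp =>
    rw [map_mul, rename_X, Derivation.leibniz, hp, pderiv_X, Pi.single_eq_of_ne (hx i), smul_zero,
      smul_zero, add_zero]

private theorem aopF_rename {ι' : Type*} (e : ι → ι') (he : Function.Injective e) (a : ι) (j : ℕ)
    (g : MvPolynomial (ι × ℕ) K) :
    aopF al (e a) j (rename (Prod.map e id) g) = rename (Prod.map e id) (aopF al a j g) := by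
  have h : Function.Injective (Prod.map e id : ι × ℕ → ι' × ℕ) :=
    Function.Injective.prodMap he Function.injective_id
  have h2 := pderiv_rename h (a, j) g
  rw [aopF, aopF, Derivation.smul_apply, Derivation.smul_apply, map_smul]
  congr 1

private theorem rename_prod_eq {ι' : Type*} (e : ι → ι') (n : ℕ) (θ : n.Partition) :
    rename (Prod.map e id) (∏ a : ι, rename (fun i => (a, i)) (J n θ)) =
      ∏ a : ι, rename (fun i => (e a, i)) (J n θ) := by
  rw [map_prod]
  refine Finset.prod_congr rfl fun a _ => ?_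
  rw [rename_rename]
  rfl

theorem jA_root (a : ι) (j : ℕ) :
    PowerSeries.map ((jA K ι κ : MvPolynomial (Option ι × ℕ) K →ₐ[K] MvPolynomial ℕ (S2 K ι κ)) :
      MvPolynomial (Option ι × ℕ) K →+* MvPolynomial ℕ (S2 K ι κ))
        (lift (aopF al (some a) j) (tau (Option ι) al J)) =
      Om al J (fun n θ => aopF al (Sum.inl a) j (HA (ι := ι) κ J n θ)) := by
  ext1 n
  rw [PowerSeries.coeff_map, coeff_lift, tau, Om, PowerSeries.coeff_mk, PowerSeries.coeff_mk,
    map_sum, map_sum]
  refine Finset.sum_congr rfl fun θ _ => ?_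
  rw [Fintype.prod_option, ← rename_prod_eq some n θ]
  set g := ∏ a : ι, rename (fun i => (a, i)) (J n θ) with hg
  have h1 : aopF al (some a) j (C (nrm al J n θ)⁻¹ *
      (rename (fun i => ((none : Option ι), i)) (J n θ) * rename (Prod.map some id) g)) =
      C (nrm al J n θ)⁻¹ * (rename (fun i => ((none : Option ι), i)) (J n θ) *
        rename (Prod.map some id) (aopF al a j g)) := by
    have h2 : aopF al (some a) j (rename (fun i => ((none : Option ι), i)) (J n θ)) = 0 := by
      rw [aopF, Derivation.smul_apply, pderiv_rename_zero _ _ (by intro s hs; simp at hs),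
        smul_zero]
    rw [← MvPolynomial.smul_eq_C_mul, Derivation.map_smul, Derivation.leibniz, h2, smul_zero,
      add_zero, aopF_rename some (Option.some_injective ι), smul_eq_mul,
      MvPolynomial.smul_eq_C_mul]
  rw [h1]
  have h3 : (HA (ι := ι) κ J n θ : S2 K ι κ) = rename (Prod.map Sum.inl id) g := by
    rw [hg, rename_prod_eq]
    rfl
  rw [h3, aopF_rename Sum.inl Sum.inl_injective]
  change jA K ι κ _ = _
  rw [map_mul, map_mul, jA_none, jA_some, ← MvPolynomial.algebraMap_eq, AlgHom.commutes,
    map_mul C]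
  have h4 : algebraMap K (MvPolynomial ℕ (S2 K ι κ)) ((nrm al J n θ)⁻¹) =
      C (algebraMap K (S2 K ι κ) (nrm al J n θ)⁻¹) := rfl
  rw [h4]
  ring

private theorem algMap_eq (c : K) : algebraMap K (S2 K ι κ) c = C c := rfl

theorem omg_HA (hJ : IsJack al J) (han : Aniso al) :
    lift (omg (algebraMap K (S2 K ι κ) al) (Om al J (HB (κ := κ) ι J)))
      (Om al J (HA (ι := ι) κ J)) = tau (ι ⊕ κ) al J := by
  rw [lift_omg hJ han]
  ext1 n
  rw [PowerSeries.coeff_mk, tau, PowerSeries.coeff_mk]
  refine Finset.sum_congr rfl fun θ _ => ?_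
  rw [Fintype.prod_sum_type, algMap_eq, mul_assoc]
  rfl

theorem omg_aop_HA (hJ : IsJack al J) (han : Aniso al) (a : ι) (j : ℕ) :
    lift (omg (algebraMap K (S2 K ι κ) al) (Om al J (HB (κ := κ) ι J)))
      (Om al J (fun n θ => aopF al (Sum.inl a) j (HA (ι := ι) κ J n θ))) =
      lift (aopF al (Sum.inl a) j) (tau (ι ⊕ κ) al J) := by
  rw [lift_omg hJ han]
  ext1 n
  rw [PowerSeries.coeff_mk, coeff_lift, tau, PowerSeries.coeff_mk, map_sum]
  refine Finset.sum_congr rfl fun θ _ => ?_
  have h1 : (∏ a : ι ⊕ κ, rename (fun i => (a, i)) (J n θ)) =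
      (HA (ι := ι) κ J n θ : S2 K ι κ) * HB (κ := κ) ι J n θ := by
    rw [Fintype.prod_sum_type]
    rfl
  have h2 : aopF al (Sum.inl a) j (HB (κ := κ) ι J n θ : S2 K ι κ) = 0 := by
    have h3 : (HB (κ := κ) ι J n θ : S2 K ι κ) =
        rename (Prod.map Sum.inr id) (∏ a : κ, rename (fun i => (a, i)) (J n θ)) := by
      rw [rename_prod_eq]
      rfl
    rw [h3, aopF, Derivation.smul_apply, pderiv_rename_zero _ _ (by
      rintro ⟨c, k⟩ hs
      simp at hs), smul_zero]
  rw [h1, algMap_eq, ← MvPolynomial.smul_eq_C_mul, ← MvPolynomial.smul_eq_C_mul,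
    Derivation.map_smul, Derivation.leibniz, h2, smul_zero, zero_add, smul_eq_mul, smul_mul_assoc,
    mul_comm (HB ι J n θ)]

end H25BC
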