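import Pool.Agent.H25.BC.E1

/-!
# Module E2: the engine

Write `ω A` for `lift ω A`, a power series over `S` with constant coefficient `1`
(`A_0 = 1`, `ω 1 = 1`); for a power series `P` let `E(P)` be the unique series with
`ω(P A) = E(P) ω(A)`; `E` is additive and `S⟦t⟧`-linear.

Claim: for `t' ≤ t` and every polynomial `P ∈ cS ℕ 𝒞` (constant in `t`), the coefficients of `E(P)`
up to `t'` are in `𝒞`. Induction on `t'`, inner induction on the total degree of `P`
(`MvPolynomial.totalDegree`, or on the number of `X` factors of monomials: by linearity `P` is a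
monomial `c x_m` with `c ∈ 𝒞`, induction on `len m`). `P = c`: `E = c`. `P = x_i P'`: for each
`k ≤ t'`, the coefficient `k` of `ω(x_i P' A)` is `ω(x_i P' A_k)`, `P' A_k` has weights at most
`N = wt(P') + t'`, so by `SD` (list `T` for `i, N`) it is `∑_{(c,l) ∈ T} c ω(aword l (P' A_k))`,
and `aword l (P' A) = Q_l A` (`word_twist`). So up to `t'`,
`ω(x_i P' A) = ∑ c ω(Q_l A)`, i.e. `E(x_i P') = ∑_{(c,l)} c E(Q_l)` up to `t'` (multiply by the
inverse of `ω(A)`). Write `Q_l = Q_{l,0} + t R_l`: `E(Q_l) = E(Q_{l,0}) + t E(R_l)`;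
`Q_{l,0} = aword l P'` is in `cS` with total degree at most that of `P'` (inner induction), and
`E(R_l)` up to `t'-1` is a sum of `t^k E(R_{l,k})` with polynomials `R_{l,k} ∈ cS`, `k ≤ t'-1`
(outer induction).
Finally for a power series `P` with `InCt 𝒞 t P`: `E(P) = ∑_k t^k E(P_k)`.
The constant coefficient of `E(P)` is `ω(P_0)`.
-/

open MvPolynomial

namespace H25BC

variable {S : Type*} [CommRing S] {𝒞 : Subsemiring S} {al : S}

private theorem totalDegree_aop_le (al : S) (i : ℕ) (f : MvPolynomial ℕ S) :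
    (aop al i f).totalDegree ≤ f.totalDegree := by
  have h0 : aop al i f = (al * ((i : S) + 1)) • pderiv i f := rfl
  rw [h0]
  refine (totalDegree_smul_le _ _).trans ?_
  have h1 : pderiv i f = ∑ m ∈ f.support, pderiv i (monomial m (f.coeff m)) := by
    conv_lhs => rw [f.as_sum]
    rw [map_sum]
  rw [h1]
  refine totalDegree_finsetSum_le fun m hm => ?_
  rw [pderiv_monomial]
  refine (totalDegree_monomial_le _ _).trans ?_
  refine le_trans ?_ (le_totalDegree hm)
  have h2 : (m - Finsupp.single i 1).degree ≤ m.degree :=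
    Finsupp.degree_mono tsub_le_self
  exact h2

private theorem totalDegree_aword_le (al : S) (l : List ℕ) (f : MvPolynomial ℕ S) :
    (aword al l f).totalDegree ≤ f.totalDegree := by
  induction l with
  | nil => exact le_rfl
  | cons i l ih =>
    have h : aword al (i :: l) f = aop al i (aword al l f) := rfl
    rw [h]
    exact (totalDegree_aop_le al i _).trans ih

private theorem lift_add_lin (ω : MvPolynomial ℕ S →ₗ[S] S)
    (P Q : PowerSeries (MvPolynomial ℕ S)) : lift ω (P + Q) = lift ω P + lift ω Q := by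
  ext n
  simp [coeff_lift]

private theorem lift_C_mul (ω : MvPolynomial ℕ S →ₗ[S] S) (c : S)
    (P : PowerSeries (MvPolynomial ℕ S)) :
    lift ω (PowerSeries.C (C c) * P) = PowerSeries.C c * lift ω P := by
  ext n
  rw [coeff_lift, PowerSeries.coeff_C_mul, PowerSeries.coeff_C_mul, coeff_lift, ← smul_eq_C_mul,
    map_smul, smul_eq_mul]

private theorem lift_X_mul (ω : MvPolynomial ℕ S →ₗ[S] S) (P : PowerSeries (MvPolynomial ℕ S)) :
    lift ω (PowerSeries.X * P) = PowerSeries.X * lift ω P := by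
  ext n
  rw [coeff_lift]
  cases n with
  | zero => rw [PowerSeries.coeff_zero_X_mul, PowerSeries.coeff_zero_X_mul, map_zero]
  | succ n => rw [PowerSeries.coeff_succ_X_mul, PowerSeries.coeff_succ_X_mul, coeff_lift]

/-- the map `P ↦ E(P)` -/
private noncomputable def Eh (ω : MvPolynomial ℕ S →ₗ[S] S)
    (A : PowerSeries (MvPolynomial ℕ S)) : PowerSeries (MvPolynomial ℕ S) →+ PowerSeries S :=
  AddMonoidHom.mk' (fun P => lift ω (P * A) * PowerSeries.invOfUnit (lift ω A) 1) (by
    intro P Q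
    rw [add_mul, lift_add_lin, add_mul])

private theorem Eh_apply (ω : MvPolynomial ℕ S →ₗ[S] S) (A P : PowerSeries (MvPolynomial ℕ S)) :
    Eh ω A P = lift ω (P * A) * PowerSeries.invOfUnit (lift ω A) 1 := rfl

private theorem Eh_C_mul (ω : MvPolynomial ℕ S →ₗ[S] S) (A P : PowerSeries (MvPolynomial ℕ S))
    (c : S) : Eh ω A (PowerSeries.C (C c) * P) = PowerSeries.C c * Eh ω A P := by
  rw [Eh_apply, Eh_apply, mul_assoc, lift_C_mul, mul_assoc]

private theorem Eh_X_mul (ω : MvPolynomial ℕ S →ₗ[S] S) (A P : PowerSeries (MvPolynomial ℕ S)) :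
    Eh ω A (PowerSeries.X * P) = PowerSeries.X * Eh ω A P := by
  rw [Eh_apply, Eh_apply, mul_assoc, lift_X_mul, mul_assoc]

private theorem wt_add (m m' : ℕ →₀ ℕ) : wt (m + m') = wt m + wt m' := by
  unfold wt
  refine Finsupp.sum_add_index' ?_ ?_
  · intro i
    simp
  · intro i x y
    ring

/-- the inner step: constants, given the result for smaller degree -/
private theorem engine_monomial (hal : al ∈ 𝒞) (ω : MvPolynomial ℕ S →ₗ[S] S)
    (hSD : SD 𝒞 al ω) (A : PowerSeries (MvPolynomial ℕ S))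
    (hAw : ∀ n m, (PowerSeries.coeff n A).coeff m ≠ 0 → wt m ≤ n)
    (U : ℕ → PowerSeries (MvPolynomial ℕ S)) (hU : ∀ i, lift (aop al i) A = U i * A)
    (hU0 : ∀ i, PowerSeries.coeff 0 (U i) = 0) (n : ℕ) (hUC : ∀ i, InCt 𝒞 n (U i)) (d : ℕ)
    (ih : ∀ P : PowerSeries (MvPolynomial ℕ S), InCt 𝒞 n P →
      (PowerSeries.coeff 0 P).totalDegree ≤ d → ∀ k ≤ n, PowerSeries.coeff k (Eh ω A P) ∈ 𝒞)
    (i : ℕ) (m' : ℕ →₀ ℕ) (hm' : m'.degree ≤ d) :
    ∀ k ≤ n, PowerSeries.coeff k
      (Eh ω A (PowerSeries.C (X i * monomial m' (1 : S) : MvPolynomial ℕ S))) ∈ 𝒞 := by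
  classical
  set g : MvPolynomial ℕ S := monomial m' 1 with hg
  have hgC : g ∈ cS ℕ 𝒞 := by
    intro m
    rw [hg, coeff_monomial]
    split_ifs
    · exact one_mem _
    · exact zero_mem _
  have hgd : g.totalDegree ≤ d := by
    refine (totalDegree_monomial_le _ _).trans ?_
    exact hm'
  have hgP : InCt 𝒞 n (PowerSeries.C g) := by
    intro k _
    rw [PowerSeries.coeff_C]
    split_ifs
    · exact hgC
    · exact zero_mem _
  obtain ⟨T, hTC, hT⟩ := hSD i (wt m' + n)
  choose Q hQC hQ hQ0 using fun l : List ℕ =>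
    word_twist hal A U hU hU0 n hUC l (PowerSeries.C g) hgP
  have key : ∀ k ≤ n, PowerSeries.coeff k (lift ω (PowerSeries.C (X i * g) * A)) =
      PowerSeries.coeff k
        ((T.map fun t => PowerSeries.C t.1 * lift ω (Q t.2 * A)).sum) := by
    intro k hk
    rw [coeff_lift, PowerSeries.coeff_C_mul, mul_assoc, hT, map_list_sum, List.map_map]
    · congr 1
      refine List.map_congr_left fun t _ => ?_
      rw [Function.comp_apply, PowerSeries.coeff_C_mul, coeff_lift, ← hQ, coeff_lift,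
        PowerSeries.coeff_C_mul]
    · intro p hp
      rw [hg, coeff_monomial_mul'] at hp
      split_ifs at hp with hle
      · rw [one_mul] at hp
        have h1 := hAw _ _ hp
        have h2 : p = m' + (p - m') := (add_tsub_cancel_of_le hle).symm
        rw [h2, wt_add]
        omega
      · exact absurd rfl hp
  have key2 : ∀ k ≤ n, PowerSeries.coeff k (Eh ω A (PowerSeries.C (X i * g))) =
      (T.map fun t => t.1 * PowerSeries.coeff k (Eh ω A (Q t.2))).sum := by
    intro k hk
    have h1 : PowerSeries.coeff k (Eh ω A (PowerSeries.C (X i * g))) =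
        PowerSeries.coeff k ((T.map fun t => PowerSeries.C t.1 * lift ω (Q t.2 * A)).sum *
          PowerSeries.invOfUnit (lift ω A) 1) := by
      rw [Eh_apply, PowerSeries.coeff_mul, PowerSeries.coeff_mul]
      refine Finset.sum_congr rfl fun p hp => ?_
      rw [Finset.HasAntidiagonal.mem_antidiagonal] at hp
      rw [key p.1 (by omega)]
    rw [h1, ← List.sum_map_mul_right, map_list_sum, List.map_map]
    congr 1
    refine List.map_congr_left fun t _ => ?_
    rw [Function.comp_apply, mul_assoc, PowerSeries.coeff_C_mul, Eh_apply]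
  intro k hk
  rw [key2 k hk]
  refine list_sum_mem fun x hx => ?_
  rw [List.mem_map] at hx
  obtain ⟨t, ht, rfl⟩ := hx
  refine mul_mem (hTC t ht) (ih (Q t.2) (hQC t.2) ?_ k hk)
  rw [hQ0, PowerSeries.coeff_zero_C]
  exact (totalDegree_aword_le al t.2 g).trans hgd

private theorem engine_step (hal : al ∈ 𝒞) (ω : MvPolynomial ℕ S →ₗ[S] S) (hω : ω 1 = 1)
    (hSD : SD 𝒞 al ω) (A : PowerSeries (MvPolynomial ℕ S)) (hA0 : PowerSeries.coeff 0 A = 1)
    (hAw : ∀ n m, (PowerSeries.coeff n A).coeff m ≠ 0 → wt m ≤ n)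
    (U : ℕ → PowerSeries (MvPolynomial ℕ S)) (hU : ∀ i, lift (aop al i) A = U i * A)
    (hU0 : ∀ i, PowerSeries.coeff 0 (U i) = 0) (n : ℕ) (hUC : ∀ i, InCt 𝒞 n (U i))
    (hprev : ∀ P : PowerSeries (MvPolynomial ℕ S), (∀ k < n, PowerSeries.coeff k P ∈ cS ℕ 𝒞) →
      ∀ k < n, PowerSeries.coeff k (Eh ω A P) ∈ 𝒞) (d : ℕ) :
    ∀ P : PowerSeries (MvPolynomial ℕ S), InCt 𝒞 n P →
      (PowerSeries.coeff 0 P).totalDegree ≤ d → ∀ k ≤ n, PowerSeries.coeff k (Eh ω A P) ∈ 𝒞 := by
  classical
  have hWA : lift ω A * PowerSeries.invOfUnit (lift ω A) 1 = 1 := by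
    refine PowerSeries.mul_invOfUnit _ _ ?_
    rw [← PowerSeries.coeff_zero_eq_constantCoeff_apply, coeff_lift, hA0, hω]
    rfl
  have hE1 : Eh ω A (PowerSeries.C 1) = 1 := by
    rw [Eh_apply, map_one, one_mul, hWA]
  -- reduction to monomials
  have red : ∀ P : PowerSeries (MvPolynomial ℕ S), InCt 𝒞 n P →
      (∀ m ∈ (PowerSeries.coeff 0 P).support, ∀ k ≤ n,
        PowerSeries.coeff k (Eh ω A (PowerSeries.C (monomial m (1 : S)))) ∈ 𝒞) →
      ∀ k ≤ n, PowerSeries.coeff k (Eh ω A P) ∈ 𝒞 := by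
    intro P hP hmon k hk
    have h1 := PowerSeries.eq_X_mul_shift_add_const P
    rw [h1, map_add, map_add, Eh_X_mul]
    refine add_mem ?_ ?_
    · cases k with
      | zero =>
        rw [PowerSeries.coeff_zero_X_mul]
        exact zero_mem _
      | succ k =>
        rw [PowerSeries.coeff_succ_X_mul]
        refine hprev _ ?_ k (by omega)
        intro j hj
        rw [PowerSeries.coeff_mk]
        exact hP (j + 1) (by omega)
    · rw [← PowerSeries.coeff_zero_eq_constantCoeff_apply]
      set f := PowerSeries.coeff 0 P with hf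
      have h2 : PowerSeries.C f = ∑ m ∈ f.support,
          PowerSeries.C (C (f.coeff m)) * PowerSeries.C (monomial m (1 : S)) := by
        conv_lhs => rw [f.as_sum]
        rw [map_sum]
        refine Finset.sum_congr rfl fun m _ => ?_
        rw [← map_mul, C_mul_monomial, mul_one]
      rw [h2, map_sum, map_sum]
      refine sum_mem fun m hm => ?_
      rw [Eh_C_mul, PowerSeries.coeff_C_mul]
      exact mul_mem (hP 0 (Nat.zero_le _) m) (hmon m hm k hk)
  have one_case : ∀ k : ℕ,
      PowerSeries.coeff k (Eh ω A (PowerSeries.C (monomial 0 (1 : S)))) ∈ 𝒞 := by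
    intro k
    have h3 : (monomial (0 : ℕ →₀ ℕ) (1 : S)) = 1 := rfl
    rw [h3, hE1, PowerSeries.coeff_one]
    split_ifs
    · exact one_mem _
    · exact zero_mem _
  induction d with
  | zero =>
    intro P hP hd
    refine red P hP ?_
    intro m hm k hk
    have h4 : (m.sum fun _ e => e) ≤ 0 := (le_totalDegree hm).trans hd
    have h5 : m = 0 := by
      have h6 : m.degree = 0 := Nat.le_zero.1 h4
      exact (Finsupp.degree_eq_zero_iff m).1 h6
    rw [h5]
    exact one_case k
  | succ d ih =>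
    intro P hP hd
    refine red P hP ?_
    intro m hm k hk
    have h4 : m.degree ≤ d + 1 := (le_totalDegree hm).trans hd
    by_cases h5 : m = 0
    · rw [h5]
      exact one_case k
    · obtain ⟨i, hi⟩ : ∃ i, m i ≠ 0 := by
        by_contra hcon
        push Not at hcon
        exact h5 (Finsupp.ext fun i => by simp [hcon i])
      have h6 : m = Finsupp.single i 1 + (m - Finsupp.single i 1) := by
        refine (add_tsub_cancel_of_le ?_).symm
        rw [Finsupp.single_le_iff]
        omega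
      have h7 : m.degree = 1 + (m - Finsupp.single i 1).degree := by
        conv_lhs => rw [h6]
        rw [map_add, Finsupp.degree_single]
      have h8 : (monomial m (1 : S)) = X i * monomial (m - Finsupp.single i 1) (1 : S) := by
        conv_lhs => rw [h6]
        rw [X, monomial_mul, one_mul]
      rw [h8]
      exact engine_monomial hal ω hSD A hAw U hU hU0 n hUC d ih i _ (by omega) k hk

private theorem engine_main (hal : al ∈ 𝒞) (ω : MvPolynomial ℕ S →ₗ[S] S) (hω : ω 1 = 1)
    (hSD : SD 𝒞 al ω) (A : PowerSeries (MvPolynomial ℕ S)) (hA0 : PowerSeries.coeff 0 A = 1)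
    (hAw : ∀ n m, (PowerSeries.coeff n A).coeff m ≠ 0 → wt m ≤ n)
    (U : ℕ → PowerSeries (MvPolynomial ℕ S)) (hU : ∀ i, lift (aop al i) A = U i * A)
    (hU0 : ∀ i, PowerSeries.coeff 0 (U i) = 0) (n : ℕ) (hUC : ∀ i, InCt 𝒞 n (U i)) :
    ∀ P : PowerSeries (MvPolynomial ℕ S), InCt 𝒞 n P →
      ∀ k ≤ n, PowerSeries.coeff k (Eh ω A P) ∈ 𝒞 := by
  induction n with
  | zero =>
    intro P hP
    refine engine_step hal ω hω hSD A hA0 hAw U hU hU0 0 hUC ?_ _ P hP le_rfl
    intro P _ k hk
    exact absurd hk (Nat.not_lt_zero _)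
  | succ n ihn =>
    intro P hP
    refine engine_step hal ω hω hSD A hA0 hAw U hU hU0 (n + 1) hUC ?_ _ P hP le_rfl
    intro P hP k hk
    refine ihn (fun i k hk => hUC i k (by omega)) P ?_ k (by omega)
    intro j hj
    exact hP j (by omega)

theorem engine (hal : al ∈ 𝒞) (ω : MvPolynomial ℕ S →ₗ[S] S) (hω : ω 1 = 1)
    (hSD : SD 𝒞 al ω) (A : PowerSeries (MvPolynomial ℕ S)) (hA0 : PowerSeries.coeff 0 A = 1)
    (hAw : ∀ n m, (PowerSeries.coeff n A).coeff m ≠ 0 → wt m ≤ n)
    (U : ℕ → PowerSeries (MvPolynomial ℕ S)) (hU : ∀ i, lift (aop al i) A = U i * A)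
    (hU0 : ∀ i, PowerSeries.coeff 0 (U i) = 0) (t : ℕ) (hUC : ∀ i, InCt 𝒞 t (U i))
    (P : PowerSeries (MvPolynomial ℕ S)) (hP : InCt 𝒞 t P) :
    ∃ E : PowerSeries S, (∀ n ≤ t, PowerSeries.coeff n E ∈ 𝒞) ∧
      lift ω (P * A) = E * lift ω A ∧ PowerSeries.coeff 0 E = ω (PowerSeries.coeff 0 P) := by
  have hc : PowerSeries.constantCoeff (lift ω A) = 1 := by
    rw [← PowerSeries.coeff_zero_eq_constantCoeff_apply, coeff_lift, hA0, hω]
  have hWA : lift ω A * PowerSeries.invOfUnit (lift ω A) 1 = 1 := by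
    refine PowerSeries.mul_invOfUnit _ _ ?_
    rw [hc]
    rfl
  refine ⟨Eh ω A P, engine_main hal ω hω hSD A hA0 hAw U hU hU0 t hUC P hP, ?_, ?_⟩
  · rw [Eh_apply, mul_assoc, mul_comm _ (lift ω A), hWA, mul_one]
  · rw [Eh_apply, PowerSeries.coeff_zero_eq_constantCoeff_apply, map_mul,
      PowerSeries.constantCoeff_invOfUnit, inv_one, Units.val_one, mul_one,
      ← PowerSeries.coeff_zero_eq_constantCoeff_apply, coeff_lift,
      PowerSeries.coeff_zero_eq_constantCoeff_apply, map_mul,
      ← PowerSeries.coeff_zero_eq_constantCoeff_apply (φ := A), hA0, mul_one,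
      ← PowerSeries.coeff_zero_eq_constantCoeff_apply]

end H25BC
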