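import Pool.Agent.H25.BC.C1b
import Pool.Agent.H25.BC.E2

/-!
# Module C2: composition

`trc c N 𝒞` = elements of `K[ι × ℕ]` whose coefficients at exponents `m` with
`wt (sec c m) ≤ N` are in `𝒞`; a subsemiring since `wt (sec c ·)` is additive (`wt_add`), so in a
product only coefficients with `wt (sec c ·) ≤ N` of the factors enter.

`compose`: fix `c0 : κ`, `𝒞' = trc (inr c0) N 𝒞 ⊆ S2`. `W i = jB (Us (Option κ) none i)`
satisfies `lift (aop i) (Om HB) = W i * Om HB` (`Us_spec`, `jB_tau`, `jB_aop`) and all its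
coefficients are in `𝒞'`: for `n ≤ N` by `h2`; for `n > N` every monomial has
`wt (sec (some c0)) = n > N` (`Us_weight`). So `SD 𝒞' al ω` (`SD_of_good`). `U i = jA (Us none i)` is
in `𝒞'` up to `N` (`h1`, `jA_mem`, `cS ≤ trc`). `engine` with `P = V = jA (Us (some a) j)`, `t = N`:
`lift ω (V * A) = E * lift ω A`, i.e. (`jA_root`, `Us_spec`, `omg_HA`, `omg_aop_HA`)
`lift (aopF (inl a) j) (tau (ι ⊕ κ)) = E * tau`, so `E = Us (inl a) j` (`Us_unique`), and its
coefficients up to `N` are in `𝒞'`. For `n ≤ N` all monomials of `coeff n E` have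
`wt (sec (inr c0)) = n ≤ N` (`Us_weight`), so the coefficients are in `𝒞`.
-/

open MvPolynomial

namespace H25BC

variable {K : Type*} [Field K] [CharZero K] {al : K}
  {J : ∀ n : ℕ, n.Partition → MvPolynomial ℕ K} {ι κ : Type*} [Fintype ι] [Fintype κ]

private theorem c2_sec_apply {τ : Type*} (c : τ) (m : τ × ℕ →₀ ℕ) (i : ℕ) :
    sec c m i = m (c, i) := rfl

private theorem c2_sec_add {τ : Type*} (c : τ) (m m' : τ × ℕ →₀ ℕ) :
    sec c (m + m') = sec c m + sec c m' := by
  ext i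
  simp only [c2_sec_apply, Finsupp.add_apply]

private theorem c2_sec_zero {τ : Type*} (c : τ) : sec c (0 : τ × ℕ →₀ ℕ) = 0 := by
  ext i
  simp only [c2_sec_apply, Finsupp.zero_apply]

/-- elements with coefficients in `𝒞` at the exponents of weight at most `N` in the alphabet `c` -/
private def trc {τ : Type*} (c : τ) (N : ℕ) (𝒞 : Subsemiring K) :
    Subsemiring (MvPolynomial (τ × ℕ) K) where
  carrier := {f | ∀ m, wt (sec c m) ≤ N → f.coeff m ∈ 𝒞}
  mul_mem' := by
    classical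
    intro f g hf hg m hm
    rw [coeff_mul]
    refine sum_mem fun x hx => ?_
    rw [Finset.HasAntidiagonal.mem_antidiagonal] at hx
    have h1 : wt (sec c x.1) + wt (sec c x.2) ≤ N := by
      rw [← wt_add, ← c2_sec_add, hx]
      exact hm
    exact mul_mem (hf _ (by omega)) (hg _ (by omega))
  one_mem' := by
    classical
    intro m _
    rw [coeff_one]
    split_ifs
    · exact one_mem _
    · exact zero_mem _
  add_mem' := by
    intro f g hf hg m hm
    rw [coeff_add]
    exact add_mem (hf _ hm) (hg _ hm)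
  zero_mem' := by
    intro m _
    rw [coeff_zero]
    exact zero_mem _

omit [CharZero K] in
private theorem c2_le {τ : Type*} (c : τ) (N : ℕ) (𝒞 : Subsemiring K)
    (f : MvPolynomial (τ × ℕ) K) (hf : f ∈ cS (τ × ℕ) 𝒞) : f ∈ trc c N 𝒞 :=
  fun m _ => hf m

omit [CharZero K] [Fintype ι] [Fintype κ] in
private theorem c2_jB_monomial (c0 : κ) (m : Option κ × ℕ →₀ ℕ) :
    ∀ a : K, ∃ (m1 : ℕ →₀ ℕ) (m2 : (ι ⊕ κ) × ℕ →₀ ℕ),
      jB K ι κ (monomial m a) = monomial m1 (monomial m2 a) ∧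
        sec (Sum.inr c0 : ι ⊕ κ) m2 = sec (some c0) m := by
  induction m using Finsupp.induction_linear with
  | zero =>
    intro a
    refine ⟨0, 0, ?_, ?_⟩
    · have h1 : (monomial 0 a : MvPolynomial (Option κ × ℕ) K) = C a := rfl
      rw [h1]
      exact (jB K ι κ).commutes a
    · rw [c2_sec_zero, c2_sec_zero]
  | add x y hx hy =>
    intro a
    obtain ⟨x1, x2, e1, e2⟩ := hx a
    obtain ⟨y1, y2, e3, e4⟩ := hy 1
    refine ⟨x1 + y1, x2 + y2, ?_, ?_⟩
    · have h1 : (monomial (x + y) a : MvPolynomial (Option κ × ℕ) K) =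
          monomial x a * monomial y 1 := by
        rw [monomial_mul, mul_one]
      rw [h1, map_mul, e1, e3, monomial_mul, monomial_mul, mul_one]
    · rw [c2_sec_add, c2_sec_add, e2, e4]
  | single s k =>
    intro a
    have h1 : (monomial (Finsupp.single s k) a : MvPolynomial (Option κ × ℕ) K) =
        C a * X s ^ k := by
      rw [C_mul_X_pow_eq_monomial]
    have h2 : jB K ι κ (C a) = C (C a) := (jB K ι κ).commutes a
    obtain ⟨b, i⟩ := s
    rcases b with _ | b
    · refine ⟨Finsupp.single i k, 0, ?_, ?_⟩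
      · have h3 : jB K ι κ (X (none, i)) = X i := by
          unfold jB
          rw [aeval_X]
        rw [h1, map_mul, map_pow, h2, h3, C_mul_X_pow_eq_monomial]
        rfl
      · rw [c2_sec_zero]
        ext j
        classical
        rw [c2_sec_apply, Finsupp.zero_apply, Finsupp.single_apply, if_neg (by simp)]
    · refine ⟨0, Finsupp.single (Sum.inr b, i) k, ?_, ?_⟩
      · have h3 : jB K ι κ (X (some b, i)) = C (X (Sum.inr b, i)) := by
          unfold jB
          rw [aeval_X]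
        rw [h1, map_mul, map_pow, h2, h3, ← C_pow, ← C_mul, C_mul_X_pow_eq_monomial]
        rfl
      · ext j
        classical
        rw [c2_sec_apply, c2_sec_apply, Finsupp.single_apply, Finsupp.single_apply]
        simp only [Prod.mk.injEq, Sum.inr.injEq, Option.some.injEq]

omit [CharZero K] [Fintype ι] [Fintype κ] in
private theorem c2_jB_mem (𝒞 : Subsemiring K) (N : ℕ) (c0 : κ)
    (f : MvPolynomial (Option κ × ℕ) K)
    (hf : ∀ m, f.coeff m ≠ 0 → wt (sec (some c0) m) ≤ N → f.coeff m ∈ 𝒞) :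
    jB K ι κ f ∈ cS ℕ (trc (Sum.inr c0 : ι ⊕ κ) N 𝒞) := by
  classical
  rw [f.as_sum, map_sum]
  refine sum_mem fun m hm => ?_
  obtain ⟨m1, m2, e1, e2⟩ := c2_jB_monomial (ι := ι) c0 m (f.coeff m)
  rw [e1]
  intro m'
  rw [coeff_monomial]
  split_ifs with h1
  · intro m'' hm''
    rw [coeff_monomial]
    split_ifs with h2
    · apply hf m (mem_support_iff.mp hm)
      rw [← e2, h2]
      exact hm''
    · exact zero_mem _
  · exact zero_mem _

omit [Fintype κ] in
private theorem c2_HA_zero (hJ : IsJack al J) (θ : (0 : ℕ).Partition) :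
    HA (ι := ι) κ J 0 θ = 1 := by
  unfold HA
  refine Finset.prod_eq_one fun a _ => ?_
  rw [J_zero hJ θ, map_one]

omit [Fintype ι] in
private theorem c2_HB_zero (hJ : IsJack al J) (θ : (0 : ℕ).Partition) :
    HB (κ := κ) ι J 0 θ = 1 := by
  unfold HB
  refine Finset.prod_eq_one fun a _ => ?_
  rw [J_zero hJ θ, map_one]

private theorem c2_A_spec (hJ : IsJack al J) (i : ℕ) :
    lift (aop (algebraMap K (S2 K ι κ) al) i) (Om al J (HA (ι := ι) κ J)) =
      PowerSeries.map ((jA K ι κ : MvPolynomial (Option ι × ℕ) K →ₐ[K] MvPolynomial ℕ (S2 K ι κ)) :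
        MvPolynomial (Option ι × ℕ) K →+* MvPolynomial ℕ (S2 K ι κ)) (Us (Option ι) al J none i) *
        Om al J (HA (ι := ι) κ J) := by
  have h1 := congrArg (PowerSeries.map ((jA K ι κ :
    MvPolynomial (Option ι × ℕ) K →ₐ[K] MvPolynomial ℕ (S2 K ι κ)) :
        MvPolynomial (Option ι × ℕ) K →+* MvPolynomial ℕ (S2 K ι κ)))
        (Us_spec (ι := Option ι) hJ none i)
  rw [map_mul, jA_tau] at h1
  rw [← h1, ← jA_tau]
  ext1 n
  rw [coeff_lift, PowerSeries.coeff_map, PowerSeries.coeff_map, coeff_lift]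
  exact (jA_aop i _).symm

private theorem c2_B_spec (hJ : IsJack al J) (i : ℕ) :
    lift (aop (algebraMap K (S2 K ι κ) al) i) (Om al J (HB (κ := κ) ι J)) =
      PowerSeries.map ((jB K ι κ : MvPolynomial (Option κ × ℕ) K →ₐ[K] MvPolynomial ℕ (S2 K ι κ)) :
        MvPolynomial (Option κ × ℕ) K →+* MvPolynomial ℕ (S2 K ι κ)) (Us (Option κ) al J none i) *
        Om al J (HB (κ := κ) ι J) := by
  have h1 := congrArg (PowerSeries.map ((jB K ι κ :
    MvPolynomial (Option κ × ℕ) K →ₐ[K] MvPolynomial ℕ (S2 K ι κ)) :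
        MvPolynomial (Option κ × ℕ) K →+* MvPolynomial ℕ (S2 K ι κ)))
        (Us_spec (ι := Option κ) hJ none i)
  rw [map_mul, jB_tau] at h1
  rw [← h1, ← jB_tau]
  ext1 n
  rw [coeff_lift, PowerSeries.coeff_map, PowerSeries.coeff_map, coeff_lift]
  exact (jB_aop i _).symm

theorem compose (hJ : IsJack al J) (han : Aniso al) (𝒞 : Subsemiring K) (hal : al ∈ 𝒞) (N : ℕ)
    (h1 : Good (Option ι) al J 𝒞 N) (h2 : Good (Option κ) al J 𝒞 N) (c0 : κ) (a : ι) (j n : ℕ)
    (hn : n ≤ N) :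
    PowerSeries.coeff n (Us (ι ⊕ κ) al J (Sum.inl a) j) ∈ cS ((ι ⊕ κ) × ℕ) 𝒞 := by
  classical
  have hal' : algebraMap K (S2 K ι κ) al ∈ trc (Sum.inr c0 : ι ⊕ κ) N 𝒞 := by
    intro m _
    rw [MvPolynomial.algebraMap_eq, coeff_C]
    split_ifs
    · exact hal
    · exact zero_mem _
  have hSD : SD (trc (Sum.inr c0 : ι ⊕ κ) N 𝒞) (algebraMap K (S2 K ι κ) al)
      (omg (algebraMap K (S2 K ι κ) al) (Om al J (HB (κ := κ) ι J))) := by
    refine SD_of_good (Om al J (HB (κ := κ) ι J)) (Om_hom hJ _) (Om_zero hJ _ (c2_HB_zero hJ))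
      (fun i => PowerSeries.map ((jB K ι κ :
        MvPolynomial (Option κ × ℕ) K →ₐ[K] MvPolynomial ℕ (S2 K ι κ)) :
        MvPolynomial (Option κ × ℕ) K →+* MvPolynomial ℕ (S2 K ι κ)) (Us (Option κ) al J none i))
      (fun i => c2_B_spec hJ i) ?_
    intro i k
    rw [PowerSeries.coeff_map]
    refine c2_jB_mem 𝒞 N c0 _ ?_
    intro m hm hw
    by_cases hk : k ≤ N
    · exact h2 none i k hk m
    · have h3 := Us_weight hJ none (some c0) (by simp) i k m hm
      omega
  have hmono : ∀ f : MvPolynomial ℕ (S2 K ι κ), f ∈ cS ℕ (cS ((ι ⊕ κ) × ℕ) 𝒞) →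
      f ∈ cS ℕ (trc (Sum.inr c0 : ι ⊕ κ) N 𝒞) := fun f hf m => c2_le _ _ _ _ (hf m)
  obtain ⟨E, hE1, hE2, _⟩ := engine (𝒞 := trc (Sum.inr c0 : ι ⊕ κ) N 𝒞) hal'
    (omg (algebraMap K (S2 K ι κ) al) (Om al J (HB (κ := κ) ι J)))
    (omg_one hJ _ (c2_HB_zero hJ)) hSD (Om al J (HA (ι := ι) κ J))
    (Om_zero hJ _ (c2_HA_zero hJ))
    (fun k m hm => (Om_hom hJ (HA (ι := ι) κ J) k m hm).le)
    (fun i => PowerSeries.map ((jA K ι κ :
        MvPolynomial (Option ι × ℕ) K →ₐ[K] MvPolynomial ℕ (S2 K ι κ)) :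
        MvPolynomial (Option ι × ℕ) K →+* MvPolynomial ℕ (S2 K ι κ)) (Us (Option ι) al J none i))
    (fun i => c2_A_spec hJ i)
    (fun i => by rw [PowerSeries.coeff_map, Us_zero hJ, map_zero]) N
    (fun i k hk => by
      rw [PowerSeries.coeff_map]
      exact hmono _ (jA_mem 𝒞 _ (h1 none i k hk)))
    (PowerSeries.map ((jA K ι κ :
        MvPolynomial (Option ι × ℕ) K →ₐ[K] MvPolynomial ℕ (S2 K ι κ)) :
        MvPolynomial (Option ι × ℕ) K →+* MvPolynomial ℕ (S2 K ι κ))
          (Us (Option ι) al J (some a) j))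
    (fun k hk => by
      rw [PowerSeries.coeff_map]
      exact hmono _ (jA_mem 𝒞 _ (h1 (some a) j k hk)))
  have h3 : PowerSeries.map ((jA K ι κ :
        MvPolynomial (Option ι × ℕ) K →ₐ[K] MvPolynomial ℕ (S2 K ι κ)) :
        MvPolynomial (Option ι × ℕ) K →+* MvPolynomial ℕ (S2 K ι κ))
          (Us (Option ι) al J (some a) j) * Om al J (HA (ι := ι) κ J) =
      Om al J (fun n θ => aopF al (Sum.inl a) j (HA (ι := ι) κ J n θ)) := by
    rw [← jA_root, Us_spec hJ (some a) j, map_mul, jA_tau]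
  rw [h3, omg_aop_HA hJ han, omg_HA hJ han] at hE2
  have h4 := Us_unique hJ (Sum.inl a : ι ⊕ κ) j E hE2
  rw [← h4]
  intro m
  by_cases hm : (PowerSeries.coeff n E).coeff m = 0
  · rw [hm]
    exact zero_mem _
  · rw [h4] at hm
    have h5 := Us_weight hJ (Sum.inl a : ι ⊕ κ) (Sum.inr c0) (by simp) j n m hm
    exact hE1 n hn m (by omega)

end H25BC
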