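import Pool.Agent.H25.BC.C2

/-!
# Module C3: from three alphabets to any number

`Good_equiv`: `Us_coeff_mem_iff`. Step `m → m+1`: `ι = Fin (m+2)`, `κ = Fin 2`:
`Option ι ≃ Fin (m+3)`, `Option κ ≃ Fin 3`, `ι ⊕ κ ≃ Fin (m+4)`; `compose` gives the roots in `ι`;
`compose` with `ι`, `κ` exchanged and `Equiv.sumComm` gives the roots in `κ`.
-/

open MvPolynomial

namespace H25BC

variable {K : Type*} [Field K] [CharZero K] {al : K}
  {J : ∀ n : ℕ, n.Partition → MvPolynomial ℕ K}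

theorem Good_equiv (hJ : IsJack al J) {ι κ : Type*} [Fintype ι] [Fintype κ] (e : ι ≃ κ)
    (𝒞 : Subsemiring K) (N : ℕ) (h : Good ι al J 𝒞 N) : Good κ al J 𝒞 N := by
  intro a j n hn
  have h1 := (Us_coeff_mem_iff hJ 𝒞 e (e.symm a) j n).mpr (h (e.symm a) j n hn)
  rwa [Equiv.apply_symm_apply] at h1

private theorem good_step (hJ : IsJack al J) (han : Aniso al) (𝒞 : Subsemiring K) (hal : al ∈ 𝒞)
    (N : ℕ) (h3 : Good (Fin 3) al J 𝒞 N) (m : ℕ) (hm : Good (Fin (m + 3)) al J 𝒞 N) :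
    Good (Fin (m + 4)) al J 𝒞 N := by
  have e1 : Fin (m + 3) ≃ Option (Fin (m + 2)) := (finSuccEquiv (m + 2))
  have e2 : Fin 3 ≃ Option (Fin 2) := (finSuccEquiv 2)
  have e3 : Fin (m + 2) ⊕ Fin 2 ≃ Fin (m + 4) := finSumFinEquiv
  have h1 : Good (Option (Fin (m + 2))) al J 𝒞 N := Good_equiv hJ e1 𝒞 N hm
  have h2 : Good (Option (Fin 2)) al J 𝒞 N := Good_equiv hJ e2 𝒞 N h3
  refine Good_equiv hJ e3 𝒞 N ?_
  rintro (a | c) j n hn
  · exact compose hJ han 𝒞 hal N h1 h2 0 a j n hn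
  · have h4 := compose hJ han 𝒞 hal N h2 h1 0 c j n hn
    exact (Us_coeff_mem_iff hJ 𝒞 (Equiv.sumComm (Fin 2) (Fin (m + 2))) (Sum.inl c) j n).mpr h4

theorem good_all (hJ : IsJack al J) (han : Aniso al) (𝒞 : Subsemiring K) (hal : al ∈ 𝒞) (N : ℕ)
    (h : Good (Fin 3) al J 𝒞 N) (m : ℕ) : Good (Fin (m + 3)) al J 𝒞 N := by
  induction m with
  | zero => exact h
  | succ m ih => exact good_step hJ han 𝒞 hal N h m ih

end H25BC
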