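import Mathlib

/-!
# MP_07bfac_co, common definitions (namespace `H25BC`)

Power sums: the variable `X i` of `MvPolynomial ℕ S` is the power sum `p_{i+1}`.
An exponent `m : ℕ →₀ ℕ` is a partition with `m i` parts equal to `i+1`.
-/

open MvPolynomial

namespace H25BC

/-- weight `∑ (i+1) m_i` of an exponent -/
def wt (m : ℕ →₀ ℕ) : ℕ := m.sum fun i k => (i + 1) * k

/-- number of parts of an exponent -/
def len (m : ℕ →₀ ℕ) : ℕ := m.sum fun _ k => k

/-- `z_m = ∏ (i+1)^{m_i} m_i!` -/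
def zz (m : ℕ →₀ ℕ) : ℕ := m.prod fun i k => (i + 1) ^ k * k.factorial

/-- the exponent of a partition: `m i` = number of parts equal to `i+1` -/
noncomputable def expo {n : ℕ} (θ : n.Partition) : ℕ →₀ ℕ :=
  ∑ i ∈ Finset.range n, Finsupp.single i (θ.parts.count (i + 1))

/-- the `i`-th row (`i = 0, 1, ..`), rows sorted decreasingly, `0` beyond the last -/
def row {n : ℕ} (θ : n.Partition) (i : ℕ) : ℕ := (θ.parts.sort (· ≥ ·)).getD i 0

section ring

variable {S : Type*} [CommRing S]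

/-- homogeneous of weight `n` -/
def IsHom (n : ℕ) (f : MvPolynomial ℕ S) : Prop := ∀ m, f.coeff m ≠ 0 → wt m = n

/-- `a_i = (i+1) α ∂/∂p_{i+1}`, the adjoint of the multiplication by `p_{i+1}` -/
noncomputable def aop (al : S) (i : ℕ) : Derivation S (MvPolynomial ℕ S) (MvPolynomial ℕ S) :=
  (al * ((i : S) + 1)) • pderiv i

/-- product of the `a_i` over a list (they commute) -/
noncomputable def aword (al : S) (l : List ℕ) (f : MvPolynomial ℕ S) : MvPolynomial ℕ S :=
  l.foldr (fun i g => aop al i g) f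

/-- the `α`-scalar product `⟨p_m, p_m'⟩ = δ z_m α^{len m}` -/
noncomputable def pair (al : S) (f g : MvPolynomial ℕ S) : S :=
  ∑ m ∈ f.support, f.coeff m * g.coeff m * ((zz m : S) * al ^ len m)

/-- the derivation `D(p_{i+1}) = (i+1) α w^{i+1}` from `S[p]` to `S[p][w]`:
`D f = ∑ w^{i+1} a_i f` -/
noncomputable def DD (al : S) :
    Derivation S (MvPolynomial ℕ S) (Polynomial (MvPolynomial ℕ S)) :=
  mkDerivation S fun i => Polynomial.monomial (i + 1) (C (al * ((i : S) + 1)))

/-- the constant embedding `f ↦ f w^0` as a linear map -/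
noncomputable def Cl (S : Type*) [CommRing S] :
    MvPolynomial ℕ S →ₗ[S] Polynomial (MvPolynomial ℕ S) :=
  (Polynomial.monomial (R := MvPolynomial ℕ S) 0).restrictScalars S

/-- multiplication by `w` as a linear map -/
noncomputable def Xl (S : Type*) [CommRing S] :
    Polynomial (MvPolynomial ℕ S) →ₗ[S] Polynomial (MvPolynomial ℕ S) :=
  LinearMap.mulLeft S (Polynomial.X)

/-- the operator `Λ = ∑ w^{i+1} a_i + ∑ p_{i+1} (lowering by i+1) + b w d/dw`
(Nazarov-Sklyanin, Chapuy-Dolega) -/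
noncomputable def Lam (al b : S) :
    Polynomial (MvPolynomial ℕ S) →ₗ[S] Polynomial (MvPolynomial ℕ S) :=
  Polynomial.lsum fun j =>
    (LinearMap.mulLeft S ((Polynomial.X : Polynomial (MvPolynomial ℕ S)) ^ j)) ∘ₗ
        ((DD al : Derivation S (MvPolynomial ℕ S) (Polynomial (MvPolynomial ℕ S))) :
          MvPolynomial ℕ S →ₗ[S] Polynomial (MvPolynomial ℕ S))
      + ∑ i ∈ Finset.range j,
          ((Polynomial.monomial (R := MvPolynomial ℕ S) (j - 1 - i)).restrictScalars S) ∘ₗ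
            (LinearMap.mulLeft S (X i : MvPolynomial ℕ S))
      + (b * (j : S)) • ((Polynomial.monomial (R := MvPolynomial ℕ S) j).restrictScalars S)

/-- `Θ (w^{j+1} f) = p_{j+1} f`, `Θ (w^0 f) = 0` -/
noncomputable def Theta (S : Type*) [CommRing S] :
    Polynomial (MvPolynomial ℕ S) →ₗ[S] MvPolynomial ℕ S :=
  Polynomial.lsum fun j => if j = 0 then 0 else LinearMap.mulLeft S (X (j - 1) : MvPolynomial ℕ S)

/-- `Mom_l f = coefficient of w^0 in Λ^l f` -/
noncomputable def Mom (al b : S) (l : ℕ) : MvPolynomial ℕ S →ₗ[S] MvPolynomial ℕ S :=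
  (Polynomial.lcoeff (MvPolynomial ℕ S) 0).restrictScalars S ∘ₗ ((Lam al b) ^ l) ∘ₗ Cl S

/-- `G(Λ) = 1 + ∑_{l < L} g_l Λ^{l+1}` -/
noncomputable def Gop (al b : S) (L : ℕ) (g : ℕ → S) :
    Polynomial (MvPolynomial ℕ S) →ₗ[S] Polynomial (MvPolynomial ℕ S) :=
  LinearMap.id + ∑ l ∈ Finset.range L, g l • (Lam al b) ^ (l + 1)

/-- `w G(Λ)` -/
noncomputable def Zop (al b : S) (L : ℕ) (g : ℕ → S) :
    Polynomial (MvPolynomial ℕ S) →ₗ[S] Polynomial (MvPolynomial ℕ S) :=
  Xl S ∘ₗ Gop al b L g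

/-- `B_j = Θ (w G(Λ))^{j+1} ι` -/
noncomputable def Bop (al b : S) (L : ℕ) (g : ℕ → S) (j : ℕ) :
    MvPolynomial ℕ S →ₗ[S] MvPolynomial ℕ S :=
  Theta S ∘ₗ ((Zop al b L g) ^ (j + 1)) ∘ₗ Cl S

/-- product of the `B_j` over a list, applied to `f` -/
noncomputable def Bword (al b : S) (L : ℕ) (g : ℕ → S) (l : List ℕ) (f : MvPolynomial ℕ S) :
    MvPolynomial ℕ S :=
  l.foldr (fun j h => Bop al b L g j h) f

/-- coefficient of `p_1^n`: `p_1 ↦ 1`, `p_i ↦ 0` for `i ≥ 2` -/
noncomputable def eps (S : Type*) [CommRing S] : MvPolynomial ℕ S →ₐ[S] S :=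
  aeval fun i => if i = 0 then 1 else 0

/-- coefficientwise application of a function to a power series -/
noncomputable def lift {M N : Type*} [Semiring M] [Semiring N] (φ : M → N) (A : PowerSeries M) :
    PowerSeries N :=
  PowerSeries.mk fun n => φ (PowerSeries.coeff n A)

/-- polynomials all of whose coefficients are in the subsemiring `𝒞` -/
def cS (σ : Type*) (𝒞 : Subsemiring S) : Subsemiring (MvPolynomial σ S) where
  carrier := {f | ∀ m, f.coeff m ∈ 𝒞}
  mul_mem' := by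
    classical
    intro f g hf hg m
    rw [coeff_mul]
    exact sum_mem fun x _ => mul_mem (hf _) (hg _)
  one_mem' := by
    classical
    intro m
    rw [coeff_one]
    split_ifs
    · exact one_mem _
    · exact zero_mem _
  add_mem' := by
    intro f g hf hg m
    rw [coeff_add]
    exact add_mem (hf _) (hg _)
  zero_mem' := by
    intro m
    rw [coeff_zero]
    exact zero_mem _

/-- coefficients up to `t^n` in `cS ℕ 𝒞` -/
def InCt (𝒞 : Subsemiring S) (n : ℕ) (P : PowerSeries (MvPolynomial ℕ S)) : Prop :=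
  ∀ k ≤ n, PowerSeries.coeff k P ∈ cS ℕ 𝒞

/-- the functional `ω(x_m) = z_m α^{len m} [x_m] Ω_{wt m}`, i.e. `ω(P) = ⟨P, ∑ Ω_n⟩` -/
noncomputable def omg (al : S) (Ω : PowerSeries (MvPolynomial ℕ S)) :
    MvPolynomial ℕ S →ₗ[S] S :=
  (basisMonomials ℕ S).constr S fun m =>
    (zz m : S) * al ^ len m * (PowerSeries.coeff (wt m) Ω).coeff m

/-- Schwinger-Dyson property with coefficients in `𝒞` -/
def SD (𝒞 : Subsemiring S) (al : S) (ω : MvPolynomial ℕ S →ₗ[S] S) : Prop :=
  ∀ i N : ℕ, ∃ T : List (S × List ℕ), (∀ t ∈ T, t.1 ∈ 𝒞) ∧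
    ∀ P : MvPolynomial ℕ S, (∀ m, P.coeff m ≠ 0 → wt m ≤ N) →
      ω (X i * P) = (T.map fun t => t.1 * ω (aword al t.2 P)).sum

end ring

section field

variable {K : Type*} [Field K]

/-- power sums in `N` variables -/
noncomputable def real (N : ℕ) : MvPolynomial ℕ K →ₐ[K] MvPolynomial (Fin N) K :=
  aeval fun i => ∑ k : Fin N, (X k : MvPolynomial (Fin N) K) ^ (i + 1)

/-- the exponent `a` of a monomial in `N` variables is dominated by `θ`: for every set `T` of
variables the sum of the exponents over `T` is at most the sum of the `#T` largest parts of `θ`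
(for `∑ a = n` this is the dominance order between the sorted exponent and `θ`) -/
def Dom {n N : ℕ} (θ : n.Partition) (a : Fin N →₀ ℕ) : Prop :=
  ∀ T : Finset (Fin N), ∑ k ∈ T, a k ≤ ∑ i ∈ Finset.range T.card, row θ i

/-- the family of Jack symmetric functions with parameter `al`, integral normalisation:
homogeneous, orthogonal, triangular for the dominance order in the monomial symmetric functions,
the coefficient of `x_1 ⋯ x_n` is `n!` -/
structure IsJack (al : K) (J : ∀ n : ℕ, n.Partition → MvPolynomial ℕ K) : Prop where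
  hom : ∀ (n : ℕ) (θ : n.Partition), IsHom n (J n θ)
  orth : ∀ (n : ℕ) (θ φ : n.Partition), θ ≠ φ → pair al (J n θ) (J n φ) = 0
  tri : ∀ (n : ℕ) (θ : n.Partition) (a : Fin n →₀ ℕ), (real n (J n θ)).coeff a ≠ 0 → Dom θ a
  norm : ∀ (n : ℕ) (θ : n.Partition),
    (real n (J n θ)).coeff (Finsupp.equivFunOnFinite.symm fun _ => 1) = (n.factorial : K)

/-- the form is anisotropic (also on `S[p][w]`) -/
def Aniso (al : K) : Prop :=
  ∀ (N : ℕ) (f : ℕ → MvPolynomial ℕ K), ∑ j ∈ Finset.range N, pair al (f j) (f j) = 0 →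
    ∀ j < N, f j = 0

/-- `al` is not rational -/
def Irr (al : K) : Prop := ∀ m n : ℤ, (m : K) * al = n → m = 0

/-- norm `j_θ` -/
noncomputable def nrm (al : K) (J : ∀ n : ℕ, n.Partition → MvPolynomial ℕ K) (n : ℕ)
    (θ : n.Partition) : K := pair al (J n θ) (J n θ)

/-- multiset of the contents `α j - i` of the boxes -/
def cont (al : K) {n : ℕ} (θ : n.Partition) : Multiset K :=
  (Multiset.range n).bind fun i : ℕ =>
    (Multiset.range (row θ i)).map fun j : ℕ => al * (j : K) - (i : K)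

variable {S : Type*} [CommRing S] [Algebra K S]

/-- `G(z) = 1 + ∑_{l<L} g_l z^{l+1}` -/
noncomputable def Gval (L : ℕ) (g : ℕ → S) (z : K) : S :=
  1 + ∑ l ∈ Finset.range L, algebraMap K S (z ^ (l + 1)) * g l

/-- content product `f_G(θ) = ∏ G(c)` -/
noncomputable def fG (al : K) (L : ℕ) (g : ℕ → S) (n : ℕ) (θ : n.Partition) : S :=
  ((cont al θ).map (Gval L g)).prod

/-- the matrix of the multiplication by `p_{j+1}` -/
noncomputable def kap (al : K) (J : ∀ n : ℕ, n.Partition → MvPolynomial ℕ K) (j n : ℕ)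
    (θ : n.Partition) (φ : (n + j + 1).Partition) : K :=
  (nrm al J _ φ)⁻¹ * pair al (X j * J n θ) (J _ φ)

/-- `Ω_n = ∑_θ j_θ^{-1} H_θ J_θ(x)` -/
noncomputable def Om (al : K) (J : ∀ n : ℕ, n.Partition → MvPolynomial ℕ K)
    (H : ∀ n : ℕ, n.Partition → S) : PowerSeries (MvPolynomial ℕ S) :=
  PowerSeries.mk fun n => ∑ θ : n.Partition,
    C (algebraMap K S (nrm al J n θ)⁻¹ * H n θ) * map (algebraMap K S) (J n θ)

/-- eigenvalue of `Mom_l` on `J_θ` (see `J2`) -/
noncomputable def Mev (al b : K) (J : ∀ n : ℕ, n.Partition → MvPolynomial ℕ K) (l n : ℕ)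
    (θ : n.Partition) : K :=
  (nrm al J n θ)⁻¹ * pair al (Mom al b l (J n θ)) (J n θ)

/-- Laplace-Beltrami operator `D = (Mom_3 - b Mom_2) / (2 α)` -/
noncomputable def Dop (al b : K) : MvPolynomial ℕ K →ₗ[K] MvPolynomial ℕ K :=
  (2 * al)⁻¹ • (Mom al b 3 - b • Mom al b 2)

/-- its extension to `K[p][w]`: `w^j f ↦ w^j D f + ∑_{i<j} w^{j-i} Λ w^i f` -/
noncomputable def Dext (al b : K) :
    Polynomial (MvPolynomial ℕ K) →ₗ[K] Polynomial (MvPolynomial ℕ K) :=
  Polynomial.lsum fun j =>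
    ((Xl K) ^ j) ∘ₗ Cl K ∘ₗ Dop al b +
      ∑ i ∈ Finset.range j, ((Xl K) ^ (j - i)) ∘ₗ Lam al b ∘ₗ ((Xl K) ^ i) ∘ₗ Cl K

/-- eigenvalue of `D` -/
noncomputable def eev (al b : K) (J : ∀ n : ℕ, n.Partition → MvPolynomial ℕ K) (n : ℕ)
    (θ : n.Partition) : K :=
  (2 * al)⁻¹ * (Mev al b J 3 n θ - b * Mev al b J 2 n θ)

/-- the form on `K[p][w]` (powers of `w` orthonormal) -/
noncomputable def pairV (al : K) (u v : Polynomial (MvPolynomial ℕ K)) : K :=
  ∑ j ∈ u.support, pair al (u.coeff j) (v.coeff j)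

end field

/-- homogeneous of total weight `n` (weight of `p_{i+1}` is `i+1`, weight of `w` is `1`) -/
def HomV {S : Type*} [CommRing S] (n : ℕ) (v : Polynomial (MvPolynomial ℕ S)) : Prop :=
  ∀ j m, (v.coeff j).coeff m ≠ 0 → wt m + j = n

section field2

variable {K : Type*} [Field K]

/-- the exponent vector in `N` variables given by the rows of `θ` -/
noncomputable def rowexp {n : ℕ} (N : ℕ) (θ : n.Partition) : Fin N →₀ ℕ :=
  Finsupp.equivFunOnFinite.symm fun k => row θ k

/-- the rows of `θ` with the entries `0` and `i` exchanged -/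
noncomputable def ex {n : ℕ} (N : ℕ) (θ : n.Partition) (i : Fin (N + 1)) : Fin (N + 1) →₀ ℕ :=
  Finsupp.equivFunOnFinite.symm fun k => row θ (Equiv.swap 0 i k : Fin (N + 1))

/-- the operator `x_j (1 - s_{kj}) / (x_k - x_j)` given on monomials -/
noncomputable def dd {N : ℕ} (k j : Fin N) :
    MvPolynomial (Fin N) K →ₗ[K] MvPolynomial (Fin N) K :=
  (basisMonomials (Fin N) K).constr K fun a =>
    if a j < a k then
      ∑ i ∈ Finset.range (a k - a j),
        monomial (Finsupp.update (Finsupp.update a k (a j + i)) j (a k - i)) (1 : K)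
    else
      - ∑ i ∈ Finset.range (a j - a k),
        monomial (Finsupp.update (Finsupp.update a k (a k + i)) j (a j - i)) (1 : K)

/-- `α x_k ∂_k + ∑_{j ≠ k} x_j (1 - s_{kj}) / (x_k - x_j)` -/
noncomputable def dunkl (al : K) {N : ℕ} (k : Fin N) (g : MvPolynomial (Fin N) K) :
    MvPolynomial (Fin N) K :=
  C al * X k * pderiv k g + ∑ j ∈ Finset.univ.erase k, dd k j g

/-- `w ↦ x_k`, `p_i ↦` power sums in `N` variables -/
noncomputable def realV {N : ℕ} (k : Fin N) :
    Polynomial (MvPolynomial ℕ K) →+* MvPolynomial (Fin N) K :=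
  Polynomial.eval₂RingHom ((real N : MvPolynomial ℕ K →ₐ[K] MvPolynomial (Fin N) K) :
    MvPolynomial ℕ K →+* MvPolynomial (Fin N) K) (X k)

/-- all exponents of `g` are dominated by `θ` -/
def Tri {n N : ℕ} (θ : n.Partition) (g : MvPolynomial (Fin N) K) : Prop :=
  ∀ a, g.coeff a ≠ 0 → Dom θ a

/-- generating series of the eigenvalues of `Mom_l` -/
noncomputable def Mser (al b : K) (J : ∀ n : ℕ, n.Partition → MvPolynomial ℕ K) (n : ℕ)
    (θ : n.Partition) : PowerSeries K :=
  PowerSeries.mk fun l => Mev al b J l n θ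

/-- `(1 - c t)(1 - (c+b) t)` -/
noncomputable def rf (b c : K) : PowerSeries K :=
  (1 - PowerSeries.C c * PowerSeries.X) * (1 - PowerSeries.C (c + b) * PowerSeries.X)

/-- `(1 - (c+α) t)(1 - (c-1) t)` -/
noncomputable def rg (al c : K) : PowerSeries K :=
  (1 - PowerSeries.C (c + al) * PowerSeries.X) * (1 - PowerSeries.C (c - 1) * PowerSeries.X)

/-- a polynomial in `Λ` -/
noncomputable def pL (al b : K) (h : Polynomial K) :
    Polynomial (MvPolynomial ℕ K) →ₗ[K] Polynomial (MvPolynomial ℕ K) :=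
  Polynomial.aeval (R := K) (A := Module.End K (Polynomial (MvPolynomial ℕ K))) (Lam al b) h

end field2

section multi

variable {K : Type*} [Field K] {ι : Type*}

/-- `a_i` for the alphabet `a` -/
noncomputable def aopF (al : K) (a : ι) (i : ℕ) :
    Derivation K (MvPolynomial (ι × ℕ) K) (MvPolynomial (ι × ℕ) K) :=
  (al * ((i : K) + 1)) • pderiv (a, i)

/-- `τ = ∑_n t^n ∑_{θ ⊢ n} j_θ^{-1} ∏_{a} J_θ(p^{(a)})` -/
noncomputable def tau (ι : Type*) [Fintype ι] (al : K)
    (J : ∀ n : ℕ, n.Partition → MvPolynomial ℕ K) : PowerSeries (MvPolynomial (ι × ℕ) K) :=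
  PowerSeries.mk fun n => ∑ θ : n.Partition,
    C (nrm al J n θ)⁻¹ * ∏ a : ι, rename (fun i => (a, i)) (J n θ)

/-- rooted series `U = (a_j τ) / τ` -/
noncomputable def Us (ι : Type*) [Fintype ι] (al : K)
    (J : ∀ n : ℕ, n.Partition → MvPolynomial ℕ K) (a : ι) (j : ℕ) :
    PowerSeries (MvPolynomial (ι × ℕ) K) :=
  lift (aopF al a j) (tau ι al J) * PowerSeries.invOfUnit (tau ι al J) 1

/-- all rooted series have coefficients in `𝒞` up to `t^N` -/
def Good (ι : Type*) [Fintype ι] (al : K)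
    (J : ∀ n : ℕ, n.Partition → MvPolynomial ℕ K) (𝒞 : Subsemiring K) (N : ℕ) : Prop :=
  ∀ (a : ι) (j : ℕ), ∀ n ≤ N, PowerSeries.coeff n (Us ι al J a j) ∈ cS (ι × ℕ) 𝒞

/-- `Ψ = α t (d/dt) log τ = α t τ' / τ` -/
noncomputable def Psi (ι : Type*) [Fintype ι] (al : K)
    (J : ∀ n : ℕ, n.Partition → MvPolynomial ℕ K) : PowerSeries (MvPolynomial (ι × ℕ) K) :=
  (PowerSeries.mk fun n => C (al * (n : K)) * PowerSeries.coeff n (tau ι al J)) *
    PowerSeries.invOfUnit (tau ι al J) 1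

end multi

end H25BC
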