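import Pool.Agent.H25.BC.Def

/-!
# Module E1: coefficients in `𝒞`, coefficientwise operators on power series

`lift φ A` applies `φ` to the coefficients. `lift_mul_der`: Leibniz rule (`PowerSeries.coeff_mul`,
sum over the antidiagonal). `InCt 𝒞 t`: coefficients up to `t` are in `cS ℕ 𝒞`.
`aop` multiplies coefficients by `al (i+1) (m_i+1)`, so it preserves `cS ℕ 𝒞` if `al ∈ 𝒞`
(`natCast_mem`).
`word_twist`: induction on the list: for `l = i :: l'`,
`lift (aword (i :: l')) (P A) = lift (aop i) (Q' A) = (lift (aop i) Q' + U_i Q') A`.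
-/

open MvPolynomial

namespace H25BC

variable {S : Type*} [CommRing S] {𝒞 : Subsemiring S} {al : S}

theorem coeff_lift {M N : Type*} [Semiring M] [Semiring N] (φ : M → N) (A : PowerSeries M)
    (n : ℕ) : PowerSeries.coeff n (lift φ A) = φ (PowerSeries.coeff n A) := by
  unfold lift
  rw [PowerSeries.coeff_mk]

private theorem e1_mono_mem (σ : Type*) (m : σ →₀ ℕ) {c : S} (hc : c ∈ 𝒞) :
    monomial m c ∈ cS σ 𝒞 := by
  classical
  intro m'
  rw [coeff_monomial]
  split_ifs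
  · exact hc
  · exact zero_mem _

theorem X_mem_cS (σ : Type*) (i : σ) : (X i : MvPolynomial σ S) ∈ cS σ 𝒞 :=
  e1_mono_mem σ _ (one_mem _)

theorem C_mem_cS (σ : Type*) (c : S) (hc : c ∈ 𝒞) : (C c : MvPolynomial σ S) ∈ cS σ 𝒞 :=
  e1_mono_mem σ _ hc

theorem aop_mem (hal : al ∈ 𝒞) (i : ℕ) (f : MvPolynomial ℕ S) (hf : f ∈ cS ℕ 𝒞) :
    aop al i f ∈ cS ℕ 𝒞 := by
  have h1 : aop al i f = C (al * ((i : S) + 1)) * pderiv i f := by
    rw [← MvPolynomial.smul_eq_C_mul]
    rfl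
  rw [h1]
  refine mul_mem (C_mem_cS ℕ _ (mul_mem hal (add_mem (natCast_mem 𝒞 i) (one_mem _)))) ?_
  rw [← f.support_sum_monomial_coeff, map_sum]
  refine sum_mem fun m _ => ?_
  rw [pderiv_monomial]
  exact e1_mono_mem ℕ _ (mul_mem (hf m) (natCast_mem 𝒞 _))

theorem aword_mem (hal : al ∈ 𝒞) (l : List ℕ) (f : MvPolynomial ℕ S) (hf : f ∈ cS ℕ 𝒞) :
    aword al l f ∈ cS ℕ 𝒞 := by
  induction l with
  | nil => exact hf
  | cons i l ih => exact aop_mem hal i _ ih

/-- Leibniz rule for a derivation applied coefficientwise -/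
theorem lift_mul_der {M : Type*} [CommRing M] (R : Type*) [CommRing R] [Algebra R M]
    (D : Derivation R M M) (A B : PowerSeries M) :
    lift D (A * B) = lift D A * B + A * lift D B := by
  ext n
  rw [coeff_lift, map_add, PowerSeries.coeff_mul, PowerSeries.coeff_mul, PowerSeries.coeff_mul,
    map_sum, ← Finset.sum_add_distrib]
  refine Finset.sum_congr rfl fun x _ => ?_
  rw [Derivation.leibniz, coeff_lift, coeff_lift, smul_eq_mul, smul_eq_mul]
  ring

theorem InCt_mul (t : ℕ) (P Q : PowerSeries (MvPolynomial ℕ S)) (hP : InCt 𝒞 t P)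
    (hQ : InCt 𝒞 t Q) : InCt 𝒞 t (P * Q) := by
  intro k hk
  rw [PowerSeries.coeff_mul]
  refine sum_mem fun x hx => ?_
  have hx' := Finset.HasAntidiagonal.mem_antidiagonal.1 hx
  exact mul_mem (hP _ (by omega)) (hQ _ (by omega))

theorem InCt_add (t : ℕ) (P Q : PowerSeries (MvPolynomial ℕ S)) (hP : InCt 𝒞 t P)
    (hQ : InCt 𝒞 t Q) : InCt 𝒞 t (P + Q) := by
  intro k hk
  rw [map_add]
  exact add_mem (hP k hk) (hQ k hk)

/-- twisted words -/
theorem word_twist (hal : al ∈ 𝒞) (A : PowerSeries (MvPolynomial ℕ S))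
    (U : ℕ → PowerSeries (MvPolynomial ℕ S)) (hU : ∀ i, lift (aop al i) A = U i * A)
    (hU0 : ∀ i, PowerSeries.coeff 0 (U i) = 0) (t : ℕ) (hUC : ∀ i, InCt 𝒞 t (U i))
    (l : List ℕ) (P : PowerSeries (MvPolynomial ℕ S)) (hP : InCt 𝒞 t P) :
    ∃ Q : PowerSeries (MvPolynomial ℕ S), InCt 𝒞 t Q ∧
      lift (aword al l) (P * A) = Q * A ∧
      PowerSeries.coeff 0 Q = aword al l (PowerSeries.coeff 0 P) := by
  induction l with
  | nil =>
    refine ⟨P, hP, ?_, rfl⟩
    ext n : 1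
    rw [coeff_lift]
    rfl
  | cons i l ih =>
    obtain ⟨Q, hQ, e, e0⟩ := ih
    refine ⟨lift (aop al i) Q + Q * U i, InCt_add t _ _ ?_ (InCt_mul t _ _ hQ (hUC i)), ?_, ?_⟩
    · intro k hk
      rw [coeff_lift]
      exact aop_mem hal i _ (hQ k hk)
    · rw [add_mul, mul_assoc, ← hU, ← lift_mul_der S (aop al i) Q A, ← e]
      ext n : 1
      rw [coeff_lift, coeff_lift, coeff_lift]
      rfl
    · have h2 : PowerSeries.coeff 0 (Q * U i) = PowerSeries.coeff 0 Q * PowerSeries.coeff 0 (U i) := by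
        simp only [PowerSeries.coeff_zero_eq_constantCoeff, map_mul]
      rw [map_add, coeff_lift, h2, hU0, mul_zero, add_zero, e0]
      rfl

end H25BC
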