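import Pool.Agent.H25.BC.E1
import Pool.Agent.H25.BC.A2
import Pool.Agent.H25.BC.A6b

/-!
# Module E3: Schwinger-Dyson equations from a good series

`omg_eq`: for a monomial `x_m` both sides are `z_m al^{len m} (Ω_{wt m})_m` (`Ω_n` has only monomials
of weight `n`); linearity in `P`.

`SD_of_good`. Let `P` have weights `≤ N`, `M = N + i + 1`. By `omg_eq`, `pair_X_mul`:
`ω(X_i P) = ∑_{n≤M} pair (X_i P) Ω_n = ∑_{n≤M} pair P (aop i Ω_n)
= ∑_{n≤M} ∑_{k+l=n} pair P (W_{i,k} Ω_l)`, `W_{i,k} = coeff k (W i) = ∑_ρ w_ρ x_ρ` (finite). For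
`x_ρ = ∏_{r ∈ list ρ} X_r`, `pair P (x_ρ Q) = pair (aword (list ρ) P) Q` (iterate `pair_X_mul` and
`pair_comm`; for the list `[r_1,..,r_s]` of `ρ`). If `w_ρ ≠ 0` then `wt ρ + i + 1 = k` (`hWw`), so
`aword (list ρ) P` has weights `≤ N - wt ρ = M - k`, and
`∑_{l ≤ M-k} pair (aword P) Ω_l = ω(aword P)` (`omg_eq`; all `l ≤ M - k` occur). So
`ω(X_i P) = ∑_{k≤M} ∑_ρ w_{k,ρ} ω(aword (list ρ) P)`: the list `T` consists of the pairs
`(w_{k,ρ}, list ρ)`, `k ≤ M`, `ρ ∈ support W_{i,k}`.

`W_hom`: `W i` satisfies the weight condition automatically: induction on `k`: the coefficient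
`k` of `W_i * Ω` is `W_{i,k} + ∑_{l≥1} W_{i,k-l} Ω_l = aop i Ω_k`, all the other terms are
homogeneous of weight `k - i - 1` (or zero if `k < i+1`).
-/

open MvPolynomial

namespace H25BC

variable {S : Type*} [CommRing S] {𝒞 : Subsemiring S} {al : S}

private theorem e3_omg_apply (Ω : PowerSeries (MvPolynomial ℕ S)) (P : MvPolynomial ℕ S) :
    omg al Ω P = ∑ m ∈ P.support,
      P.coeff m * ((zz m : S) * al ^ len m * (PowerSeries.coeff (wt m) Ω).coeff m) := by
  conv_lhs => rw [P.as_sum, map_sum]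
  refine Finset.sum_congr rfl fun m _ => ?_
  have h1 : (monomial m (P.coeff m) : MvPolynomial ℕ S) =
      P.coeff m • (basisMonomials ℕ S m) := by
    rw [coe_basisMonomials, smul_monomial, smul_eq_mul, mul_one]
  rw [h1, map_smul]
  unfold omg
  rw [Module.Basis.constr_basis, smul_eq_mul]

theorem omg_eq (Ω : PowerSeries (MvPolynomial ℕ S)) (hΩ : ∀ n, IsHom n (PowerSeries.coeff n Ω))
    (P : MvPolynomial ℕ S) (N : ℕ) (hP : ∀ m, P.coeff m ≠ 0 → wt m ≤ N) :
    omg al Ω P = ∑ n ∈ Finset.range (N + 1), pair al P (PowerSeries.coeff n Ω) := by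
  rw [e3_omg_apply]
  unfold pair
  rw [Finset.sum_comm]
  refine Finset.sum_congr rfl fun m hm => ?_
  have h1 : wt m ≤ N := hP m (mem_support_iff.mp hm)
  rw [Finset.sum_eq_single (wt m)]
  · ring
  · intro n _ hn
    have h2 : (PowerSeries.coeff n Ω).coeff m = 0 := by
      by_contra h3
      exact hn (hΩ n m h3).symm
    rw [h2]
    ring
  · intro h2
    rw [Finset.mem_range] at h2
    omega

theorem W_hom (Ω : PowerSeries (MvPolynomial ℕ S)) (hΩ : ∀ n, IsHom n (PowerSeries.coeff n Ω))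
    (hΩ0 : PowerSeries.coeff 0 Ω = 1) (i : ℕ) (W : PowerSeries (MvPolynomial ℕ S))
    (hW : lift (aop al i) Ω = W * Ω) (n : ℕ) (m : ℕ →₀ ℕ)
    (h : (PowerSeries.coeff n W).coeff m ≠ 0) : wt m + i + 1 = n := by
  induction n using Nat.strong_induction_on generalizing m with
  | _ n ih =>
    by_contra hne
    apply h
    have h1 := congrArg (PowerSeries.coeff n) hW
    rw [coeff_lift, PowerSeries.coeff_mul,
      ← Finset.add_sum_erase _ _ (by simp : (n, 0) ∈ Finset.HasAntidiagonal.antidiagonal n)] at h1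
    simp only [hΩ0, mul_one] at h1
    have h2 := congrArg (coeff m) h1
    rw [coeff_add, coeff_sum] at h2
    have h3 : coeff m (aop al i (PowerSeries.coeff n Ω)) = 0 := by
      by_cases hn : n < i + 1
      · rw [aop_eq_zero al i (hΩ n) hn, coeff_zero]
      · obtain ⟨n', hn'⟩ : ∃ n', n = n' + i + 1 := ⟨n - i - 1, by omega⟩
        by_contra h4
        have h5 := hΩ n
        rw [hn'] at h5 h4
        have h6 := IsHom_aop al i h5 m h4
        omega
    have h4 : ∑ p ∈ (Finset.HasAntidiagonal.antidiagonal n).erase (n, 0),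
        coeff m (PowerSeries.coeff p.1 W * PowerSeries.coeff p.2 Ω) = 0 := by
      refine Finset.sum_eq_zero fun p hp => ?_
      rw [Finset.mem_erase, Finset.HasAntidiagonal.mem_antidiagonal] at hp
      obtain ⟨hp1, hp2⟩ := hp
      classical
      rw [coeff_mul]
      refine Finset.sum_eq_zero fun x hx => ?_
      rw [Finset.HasAntidiagonal.mem_antidiagonal] at hx
      by_contra h5
      have h6 : (PowerSeries.coeff p.1 W).coeff x.1 ≠ 0 := left_ne_zero_of_mul h5
      have h7 : (PowerSeries.coeff p.2 Ω).coeff x.2 ≠ 0 := right_ne_zero_of_mul h5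
      have h8 : p.1 < n := by
        rcases Nat.lt_or_ge p.1 n with h9 | h9
        · exact h9
        · exfalso
          apply hp1
          ext <;> simp <;> omega
      have h9 := ih p.1 h8 x.1 h6
      have h10 := hΩ p.2 x.2 h7
      have h11 : wt m = wt x.1 + wt x.2 := by rw [← hx, wt_add]
      omega
    rw [h3, h4, add_zero] at h2
    exact h2.symm

end H25BC
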