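import Pool.Agent.H25.BC.E3

/-!
# Module E3b: Schwinger-Dyson equations from a good series

Let `P` have weights `≤ N`, `M = N + i + 1`. By `omg_eq`, `pair_X_mul`:
`ω(X_i P) = ∑_{n≤M} pair (X_i P) Ω_n = ∑_{n≤M} pair P (aop i Ω_n)
= ∑_{n≤M} ∑_{k+l=n} pair P (W_{i,k} Ω_l)`, `W_{i,k} = coeff k (W i) = ∑_ρ w_ρ x_ρ` (finite). For
`x_ρ = ∏_{r ∈ list ρ} X_r`, `pair P (x_ρ Q) = pair (aword (list ρ) P) Q` (iterate `pair_X_mul` and
`pair_comm`; for the list `[r_1,..,r_s]` of `ρ`). If `w_ρ ≠ 0` then `wt ρ + i + 1 = k` (`W_hom`), so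
`aword (list ρ) P` has weights `≤ N - wt ρ = M - k`, and
`∑_{l ≤ M-k} pair (aword P) Ω_l = ω(aword P)` (`omg_eq`; all `l ≤ M - k` occur). So
`ω(X_i P) = ∑_{k≤M} ∑_ρ w_{k,ρ} ω(aword (list ρ) P)`: the list `T` consists of the pairs
`(w_{k,ρ}, list ρ)`, `k ≤ M`, `ρ ∈ support W_{i,k}` (its members are in `𝒞`).
-/

open MvPolynomial

namespace H25BC

variable {S : Type*} [CommRing S] {𝒞 : Subsemiring S} {al : S}

private theorem exists_list (S : Type*) [CommRing S] (ρ : ℕ →₀ ℕ) :
    ∃ l : List ℕ, (monomial ρ (1 : S) : MvPolynomial ℕ S) = (l.map X).prod ∧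
      (l.map (fun r => r + 1)).sum = wt ρ := by
  induction ρ using Finsupp.induction_linear with
  | zero =>
    refine ⟨[], ?_, ?_⟩
    · simp
    · simp [wt]
  | add f g hf hg =>
    obtain ⟨l, h1, h2⟩ := hf
    obtain ⟨l', h1', h2'⟩ := hg
    refine ⟨l ++ l', ?_, ?_⟩
    · rw [List.map_append, List.prod_append, ← h1, ← h1', monomial_mul, one_mul]
    · rw [List.map_append, List.sum_append, h2, h2', wt_add]
  | single a n =>
    refine ⟨List.replicate n a, ?_, ?_⟩
    · rw [List.map_replicate, List.prod_replicate, X_pow_eq_monomial]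
    · rw [List.map_replicate, List.sum_replicate, wt_single, smul_eq_mul, mul_comm]

private theorem pair_list (l : List ℕ) (P Q : MvPolynomial ℕ S) :
    pair al P ((l.map X).prod * Q) = pair al (aword al l P) Q := by
  induction l generalizing Q with
  | nil =>
    rw [List.map_nil, List.prod_nil, one_mul]
    rfl
  | cons i l ih =>
    have h1 : aword al (i :: l) P = aop al i (aword al l P) := rfl
    rw [List.map_cons, List.prod_cons, mul_comm (X i), mul_assoc, ih, pair_comm, pair_X_mul,
      pair_comm, h1]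

private theorem aop_wt (i N : ℕ) (P : MvPolynomial ℕ S) (hP : ∀ m, P.coeff m ≠ 0 → wt m ≤ N)
    (m : ℕ →₀ ℕ) (hm : (aop al i P).coeff m ≠ 0) : wt m + (i + 1) ≤ N := by
  classical
  have h0 : aop al i P = (al * ((i : S) + 1)) • pderiv i P := rfl
  rw [h0, coeff_smul] at hm
  have h1 : (pderiv i P).coeff m ≠ 0 := fun h => hm (by rw [h, smul_zero])
  have h2 : pderiv i P = ∑ s ∈ P.support, pderiv i (monomial s (P.coeff s)) := by
    conv_lhs => rw [P.as_sum]
    rw [map_sum]
  rw [h2, coeff_sum] at h1
  obtain ⟨s, hs, h3⟩ := Finset.exists_ne_zero_of_sum_ne_zero h1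
  rw [pderiv_monomial, coeff_monomial] at h3
  split_ifs at h3 with h4
  · have h5 : s i ≠ 0 := by
      intro h
      apply h3
      rw [h, Nat.cast_zero, mul_zero]
    have h6 : s = m + Finsupp.single i 1 := by
      rw [← h4]
      ext j
      rw [Finsupp.add_apply, Finsupp.tsub_apply]
      by_cases hj : j = i
      · subst hj
        rw [Finsupp.single_eq_same]
        omega
      · rw [Finsupp.single_eq_of_ne hj]
        omega
    have h7 := hP s (mem_support_iff.mp hs)
    rw [h6, wt_add, wt_single, mul_one] at h7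
    exact h7
  · exact absurd rfl h3

private theorem aword_wt (l : List ℕ) (N : ℕ) (P : MvPolynomial ℕ S)
    (hP : ∀ m, P.coeff m ≠ 0 → wt m ≤ N) (m : ℕ →₀ ℕ)
    (hm : (aword al l P).coeff m ≠ 0) : wt m + (l.map (fun r => r + 1)).sum ≤ N := by
  induction l generalizing m with
  | nil => simpa using hP m hm
  | cons i l ih =>
    have h1 : aword al (i :: l) P = aop al i (aword al l P) := rfl
    rw [h1] at hm
    have h2 := aop_wt (al := al) i (N - (l.map (fun r => r + 1)).sum) (aword al l P)
      (fun m' hm' => by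
        have := ih m' hm'
        omega) m hm
    rw [List.map_cons, List.sum_cons]
    omega

private theorem sum_tri {V : Type*} [AddCommMonoid V] (F : ℕ → ℕ → V) (M : ℕ) :
    ∑ n ∈ Finset.range (M + 1), ∑ x ∈ Finset.HasAntidiagonal.antidiagonal n, F x.1 x.2 =
      ∑ k ∈ Finset.range (M + 1), ∑ l ∈ Finset.range (M - k + 1), F k l := by
  induction M with
  | zero => simp
  | succ M ih =>
    rw [Finset.sum_range_succ, ih, Finset.Nat.sum_antidiagonal_eq_sum_range_succ F,
      Finset.sum_range_succ _ (M + 1), Finset.sum_range_succ _ (M + 1), ← add_assoc,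
      ← Finset.sum_add_distrib]
    congr 1
    · refine Finset.sum_congr rfl fun k hk => ?_
      rw [Finset.mem_range] at hk
      rw [show M + 1 - k = M - k + 1 by omega, Finset.sum_range_succ _ (M - k + 1)]
    · simp

theorem SD_of_good (Ω : PowerSeries (MvPolynomial ℕ S))
    (hΩ : ∀ n, IsHom n (PowerSeries.coeff n Ω)) (hΩ0 : PowerSeries.coeff 0 Ω = 1)
    (W : ℕ → PowerSeries (MvPolynomial ℕ S)) (hW : ∀ i, lift (aop al i) Ω = W i * Ω)
    (hWC : ∀ i n, PowerSeries.coeff n (W i) ∈ cS ℕ 𝒞) : SD 𝒞 al (omg al Ω) := by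
  classical
  intro i N
  choose lst hl1 hl2 using exists_list S
  refine ⟨(((Finset.range (N + i + 1 + 1)).sigma
      fun k => (PowerSeries.coeff k (W i)).support).toList).map
      (fun x => ((PowerSeries.coeff x.1 (W i)).coeff x.2, lst x.2)), ?_, ?_⟩
  · intro t ht
    rw [List.mem_map] at ht
    obtain ⟨x, _, rfl⟩ := ht
    exact hWC i x.1 x.2
  · intro P hP
    have hP' : ∀ m, (X i * P : MvPolynomial ℕ S).coeff m ≠ 0 → wt m ≤ N + i + 1 := by
      intro m hm
      rw [coeff_X_mul'] at hm
      split_ifs at hm with h1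
      · have h2 := hP _ hm
        have h3 : m = (m - Finsupp.single i 1) + Finsupp.single i 1 := by
          ext j
          rw [Finsupp.add_apply, Finsupp.tsub_apply]
          by_cases hj : j = i
          · subst hj
            rw [Finsupp.single_eq_same]
            have := Finsupp.mem_support_iff.mp h1
            omega
          · rw [Finsupp.single_eq_of_ne hj]
            omega
        rw [h3, wt_add, wt_single]
        omega
      · exact absurd rfl hm
    rw [omg_eq Ω hΩ _ _ hP', List.map_map, Finset.sum_map_toList, Finset.sum_sigma]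
    have h1 : ∀ n, pair al (X i * P) (PowerSeries.coeff n Ω) =
        ∑ x ∈ Finset.HasAntidiagonal.antidiagonal n,
          pair al P (PowerSeries.coeff x.1 (W i) * PowerSeries.coeff x.2 Ω) := by
      intro n
      rw [pair_X_mul, ← coeff_lift (aop al i), hW, PowerSeries.coeff_mul, pair_sum_right]
    rw [Finset.sum_congr rfl fun n _ => h1 n,
      sum_tri (fun k l => pair al P (PowerSeries.coeff k (W i) * PowerSeries.coeff l Ω))]
    refine Finset.sum_congr rfl fun k hk => ?_
    rw [Finset.mem_range] at hk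
    have h2 : ∀ l, pair al P (PowerSeries.coeff k (W i) * PowerSeries.coeff l Ω) =
        ∑ ρ ∈ (PowerSeries.coeff k (W i)).support, (PowerSeries.coeff k (W i)).coeff ρ *
          pair al (aword al (lst ρ) P) (PowerSeries.coeff l Ω) := by
      intro l
      conv_lhs => rw [(PowerSeries.coeff k (W i)).as_sum]
      rw [Finset.sum_mul, pair_sum_right]
      refine Finset.sum_congr rfl fun ρ _ => ?_
      have h3 : monomial ρ ((PowerSeries.coeff k (W i)).coeff ρ) =
          C ((PowerSeries.coeff k (W i)).coeff ρ) * monomial ρ 1 := by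
        rw [C_mul_monomial, mul_one]
      rw [h3, mul_assoc, pair_C_mul_right, hl1, pair_list]
    rw [Finset.sum_congr rfl fun l _ => h2 l, Finset.sum_comm]
    refine Finset.sum_congr rfl fun ρ hρ => ?_
    rw [← Finset.mul_sum]
    have h3 := W_hom Ω hΩ hΩ0 i (W i) (hW i) k ρ (mem_support_iff.mp hρ)
    have h4 := omg_eq (al := al) Ω hΩ (aword al (lst ρ) P) (N + i + 1 - k) (fun m hm => by
      have := aword_wt (lst ρ) N P hP m hm
      rw [hl2] at this
      omega)
    rw [Function.comp_apply, h4]

end H25BC
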