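import Pool.Agent.H25.BC.N2b

/-!
# Module F1: `Ψ` and the rooted series

* `Psi_spec`: `mul_invOfUnit`.
* `Psi_eq`: for an alphabet `a`, Euler's identity: a polynomial all of whose monomials have
  `wt (sec a m) = n` satisfies `∑_{j<n} (j+1) X_{(a,j)} ∂_{(a,j)} f = n f` (`tau_weight`); so
  `al n tau_n = ∑_{j<n} X_{(a,j)} aopF a j tau_n`. As power series (for the coefficient `n` take
  `j < n`; `Us` has `coeff k (Us a j) = 0` for `k < j+1`, `Us_weight_self`):
  `Ψ τ = (∑_j X_{(a,j)} Us a j) τ` up to any order, so the coefficients agree.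
* `n_Us`: `E = t d/dt` (coefficient `n` multiplied by `n`) is a derivation of power series commuting
  with `lift (aopF a j)`. From `al E τ = Ψ τ`, `aopF τ = U τ`:
  `al E(U) τ + U Ψ τ = al E(U τ) = aopF (al E τ) = aopF(Ψ) τ + Ψ U τ`, so `al E(U) = aopF(Ψ)`, i.e.
  `al n U_n = al (j+1) ∂_{(a,j)} Ψ_n`; cancel `al ≠ 0`. `coeff_Us` is the coefficient form.
-/

open MvPolynomial

namespace H25BC

variable {K : Type*} [Field K] [CharZero K] {al : K}
  {J : ∀ n : ℕ, n.Partition → MvPolynomial ℕ K} {ι : Type*} [Fintype ι]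

private theorem f1_lift {M N : Type*} [Semiring M] [Semiring N] (φ : M → N) (A : PowerSeries M)
    (n : ℕ) : PowerSeries.coeff n (lift φ A) = φ (PowerSeries.coeff n A) := by
  unfold lift
  rw [PowerSeries.coeff_mk]

private theorem f1_const (hJ : IsJack al J) :
    PowerSeries.constantCoeff (tau ι al J) = ((1 : (MvPolynomial (ι × ℕ) K)ˣ) :
      MvPolynomial (ι × ℕ) K) := by
  rw [← PowerSeries.coeff_zero_eq_constantCoeff_apply, tau_zero hJ, Units.val_one]

private theorem f1_cancel (hJ : IsJack al J) {P Q : PowerSeries (MvPolynomial (ι × ℕ) K)}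
    (h : P * tau ι al J = Q * tau ι al J) : P = Q := by
  have h1 := PowerSeries.mul_invOfUnit (tau ι al J) 1 (f1_const hJ)
  calc P = P * tau ι al J * PowerSeries.invOfUnit (tau ι al J) 1 := by
        rw [mul_assoc, h1, mul_one]
    _ = Q := by rw [h, mul_assoc, h1, mul_one]

theorem Psi_spec (hJ : IsJack al J) :
    Psi ι al J * tau ι al J =
      PowerSeries.mk fun n => C (al * (n : K)) * PowerSeries.coeff n (tau ι al J) := by
  unfold Psi
  rw [mul_assoc, PowerSeries.invOfUnit_mul _ _ (f1_const hJ), mul_one]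

omit [CharZero K] [Fintype ι] in
private theorem euler_alpha (a : ι) (n : ℕ) (f : MvPolynomial (ι × ℕ) K)
    (hf : ∀ m, f.coeff m ≠ 0 → wt (sec a m) = n) :
    ∑ j ∈ Finset.range n, X (a, j) * aopF al a j f = C (al * (n : K)) * f := by
  classical
  have h1 : ∀ m : ι × ℕ →₀ ℕ, wt (sec a m) = n →
      ∑ j ∈ Finset.range n, (j + 1) * m (a, j) = n := by
    intro m hm
    have h2 : (sec a m).support ⊆ Finset.range n := by
      intro j hj
      rw [Finset.mem_range]
      have h3 : (j + 1) * (sec a m) j ≤ wt (sec a m) := by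
        rw [wt, Finsupp.sum]
        exact Finset.single_le_sum (f := fun j => (j + 1) * (sec a m) j)
          (fun _ _ => Nat.zero_le _) hj
      have h4 : 1 ≤ (sec a m) j := Nat.one_le_iff_ne_zero.mpr (Finsupp.mem_support_iff.mp hj)
      rw [hm] at h3
      nlinarith
    have h5 := hm
    rw [wt, Finsupp.sum_of_support_subset _ h2 _ (fun i _ => mul_zero _)] at h5
    exact h5
  have h2 : ∀ j, X (a, j) * aopF al a j f = ∑ m ∈ f.support,
      C (al * (((j + 1) * m (a, j) : ℕ) : K)) * monomial m (f.coeff m) := by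
    intro j
    have h0 : aopF al a j f = (al * ((j : K) + 1)) • pderiv (a, j) f := rfl
    rw [h0]
    conv_lhs => rw [f.as_sum]
    rw [map_sum, Finset.smul_sum, Finset.mul_sum]
    refine Finset.sum_congr rfl fun m _ => ?_
    rw [mul_smul_comm, X_mul_pderiv_monomial, ← Nat.cast_smul_eq_nsmul K, smul_smul,
      smul_eq_C_mul]
    congr 2
    push_cast
    ring
  rw [Finset.sum_congr rfl fun j _ => h2 j, Finset.sum_comm]
  conv_rhs => rw [f.as_sum, Finset.mul_sum]
  refine Finset.sum_congr rfl fun m hm => ?_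
  rw [← Finset.sum_mul, ← map_sum, ← Finset.mul_sum, ← Nat.cast_sum,
    h1 m (hf m (mem_support_iff.mp hm))]

theorem Psi_eq (hJ : IsJack al J) (a : ι) (n : ℕ) :
    PowerSeries.coeff n (Psi ι al J) =
      ∑ j ∈ Finset.range n, X (a, j) * PowerSeries.coeff n (Us ι al J a j) := by
  have hU0 : ∀ j k, k ≤ j → PowerSeries.coeff k (Us ι al J a j) = 0 := by
    intro j k hk
    ext m
    rw [coeff_zero]
    by_contra h
    have := Us_weight_self hJ a j k m h
    omega
  have key : (PowerSeries.mk fun n => ∑ j ∈ Finset.range n, X (a, j) *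
      PowerSeries.coeff n (Us ι al J a j)) = Psi ι al J := by
    apply f1_cancel hJ
    rw [Psi_spec hJ]
    ext1 n
    rw [PowerSeries.coeff_mk, PowerSeries.coeff_mul,
      ← euler_alpha a n (PowerSeries.coeff n (tau ι al J)) fun m hm => tau_weight hJ a n m hm]
    have h1 : ∀ x ∈ Finset.HasAntidiagonal.antidiagonal n,
        PowerSeries.coeff x.1 (PowerSeries.mk fun n => ∑ j ∈ Finset.range n, X (a, j) *
          PowerSeries.coeff n (Us ι al J a j)) * PowerSeries.coeff x.2 (tau ι al J) =
        ∑ j ∈ Finset.range n, X (a, j) * (PowerSeries.coeff x.1 (Us ι al J a j) *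
          PowerSeries.coeff x.2 (tau ι al J)) := by
      intro x hx
      have hx' := Finset.HasAntidiagonal.mem_antidiagonal.1 hx
      rw [PowerSeries.coeff_mk, Finset.sum_mul]
      have h2 : Finset.range x.1 ⊆ Finset.range n := by
        intro j hj
        rw [Finset.mem_range] at hj ⊢
        omega
      rw [Finset.sum_subset h2]
      · exact Finset.sum_congr rfl fun j _ => by ring
      · intro j _ hj
        rw [Finset.mem_range, not_lt] at hj
        rw [hU0 j x.1 hj, mul_zero, zero_mul]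
    rw [Finset.sum_congr rfl h1, Finset.sum_comm]
    refine Finset.sum_congr rfl fun j _ => ?_
    rw [← Finset.mul_sum, ← PowerSeries.coeff_mul, ← Us_spec hJ, f1_lift]
  rw [← key, PowerSeries.coeff_mk]

omit [CharZero K] [Fintype ι] in
private theorem f1_mul (D : Derivation K (MvPolynomial (ι × ℕ) K) (MvPolynomial (ι × ℕ) K))
    (A B : PowerSeries (MvPolynomial (ι × ℕ) K)) :
    lift D (A * B) = lift D A * B + A * lift D B := by
  ext1 n
  rw [f1_lift, map_add, PowerSeries.coeff_mul, PowerSeries.coeff_mul, PowerSeries.coeff_mul,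
    map_sum, ← Finset.sum_add_distrib]
  refine Finset.sum_congr rfl fun x _ => ?_
  rw [f1_lift, f1_lift, Derivation.leibniz, smul_eq_mul, smul_eq_mul]
  ring

/-- `t d/dt` -/
private noncomputable def tdt {S : Type*} [CommRing S] (A : PowerSeries S) : PowerSeries S :=
  PowerSeries.mk fun n => (n : S) * PowerSeries.coeff n A

private theorem tdt_mul {S : Type*} [CommRing S] (A B : PowerSeries S) :
    tdt (A * B) = tdt A * B + A * tdt B := by
  ext1 n
  rw [tdt, PowerSeries.coeff_mk, map_add, PowerSeries.coeff_mul, PowerSeries.coeff_mul,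
    PowerSeries.coeff_mul, Finset.mul_sum, ← Finset.sum_add_distrib]
  refine Finset.sum_congr rfl fun x hx => ?_
  have hx' := Finset.HasAntidiagonal.mem_antidiagonal.1 hx
  rw [tdt, tdt, PowerSeries.coeff_mk, PowerSeries.coeff_mk, ← hx', Nat.cast_add]
  ring

theorem n_Us (hJ : IsJack al J) (hal : al ≠ 0) (a : ι) (j n : ℕ) :
    C (n : K) * PowerSeries.coeff n (Us ι al J a j) =
      C ((j : K) + 1) * pderiv (a, j) (PowerSeries.coeff n (Psi ι al J)) := by
  have h1 : Psi ι al J * tau ι al J = PowerSeries.C (C al) * tdt (tau ι al J) := by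
    rw [Psi_spec hJ]
    ext1 n
    rw [PowerSeries.coeff_mk, PowerSeries.coeff_C_mul, tdt, PowerSeries.coeff_mk, C_mul,
      ← mul_assoc, map_natCast]
  have h2 := Us_spec hJ a j
  have h3 : tdt (lift (aopF al a j) (tau ι al J)) = lift (aopF al a j) (tdt (tau ι al J)) := by
    ext1 n
    rw [tdt, PowerSeries.coeff_mk, f1_lift, f1_lift, tdt, PowerSeries.coeff_mk,
      ← nsmul_eq_mul, ← nsmul_eq_mul, map_nsmul]
  have h4 : PowerSeries.C (C al) * lift (aopF al a j) (tdt (tau ι al J)) =
      lift (aopF al a j) (PowerSeries.C (C al) * tdt (tau ι al J)) := by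
    ext1 n
    rw [PowerSeries.coeff_C_mul, f1_lift, f1_lift, PowerSeries.coeff_C_mul, ← smul_eq_C_mul,
      ← smul_eq_C_mul, Derivation.map_smul]
  have h5 : PowerSeries.C (C al) * tdt (Us ι al J a j) = lift (aopF al a j) (Psi ι al J) := by
    apply f1_cancel hJ
    rw [h2, tdt_mul] at h3
    rw [← h3, ← h1, f1_mul, h2] at h4
    have h6 := h1
    linear_combination h4 + (Us ι al J a j) * h6
  have h6 := congrArg (PowerSeries.coeff n) h5
  have h7 : aopF al a j (PowerSeries.coeff n (Psi ι al J)) =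
      (al * ((j : K) + 1)) • pderiv (a, j) (PowerSeries.coeff n (Psi ι al J)) := rfl
  rw [PowerSeries.coeff_C_mul, f1_lift, tdt, PowerSeries.coeff_mk, h7, smul_eq_C_mul, C_mul,
    mul_assoc] at h6
  have h8 : (C al : MvPolynomial (ι × ℕ) K) ≠ 0 := by
    rw [Ne, C_eq_zero]
    exact hal
  have h9 := mul_left_cancel₀ h8 h6
  rw [← h9, map_natCast]

theorem coeff_Us (hJ : IsJack al J) (hal : al ≠ 0) (a : ι) (j n : ℕ) (m : ι × ℕ →₀ ℕ) :
    (n : K) * (PowerSeries.coeff n (Us ι al J a j)).coeff m =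
      ((j : K) + 1) * ((m (a, j) : K) + 1) *
        (PowerSeries.coeff n (Psi ι al J)).coeff (m + Finsupp.single (a, j) 1) := by
  have h1 := congrArg (coeff m) (n_Us hJ hal a j n)
  rw [coeff_C_mul, coeff_C_mul, coeff_pderiv] at h1
  rw [h1]
  ring

end H25BC
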