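import Pool.Agent.H25.BC.N2b
import Pool.Agent.H25.BC.E1

/-!
# Module F2: the coefficients `c`

`cco` is the exponent of a profile `M`; `wt (sec a (pex M)) = n` for every `a`
(`sec a (pex M) = expo (M a)`, `wt_expo`). Fix an alphabet `a0`. For the list `l` of indices of
`expo (M a0)` apply the operators `aopF a0 i`, `i ∈ l`, to `τ`: as in `word_twist`, the result is
`Q τ`, `Q` with coefficients in `𝒞` up to `t^N` (induction on the list:
`aopF (Q τ) = (aopF Q + U Q) τ`). Compare the coefficients of `t^n` at the exponent `m'` = `pex M`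
with the alphabet `a0` removed. Left: `∏_i ((i+1) al)^{λ_i} λ_i! [pex M] τ_n
= zz (expo (M a0)) al^{len} [pex M] τ_n = c`. Right: `∑_{k} Q_k τ_{n-k}`; a monomial without
variables of the alphabet `a0` must come from monomials without them; `τ_{n-k}` has
`wt (sec a0 ·) = n-k` (`tau_weight`), so only `k = n` contributes: `[m'] Q_n ∈ 𝒞`.
-/

open MvPolynomial

namespace H25BC

variable {K : Type*} [Field K] [CharZero K] {al : K}
  {J : ∀ n : ℕ, n.Partition → MvPolynomial ℕ K} {ι : Type*} [Fintype ι]

/-- exponent of a profile: the variable `(a, i)` has the exponent: number of parts `i+1` of `M a` -/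
noncomputable def pex {n : ℕ} (M : ι → n.Partition) : ι × ℕ →₀ ℕ :=
  ∑ a : ι, (expo (M a)).mapDomain (fun i => (a, i))

private theorem f2_expo {n : ℕ} (θ : n.Partition) (i : ℕ) :
    expo θ i = θ.parts.count (i + 1) := by
  unfold expo
  rw [Finsupp.finsetSum_apply]
  simp only [Finsupp.single_apply]
  rw [Finset.sum_ite_eq']
  split_ifs with h
  · rfl
  · symm
    rw [Multiset.count_eq_zero]
    intro hx
    have h3 := Multiset.le_sum_of_mem hx
    rw [θ.parts_sum] at h3
    rw [Finset.mem_range] at h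
    omega

omit [Fintype ι] in
private theorem f2_map_apply [DecidableEq ι] (v : ℕ →₀ ℕ) (c c' : ι) (i : ℕ) :
    v.mapDomain (fun i => (c, i)) (c', i) = if c = c' then v i else 0 := by
  split_ifs with h
  · subst h
    exact Finsupp.mapDomain_apply (fun a b hab => by simpa using hab) v i
  · apply Finsupp.mapDomain_notin_range
    rintro ⟨j, hj⟩
    exact h (congrArg Prod.fst hj)

private theorem f2_pex {n : ℕ} (M : ι → n.Partition) (a : ι) (i : ℕ) :
    pex M (a, i) = expo (M a) i := by
  classical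
  unfold pex
  rw [Finsupp.finsetSum_apply]
  simp only [f2_map_apply]
  rw [Finset.sum_ite_eq']
  simp

theorem pex_apply {n : ℕ} (M : ι → n.Partition) (a : ι) (i : ℕ) :
    pex M (a, i) = (M a).parts.count (i + 1) := by
  rw [f2_pex, f2_expo]

theorem sec_pex {n : ℕ} (M : ι → n.Partition) (a : ι) : sec a (pex M) = expo (M a) := by
  ext i
  exact f2_pex M a i

/-- words in the operators of the alphabet `a` -/
private noncomputable def f2w (al : K) (a : ι) (l : List ℕ) (f : MvPolynomial (ι × ℕ) K) :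
    MvPolynomial (ι × ℕ) K :=
  l.foldr (fun i g => aopF al a i g) f

omit [CharZero K] [Fintype ι] in
private theorem f2_mem {𝒞 : Subsemiring K} (hal : al ∈ 𝒞) (a : ι) (i : ℕ)
    (f : MvPolynomial (ι × ℕ) K) (hf : f ∈ cS (ι × ℕ) 𝒞) : aopF al a i f ∈ cS (ι × ℕ) 𝒞 := by
  intro m
  have h1 : aopF al a i f = (al * ((i : K) + 1)) • pderiv (a, i) f := rfl
  rw [h1, coeff_smul, coeff_pderiv, smul_eq_mul]
  refine mul_mem (mul_mem hal (add_mem (natCast_mem 𝒞 i) (one_mem _))) ?_
  refine mul_mem ?_ ?_
  · first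
      | exact hf _
      | exact add_mem (natCast_mem 𝒞 _) (one_mem _)
  · first
      | exact hf _
      | exact add_mem (natCast_mem 𝒞 _) (one_mem _)

private theorem f2_twist (hJ : IsJack al J) (𝒞 : Subsemiring K) (hal : al ∈ 𝒞) (N : ℕ)
    (h : Good ι al J 𝒞 N) (a : ι) (l : List ℕ) :
    ∃ Q : PowerSeries (MvPolynomial (ι × ℕ) K), (∀ k ≤ N, PowerSeries.coeff k Q ∈ cS _ 𝒞) ∧
      lift (f2w al a l) (tau ι al J) = Q * tau ι al J := by
  induction l with
  | nil =>
    refine ⟨1, ?_, ?_⟩
    · intro k _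
      rw [PowerSeries.coeff_one]
      split_ifs
      · exact one_mem _
      · exact zero_mem _
    · rw [one_mul]
      ext n : 1
      rw [coeff_lift]
      rfl
  | cons i l ih =>
    obtain ⟨Q, hQ, e⟩ := ih
    refine ⟨lift (aopF al a i) Q + Q * Us ι al J a i, ?_, ?_⟩
    · intro k hk
      rw [map_add]
      refine add_mem ?_ ?_
      · rw [coeff_lift]
        exact f2_mem hal a i _ (hQ k hk)
      · rw [PowerSeries.coeff_mul]
        refine sum_mem fun x hx => ?_
        have hx' := Finset.HasAntidiagonal.mem_antidiagonal.1 hx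
        exact mul_mem (hQ _ (by omega)) (h a i _ (by omega))
    · rw [add_mul, mul_assoc, ← Us_spec hJ, ← lift_mul_der K (aopF al a i) Q (tau ι al J), ← e]
      ext n : 1
      rw [coeff_lift, coeff_lift, coeff_lift]
      rfl

omit [Fintype ι] in
private theorem f2_sec_add_single (a : ι) (m : ι × ℕ →₀ ℕ) (i : ℕ) :
    sec a (m + Finsupp.single (a, i) 1) = sec a m + Finsupp.single i 1 := by
  classical
  ext j
  have h1 : sec a (m + Finsupp.single (a, i) 1) j =
      (m + Finsupp.single (a, i) 1 : ι × ℕ →₀ ℕ) (a, j) := rfl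
  have h2 : (sec a m) j = m (a, j) := rfl
  rw [h1, Finsupp.add_apply, Finsupp.add_apply, h2, Finsupp.single_apply, Finsupp.single_apply]
  congr 1
  simp

omit [CharZero K] [Fintype ι] in
private theorem f2_coeff (a : ι) (l : List ℕ) (f : MvPolynomial (ι × ℕ) K) :
    ∀ m : ι × ℕ →₀ ℕ, (zz (sec a m) : K) * al ^ len (sec a m) * (f2w al a l f).coeff m =
      (zz (sec a m + (l.map fun i => Finsupp.single i 1).sum) : K) *
        al ^ len (sec a m + (l.map fun i => Finsupp.single i 1).sum) *
        f.coeff (m + (l.map fun i => Finsupp.single (a, i) 1).sum) := by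
  induction l with
  | nil =>
    intro m
    simp [f2w]
  | cons i l ih =>
    intro m
    have h1 : f2w al a (i :: l) f = (al * ((i : K) + 1)) • pderiv (a, i) (f2w al a l f) := rfl
    have h2 := ih (m + Finsupp.single (a, i) 1)
    rw [f2_sec_add_single] at h2
    have h3 : (sec a m) i = m (a, i) := rfl
    rw [h1, coeff_smul, coeff_pderiv, smul_eq_mul, List.map_cons, List.sum_cons, List.map_cons,
      List.sum_cons, ← add_assoc, ← add_assoc, ← h2, zz_add_single, len_add, len_single, h3]
    push_cast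
    ring

private theorem f2_list (μ : ℕ →₀ ℕ) :
    ∃ l : List ℕ, (l.map fun i => (Finsupp.single i 1 : ℕ →₀ ℕ)).sum = μ := by
  induction μ using Finsupp.induction_linear with
  | zero => exact ⟨[], rfl⟩
  | add f g hf hg =>
    obtain ⟨l, hl⟩ := hf
    obtain ⟨l', hl'⟩ := hg
    exact ⟨l ++ l', by rw [List.map_append, List.sum_append, hl, hl']⟩
  | single i k =>
    refine ⟨List.replicate k i, ?_⟩
    rw [List.map_replicate, List.sum_replicate, Finsupp.smul_single, smul_eq_mul, mul_one]

omit [Fintype ι] in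
private theorem f2_sum_map (a : ι) (l : List ℕ) :
    (l.map fun i => (Finsupp.single (a, i) 1 : ι × ℕ →₀ ℕ)).sum =
      ((l.map fun i => (Finsupp.single i 1 : ℕ →₀ ℕ)).sum).mapDomain (fun i => (a, i)) := by
  induction l with
  | nil => simp
  | cons i l ih =>
    rw [List.map_cons, List.sum_cons, ih, List.map_cons, List.sum_cons, Finsupp.mapDomain_add,
      Finsupp.mapDomain_single]

theorem c_mem (hJ : IsJack al J) (𝒞 : Subsemiring K) (hal : al ∈ 𝒞) (N : ℕ)
    (h : Good ι al J 𝒞 N) (a0 : ι) (n : ℕ) (hn : n ≤ N) (M : ι → n.Partition) :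
    (zz (expo (M a0)) : K) * al ^ len (expo (M a0)) *
      (PowerSeries.coeff n (tau ι al J)).coeff (pex M) ∈ 𝒞 := by
  classical
  obtain ⟨l, hl⟩ := f2_list (expo (M a0))
  obtain ⟨Q, hQ, hQe⟩ := f2_twist hJ 𝒞 hal N h a0 l
  set m' : ι × ℕ →₀ ℕ := ∑ a ∈ Finset.univ.erase a0, (expo (M a)).mapDomain (fun i => (a, i)) with hm'
  have hsec : sec a0 m' = 0 := by
    ext i
    have h1 : sec a0 m' i = m' (a0, i) := rfl
    rw [h1, hm', Finsupp.finsetSum_apply, Finsupp.coe_zero, Pi.zero_apply]
    apply Finset.sum_eq_zero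
    intro a ha
    rw [f2_map_apply, if_neg (Finset.ne_of_mem_erase ha)]
  have h1 := f2_coeff (al := al) a0 l (PowerSeries.coeff n (tau ι al J)) m'
  rw [hsec, hl, f2_sum_map, hl, zero_add] at h1
  have h2 : m' + (expo (M a0)).mapDomain (fun i => (a0, i)) = pex M := by
    rw [hm']
    unfold pex
    exact Finset.sum_erase_add _ _ (Finset.mem_univ a0)
  rw [h2] at h1
  rw [← h1]
  have h3 : (zz (0 : ℕ →₀ ℕ) : K) * al ^ len (0 : ℕ →₀ ℕ) = 1 := by simp [zz, len]
  rw [h3, one_mul]
  have h4 : f2w al a0 l (PowerSeries.coeff n (tau ι al J)) =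
      PowerSeries.coeff n (Q * tau ι al J) := by
    rw [← hQe, coeff_lift]
  rw [h4, PowerSeries.coeff_mul, coeff_sum]
  refine sum_mem fun x hx => ?_
  have hx' := Finset.HasAntidiagonal.mem_antidiagonal.1 hx
  rw [coeff_mul]
  refine sum_mem fun y hy => ?_
  have hy' := Finset.HasAntidiagonal.mem_antidiagonal.1 hy
  by_cases hz : (PowerSeries.coeff x.2 (tau ι al J)).coeff y.2 = 0
  · rw [hz, mul_zero]
    exact zero_mem _
  · have h5 := tau_weight hJ a0 x.2 y.2 hz
    have h6 : sec a0 y.2 = 0 := by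
      ext i
      have h7 : (sec a0 m') i = (sec a0 y.1) i + (sec a0 y.2) i := by
        have : m' (a0, i) = y.1 (a0, i) + y.2 (a0, i) := by
          rw [← hy', Finsupp.add_apply]
        exact this
      rw [hsec, Finsupp.coe_zero, Pi.zero_apply] at h7
      rw [Finsupp.coe_zero, Pi.zero_apply]
      omega
    rw [h6] at h5
    have h8 : x.2 = 0 := by
      rw [← h5]
      simp [wt]
    refine mul_mem (hQ x.1 (by omega) _) ?_
    rw [h8, tau_zero hJ, coeff_one]
    split_ifs
    · exact one_mem _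
    · exact zero_mem _

end H25BC
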