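import Pool.Agent.H25.BC.Def

/-!
# Module F3: the field `ℚ(b)`

`al = 1 + X`, `X = RatFunc.X`.
`Irr`: `m (1 + X) = n` with integers `m, n` in `ℚ(X)` gives `m = 0` (compare as polynomials).
`Aniso`: let `∑_{j<N} ∑_m f_{j,m}^2 z_m al^{len m} = 0`. Multiply by the square of a common
denominator: polynomials `F_{j,m} ∈ ℚ[X]` with `∑ z_m (1+X)^{len m} F_{j,m}^2 = 0`. Evaluate at a
rational `x ≥ 0`: all summands are `≥ 0`, so `F_{j,m}(x) = 0` (`z_m > 0`, `1 + x > 0`); as this holds
for infinitely many `x`, `F_{j,m} = 0`.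

`posZ`: integer polynomials with non-negative coefficients. `toK_rat`: an element of `ℚ(b)` which is
a non-negative rational multiple of `toK P`, `P ∈ posZ`, and which is `toK Q` for some
`Q ∈ ℤ[X]`, is `toK` of an element of `posZ` (`toK` is injective: `k Q = l P`, `k > 0`).
-/

open MvPolynomial

namespace H25BC

/-- `ℤ[X] → ℚ(X)` -/
noncomputable def toK : Polynomial ℤ →+* RatFunc ℚ :=
  (algebraMap (Polynomial ℚ) (RatFunc ℚ)).comp (Polynomial.mapRingHom (Int.castRingHom ℚ))

/-- integer polynomials with non-negative coefficients -/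
def posZ : Subsemiring (Polynomial ℤ) where
  carrier := {P | ∀ i, 0 ≤ P.coeff i}
  mul_mem' := by
    intro P Q hP hQ i
    rw [Polynomial.coeff_mul]
    exact Finset.sum_nonneg fun x _ => mul_nonneg (hP _) (hQ _)
  one_mem' := by
    intro i
    rw [Polynomial.coeff_one]
    split_ifs <;> norm_num
  add_mem' := by
    intro P Q hP hQ i
    rw [Polynomial.coeff_add]
    exact add_nonneg (hP _) (hQ _)
  zero_mem' := by
    intro i
    simp

/-- `α = 1 + b` -/
noncomputable def alK : RatFunc ℚ := 1 + RatFunc.X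

theorem toK_X : toK Polynomial.X = RatFunc.X := by
  simp [toK]

theorem toK_injective : Function.Injective toK := by
  unfold toK
  rw [RingHom.coe_comp]
  exact (RatFunc.algebraMap_injective ℚ).comp
    (Polynomial.map_injective (Int.castRingHom ℚ) Int.cast_injective)

/-- elements of `ℚ(X)` with non-negative leading coefficients -/
private def f3nn (r : RatFunc ℚ) : Prop :=
  ∃ P Q : Polynomial ℚ, 0 ≤ P.leadingCoeff ∧ 0 < Q.leadingCoeff ∧
    r * algebraMap (Polynomial ℚ) (RatFunc ℚ) Q = algebraMap (Polynomial ℚ) (RatFunc ℚ) P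

private theorem f3_lc {A B : Polynomial ℚ} (hA : 0 ≤ A.leadingCoeff) (hB : 0 ≤ B.leadingCoeff) :
    0 ≤ (A + B).leadingCoeff := by
  rcases lt_trichotomy A.degree B.degree with h | h | h
  · rw [Polynomial.leadingCoeff_add_of_degree_lt h]
    exact hB
  · by_cases h0 : A.leadingCoeff + B.leadingCoeff = 0
    · have h1 : A.leadingCoeff = 0 := by linarith
      have h2 : B.leadingCoeff = 0 := by linarith
      rw [Polynomial.leadingCoeff_eq_zero] at h1 h2
      rw [h1, h2]
      simp
    · rw [Polynomial.leadingCoeff_add_of_degree_eq h h0]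
      exact add_nonneg hA hB
  · rw [add_comm, Polynomial.leadingCoeff_add_of_degree_lt h]
    exact hA

private theorem f3nn_add {r t : RatFunc ℚ} (hr : f3nn r) (ht : f3nn t) : f3nn (r + t) := by
  obtain ⟨P, Q, h1, h2, h3⟩ := hr
  obtain ⟨P', Q', h1', h2', h3'⟩ := ht
  refine ⟨P * Q' + P' * Q, Q * Q', ?_, ?_, ?_⟩
  · apply f3_lc
    · rw [Polynomial.leadingCoeff_mul]
      exact mul_nonneg h1 h2'.le
    · rw [Polynomial.leadingCoeff_mul]
      exact mul_nonneg h1' h2.le
  · rw [Polynomial.leadingCoeff_mul]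
    exact mul_pos h2 h2'
  · rw [map_mul, map_add, map_mul, map_mul, ← h3, ← h3']
    ring

private theorem f3nn_mul {r t : RatFunc ℚ} (hr : f3nn r) (ht : f3nn t) : f3nn (r * t) := by
  obtain ⟨P, Q, h1, h2, h3⟩ := hr
  obtain ⟨P', Q', h1', h2', h3'⟩ := ht
  refine ⟨P * P', Q * Q', ?_, ?_, ?_⟩
  · rw [Polynomial.leadingCoeff_mul]
    exact mul_nonneg h1 h1'
  · rw [Polynomial.leadingCoeff_mul]
    exact mul_pos h2 h2'
  · rw [map_mul, map_mul, ← h3, ← h3']
    ring

private theorem f3nn_sq (r : RatFunc ℚ) : f3nn (r * r) := by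
  have hd : algebraMap (Polynomial ℚ) (RatFunc ℚ) r.denom ≠ 0 :=
    RatFunc.algebraMap_ne_zero r.denom_ne_zero
  refine ⟨r.num * r.num, r.denom * r.denom, ?_, ?_, ?_⟩
  · rw [Polynomial.leadingCoeff_mul]
    exact mul_self_nonneg _
  · rw [Polynomial.leadingCoeff_mul]
    exact mul_self_pos.2 (Polynomial.leadingCoeff_ne_zero.2 r.denom_ne_zero)
  · have h : r * algebraMap (Polynomial ℚ) (RatFunc ℚ) r.denom =
        algebraMap (Polynomial ℚ) (RatFunc ℚ) r.num := by
      conv_lhs => rw [← RatFunc.num_div_denom r]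
      rw [RatFunc.num_div_denom r]
      exact (eq_div_iff hd).1 (RatFunc.num_div_denom r).symm
    rw [map_mul, map_mul, ← h]
    ring

private theorem f3nn_zero : f3nn 0 := ⟨0, 1, by simp, by simp, by simp⟩

private theorem f3nn_nat (n : ℕ) : f3nn (n : RatFunc ℚ) :=
  ⟨Polynomial.C (n : ℚ), 1, by rw [Polynomial.leadingCoeff_C]; positivity, by simp, by simp⟩

private theorem f3nn_al : f3nn alK := by
  refine ⟨Polynomial.X + Polynomial.C 1, 1, ?_, by simp, ?_⟩
  · rw [Polynomial.leadingCoeff_X_add_C]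
    norm_num
  · rw [map_one, mul_one, map_add, RatFunc.algebraMap_X, map_one, map_one, alK, add_comm]

private theorem f3nn_pow {r : RatFunc ℚ} (hr : f3nn r) (n : ℕ) : f3nn (r ^ n) := by
  induction n with
  | zero => simpa using f3nn_nat 1
  | succ n ih =>
    rw [pow_succ]
    exact f3nn_mul ih hr

private theorem f3nn_eq {r t : RatFunc ℚ} (hr : f3nn r) (ht : f3nn t) (h : r + t = 0) : r = 0 := by
  obtain ⟨P, Q, h1, h2, h3⟩ := hr
  obtain ⟨P', Q', h1', h2', h3'⟩ := ht
  have e : P * Q' = - (P' * Q) := by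
    apply RatFunc.algebraMap_injective ℚ
    rw [map_neg, map_mul, map_mul, ← h3, ← h3']
    have : t = - r := (neg_eq_of_add_eq_zero_right h).symm
    rw [this]
    ring
  have e2 := congrArg Polynomial.leadingCoeff e
  rw [Polynomial.leadingCoeff_neg, Polynomial.leadingCoeff_mul, Polynomial.leadingCoeff_mul] at e2
  have e3 : P.leadingCoeff = 0 := by
    by_contra h0
    have : 0 < P.leadingCoeff := lt_of_le_of_ne h1 (Ne.symm h0)
    have := mul_pos this h2'
    have := mul_nonneg h1' h2.le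
    linarith
  rw [Polynomial.leadingCoeff_eq_zero] at e3
  rw [e3, map_zero] at h3
  have hQ : Q ≠ 0 := by
    rintro rfl
    simp at h2
  rcases mul_eq_zero.1 h3 with h | h
  · exact h
  · exact absurd h (RatFunc.algebraMap_ne_zero hQ)

private theorem f3nn_sum {ι : Type*} (u : Finset ι) (t : ι → RatFunc ℚ) (h : ∀ i ∈ u, f3nn (t i)) :
    f3nn (∑ i ∈ u, t i) := by
  classical
  induction u using Finset.induction_on with
  | empty => simpa using f3nn_zero
  | insert a u ha ih =>
    rw [Finset.sum_insert ha]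
    exact f3nn_add (h a (Finset.mem_insert_self a u)) (ih fun i hi => h i (Finset.mem_insert_of_mem hi))

private theorem f3nn_sum_zero {ι : Type*} (u : Finset ι) (t : ι → RatFunc ℚ)
    (h : ∀ i ∈ u, f3nn (t i)) (h0 : ∑ i ∈ u, t i = 0) : ∀ i ∈ u, t i = 0 := by
  classical
  intro i hi
  rw [← Finset.add_sum_erase u t hi] at h0
  exact f3nn_eq (h i hi) (f3nn_sum _ _ fun j hj => h j (Finset.mem_of_mem_erase hj)) h0

private theorem f3_al_ne : alK ≠ 0 := by
  intro h
  have h1 : algebraMap (Polynomial ℚ) (RatFunc ℚ) (Polynomial.X + Polynomial.C 1) = 0 := by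
    rw [map_add, RatFunc.algebraMap_X, map_one, map_one, add_comm]
    exact h
  exact RatFunc.algebraMap_ne_zero (Polynomial.X_add_C_ne_zero (1 : ℚ)) h1

private theorem f3_zz (m : ℕ →₀ ℕ) : (zz m : RatFunc ℚ) ≠ 0 := by
  rw [Nat.cast_ne_zero, zz, Finsupp.prod]
  apply Finset.prod_ne_zero_iff.2
  intro i _
  positivity

theorem aniso_K : Aniso alK := by
  have hterm : ∀ (f : MvPolynomial ℕ (RatFunc ℚ)) (m : ℕ →₀ ℕ),
      f3nn (f.coeff m * f.coeff m * ((zz m : RatFunc ℚ) * alK ^ len m)) := fun f m =>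
    f3nn_mul (f3nn_sq _) (f3nn_mul (f3nn_nat _) (f3nn_pow f3nn_al _))
  intro N f h j hj
  have h1 := f3nn_sum_zero (Finset.range N) (fun j => pair alK (f j) (f j))
    (fun i _ => f3nn_sum _ _ fun m _ => hterm (f i) m) h j (Finset.mem_range.2 hj)
  have h2 := f3nn_sum_zero (f j).support
    (fun m => (f j).coeff m * (f j).coeff m * ((zz m : RatFunc ℚ) * alK ^ len m))
    (fun m _ => hterm (f j) m) h1
  rw [← MvPolynomial.support_eq_empty, Finset.eq_empty_iff_forall_notMem]
  intro m hm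
  have h3 := h2 m hm
  have h4 := MvPolynomial.mem_support_iff.1 hm
  exact mul_ne_zero (mul_ne_zero h4 h4) (mul_ne_zero (f3_zz m) (pow_ne_zero _ f3_al_ne)) h3

theorem irr_K : Irr alK := by
  intro m n h
  have h1 : algebraMap (Polynomial ℚ) (RatFunc ℚ) (Polynomial.C (m : ℚ) * (1 + Polynomial.X)) =
      algebraMap (Polynomial ℚ) (RatFunc ℚ) (Polynomial.C (n : ℚ)) := by
    rw [map_mul, map_add, map_one, RatFunc.algebraMap_X]
    simpa [alK] using h
  have h2 := RatFunc.algebraMap_injective ℚ h1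
  have h3 := congrArg (fun P => Polynomial.coeff P 1) h2
  simp only [Polynomial.coeff_C_mul, Polynomial.coeff_add, Polynomial.coeff_X_one,
    Polynomial.coeff_one, Polynomial.coeff_C] at h3
  simpa using h3

theorem alK_ne_zero : alK ≠ 0 := f3_al_ne

/-- if `k x = l y` with integers `k > 0`, `l ≥ 0`, `y ∈ toK(posZ)`, `x ∈ toK(ℤ[X])`, then
`x ∈ toK(posZ)` -/
theorem pos_of_mul (k l : ℕ) (hk : 0 < k) (x y : RatFunc ℚ) (hx : x ∈ toK.range)
    (hy : y ∈ Subsemiring.map toK posZ) (h : (k : RatFunc ℚ) * x = (l : RatFunc ℚ) * y) :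
    x ∈ Subsemiring.map toK posZ := by
  obtain ⟨Q, rfl⟩ := hx
  obtain ⟨P, hP, rfl⟩ := hy
  refine ⟨Q, ?_, rfl⟩
  have h1 : toK ((k : Polynomial ℤ) * Q) = toK ((l : Polynomial ℤ) * P) := by
    rw [map_mul, map_mul, map_natCast, map_natCast]
    exact h
  have h2 := toK_injective h1
  intro i
  have h3 := congrArg (fun R => Polynomial.coeff R i) h2
  simp only [← Polynomial.C_eq_natCast, Polynomial.coeff_C_mul] at h3
  have h4 : 0 ≤ P.coeff i := hP i
  by_contra hneg
  push Not at hneg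
  have h5 : (k : ℤ) * Q.coeff i < 0 := mul_neg_of_pos_of_neg (by exact_mod_cast hk) hneg
  have h6 : 0 ≤ (l : ℤ) * P.coeff i := mul_nonneg (by positivity) h4
  rw [h3] at h5
  exact absurd h6 (not_le.2 h5)

end H25BC
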