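import Pool.Agent.H25.BC.I3
import Pool.Agent.H25.BC.C3
import Pool.Agent.H25.BC.F1
import Pool.Agent.H25.BC.F2
import Pool.Agent.H25.BC.F3

/-!
# Module F4: the final theorems

`R = toK.range` (subring of `K = ℚ(b)`), `alK = toK (1 + X) ∈ R`, `good_three`, `good_all`:
`Good (Fin (m+3)) alK J R N` for all `m, N`.
(1) `h_int`: `Psi_eq` with `a = 0`: `h = ∑_{j<n} [X_{(0,j)} Us_n]_{pex M}` is a sum of coefficients of
`Us`. Strong form: `coeff_Us` at `m = pex M - single (a,j) 1` if `count (j+1) (M a) ≥ 1`, else the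
left side is `0`.
(2) `c_int`: `c_mem`.
(3) `pos`: `NN = Subsemiring.map toK posZ`. Hypothesis: for three alphabets and `n ≤ N` all
coefficients of `Psi_n` at profiles are in `NN` (all exponents `m` with a non-zero coefficient of
`Psi_n` are `pex M`: by `Psi_eq` and `Us_weight`, `Us_weight_self`, each section has weight `n`;
`expo_surj`). By `coeff_Us`, `n * [m] Us_n = (j+1)(m_{(a,j)}+1) * [m + δ] Psi_n`, and
`[m] Us_n ∈ R` by (1); `pos_of_mul` (`n ≥ 1`; `Us_0 = 0`) gives `[m] Us_n ∈ NN`. So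
`Good (Fin 3) alK J NN N`, `good_all`, then `Psi_eq` and `c_mem` with `NN`.
-/

open MvPolynomial

namespace H25BC

/-- the coefficient `h` of a profile -/
noncomputable def hco (J : ∀ n : ℕ, n.Partition → MvPolynomial ℕ (RatFunc ℚ)) (r : ℕ) {n : ℕ}
    (M : Fin r → n.Partition) : RatFunc ℚ :=
  (PowerSeries.coeff n (Psi (Fin r) alK J)).coeff (pex M)

/-- the coefficient `c` of a profile (`λ = M a`) -/
noncomputable def cco (J : ∀ n : ℕ, n.Partition → MvPolynomial ℕ (RatFunc ℚ)) (r : ℕ) {n : ℕ}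
    (M : Fin r → n.Partition) (a : Fin r) : RatFunc ℚ :=
  (zz (expo (M a)) : RatFunc ℚ) * alK ^ len (expo (M a)) *
    (PowerSeries.coeff n (tau (Fin r) alK J)).coeff (pex M)

variable {J : ∀ n : ℕ, n.Partition → MvPolynomial ℕ (RatFunc ℚ)}

private theorem alK_eq : alK = toK (1 + Polynomial.X) := by
  rw [map_add, map_one, toK_X]
  rfl

private theorem alK_mem_range : alK ∈ (toK.range : Subring (RatFunc ℚ)).toSubsemiring := by
  rw [alK_eq]
  exact ⟨_, rfl⟩

private theorem alK_mem_pos : alK ∈ Subsemiring.map toK posZ := by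
  rw [alK_eq]
  refine ⟨_, ?_, rfl⟩
  refine add_mem (one_mem _) ?_
  intro i
  rw [Polynomial.coeff_X]
  split_ifs <;> norm_num

private theorem good_R (hJ : IsJack alK J) (m N : ℕ) :
    Good (Fin (m + 3)) alK J (toK.range : Subring (RatFunc ℚ)).toSubsemiring N :=
  good_all hJ aniso_K _ alK_mem_range N
    (good_three (b := alK - 1) hJ aniso_K rfl alK_ne_zero irr_K toK.range alK_mem_range N) m

private theorem Psi_mem {ι : Type*} [Fintype ι] (hJ : IsJack alK J)
    (𝒞 : Subsemiring (RatFunc ℚ)) (N : ℕ) (h : Good ι alK J 𝒞 N) (a : ι) (n : ℕ) (hn : n ≤ N) :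
    PowerSeries.coeff n (Psi ι alK J) ∈ cS (ι × ℕ) 𝒞 := by
  rw [Psi_eq hJ a n]
  refine sum_mem fun j _ => mul_mem (X_mem_cS _ _) (h a j n hn)

theorem h_int (hJ : IsJack alK J) (m n : ℕ) (M : Fin (m + 3) → n.Partition) :
    hco J (m + 3) M ∈ toK.range :=
  Psi_mem hJ _ n (good_R hJ m n) 0 n le_rfl (pex M)

theorem h_int_strong (hJ : IsJack alK J) (m n : ℕ) (hn : 1 ≤ n) (M : Fin (m + 3) → n.Partition)
    (a : Fin (m + 3)) (j : ℕ) :
    ((j : RatFunc ℚ) + 1) * ((M a).parts.count (j + 1) : RatFunc ℚ) / (n : RatFunc ℚ) *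
      hco J (m + 3) M ∈ toK.range := by
  rcases Nat.eq_zero_or_pos ((M a).parts.count (j + 1)) with h0 | h0
  · rw [h0]
    simp only [Nat.cast_zero, mul_zero, zero_div, zero_mul]
    exact zero_mem _
  · have hc := pex_apply M a j
    set m' : Fin (m + 3) × ℕ →₀ ℕ := pex M - Finsupp.single (a, j) 1 with hm'
    have h1 : m' (a, j) + 1 = (M a).parts.count (j + 1) := by
      rw [hm', Finsupp.tsub_apply, Finsupp.single_eq_same, hc]
      omega
    have h2 : m' + Finsupp.single (a, j) 1 = pex M := by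
      rw [hm']
      refine tsub_add_cancel_of_le ?_
      rw [Finsupp.single_le_iff, hc]
      exact h0
    have h3 := coeff_Us hJ alK_ne_zero a j n m'
    rw [h2] at h3
    have h4 : ((m' (a, j) : RatFunc ℚ) + 1) = ((M a).parts.count (j + 1) : RatFunc ℚ) := by
      rw [← h1]
      push_cast
      rfl
    rw [h4] at h3
    have hn' : (n : RatFunc ℚ) ≠ 0 := by
      have : n ≠ 0 := by omega
      exact_mod_cast this
    have h5 : ((j : RatFunc ℚ) + 1) * ((M a).parts.count (j + 1) : RatFunc ℚ) / (n : RatFunc ℚ) *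
        hco J (m + 3) M = (PowerSeries.coeff n (Us (Fin (m + 3)) alK J a j)).coeff m' := by
      rw [div_mul_eq_mul_div, div_eq_iff hn', mul_comm _ (n : RatFunc ℚ), h3]
      rfl
    rw [h5]
    exact good_R hJ m n a j n le_rfl m'

theorem c_int (hJ : IsJack alK J) (m n : ℕ) (M : Fin (m + 3) → n.Partition) (a : Fin (m + 3)) :
    cco J (m + 3) M a ∈ toK.range :=
  c_mem hJ _ alK_mem_range n (good_R hJ m n) a n le_rfl M

private theorem sec_apply {ι : Type*} (c : ι) (m : ι × ℕ →₀ ℕ) (i : ℕ) : sec c m i = m (c, i) :=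
  rfl

private theorem exists_profile {ι : Type*} [Fintype ι] {n : ℕ} (m : ι × ℕ →₀ ℕ)
    (h : ∀ c, wt (sec c m) = n) : ∃ M : ι → n.Partition, pex M = m := by
  choose M hM using fun c => expo_surj (sec c m) (h c)
  refine ⟨M, ?_⟩
  ext ⟨c, i⟩
  have := congrArg (fun f : ℕ →₀ ℕ => f i) ((sec_pex M c).trans (hM c))
  simpa only [sec_apply] using this

private theorem good_pos (hJ : IsJack alK J) (N : ℕ)
    (h3 : ∀ n ≤ N, ∀ M : Fin 3 → n.Partition, hco J 3 M ∈ Subsemiring.map toK posZ) :
    Good (Fin 3) alK J (Subsemiring.map toK posZ) N := by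
  intro a j n hn m
  by_cases h0 : (PowerSeries.coeff n (Us (Fin 3) alK J a j)).coeff m = 0
  · rw [h0]
    exact zero_mem _
  have hn0 : 0 < n := by
    rcases Nat.eq_zero_or_pos n with h | h
    · subst h
      rw [Us_zero hJ a j] at h0
      simp at h0
    · exact h
  obtain ⟨M, hM⟩ : ∃ M : Fin 3 → n.Partition, pex M = m + Finsupp.single (a, j) 1 := by
    refine exists_profile _ fun c => ?_
    by_cases hc : a = c
    · subst hc
      have h1 : sec a (m + Finsupp.single (a, j) 1) = sec a m + Finsupp.single j 1 := by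
        ext i
        rw [sec_apply, Finsupp.add_apply, Finsupp.add_apply, sec_apply]
        congr 1
        by_cases hi : j = i
        · subst hi
          rw [Finsupp.single_eq_same, Finsupp.single_eq_same]
        · rw [Finsupp.single_eq_of_ne (fun h => hi (by simpa using (congrArg Prod.snd h).symm)),
            Finsupp.single_eq_of_ne (fun h => hi h.symm)]
      rw [h1, wt_add, wt_single, mul_one]
      have := Us_weight_self hJ a j n m h0
      omega
    · have h1 : sec c (m + Finsupp.single (a, j) 1) = sec c m := by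
        ext i
        rw [sec_apply, Finsupp.add_apply, sec_apply]
        rw [Finsupp.single_eq_of_ne (fun h => hc (by simpa using (congrArg Prod.fst h).symm)),
          add_zero]
      rw [h1]
      exact Us_weight hJ a c hc j n m h0
  have h4 := coeff_Us hJ alK_ne_zero a j n m
  rw [← hM] at h4
  refine pos_of_mul n ((j + 1) * (m (a, j) + 1)) hn0 _ (hco J 3 M) ?_ (h3 n hn M) ?_
  · exact good_R hJ 0 n a j n le_rfl m
  · rw [h4]
    push_cast
    rfl

theorem pos (hJ : IsJack alK J) (N : ℕ)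
    (h3 : ∀ n ≤ N, ∀ M : Fin 3 → n.Partition, hco J 3 M ∈ Subsemiring.map toK posZ)
    (m n : ℕ) (hn : n ≤ N) (M : Fin (m + 3) → n.Partition) :
    hco J (m + 3) M ∈ Subsemiring.map toK posZ ∧
      ∀ a, cco J (m + 3) M a ∈ Subsemiring.map toK posZ := by
  have hg : Good (Fin (m + 3)) alK J (Subsemiring.map toK posZ) N :=
    good_all hJ aniso_K _ alK_mem_pos N (good_pos hJ N h3) m
  exact ⟨Psi_mem hJ _ N hg 0 n hn (pex M), fun a => c_mem hJ _ alK_mem_pos N hg a n hn M⟩

end H25BC
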