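import Pool.Agent.H25.BC.A1
import Pool.Agent.H25.BC.E1

/-!
# Module L1: `B_j A = Q A` with `Q` integral

Work with power series over `V = S[p][w]`; `Â` = `A` with coefficients embedded by `Polynomial.C`
(`PowerSeries.map Polynomial.C A`). Say that `u : PowerSeries V` is in `𝒞` up to `t` if all
coefficients (in `S`) of its coefficients up to `t` are in `𝒞`.

(1) `𝒰 = (lift (DD al) A) * Â⁻¹` (`PowerSeries.invOfUnit`; constant coefficient `1`) satisfies
`lift (DD al) A = 𝒰 * Â`. Taking the coefficient of `w^{i+1}` (an `S[p]`-linear map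
`V → S[p]`, applied coefficientwise): `lift (aop i) A = (coeff_{i+1} 𝒰) A = U_i A`, so
`coeff_{i+1} 𝒰 = U_i` (`A` is invertible), and `coeff_0 𝒰 = 0` (`DD_coeff_zero`). So `𝒰` is in `𝒞`
up to `t`.
(2) `lift Λ (u Â) = (lift Λ u + 𝒰 u) Â`: on `w^j f`, `Λ(w^j f h) = w^j DD(f h) + ..`,
`DD (f h) = f • DD h + h • DD f`, the other parts of `Λ` (see `Lam_monomial`) are `S[p]`-linear.
So `Λ(v * C h) = Λ(v) * C h + v * DD h` for `v ∈ V`, `h ∈ S[p]`; then sum over the antidiagonal.
`Λ` maps `𝒞`-coefficients to `𝒞`-coefficients.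
(3) Say `T : V → V` (`S`-linear) is twistable if for all `u` in `𝒞` up to `t` there is `u'` in `𝒞` up to `t` with
`lift T (u Â) = u' Â`. `Λ`, `Xl`, `LinearMap.id`, sums, compositions, powers and multiples by
elements of `𝒞` of twistable maps are twistable; so `Zop^{j+1}` is. Start with `u = 1`
(`C f`-part: `lift (Cl) A = 1 * Â`), end with `Θ`: `Θ(v * C h) = Θ(v) h`.
-/

open MvPolynomial

namespace H25BC

variable {S : Type*} [CommRing S] {𝒞 : Subsemiring S} {al b : S}

/-- polynomials in `w` with all coefficients in `cS ℕ 𝒞` -/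
private def l1S (𝒞 : Subsemiring S) : Subsemiring (Polynomial (MvPolynomial ℕ S)) where
  carrier := {v | ∀ j, v.coeff j ∈ cS ℕ 𝒞}
  mul_mem' := by
    intro f g hf hg m
    rw [Polynomial.coeff_mul]
    exact sum_mem fun x _ => mul_mem (hf _) (hg _)
  one_mem' := by
    intro m
    rw [Polynomial.coeff_one]
    split_ifs
    · exact one_mem _
    · exact zero_mem _
  add_mem' := by
    intro f g hf hg m
    rw [Polynomial.coeff_add]
    exact add_mem (hf _) (hg _)
  zero_mem' := by
    intro m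
    rw [Polynomial.coeff_zero]
    exact zero_mem _

private theorem l1_mono_mem (j : ℕ) {f : MvPolynomial ℕ S} (hf : f ∈ cS ℕ 𝒞) :
    Polynomial.monomial j f ∈ l1S 𝒞 := by
  intro m
  rw [Polynomial.coeff_monomial]
  split_ifs
  · exact hf
  · exact zero_mem _

private theorem l1_X_mem : (Polynomial.X : Polynomial (MvPolynomial ℕ S)) ∈ l1S 𝒞 :=
  l1_mono_mem 1 (one_mem _)

private theorem l1_DD_mem (hal : al ∈ 𝒞) {f : MvPolynomial ℕ S} (hf : f ∈ cS ℕ 𝒞) :
    DD al f ∈ l1S 𝒞 := by
  intro m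
  cases m with
  | zero =>
    rw [DD_coeff_zero]
    exact zero_mem _
  | succ i =>
    rw [DD_coeff_succ]
    exact aop_mem hal i f hf

private theorem l1_smul_mem {c : S} (hc : c ∈ 𝒞) {v : Polynomial (MvPolynomial ℕ S)}
    (hv : v ∈ l1S 𝒞) : c • v ∈ l1S 𝒞 := by
  intro m
  rw [Polynomial.coeff_smul, MvPolynomial.smul_eq_C_mul]
  exact mul_mem (C_mem_cS ℕ c hc) (hv m)

private theorem l1_Lam_mem (hal : al ∈ 𝒞) (hb : b ∈ 𝒞) {v : Polynomial (MvPolynomial ℕ S)}
    (hv : v ∈ l1S 𝒞) : Lam al b v ∈ l1S 𝒞 := by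
  rw [v.as_sum_support, map_sum]
  refine sum_mem fun j _ => ?_
  rw [Lam_monomial]
  refine add_mem (add_mem (mul_mem (pow_mem l1_X_mem _) (l1_DD_mem hal (hv j))) ?_) ?_
  · exact sum_mem fun i _ => l1_mono_mem _ (mul_mem (X_mem_cS ℕ i) (hv j))
  · exact l1_mono_mem _ (mul_mem (C_mem_cS ℕ _ (mul_mem hb (natCast_mem 𝒞 j))) (hv j))

private theorem l1_Theta_mem {v : Polynomial (MvPolynomial ℕ S)}
    (hv : v ∈ l1S 𝒞) : Theta S v ∈ cS ℕ 𝒞 := by
  rw [v.as_sum_support, map_sum]
  refine sum_mem fun j _ => ?_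
  cases j with
  | zero =>
    rw [Theta_monomial_zero]
    exact zero_mem _
  | succ i =>
    rw [Theta_monomial_succ]
    exact mul_mem (X_mem_cS ℕ i) (hv _)

private theorem l1_Lam_mul (v : Polynomial (MvPolynomial ℕ S)) (h : MvPolynomial ℕ S) :
    Lam al b (v * Polynomial.C h) = Lam al b v * Polynomial.C h + v * DD al h := by
  induction v using Polynomial.induction_on' with
  | add p q hp hq =>
    rw [add_mul, map_add, hp, hq, map_add]
    ring
  | monomial j f =>
    rw [Polynomial.monomial_mul_C, Lam_monomial, Lam_monomial, Derivation.leibniz,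
      Polynomial.smul_eq_C_mul, Polynomial.smul_eq_C_mul]
    have e1 : ∑ i ∈ Finset.range j, Polynomial.monomial (j - 1 - i)
          ((X i : MvPolynomial ℕ S) * (f * h)) =
        (∑ i ∈ Finset.range j, Polynomial.monomial (j - 1 - i) (X i * f)) * Polynomial.C h := by
      rw [Finset.sum_mul]
      refine Finset.sum_congr rfl fun i _ => ?_
      rw [Polynomial.monomial_mul_C, mul_assoc]
    have e2 : Polynomial.monomial j (C (b * (j : S)) * (f * h)) =
        Polynomial.monomial j (C (b * (j : S)) * f) * Polynomial.C h := by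
      rw [Polynomial.monomial_mul_C, mul_assoc]
    rw [e1, e2, ← Polynomial.C_mul_X_pow_eq_monomial (n := j) (a := f)]
    ring

private theorem l1_Theta_mul (v : Polynomial (MvPolynomial ℕ S)) (h : MvPolynomial ℕ S) :
    Theta S (v * Polynomial.C h) = Theta S v * h := by
  induction v using Polynomial.induction_on' with
  | add p q hp hq =>
    rw [add_mul, map_add, hp, hq, map_add]
    ring
  | monomial j f =>
    rw [Polynomial.monomial_mul_C]
    cases j with
    | zero => rw [Theta_monomial_zero, Theta_monomial_zero, zero_mul]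
    | succ i =>
      rw [Theta_monomial_succ, Theta_monomial_succ]
      ring

private def l1In (𝒞 : Subsemiring S) (t : ℕ)
    (u : PowerSeries (Polynomial (MvPolynomial ℕ S))) : Prop :=
  ∀ k ≤ t, PowerSeries.coeff k u ∈ l1S 𝒞

private theorem l1In_mul {t : ℕ} {u v : PowerSeries (Polynomial (MvPolynomial ℕ S))}
    (hu : l1In 𝒞 t u) (hv : l1In 𝒞 t v) : l1In 𝒞 t (u * v) := by
  intro k hk
  rw [PowerSeries.coeff_mul]
  refine sum_mem fun x hx => ?_
  have hx' := Finset.HasAntidiagonal.mem_antidiagonal.1 hx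
  exact mul_mem (hu _ (by omega)) (hv _ (by omega))

private theorem l1In_add {t : ℕ} {u v : PowerSeries (Polynomial (MvPolynomial ℕ S))}
    (hu : l1In 𝒞 t u) (hv : l1In 𝒞 t v) : l1In 𝒞 t (u + v) := by
  intro k hk
  rw [map_add]
  exact add_mem (hu k hk) (hv k hk)

private theorem l1_ind (P : (Polynomial (MvPolynomial ℕ S) →ₗ[S] Polynomial (MvPolynomial ℕ S)) →
      Prop) (h1 : P LinearMap.id) (hc : ∀ T T', P T → P T' → P (T ∘ₗ T'))
    (ha : ∀ T T', P T → P T' → P (T + T')) (hs : ∀ c ∈ 𝒞, ∀ T, P T → P (c • T))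
    (hL : P (Lam al b)) (hX : P (Xl S)) (L : ℕ) (g : ℕ → S) (hg : ∀ l, g l ∈ 𝒞) (j : ℕ) :
    P (Zop al b L g ^ j) := by
  have hpow : ∀ T, P T → ∀ k : ℕ, P (T ^ k) := by
    intro T hT k
    induction k with
    | zero => exact h1
    | succ k ih =>
      rw [pow_succ]
      exact hc _ _ ih hT
  have h0 : P 0 := by
    have := hs 0 (zero_mem _) _ h1
    rwa [zero_smul] at this
  apply hpow
  unfold Zop
  refine hc _ _ hX ?_
  unfold Gop
  refine ha _ _ h1 ?_
  refine Finset.sum_induction _ P (fun a b => ha a b) h0 fun l _ => ?_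
  exact hs _ (hg l) _ (hpow _ hL _)

theorem B_twist (hal : al ∈ 𝒞) (hb : b ∈ 𝒞) (L : ℕ) (g : ℕ → S) (hg : ∀ l, g l ∈ 𝒞)
    (A : PowerSeries (MvPolynomial ℕ S)) (hA0 : PowerSeries.coeff 0 A = 1)
    (U : ℕ → PowerSeries (MvPolynomial ℕ S)) (hU : ∀ i, lift (aop al i) A = U i * A)
    (t : ℕ) (hUC : ∀ i, InCt 𝒞 t (U i)) (j : ℕ) :
    ∃ Q : PowerSeries (MvPolynomial ℕ S), InCt 𝒞 t Q ∧ lift (Bop al b L g j) A = Q * A := by
  let B : PowerSeries (MvPolynomial ℕ S) := PowerSeries.invOfUnit A 1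
  have hAB : A * B = 1 := by
    apply PowerSeries.mul_invOfUnit
    rw [← PowerSeries.coeff_zero_eq_constantCoeff_apply, hA0]
    rfl
  let 𝒰 : PowerSeries (Polynomial (MvPolynomial ℕ S)) :=
    lift (DD al) A * PowerSeries.map Polynomial.C B
  have hUA : lift (DD al) A = 𝒰 * PowerSeries.map Polynomial.C A := by
    have e : PowerSeries.map (Polynomial.C (R := MvPolynomial ℕ S)) B *
        PowerSeries.map Polynomial.C A = 1 := by
      rw [← map_mul, mul_comm B A, hAB, map_one]
    simp only [𝒰]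
    rw [mul_assoc, e, mul_one]
  have h𝒰 : l1In 𝒞 t 𝒰 := by
    intro k hk m
    have e1 : (PowerSeries.coeff k 𝒰).coeff m =
        ∑ x ∈ Finset.HasAntidiagonal.antidiagonal k, (DD al (PowerSeries.coeff x.1 A)).coeff m *
          PowerSeries.coeff x.2 B := by
      simp only [𝒰]
      rw [PowerSeries.coeff_mul, Polynomial.finset_sum_coeff]
      refine Finset.sum_congr rfl fun x _ => ?_
      rw [coeff_lift, PowerSeries.coeff_map, Polynomial.coeff_mul_C]
    rw [e1]
    cases m with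
    | zero =>
      rw [Finset.sum_eq_zero fun x _ => by rw [DD_coeff_zero, zero_mul]]
      exact zero_mem _
    | succ i =>
      have e2 : ∑ x ∈ Finset.HasAntidiagonal.antidiagonal k, (DD al (PowerSeries.coeff x.1 A)).coeff (i + 1) *
          PowerSeries.coeff x.2 B = PowerSeries.coeff k (U i) := by
        have e3 : PowerSeries.coeff k (lift (aop al i) A * B) = PowerSeries.coeff k (U i) := by
          rw [hU, mul_assoc, hAB, mul_one]
        rw [← e3, PowerSeries.coeff_mul]
        refine Finset.sum_congr rfl fun x _ => ?_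
        rw [coeff_lift, DD_coeff_succ]
      rw [e2]
      exact hUC i k hk
  let P : (Polynomial (MvPolynomial ℕ S) →ₗ[S] Polynomial (MvPolynomial ℕ S)) → Prop := fun T =>
    ∀ u, l1In 𝒞 t u → ∃ u', l1In 𝒞 t u' ∧
      lift T (u * PowerSeries.map Polynomial.C A) = u' * PowerSeries.map Polynomial.C A
  have hP : P (Zop al b L g ^ (j + 1)) := by
    refine l1_ind (𝒞 := 𝒞) P ?_ ?_ ?_ ?_ ?_ ?_ L g hg (j + 1)
    · intro u hu
      refine ⟨u, hu, ?_⟩
      ext n : 1
      rw [coeff_lift]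
      rfl
    · intro T T' hT hT' u hu
      obtain ⟨u1, hu1, e1⟩ := hT' u hu
      obtain ⟨u2, hu2, e2⟩ := hT u1 hu1
      refine ⟨u2, hu2, ?_⟩
      rw [← e2, ← e1]
      ext n : 1
      rw [coeff_lift, coeff_lift, coeff_lift]
      rfl
    · intro T T' hT hT' u hu
      obtain ⟨u1, hu1, e1⟩ := hT u hu
      obtain ⟨u2, hu2, e2⟩ := hT' u hu
      refine ⟨u1 + u2, l1In_add hu1 hu2, ?_⟩
      rw [add_mul, ← e1, ← e2]
      ext n : 1
      rw [map_add, coeff_lift, coeff_lift, coeff_lift]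
      rfl
    · intro c hc T hT u hu
      obtain ⟨u1, hu1, e1⟩ := hT u hu
      refine ⟨lift (fun v => c • v) u1, ?_, ?_⟩
      · intro k hk
        rw [coeff_lift]
        exact l1_smul_mem hc (hu1 k hk)
      · ext n : 1
        have e2 := congrArg (PowerSeries.coeff n) e1
        rw [coeff_lift] at e2
        rw [coeff_lift, LinearMap.smul_apply, e2, PowerSeries.coeff_mul, PowerSeries.coeff_mul,
          Finset.smul_sum]
        refine Finset.sum_congr rfl fun x _ => ?_
        rw [coeff_lift, smul_mul_assoc]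
    · intro u hu
      refine ⟨lift (Lam al b) u + u * 𝒰, l1In_add ?_ (l1In_mul hu h𝒰), ?_⟩
      · intro k hk
        rw [coeff_lift]
        exact l1_Lam_mem hal hb (hu k hk)
      · rw [add_mul, mul_assoc, ← hUA]
        ext n : 1
        rw [coeff_lift, map_add, PowerSeries.coeff_mul, PowerSeries.coeff_mul,
          PowerSeries.coeff_mul, map_sum, ← Finset.sum_add_distrib]
        refine Finset.sum_congr rfl fun x _ => ?_
        rw [PowerSeries.coeff_map, l1_Lam_mul, coeff_lift, coeff_lift]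
    · intro u hu
      refine ⟨lift (Xl S) u, ?_, ?_⟩
      · intro k hk
        rw [coeff_lift]
        exact mul_mem l1_X_mem (hu k hk)
      · ext n : 1
        rw [coeff_lift, PowerSeries.coeff_mul, PowerSeries.coeff_mul, map_sum]
        refine Finset.sum_congr rfl fun x _ => ?_
        rw [coeff_lift]
        exact (mul_assoc _ _ _).symm
  obtain ⟨u', hu', e'⟩ := hP 1 (by
    intro k _
    rw [PowerSeries.coeff_one]
    split_ifs
    · exact one_mem _
    · exact zero_mem _)
  refine ⟨lift (Theta S) u', ?_, ?_⟩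
  · intro k hk
    rw [coeff_lift]
    exact l1_Theta_mem (hu' k hk)
  · ext n : 1
    have e2 := congrArg (PowerSeries.coeff n) e'
    rw [coeff_lift, one_mul, PowerSeries.coeff_map] at e2
    have e3 : PowerSeries.coeff n (lift (Bop al b L g j) A) =
        Theta S ((Zop al b L g ^ (j + 1)) (Polynomial.C (PowerSeries.coeff n A))) := by
      rw [coeff_lift]
      rfl
    rw [e3, e2, PowerSeries.coeff_mul, PowerSeries.coeff_mul, map_sum]
    refine Finset.sum_congr rfl fun x _ => ?_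
    rw [PowerSeries.coeff_map, l1_Theta_mul, coeff_lift]

/-- `B_j` preserves `𝒞`-coefficients -/
theorem Bop_mem (hal : al ∈ 𝒞) (hb : b ∈ 𝒞) (L : ℕ) (g : ℕ → S) (hg : ∀ l, g l ∈ 𝒞) (j : ℕ)
    (f : MvPolynomial ℕ S) (hf : f ∈ cS ℕ 𝒞) : Bop al b L g j f ∈ cS ℕ 𝒞 := by
  have hP : ∀ v ∈ l1S 𝒞, (Zop al b L g ^ (j + 1)) v ∈ l1S 𝒞 := by
    refine l1_ind (𝒞 := 𝒞) (al := al) (b := b) (fun T => ∀ v ∈ l1S 𝒞, T v ∈ l1S 𝒞)
      ?_ ?_ ?_ ?_ ?_ ?_ L g hg (j + 1)
    · exact fun v hv => hv
    · exact fun T T' hT hT' v hv => hT _ (hT' v hv)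
    · exact fun T T' hT hT' v hv => add_mem (hT v hv) (hT' v hv)
    · exact fun c hc T hT v hv => l1_smul_mem hc (hT v hv)
    · exact fun v hv => l1_Lam_mem hal hb hv
    · exact fun v hv => mul_mem l1_X_mem hv
  exact l1_Theta_mem (hP _ (l1_mono_mem 0 hf))

end H25BC
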