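import Pool.Agent.H25.BC.W3
import Pool.Agent.H25.BC.L1

/-!
# Module I1: unimodularity

`lst θ` = the list of the numbers `part - 1`. `Wp θ = eps (Bword (lst θ) 1)`, its coefficients are
in `R` (`Bop_mem`, `eps` is a sum of coefficients). Let `∑_θ C(u_θ) Wp θ` have coefficients in `R`.
Strong induction on `Φ(θ) = ((lst θ).sum, #{non-zero entries})` (lexicographic): the coefficient
of `g^{sh (lst θ)}` is `u_θ + ∑_{θ' ≠ θ} u_θ' (Wp θ')_{sh (lst θ)}`. If `(Wp θ')_{sh θ} ≠ 0`, then
`(lst θ').sum ≤ wt (sh θ) = (lst θ).sum` (`W_low`, `wt_sh`); in case of equality, if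
`len (sh θ) ≤ #(θ')` then `W_tri` gives `sh θ = sh θ'`, which forces `θ = θ'` (the non-zero entries
agree, and both are partitions of `n`, so the numbers of zeros `n - ∑ (j+1)` agree too); so
`#(θ') < len (sh θ) = #(θ)`. All such `u_θ'` are in `R` by induction, so `u_θ ∈ R`.
-/

open MvPolynomial

namespace H25BC

variable {K : Type*} [Field K]

/-- the list of `part - 1` -/
noncomputable def lst {n : ℕ} (θ : n.Partition) : List ℕ := (θ.parts.map fun i => i - 1).toList

private theorem i1_sh_cons_zero (l : List ℕ) : sh (0 :: l) = sh l := by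
  simp [sh]

private theorem i1_sh_cons (j : ℕ) (l : List ℕ) (hj : j ≠ 0) :
    sh (j :: l) = Finsupp.single (j - 1) 1 + sh l := by
  simp [sh, hj]

private theorem i1_count_sh (l : List ℕ) (i : ℕ) : sh l i = l.count (i + 1) := by
  induction l with
  | nil => simp [sh]
  | cons j l ih =>
    by_cases hj : j = 0
    · subst hj
      rw [i1_sh_cons_zero, ih, List.count_cons_of_ne (by omega)]
    · rw [i1_sh_cons j l hj, Finsupp.add_apply, ih, Finsupp.single_apply, List.count_cons]
      by_cases h : j - 1 = i
      · rw [if_pos h, if_pos (by rw [beq_iff_eq]; omega), add_comm]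
      · rw [if_neg h, if_neg (by rw [beq_iff_eq]; omega), zero_add, add_zero]

private theorem i1_count_lst {n : ℕ} (θ : n.Partition) (i : ℕ) :
    (lst θ).count (i + 1) = θ.parts.count (i + 2) := by
  classical
  have h1 : (lst θ).count (i + 1) = (θ.parts.map fun i => i - 1).count (i + 1) := by
    unfold lst
    rw [← Multiset.coe_count, Multiset.coe_toList]
  rw [h1, Multiset.count_map, Multiset.count_eq_card_filter_eq]
  congr 1
  apply Multiset.filter_congr
  intro x _
  omega

private theorem i1_inj {n : ℕ} (θ θ' : n.Partition) (h : sh (lst θ) = sh (lst θ')) : θ = θ' := by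
  classical
  have h2 : ∀ k, 2 ≤ k → θ.parts.count k = θ'.parts.count k := by
    intro k hk
    obtain ⟨i, rfl⟩ := Nat.exists_eq_add_of_le hk
    rw [add_comm 2 i, ← i1_count_lst, ← i1_count_lst, ← i1_count_sh, ← i1_count_sh, h]
  have h0 : ∀ θ : n.Partition, θ.parts.count 0 = 0 := by
    intro θ
    rw [Multiset.count_eq_zero]
    intro h
    exact absurd (θ.parts_pos h) (lt_irrefl _)
  have hf : θ.parts.filter (fun x => ¬ x = 1) = θ'.parts.filter (fun x => ¬ x = 1) := by
    ext k
    rw [Multiset.count_filter, Multiset.count_filter]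
    by_cases hk : k = 1
    · rw [if_neg (not_not.2 hk), if_neg (not_not.2 hk)]
    · rw [if_pos hk, if_pos hk]
      rcases Nat.eq_zero_or_pos k with rfl | hk0
      · rw [h0, h0]
      · exact h2 k (by omega)
  have hs : ∀ θ : n.Partition, θ.parts.count 1 + (θ.parts.filter (fun x => ¬ x = 1)).sum = n := by
    intro θ
    have h3 := congrArg Multiset.sum (Multiset.filter_add_not (fun x => x = 1) θ.parts)
    rw [Multiset.sum_add, θ.parts_sum, Multiset.filter_eq', Multiset.sum_replicate, smul_eq_mul,
      mul_one] at h3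
    exact h3
  have h1 : θ.parts.count 1 = θ'.parts.count 1 := by
    have e1 := hs θ
    have e2 := hs θ'
    rw [hf] at e1
    omega
  apply Nat.Partition.ext
  ext k
  rcases Nat.lt_or_ge k 2 with hk | hk
  · interval_cases k
    · rw [h0, h0]
    · exact h1
  · exact h2 k hk

private theorem i1_length {n : ℕ} (θ : n.Partition) :
    ((lst θ).filter (fun j => j ≠ 0)).length ≤ n := by
  have h1 : (lst θ).length = Multiset.card θ.parts := by
    unfold lst
    rw [Multiset.length_toList, Multiset.card_map]
  have h2 : Multiset.card θ.parts • 1 ≤ θ.parts.sum :=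
    Multiset.card_nsmul_le_sum fun x hx => θ.parts_pos hx
  rw [θ.parts_sum, smul_eq_mul, mul_one] at h2
  refine (List.length_filter_le _ _).trans ?_
  omega

private theorem i1_le {n : ℕ} (θ : n.Partition) (j : ℕ) (hj : j ∈ lst θ) : j ≤ n := by
  unfold lst at hj
  rw [Multiset.mem_toList, Multiset.mem_map] at hj
  obtain ⟨x, hx, rfl⟩ := hj
  have := Multiset.le_sum_of_mem hx
  rw [θ.parts_sum] at this
  omega

private theorem i1_mem (R : Subring K) (al b : K) (hal : al ∈ R) (hb : b ∈ R) (L : ℕ)
    (l : List ℕ) (γ : ℕ →₀ ℕ) :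
    (eps (MvPolynomial ℕ K) (Bword (C al) (C b) L (fun i => X i) l 1)).coeff γ ∈ R := by
  set 𝒞 : Subsemiring (MvPolynomial ℕ K) := cS ℕ R.toSubsemiring with h𝒞
  have h1 : ∀ l : List ℕ, Bword (C al) (C b) L (fun i => (X i : MvPolynomial ℕ K)) l 1 ∈
      cS ℕ 𝒞 := by
    intro l
    induction l with
    | nil => exact one_mem _
    | cons j l ih =>
      exact Bop_mem (C_mem_cS ℕ al hal) (C_mem_cS ℕ b hb) L _ (fun i => X_mem_cS ℕ i) j _ ih
  have h2 : ∀ f ∈ cS ℕ 𝒞, eps (MvPolynomial ℕ K) f ∈ 𝒞 := by
    intro f hf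
    unfold eps
    rw [aeval_def, eval₂_eq]
    refine sum_mem fun m _ => mul_mem (hf m) (prod_mem fun i _ => pow_mem ?_ _)
    split_ifs
    · exact one_mem _
    · exact zero_mem _
  exact h2 _ (h1 l) γ

theorem unimod (R : Subring K) (al b : K) (hal : al ∈ R) (hb : b ∈ R) (n L : ℕ) (hL : n ≤ L)
    (u : n.Partition → K)
    (h : ∀ γ : ℕ →₀ ℕ, (∑ θ : n.Partition, C (u θ) *
      eps (MvPolynomial ℕ K) (Bword (C al) (C b) L (fun i => X i) (lst θ) 1)).coeff γ ∈ R)
    (θ : n.Partition) : u θ ∈ R := by
  classical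
  set W : n.Partition → MvPolynomial ℕ K := fun θ =>
    eps (MvPolynomial ℕ K) (Bword (C al) (C b) L (fun i => X i) (lst θ) 1) with hW
  have hWR : ∀ θ γ, (W θ).coeff γ ∈ R := fun θ γ => i1_mem R al b hal hb L (lst θ) γ
  let N : n.Partition → ℕ := fun θ =>
    (lst θ).sum * (n + 1) + ((lst θ).filter (fun j => j ≠ 0)).length
  have key : ∀ k : ℕ, ∀ θ : n.Partition, N θ = k → u θ ∈ R := by
    intro k
    induction k using Nat.strong_induction_on with
    | _ k ih =>
      intro θ hθ
      have h1 := h (sh (lst θ))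
      rw [coeff_sum, ← Finset.add_sum_erase _ _ (Finset.mem_univ θ)] at h1
      have hdiag : (W θ).coeff (sh (lst θ)) = 1 := by
        have h2 := W_tri al b L (lst θ) (fun j hj => (i1_le θ j hj).trans hL) (sh (lst θ))
          (wt_sh _) (len_sh _).le
        rw [if_pos rfl] at h2
        exact h2
      have h3 : ∑ θ' ∈ Finset.univ.erase θ, (C (u θ') *
          eps (MvPolynomial ℕ K) (Bword (C al) (C b) L (fun i => X i) (lst θ') 1)).coeff
            (sh (lst θ)) ∈ R := by
        refine sum_mem fun θ' hθ' => ?_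
        rw [coeff_C_mul]
        by_cases hz : (W θ').coeff (sh (lst θ)) = 0
        · have hz' : (eps (MvPolynomial ℕ K)
              (Bword (C al) (C b) L (fun i => X i) (lst θ') 1)).coeff (sh (lst θ)) = 0 := hz
          rw [hz', mul_zero]
          exact zero_mem _
        · refine mul_mem (ih (N θ') ?_ θ' rfl) (hWR θ' _)
          have hlow := W_low al b L (lst θ') (sh (lst θ)) hz
          rw [wt_sh] at hlow
          have hlen' := i1_length θ'
          rw [← hθ]
          show (lst θ').sum * (n + 1) + ((lst θ').filter (fun j => j ≠ 0)).length <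
            (lst θ).sum * (n + 1) + ((lst θ).filter (fun j => j ≠ 0)).length
          rcases hlow.lt_or_eq with hlt | heq
          · have h4 : ((lst θ').sum + 1) * (n + 1) ≤ (lst θ).sum * (n + 1) :=
              Nat.mul_le_mul_right _ hlt
            have h5 : ((lst θ').sum + 1) * (n + 1) = (lst θ').sum * (n + 1) + (n + 1) := by ring
            omega
          · rw [heq]
            by_contra hcon
            push Not at hcon
            have hcon' : ((lst θ).filter (fun j => j ≠ 0)).length ≤
                ((lst θ').filter (fun j => j ≠ 0)).length := by omega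
            have h4 := W_tri al b L (lst θ') (fun j hj => (i1_le θ' j hj).trans hL) (sh (lst θ))
              (by rw [wt_sh, heq]) (by rw [len_sh]; exact hcon')
            have h5 : (W θ').coeff (sh (lst θ)) = if sh (lst θ) = sh (lst θ') then 1 else 0 := h4
            by_cases h6 : sh (lst θ) = sh (lst θ')
            · exact (Finset.ne_of_mem_erase hθ') (i1_inj θ θ' h6).symm
            · rw [if_neg h6] at h5
              exact hz h5
      have h4 : u θ = ((C (u θ) *
          eps (MvPolynomial ℕ K) (Bword (C al) (C b) L (fun i => X i) (lst θ) 1)).coeff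
            (sh (lst θ)) + ∑ θ' ∈ Finset.univ.erase θ, (C (u θ') *
          eps (MvPolynomial ℕ K) (Bword (C al) (C b) L (fun i => X i) (lst θ') 1)).coeff
            (sh (lst θ))) - ∑ θ' ∈ Finset.univ.erase θ, (C (u θ') *
          eps (MvPolynomial ℕ K) (Bword (C al) (C b) L (fun i => X i) (lst θ') 1)).coeff
            (sh (lst θ)) := by
        have hdiag' : (eps (MvPolynomial ℕ K)
            (Bword (C al) (C b) L (fun i => X i) (lst θ) 1)).coeff (sh (lst θ)) = 1 := hdiag
        rw [coeff_C_mul, hdiag', mul_one]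
        ring
      rw [h4]
      exact sub_mem h1 h3
  exact key _ θ rfl

end H25BC
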