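import Pool.Agent.H25.BC.E2

/-!
# Module I2: the top coefficient

Split `V = V' + t^{n+1} V_{n+1} + t^{n+2} (..)` with `V' = ∑_{1≤m≤n} t^m V_m = t V''`,
`V'' = ∑_{m<n} t^m V_{m+1}` (a polynomial in `t`; `InCt 𝒞 n V''`). By `engine` there is `E''` with
`ω(V'' A) = E'' ω(A)` and `coeff n E'' ∈ 𝒞`. By `engine`-type linearity (uniqueness: `ω(A)` has
constant coefficient `1`), `E = t E'' + t^{n+1} E_1 + t^{n+2} (..)` with
`coeff 0 E_1 = ω(V_{n+1})` (coefficient `0` of `ω(V_{n+1} A)`, `A_0 = 1`). Comparing the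
coefficients of `t^{n+1}` in `ω(V A) = E ω(A)`:
`coeff (n+1) E = coeff n E'' + ω(V_{n+1})`, so `ω(V_{n+1}) = coeff (n+1) E - coeff n E'' ∈ 𝒞`
(`-1 ∈ 𝒞`).
-/

open MvPolynomial

namespace H25BC

variable {S : Type*} [CommRing S] {𝒞 : Subsemiring S} {al : S}

private theorem lift_add' (ω : MvPolynomial ℕ S →ₗ[S] S)
    (P Q : PowerSeries (MvPolynomial ℕ S)) : lift ω (P + Q) = lift ω P + lift ω Q := by
  ext n
  simp [coeff_lift]

private theorem lift_X_mul' (ω : MvPolynomial ℕ S →ₗ[S] S)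
    (P : PowerSeries (MvPolynomial ℕ S)) :
    lift ω (PowerSeries.X * P) = PowerSeries.X * lift ω P := by
  ext n
  rw [coeff_lift]
  cases n with
  | zero => rw [PowerSeries.coeff_zero_X_mul, PowerSeries.coeff_zero_X_mul, map_zero]
  | succ n => rw [PowerSeries.coeff_succ_X_mul, PowerSeries.coeff_succ_X_mul, coeff_lift]

private theorem lift_X_pow_mul' (ω : MvPolynomial ℕ S →ₗ[S] S)
    (P : PowerSeries (MvPolynomial ℕ S)) (n : ℕ) :
    lift ω (PowerSeries.X ^ n * P) = PowerSeries.X ^ n * lift ω P := by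
  induction n with
  | zero => rw [pow_zero, pow_zero, one_mul, one_mul]
  | succ n ih => rw [pow_succ', mul_assoc, lift_X_mul', ih, pow_succ', mul_assoc]

theorem top_coeff (hneg : (-1 : S) ∈ 𝒞) (hal : al ∈ 𝒞) (ω : MvPolynomial ℕ S →ₗ[S] S)
    (hω : ω 1 = 1) (hSD : SD 𝒞 al ω) (A : PowerSeries (MvPolynomial ℕ S))
    (hA0 : PowerSeries.coeff 0 A = 1)
    (hAw : ∀ n m, (PowerSeries.coeff n A).coeff m ≠ 0 → wt m ≤ n)
    (U : ℕ → PowerSeries (MvPolynomial ℕ S)) (hU : ∀ i, lift (aop al i) A = U i * A)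
    (hU0 : ∀ i, PowerSeries.coeff 0 (U i) = 0) (n : ℕ) (hUC : ∀ i, InCt 𝒞 n (U i))
    (V : PowerSeries (MvPolynomial ℕ S)) (hV0 : PowerSeries.coeff 0 V = 0) (hV : InCt 𝒞 n V)
    (E : PowerSeries S) (hE : lift ω (V * A) = E * lift ω A)
    (hEn : PowerSeries.coeff (n + 1) E ∈ 𝒞) : ω (PowerSeries.coeff (n + 1) V) ∈ 𝒞 := by
  obtain ⟨W, hW⟩ : ∃ W : PowerSeries (MvPolynomial ℕ S),
      W = PowerSeries.mk fun m => if m < n then PowerSeries.coeff (m + 1) V else 0 := ⟨_, rfl⟩
  obtain ⟨R, hR⟩ : ∃ R : PowerSeries (MvPolynomial ℕ S),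
      R = PowerSeries.mk fun m => PowerSeries.coeff (n + m + 1) V := ⟨_, rfl⟩
  have hVW : V = PowerSeries.X * (W + PowerSeries.X ^ n * R) := by
    ext1 k
    rcases k with _ | k
    · rw [hV0, PowerSeries.coeff_zero_X_mul]
    · rw [PowerSeries.coeff_succ_X_mul, map_add, hW, hR, PowerSeries.coeff_mk,
        PowerSeries.coeff_X_pow_mul']
      by_cases hk : k < n
      · rw [if_pos hk, if_neg (by omega), add_zero]
      · rw [if_neg hk, if_pos (by omega), zero_add, PowerSeries.coeff_mk]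
        congr 1
        congr 1
        omega
  have hWC : InCt 𝒞 n W := by
    intro k _
    rw [hW, PowerSeries.coeff_mk]
    split_ifs with h
    · exact hV _ (by omega)
    · exact zero_mem _
  obtain ⟨E', hE'C, hE', _⟩ := engine hal ω hω hSD A hA0 hAw U hU hU0 n hUC W hWC
  have hc : PowerSeries.constantCoeff (lift ω A) = 1 := by
    rw [← PowerSeries.coeff_zero_eq_constantCoeff_apply, coeff_lift, hA0, hω]
  have hWA : lift ω A * PowerSeries.invOfUnit (lift ω A) 1 = 1 := by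
    refine PowerSeries.mul_invOfUnit _ _ ?_
    rw [hc]
    rfl
  have h1 : E * lift ω A = PowerSeries.X * (E' * lift ω A) +
      PowerSeries.X ^ (n + 1) * lift ω (R * A) := by
    rw [← hE, ← hE', hVW, mul_assoc, add_mul, lift_X_mul', lift_add', mul_assoc,
      lift_X_pow_mul']
    ring
  have h2 : E = PowerSeries.X * E' +
      PowerSeries.X ^ (n + 1) * (lift ω (R * A) * PowerSeries.invOfUnit (lift ω A) 1) := by
    calc E = E * (lift ω A * PowerSeries.invOfUnit (lift ω A) 1) := by rw [hWA, mul_one]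
      _ = (E * lift ω A) * PowerSeries.invOfUnit (lift ω A) 1 := by ring
      _ = PowerSeries.X * E' * (lift ω A * PowerSeries.invOfUnit (lift ω A) 1) +
        PowerSeries.X ^ (n + 1) * (lift ω (R * A) * PowerSeries.invOfUnit (lift ω A) 1) := by
          rw [h1]
          ring
      _ = _ := by rw [hWA, mul_one]
  have h5 : PowerSeries.coeff 0 (R * A) = PowerSeries.coeff (n + 1) V := by
    rw [PowerSeries.coeff_zero_eq_constantCoeff_apply, map_mul,
      ← PowerSeries.coeff_zero_eq_constantCoeff_apply,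
      ← PowerSeries.coeff_zero_eq_constantCoeff_apply, hA0, mul_one, hR,
      PowerSeries.coeff_mk, add_zero]
  have h3 : PowerSeries.coeff (n + 1) E = PowerSeries.coeff n E' +
      ω (PowerSeries.coeff (n + 1) V) := by
    rw [h2, map_add, PowerSeries.coeff_succ_X_mul, PowerSeries.coeff_X_pow_mul', if_pos le_rfl,
      Nat.sub_self, PowerSeries.coeff_zero_eq_constantCoeff_apply, map_mul,
      PowerSeries.constantCoeff_invOfUnit, ← PowerSeries.coeff_zero_eq_constantCoeff_apply,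
      coeff_lift, h5]
    simp
  have h4 : ω (PowerSeries.coeff (n + 1) V) = PowerSeries.coeff (n + 1) E +
      (-1) * PowerSeries.coeff n E' := by
    rw [h3]
    ring
  rw [h4]
  exact add_mem hEn (mul_mem hneg (hE'C n le_rfl))

end H25BC
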