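import Pool.Agent.H25.BC.J9
import Pool.Agent.H25.BC.E4

/-!
# Module W1: `ω_G(x_ν) = eps (B_{ν_1} ⋯ B_{ν_s} 1)`

`ω = omg al (Om al J (fG L g))`. Claim, by induction on the list `l` (weight
`n = ∑ (i+1)`): there are `x_θ ∈ S`, `θ ⊢ n`, with
`∏_{i∈l} X_i = ∑_θ C(x_θ) J_θ` and `Bword l 1 = ∑_θ C(f_G(θ) x_θ) J_θ` (`J_θ` mapped to `S`).
`l = []`: `J 0 θ = 1`, `f_G = 1` (empty content multiset). Step: `X_mul_J` and `B_J`.
Then `ω(∏ X_i) = ∑ x_θ f_G(θ)` (`omg_J`) `= eps (Bword l 1)` (`eps_J`).
-/

open MvPolynomial

namespace H25BC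

variable {K : Type*} [Field K] [CharZero K] {al b : K}
  {J : ∀ n : ℕ, n.Partition → MvPolynomial ℕ K}
  {S : Type*} [CommRing S] [Algebra K S]

omit [CharZero K] in
private theorem w1_eps_map (f : MvPolynomial ℕ K) :
    eps S (map (algebraMap K S) f) = algebraMap K S (eps K f) := by
  induction f using MvPolynomial.induction_on with
  | C a =>
    rw [map_C]
    simp [eps]
  | add p q hp hq => rw [map_add, map_add, map_add, map_add, hp, hq]
  | mul_X p i hp =>
    rw [map_mul, map_mul, map_X, map_mul, map_mul, hp]
    congr 1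
    simp only [eps, aeval_X]
    split_ifs <;> simp

private theorem w1_word (hJ : IsJack al J) (han : Aniso al) (hb : b = al - 1) (hal : al ≠ 0)
    (hir : Irr al) (L : ℕ) (g : ℕ → S) (l : List ℕ) :
    ∃ (n : ℕ) (x : n.Partition → S),
      ((l.map X).prod : MvPolynomial ℕ S) =
        ∑ θ : n.Partition, C (x θ) * map (algebraMap K S) (J n θ) ∧
      Bword (algebraMap K S al) (algebraMap K S b) L g l 1 =
        ∑ θ : n.Partition, C (fG al L g n θ * x θ) * map (algebraMap K S) (J n θ) := by
  induction l with
  | nil =>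
    refine ⟨0, fun _ => 1, ?_, ?_⟩
    · rw [Fintype.sum_unique, J_zero hJ]
      simp
    · rw [Fintype.sum_unique, J_zero hJ]
      simp [Bword, fG, cont]
  | cons i l ih =>
    obtain ⟨n, x, h1, h2⟩ := ih
    refine ⟨n + i + 1, fun φ => ∑ θ : n.Partition, x θ * algebraMap K S (kap al J i n θ φ), ?_, ?_⟩
    · rw [List.map_cons, List.prod_cons, h1, Finset.mul_sum]
      have h3 : ∀ θ : n.Partition, X i * (C (x θ) * map (algebraMap K S) (J n θ)) =
          ∑ φ : (n + i + 1).Partition, C (x θ * algebraMap K S (kap al J i n θ φ)) *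
            map (algebraMap K S) (J (n + i + 1) φ) := by
        intro θ
        have h4 : X i * map (algebraMap K S) (J n θ) = map (algebraMap K S) (X i * J n θ) := by
          rw [map_mul, map_X]
        rw [mul_left_comm, h4, X_mul_J hJ han, map_sum, Finset.mul_sum]
        apply Finset.sum_congr rfl
        intro φ _
        rw [map_mul, map_C, C_mul]
        ring
      rw [Finset.sum_congr rfl fun θ _ => h3 θ, Finset.sum_comm]
      apply Finset.sum_congr rfl
      intro φ _
      rw [map_sum, Finset.sum_mul]
    · have h5 : Bword (algebraMap K S al) (algebraMap K S b) L g (i :: l) 1 =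
          Bop (algebraMap K S al) (algebraMap K S b) L g i
            (Bword (algebraMap K S al) (algebraMap K S b) L g l 1) := rfl
      rw [h5, h2, map_sum]
      have h3 : ∀ θ : n.Partition, Bop (algebraMap K S al) (algebraMap K S b) L g i
          (C (fG al L g n θ * x θ) * map (algebraMap K S) (J n θ)) =
          ∑ φ : (n + i + 1).Partition, C (fG al L g (n + i + 1) φ *
            (x θ * algebraMap K S (kap al J i n θ φ))) *
            map (algebraMap K S) (J (n + i + 1) φ) := by
        intro θ
        have h6 : fG al L g n θ • Bop (algebraMap K S al) (algebraMap K S b) L g i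
            (map (algebraMap K S) (J n θ)) = ∑ φ : (n + i + 1).Partition,
              C (fG al L g (n + i + 1) φ * algebraMap K S (kap al J i n θ φ)) *
                map (algebraMap K S) (J (n + i + 1) φ) := by
          rw [← B_J hJ han hb hal hir L g i n θ, C_mul']
        rw [C_mul', map_smul, mul_comm (fG al L g n θ), mul_smul, h6, Finset.smul_sum]
        apply Finset.sum_congr rfl
        intro φ _
        rw [← C_mul', ← mul_assoc, ← C_mul]
        congr 2
        ring
      rw [Finset.sum_congr rfl fun θ _ => h3 θ, Finset.sum_comm]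
      apply Finset.sum_congr rfl
      intro φ _
      rw [Finset.mul_sum, map_sum, Finset.sum_mul]

theorem omg_word (hJ : IsJack al J) (han : Aniso al) (hb : b = al - 1) (hal : al ≠ 0)
    (hir : Irr al) (L : ℕ) (g : ℕ → S) (l : List ℕ) :
    omg (algebraMap K S al) (Om al J (fG al L g)) ((l.map X).prod) =
      eps S (Bword (algebraMap K S al) (algebraMap K S b) L g l 1) := by
  obtain ⟨n, x, h1, h2⟩ := w1_word hJ han hb hal hir L g l
  rw [h1, h2, map_sum, map_sum]
  apply Finset.sum_congr rfl
  intro θ _
  rw [C_mul', map_smul, omg_J hJ han, C_mul', map_smul, w1_eps_map, eps_J hJ, map_one,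
    smul_eq_mul, smul_eq_mul, mul_one, mul_comm]

end H25BC
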