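import Pool.Agent.H25.BC.N1b
import Pool.Agent.H25.BC.I1
import Pool.Agent.H25.BC.I2
import Pool.Agent.H25.BC.W1

/-!
# Module I3: integrality for three alphabets

`R` a subring of `K` containing `al`, `b`. Claim by strong induction on `n`: for all `a`, `j` the
coefficients of `coeff n (Us (Fin 3) a j)` are in `R`. `n = 0`: `Us_zero`. Let the claim hold for all
`k ≤ n`; prove it for `n + 1` and `a = 1` (then for all `a` by `Us_coeff_mem_iff` with permutations
of `Fin 3`). Take `L ≥ n+1`, `𝒞 = cS ℕ (cS ℕ (cS ℕ R))`, `A = jx (tau) = Om (H3)`, `ω = ω_G`,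
`U i = jx (Us 0 i)`, `V = jx (Us 1 j)`: `lift (aop i) A = U i * A` (`Us_spec`, `jx_aop`),
`V * A = jx (lift (aopF 1 j) tau) = Om (a_j H3)` (`jx_root`). By `omg_H3`, `omg_aop_H3`,
`TG_good`: `lift ω (V A) = lift (a_j) TG = E * TG = E * lift ω A` with all coefficients of `E` in `𝒞`
(`al`, `b`, `g_l = X l` have coefficients in `R`). `top_coeff` gives `ω(V_{n+1}) ∈ 𝒞`.
`V_{n+1} = ∑_{ν} x_ν v_ν`, `v_ν` = the coefficients, which have no `g`; `ν` has weight `n+1`
(`Us_weight`), so `ν = expo θ`, `θ ⊢ n+1`. `ω(x_ν) = C (C W_ν)`,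
`W_ν = eps (Bword (lst θ) 1)` (`omg_word_S1`, `omg_word` with the list `lst θ`:
`∏_{i∈lst θ} X_i = monomial (expo θ) 1`). Fix exponents `m1`, `m2` of `p`, `q`: the coefficient of
`ω(V_{n+1})` at `(m1, m2)` is `∑_θ C(u_θ) W_θ ∈ cS ℕ R` with `u_θ` the coefficients of
`coeff (n+1) (Us 1 j)` (`jx_coeff`). `unimod` gives `u_θ ∈ R`.
-/

open MvPolynomial

namespace H25BC

variable {K : Type*} [Field K] [CharZero K] {al b : K}
  {J : ∀ n : ℕ, n.Partition → MvPolynomial ℕ K}

omit [CharZero K] in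
private theorem i3_prod {S : Type*} [CommRing S] (l : List ℕ) :
    ((l.map X).prod : MvPolynomial ℕ S) =
      monomial ((l.map fun i => Finsupp.single i 1).sum) 1 := by
  induction l with
  | nil => simp
  | cons i l ih =>
    rw [List.map_cons, List.prod_cons, List.map_cons, List.sum_cons, ih, X, monomial_mul, one_mul]

private theorem i3_sum_apply (l : List ℕ) (i : ℕ) :
    ((l.map fun i => (Finsupp.single i 1 : ℕ →₀ ℕ)).sum) i = l.count i := by
  induction l with
  | nil => simp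
  | cons j l ih =>
    rw [List.map_cons, List.sum_cons, Finsupp.add_apply, ih, Finsupp.single_apply, List.count_cons]
    by_cases h : j = i
    · rw [if_pos h, if_pos (by rw [beq_iff_eq]; exact h), add_comm]
    · rw [if_neg h, if_neg (by rw [beq_iff_eq]; exact h), zero_add, add_zero]

private theorem i3_lst {n : ℕ} (θ : n.Partition) :
    ((lst θ).map fun i => (Finsupp.single i 1 : ℕ →₀ ℕ)).sum = expo θ := by
  classical
  ext i
  rw [i3_sum_apply]
  have h1 : (lst θ).count i = θ.parts.count (i + 1) := by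
    have h2 : (lst θ).count i = (θ.parts.map fun i => i - 1).count i := by
      unfold lst
      rw [← Multiset.coe_count, Multiset.coe_toList]
    rw [h2, Multiset.count_map, Multiset.count_eq_card_filter_eq]
    congr 1
    apply Multiset.filter_congr
    intro x hx
    have := θ.parts_pos hx
    omega
  rw [h1]
  unfold expo
  rw [Finsupp.finsetSum_apply]
  simp only [Finsupp.single_apply]
  rw [Finset.sum_ite_eq']
  split_ifs with h
  · rfl
  · rw [Multiset.count_eq_zero]
    intro hx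
    have h3 := Multiset.le_sum_of_mem hx
    rw [θ.parts_sum] at h3
    rw [Finset.mem_range] at h
    omega

/-- exponent with given sections -/
private noncomputable def i3m (v0 v1 v2 : ℕ →₀ ℕ) : Fin 3 × ℕ →₀ ℕ :=
  v0.mapDomain (fun i => ((0 : Fin 3), i)) + v1.mapDomain (fun i => ((1 : Fin 3), i)) +
    v2.mapDomain (fun i => ((2 : Fin 3), i))

private theorem i3_map_apply (v : ℕ →₀ ℕ) (c c' : Fin 3) (i : ℕ) :
    v.mapDomain (fun i => (c, i)) (c', i) = if c = c' then v i else 0 := by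
  split_ifs with h
  · subst h
    exact Finsupp.mapDomain_apply (fun a b hab => by simpa using hab) v i
  · apply Finsupp.mapDomain_notin_range
    rintro ⟨j, hj⟩
    exact h (congrArg Prod.fst hj)

private theorem i3_sec0 (v0 v1 v2 : ℕ →₀ ℕ) : sec 0 (i3m v0 v1 v2) = v0 := by
  ext i
  have h : sec 0 (i3m v0 v1 v2) i = i3m v0 v1 v2 (0, i) := rfl
  rw [h]
  unfold i3m
  rw [Finsupp.add_apply, Finsupp.add_apply, i3_map_apply, i3_map_apply, i3_map_apply]
  simp

private theorem i3_sec1 (v0 v1 v2 : ℕ →₀ ℕ) : sec 1 (i3m v0 v1 v2) = v1 := by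
  ext i
  have h : sec 1 (i3m v0 v1 v2) i = i3m v0 v1 v2 (1, i) := rfl
  rw [h]
  unfold i3m
  rw [Finsupp.add_apply, Finsupp.add_apply, i3_map_apply, i3_map_apply, i3_map_apply]
  simp

private theorem i3_sec2 (v0 v1 v2 : ℕ →₀ ℕ) : sec 2 (i3m v0 v1 v2) = v2 := by
  ext i
  have h : sec 2 (i3m v0 v1 v2) i = i3m v0 v1 v2 (2, i) := rfl
  rw [h]
  unfold i3m
  rw [Finsupp.add_apply, Finsupp.add_apply, i3_map_apply, i3_map_apply, i3_map_apply]
  simp

private theorem i3_eq (m : Fin 3 × ℕ →₀ ℕ) : i3m (sec 0 m) (sec 1 m) (sec 2 m) = m := by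
  ext ⟨c, i⟩
  unfold i3m
  rw [Finsupp.add_apply, Finsupp.add_apply, i3_map_apply, i3_map_apply, i3_map_apply]
  have h : ∀ c : Fin 3, sec c m i = m (c, i) := fun c => rfl
  fin_cases c
  · simp [h]
  · simp [h]
  · simp [h]

omit [CharZero K] in
private theorem i3_neg (R : Subring K) : (-1 : S1 K) ∈ cS ℕ (cS ℕ (cS ℕ R.toSubsemiring)) := by
  have h1 : (-1 : K) ∈ R.toSubsemiring := R.neg_mem R.one_mem
  have h2 := C_mem_cS ℕ _ (C_mem_cS ℕ _ (C_mem_cS ℕ (-1 : K) h1))
  rw [map_neg, map_one, map_neg, map_one, map_neg, map_one] at h2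
  exact h2

omit [CharZero K] in
private theorem i3_alg (x : K) : algebraMap K (S1 K) x = C (C (C x)) := rfl

omit [CharZero K] in
private theorem i3_fG (L : ℕ) (θ : (0 : ℕ).Partition) :
    fG al L (fun i => (X i : MvPolynomial ℕ K)) 0 θ = 1 := by
  simp [fG, cont]

private theorem i3_H3 (hJ : IsJack al J) (θ : (0 : ℕ).Partition) : H3 J 0 θ = 1 := by
  unfold H3
  rw [J_zero hJ θ, map_one, map_one, map_one, mul_one]

private theorem i3_step (hJ : IsJack al J) (han : Aniso al) (hb : b = al - 1) (hal : al ≠ 0)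
    (hir : Irr al) (R : Subring K) (hal' : al ∈ R) (n : ℕ)
    (ih : ∀ k ≤ n, ∀ a j, PowerSeries.coeff k (Us (Fin 3) al J a j) ∈ cS _ R.toSubsemiring)
    (j : ℕ) : PowerSeries.coeff (n + 1) (Us (Fin 3) al J 1 j) ∈ cS _ R.toSubsemiring := by
  classical
  have hb' : b ∈ R := by
    rw [hb]
    exact R.sub_mem hal' R.one_mem
  set L := n + 1 with hL
  set ω := omg (algebraMap K (S1 K) al)
    (Om al J (fun n θ => (C (C (fG al L (fun i => (X i : MvPolynomial ℕ K)) n θ)) : S1 K))) with hω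
  set jr : MvPolynomial (Fin 3 × ℕ) K →+* MvPolynomial ℕ (S1 K) :=
    ((jx K : MvPolynomial (Fin 3 × ℕ) K →ₐ[K] MvPolynomial ℕ (S1 K)) :
      MvPolynomial (Fin 3 × ℕ) K →+* MvPolynomial ℕ (S1 K)) with hjr
  have hjr' : ∀ f, jr f = jx K f := fun f => rfl
  set 𝒞 := cS ℕ (cS ℕ (cS ℕ R.toSubsemiring)) with h𝒞
  obtain ⟨E, hE1, hE2⟩ := TG_good hJ han hb hal hir (S := MvPolynomial ℕ K)
    (cS ℕ R.toSubsemiring) (C_mem_cS ℕ al hal') (C_mem_cS ℕ b hb') L
    (fun i => (X i : MvPolynomial ℕ K)) (fun l => X_mem_cS ℕ l) j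
  have hω1 : ω 1 = 1 := omg_one hJ _ (fun θ => by rw [i3_fG, C_1, C_1])
  have hmem : ∀ k ≤ n, ∀ a j, PowerSeries.coeff k (PowerSeries.map jr (Us (Fin 3) al J a j)) ∈
      cS ℕ 𝒞 := by
    intro k hk a j
    rw [PowerSeries.coeff_map]
    exact jx_mem _ _ (ih k hk a j)
  have hzero : ∀ a j, PowerSeries.coeff 0 (PowerSeries.map jr (Us (Fin 3) al J a j)) = 0 := by
    intro a j
    rw [PowerSeries.coeff_map, Us_zero hJ, map_zero]
  have htop := top_coeff (𝒞 := 𝒞) (al := algebraMap K (S1 K) al) (i3_neg R)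
    (by rw [i3_alg]; exact C_mem_cS ℕ _ (C_mem_cS ℕ _ (C_mem_cS ℕ al hal'))) ω hω1
    (SD_S1 hJ han hb hal hir R.toSubsemiring hal' hb' L) (Om al J (H3 J))
    (Om_zero hJ _ (i3_H3 hJ)) (fun n m h => (Om_hom hJ (H3 J) n m h).le)
    (fun i => PowerSeries.map jr (Us (Fin 3) al J 0 i)) (by
      intro i
      rw [← jx_tau, ← map_mul, ← Us_spec hJ 0 i]
      ext k : 1
      rw [coeff_lift, PowerSeries.coeff_map, PowerSeries.coeff_map, coeff_lift]
      exact (jx_aop i _).symm) (fun i => hzero 0 i) n (fun i k hk => hmem k hk 0 i)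
    (PowerSeries.map jr (Us (Fin 3) al J 1 j)) (hzero 1 j) (fun k hk => hmem k hk 1 j)
    E (by
      have h1 : PowerSeries.map jr (Us (Fin 3) al J 1 j) * Om al J (H3 J) =
          Om al J (fun n θ => aop (algebraMap K (MvPolynomial ℕ (MvPolynomial ℕ K)) al) j
            (H3 J n θ)) := by
        rw [← jx_tau, ← map_mul, ← Us_spec hJ 1 j, jx_root]
      rw [h1, hω, omg_aop_H3 hJ han L j, omg_H3 hJ han L]
      exact hE2) (hE1 (n + 1))
  rw [PowerSeries.coeff_map] at htop
  set f := PowerSeries.coeff (n + 1) (Us (Fin 3) al J 1 j) with hf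
  -- weights
  have hwt : ∀ ν, (jr f).coeff ν ≠ 0 → wt ν = n + 1 := by
    intro ν hν
    obtain ⟨ν1, h1⟩ := MvPolynomial.ne_zero_iff.1 hν
    obtain ⟨ν2, h2⟩ := MvPolynomial.ne_zero_iff.1 h1
    have h3 := jx_coeff f (i3m ν ν1 ν2)
    rw [i3_sec0, i3_sec1, i3_sec2] at h3
    have h4 : f.coeff (i3m ν ν1 ν2) ≠ 0 := by
      intro h5
      rw [h5, C_0] at h3
      exact h2 h3
    have h5 := Us_weight hJ 1 0 (by decide) j (n + 1) _ h4
    rwa [i3_sec0] at h5
  have hsum : ω (jr f) = ∑ θ : (n + 1).Partition,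
      (jr f).coeff (expo θ) * ω (monomial (expo θ) 1) := by
    have h1 : ω (jr f) = ∑ ν ∈ (jr f).support, (jr f).coeff ν * ω (monomial ν 1) := by
      conv_lhs => rw [(jr f).as_sum]
      rw [map_sum]
      refine Finset.sum_congr rfl fun ν _ => ?_
      rw [← smul_eq_mul, ← map_smul, smul_monomial, smul_eq_mul, mul_one]
    have h2 : ∑ ν ∈ (jr f).support, (jr f).coeff ν * ω (monomial ν 1) =
        ∑ ν ∈ (Finset.univ : Finset (n + 1).Partition).image expo,
          (jr f).coeff ν * ω (monomial ν 1) := by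
      apply Finset.sum_subset
      · intro ν hν
        obtain ⟨θ, hθ⟩ := expo_surj ν (hwt ν (mem_support_iff.1 hν))
        exact Finset.mem_image.2 ⟨θ, Finset.mem_univ _, hθ⟩
      · intro ν _ hν
        rw [notMem_support_iff.1 hν, zero_mul]
    rw [h1, h2, Finset.sum_image expo_injective.injOn]
  set W : (n + 1).Partition → MvPolynomial ℕ K := fun θ =>
    eps (MvPolynomial ℕ K) (Bword (C al) (C b) L (fun i => X i) (lst θ) 1) with hW
  have hωW : ∀ θ : (n + 1).Partition, ω (monomial (expo θ) 1) = C (C (W θ)) := by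
    intro θ
    rw [hω, omg_word_S1 hJ han hb hal hir L (expo θ)]
    have h1 := omg_word hJ han hb hal hir (S := MvPolynomial ℕ K) L (fun i => X i) (lst θ)
    rw [i3_prod, i3_lst] at h1
    have h2 : omg (C al : MvPolynomial ℕ K)
        (Om al J (fG al L (fun i => (X i : MvPolynomial ℕ K)))) (monomial (expo θ) 1) = W θ := h1
    rw [h2]
  intro m
  by_cases hm : f.coeff m = 0
  · rw [hm]
    exact zero_mem _
  · obtain ⟨θ0, hθ0⟩ := expo_surj (sec 0 m) (Us_weight hJ 1 0 (by decide) j (n + 1) m hm)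
    have h1 := unimod R al b hal' hb' (n + 1) L le_rfl
      (fun θ => f.coeff (i3m (expo θ) (sec 1 m) (sec 2 m))) (by
        intro γ
        have h2 : ∑ θ : (n + 1).Partition,
            C (f.coeff (i3m (expo θ) (sec 1 m) (sec 2 m))) * W θ =
            ((ω (jr f)).coeff (sec 1 m)).coeff (sec 2 m) := by
          rw [hsum, coeff_sum, coeff_sum]
          refine Finset.sum_congr rfl fun θ _ => ?_
          rw [hωW, mul_comm ((jr f).coeff (expo θ)), coeff_C_mul, coeff_C_mul]
          have h3 := jx_coeff f (i3m (expo θ) (sec 1 m) (sec 2 m))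
          rw [i3_sec0, i3_sec1, i3_sec2] at h3
          rw [hjr', h3, mul_comm]
        rw [hW] at h2
        rw [h2]
        exact htop (sec 1 m) (sec 2 m) γ) θ0
    rw [hθ0, i3_eq] at h1
    exact h1

theorem good_three (hJ : IsJack al J) (han : Aniso al) (hb : b = al - 1) (hal : al ≠ 0)
    (hir : Irr al) (R : Subring K) (hal' : al ∈ R) (N : ℕ) :
    Good (Fin 3) al J R.toSubsemiring N := by
  have key : ∀ n : ℕ, ∀ a j, PowerSeries.coeff n (Us (Fin 3) al J a j) ∈
      cS _ R.toSubsemiring := by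
    intro n
    induction n using Nat.strong_induction_on with
    | _ n ih =>
      rcases n with _ | n
      · intro a j
        rw [Us_zero hJ]
        exact zero_mem _
      · intro a j
        have h1 := i3_step hJ han hb hal hir R hal' n (fun k hk => ih k (by omega)) j
        have h2 := Us_coeff_mem_iff hJ R.toSubsemiring (Equiv.swap (1 : Fin 3) a) 1 j (n + 1)
        rw [Equiv.swap_apply_left] at h2
        exact h2.2 h1
  exact fun a j n _ => key n a j

end H25BC
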