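import Pool.Agent.H25.BC.R2

/-!
# Module R3: triangularity

`Tri θ g` is closed under sums and scalars. `Tri_dunkl`: `x_k ∂_k` does not change exponents. For
`dd k j` it suffices to treat a monomial `x^a` with `Dom θ a`; the resulting exponents `a'` differ
from `a` only at `k` and `j`, `a'_k + a'_j = a_k + a_j` and `max (a'_k, a'_j) ≤ max (a_k, a_j)`.
Let `T` be a set of variables. If it contains both or none of `k, j` the sum over `T` is unchanged.
If it contains exactly one, then `∑_T a' ≤ max (∑_T a, ∑_{s(T)} a)` with `s` the transposition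
`(k j)` (same cardinality), so `≤ ∑_{i < #T} row θ i`.

`Mom_tri`: induction on `l`: by `sum_realV`, `coeff0_Lam`,
`real (Mom_{l+1} f) = ∑_k realV k (Λ^l (C f)) - N real (Mom_l f)`, and `realV k (Λ^l (C f))` is
`Tri θ` by `realV_Lam` and `Tri_dunkl`.
-/

open MvPolynomial

namespace H25BC

variable {K : Type*} [Field K] {n N : ℕ} (al b : K)

theorem Tri_add (θ : n.Partition) (g h : MvPolynomial (Fin N) K) (hg : Tri θ g) (hh : Tri θ h) :
    Tri θ (g + h) := by
  intro a ha
  rw [coeff_add] at ha
  by_cases h1 : g.coeff a = 0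
  · exact hh a fun h2 => ha (by rw [h1, h2, add_zero])
  · exact hg a h1

theorem Tri_C_mul (θ : n.Partition) (c : K) (g : MvPolynomial (Fin N) K) (hg : Tri θ g) :
    Tri θ (C c * g) := by
  intro a ha
  rw [coeff_C_mul] at ha
  exact hg a (right_ne_zero_of_mul ha)

theorem Tri_zero (θ : n.Partition) : Tri θ (0 : MvPolynomial (Fin N) K) := by
  intro a ha
  exact absurd (coeff_zero a) ha

theorem Tri_sum {ι : Type*} (θ : n.Partition) (s : Finset ι) (g : ι → MvPolynomial (Fin N) K)
    (hg : ∀ i ∈ s, Tri θ (g i)) : Tri θ (∑ i ∈ s, g i) := by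
  classical
  induction s using Finset.induction_on with
  | empty =>
    rw [Finset.sum_empty]
    exact Tri_zero θ
  | insert a s ha ih =>
    rw [Finset.sum_insert ha]
    exact Tri_add θ _ _ (hg a (Finset.mem_insert_self a s))
      (ih fun i hi => hg i (Finset.mem_insert_of_mem hi))

theorem coeff_X_pderiv (k : Fin N) (g : MvPolynomial (Fin N) K) (a : Fin N →₀ ℕ) :
    (X k * pderiv k g).coeff a = (a k : K) * g.coeff a := by
  induction g using MvPolynomial.induction_on' with
  | monomial c r =>
    rw [X_mul_pderiv_monomial, coeff_smul, coeff_monomial, nsmul_eq_mul]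
    split_ifs with h
    · rw [h]
    · simp
  | add p q hp hq => rw [map_add, mul_add, coeff_add, coeff_add, hp, hq, mul_add]

private theorem Dom_mix (θ : n.Partition) (k j : Fin N) (hkj : k ≠ j) (a : Fin N →₀ ℕ)
    (ha : Dom θ a) (x y : ℕ) (h1 : x + y = a k + a j) (h2 : max x y ≤ max (a k) (a j)) :
    Dom θ (Finsupp.update (Finsupp.update a k x) j y) := by
  classical
  intro T
  set a' := Finsupp.update (Finsupp.update a k x) j y with ha'
  have hk : a' k = x := by
    rw [ha']
    simp [hkj]
  have hj : a' j = y := by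
    rw [ha']
    simp
  have ho : ∀ i, i ≠ k → i ≠ j → a' i = a i := by
    intro i hik hij
    rw [ha']
    simp [hik, hij, Function.update_of_ne]
  have hsum : ∀ S : Finset (Fin N), k ∉ S → j ∉ S → ∑ i ∈ S, a' i = ∑ i ∈ S, a i := by
    intro S hkS hjS
    refine Finset.sum_congr rfl fun i hi => ho i ?_ ?_
    · rintro rfl
      exact hkS hi
    · rintro rfl
      exact hjS hi
  by_cases hkT : k ∈ T
  · by_cases hjT : j ∈ T
    · have hjT' : j ∈ T.erase k := Finset.mem_erase.2 ⟨hkj.symm, hjT⟩
      have e1 : ∀ f : Fin N → ℕ, ∑ i ∈ T, f i = f k + (f j + ∑ i ∈ (T.erase k).erase j, f i) := by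
        intro f
        rw [← Finset.add_sum_erase _ _ hkT, ← Finset.add_sum_erase _ _ hjT']
      have h3 := ha T
      rw [e1 a] at h3
      rw [e1 a', hk, hj, hsum _ (by simp) (by simp)]
      omega
    · have e1 : ∀ f : Fin N → ℕ, ∑ i ∈ T, f i = f k + ∑ i ∈ T.erase k, f i := by
        intro f
        rw [← Finset.add_sum_erase _ _ hkT]
      rw [e1 a', hk, hsum _ (by simp) (by simp [hjT])]
      by_cases h3 : x ≤ a k
      · have h4 := ha T
        rw [e1 a] at h4
        omega
      · have h5 : x ≤ a j := by omega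
        have h6 := ha (insert j (T.erase k))
        rw [Finset.sum_insert (by simp [hjT]), Finset.card_insert_of_notMem (by simp [hjT]),
          Finset.card_erase_of_mem hkT, Nat.sub_add_cancel (Finset.card_pos.2 ⟨k, hkT⟩)] at h6
        omega
  · by_cases hjT : j ∈ T
    · have e1 : ∀ f : Fin N → ℕ, ∑ i ∈ T, f i = f j + ∑ i ∈ T.erase j, f i := by
        intro f
        rw [← Finset.add_sum_erase _ _ hjT]
      rw [e1 a', hj, hsum _ (by simp [hkT]) (by simp)]
      by_cases h3 : y ≤ a j
      · have h4 := ha T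
        rw [e1 a] at h4
        omega
      · have h5 : y ≤ a k := by omega
        have h6 := ha (insert k (T.erase j))
        rw [Finset.sum_insert (by simp [hkT]), Finset.card_insert_of_notMem (by simp [hkT]),
          Finset.card_erase_of_mem hjT, Nat.sub_add_cancel (Finset.card_pos.2 ⟨j, hjT⟩)] at h6
        omega
    · rw [hsum T hkT hjT]
      exact ha T

private theorem Tri_mono (θ : n.Partition) (a : Fin N →₀ ℕ) (ha : Dom θ a) (c : K) :
    Tri θ (monomial a c) := by
  classical
  intro b hb
  rw [coeff_monomial] at hb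
  split_ifs at hb with h
  · rw [← h]
    exact ha
  · exact absurd rfl hb

theorem Tri_dd (θ : n.Partition) (k j : Fin N) (hkj : k ≠ j) (g : MvPolynomial (Fin N) K)
    (hg : Tri θ g) : Tri θ (dd k j g) := by
  classical
  rw [g.as_sum, map_sum]
  refine Tri_sum θ _ _ fun a ha => ?_
  have haD : Dom θ a := hg a (mem_support_iff.1 ha)
  have h1 : dd k j (monomial a (coeff a g)) = C (coeff a g) * dd k j (monomial a (1 : K)) := by
    have h2 : monomial a (coeff a g) = (coeff a g) • monomial a (1 : K) := by
      rw [smul_monomial, smul_eq_mul, mul_one]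
    rw [h2, map_smul, smul_eq_C_mul]
  rw [h1]
  refine Tri_C_mul θ _ _ ?_
  rw [dd_mon1]
  split_ifs with h
  · refine Tri_sum θ _ _ fun i hi => Tri_mono θ _ (Dom_mix θ k j hkj a haD _ _ ?_ ?_) 1
    · have := Finset.mem_range.1 hi
      omega
    · have := Finset.mem_range.1 hi
      omega
  · have h3 : (-∑ i ∈ Finset.range (a j - a k),
        monomial (Finsupp.update (Finsupp.update a k (a k + i)) j (a j - i)) (1 : K)) =
        C (-1) * ∑ i ∈ Finset.range (a j - a k),
        monomial (Finsupp.update (Finsupp.update a k (a k + i)) j (a j - i)) (1 : K) := by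
      rw [C_neg, C_1, neg_one_mul]
    rw [h3]
    refine Tri_C_mul θ _ _ (Tri_sum θ _ _ fun i hi =>
      Tri_mono θ _ (Dom_mix θ k j hkj a haD _ _ ?_ ?_) 1)
    · have := Finset.mem_range.1 hi
      omega
    · have := Finset.mem_range.1 hi
      omega

theorem Tri_dunkl (θ : n.Partition) (k : Fin N) (g : MvPolynomial (Fin N) K) (hg : Tri θ g) :
    Tri θ (dunkl al k g) := by
  unfold dunkl
  refine Tri_add θ _ _ ?_ (Tri_sum θ _ _ fun j hj => ?_)
  · rw [mul_assoc]
    refine Tri_C_mul θ al _ fun a ha => ?_
    rw [coeff_X_pderiv] at ha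
    exact hg a (right_ne_zero_of_mul ha)
  · exact Tri_dd θ k j (fun h => (Finset.mem_erase.1 hj).1 h.symm) g hg

theorem Tri_realV_pow (hb : b = al - 1) (θ : n.Partition) (k : Fin N) (l : ℕ)
    (v : Polynomial (MvPolynomial ℕ K)) (hv : Tri θ (realV k v)) :
    Tri θ (realV k (((Lam al b) ^ l) v)) := by
  induction l with
  | zero => exact hv
  | succ l ih =>
    rw [pow_succ', Module.End.mul_apply, realV_Lam al b hb]
    exact Tri_dunkl al θ k _ ih

theorem Mom_tri (hb : b = al - 1) (θ : n.Partition) (l : ℕ) (f : MvPolynomial ℕ K)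
    (hf : Tri θ (real N f)) : Tri θ (real N (Mom al b l f)) := by
  have hM : ∀ l, Mom al b l f = (((Lam al b) ^ l) (Polynomial.C f)).coeff 0 := by
    intro l
    rfl
  induction l with
  | zero =>
    rw [hM, pow_zero, Module.End.one_apply, Polynomial.coeff_C_zero]
    exact hf
  | succ l ih =>
    rw [hM, pow_succ', Module.End.mul_apply, coeff0_Lam]
    have h1 := sum_realV (N := N) (((Lam al b) ^ l) (Polynomial.C f))
    rw [← hM l] at h1
    have h2 : real N (Theta K (((Lam al b) ^ l) (Polynomial.C f))) =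
        ∑ k : Fin N, realV k (((Lam al b) ^ l) (Polynomial.C f)) +
          C (-(N : K)) * real N (Mom al b l f) := by
      rw [h1, C_neg]
      ring
    rw [h2]
    refine Tri_add θ _ _ (Tri_sum θ _ _ fun k _ => ?_) (Tri_C_mul θ _ _ ih)
    apply Tri_realV_pow al b hb
    rw [← Polynomial.monomial_zero_left, realV_monomial, pow_zero, one_mul]
    exact hf

end H25BC
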