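import Pool.Agent.H25.BC.P3b
import Pool.Agent.H25.BC.R3

/-!
# Module J1: triangularity and orthogonality together

Let `𝒟` be a set of partitions of `n`, `W_𝒟` the space of `f` with `IsHom n f` such that
`(real n f).coeff (rowexp n μ) ≠ 0` only for `μ ∈ 𝒟`. The map `f ↦ (coefficients at μ ∈ 𝒟)` is
injective on `W_𝒟` (`mc_inj`), so `dim W_𝒟 ≤ #𝒟`. If `𝒟` is downward closed (`μ ∈ 𝒟`,
`Dom μ (rowexp n ν)` imply `ν ∈ 𝒟`), then `J n μ ∈ W_𝒟` for `μ ∈ 𝒟` (`hJ.tri`), and these `#𝒟`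
vectors are linearly independent (orthogonal, `nrm ≠ 0`). So `W_𝒟 = span {J n μ | μ ∈ 𝒟}` and
`pair f (J n ψ) = 0` for `f ∈ W_𝒟`, `ψ ∉ 𝒟`.
`span_tri`: `𝒟 = {μ | Dom θ (rowexp n μ)}` (downward closed by `Dom_trans`).
`lead_ne_zero`: if the coefficient vanished, `J n θ ∈ W_𝒟'` with `𝒟' = 𝒟 \ {θ}`, which is
downward closed too (`Dom_antisymm`, `Dom_trans`); but `J n θ` is orthogonal to all `J n μ`,
`μ ∈ 𝒟'`, hence to itself: contradiction.
-/

open MvPolynomial

namespace H25BC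

variable {K : Type*} [Field K] [CharZero K] {al : K}
  {J : ∀ n : ℕ, n.Partition → MvPolynomial ℕ K}

/-- the space of the polynomials with coefficients only at a downward closed set of partitions -/
theorem J1_span (hJ : IsJack al J) (han : Aniso al) {n : ℕ} (Dn : Finset n.Partition)
    (hD : ∀ μ ∈ Dn, ∀ ν, Dom μ (rowexp n ν) → ν ∈ Dn) (f : MvPolynomial ℕ K) (hf : IsHom n f)
    (ht : ∀ μ : n.Partition, (real n f).coeff (rowexp n μ) ≠ 0 → μ ∈ Dn) :
    ∃ c : n.Partition → K, f = ∑ μ ∈ Dn, C (c μ) * J n μ := by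
  classical
  have hreal : ∀ (c : n.Partition → K) (μ : n.Partition),
      (real n (∑ ν ∈ Dn, C (c ν) * J n ν)).coeff (rowexp n μ) =
        ∑ ν ∈ Dn, c ν * (real n (J n ν)).coeff (rowexp n μ) := by
    intro c μ
    rw [map_sum, coeff_sum]
    refine Finset.sum_congr rfl fun ν _ => ?_
    rw [map_mul, ← algebraMap_eq, AlgHom.commutes, algebraMap_eq, coeff_C_mul]
  have hhom : ∀ c : n.Partition → K, IsHom n (∑ ν ∈ Dn, C (c ν) * J n ν) := by
    intro c m hm
    rw [coeff_sum] at hm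
    obtain ⟨ν, hν, hν2⟩ := Finset.exists_ne_zero_of_sum_ne_zero hm
    rw [coeff_C_mul] at hν2
    exact hJ.hom n ν m (right_ne_zero_of_mul hν2)
  have hout : ∀ (c : n.Partition → K) (μ : n.Partition), μ ∉ Dn →
      (real n (∑ ν ∈ Dn, C (c ν) * J n ν)).coeff (rowexp n μ) = 0 := by
    intro c μ hμ
    rw [hreal]
    refine Finset.sum_eq_zero fun ν hν => ?_
    by_cases h1 : (real n (J n ν)).coeff (rowexp n μ) = 0
    · rw [h1, mul_zero]
    · exact absurd (hD ν hν μ (hJ.tri n ν _ h1)) hμ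
  -- extension of a vector by zero
  let ext0 : (Dn → K) → (n.Partition → K) := fun c μ => if h : μ ∈ Dn then c ⟨μ, h⟩ else 0
  have hext : ∀ (c : Dn → K) (μ : Dn), ext0 c μ = c μ := by
    intro c μ
    simp only [ext0]
    rw [dif_pos μ.2]
  let L : (Dn → K) →ₗ[K] (Dn → K) :=
    { toFun := fun c μ => ∑ ν : Dn, c ν * (real n (J n ν)).coeff (rowexp n (μ : n.Partition))
      map_add' := by
        intro c c'
        funext μ
        simp only [Pi.add_apply, add_mul, Finset.sum_add_distrib]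
      map_smul' := by
        intro r c
        funext μ
        simp only [Pi.smul_apply, smul_eq_mul, RingHom.id_apply, Finset.mul_sum, mul_assoc] }
  have hLval : ∀ (c : Dn → K) (μ : Dn), L c μ =
      (real n (∑ ν ∈ Dn, C (ext0 c ν) * J n ν)).coeff (rowexp n (μ : n.Partition)) := by
    intro c μ
    rw [hreal, ← Finset.sum_coe_sort Dn]
    change ∑ ν : Dn, c ν * _ = _
    refine Finset.sum_congr rfl fun ν _ => ?_
    rw [hext]
  have hinj : Function.Injective L := by
    rw [injective_iff_map_eq_zero]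
    intro c hc
    have h1 : ∑ ν ∈ Dn, C (ext0 c ν) * J n ν = 0 := by
      apply mc_inj _ (hhom _)
      intro μ
      by_cases hμ : μ ∈ Dn
      · rw [← hLval c ⟨μ, hμ⟩, hc]
        rfl
      · exact hout _ μ hμ
    funext μ
    have h2 : pair al (∑ ν ∈ Dn, C (ext0 c ν) * J n ν) (J n μ) = 0 := by
      rw [h1, pair_zero_left]
    rw [pair_sum_left, Finset.sum_eq_single (μ : n.Partition)] at h2
    · rw [pair_C_mul_left, hext] at h2
      rcases mul_eq_zero.1 h2 with h3 | h3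
      · exact h3
      · exact absurd h3 (nrm_ne_zero hJ han n μ)
    · intro ν _ hν
      rw [pair_C_mul_left, hJ.orth n ν μ hν, mul_zero]
    · intro h3
      exact absurd μ.2 h3
  have hsurj : Function.Surjective L := LinearMap.injective_iff_surjective.1 hinj
  obtain ⟨c, hc⟩ := hsurj fun μ => (real n f).coeff (rowexp n (μ : n.Partition))
  refine ⟨ext0 c, ?_⟩
  rw [← sub_eq_zero]
  apply mc_inj
  · intro m hm
    rw [coeff_sub] at hm
    by_cases h1 : f.coeff m = 0
    · rw [h1, zero_sub, neg_ne_zero] at hm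
      exact hhom _ m hm
    · exact hf m h1
  · intro μ
    rw [map_sub, coeff_sub, sub_eq_zero]
    by_cases hμ : μ ∈ Dn
    · rw [← hLval c ⟨μ, hμ⟩, hc]
    · rw [hout _ μ hμ]
      by_contra h1
      exact hμ (ht μ h1)

theorem span_tri (hJ : IsJack al J) (han : Aniso al) {n : ℕ} (θ : n.Partition)
    (f : MvPolynomial ℕ K) (hf : IsHom n f) (ht : Tri θ (real n f)) (ψ : n.Partition)
    (h : pair al f (J n ψ) ≠ 0) : Dom θ (rowexp n ψ) := by
  classical
  by_contra hcon
  apply h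
  obtain ⟨c, hc⟩ := J1_span hJ han (Finset.univ.filter fun μ => Dom θ (rowexp n μ)) (by
    intro μ hμ ν hν
    rw [Finset.mem_filter] at hμ ⊢
    exact ⟨Finset.mem_univ _, Dom_trans θ μ _ hμ.2 hν⟩) f hf (by
    intro μ hμ
    rw [Finset.mem_filter]
    exact ⟨Finset.mem_univ _, ht _ hμ⟩)
  rw [hc, pair_sum_left]
  refine Finset.sum_eq_zero fun μ hμ => ?_
  rw [pair_C_mul_left, hJ.orth n μ ψ, mul_zero]
  rintro rfl
  rw [Finset.mem_filter] at hμ
  exact hcon hμ.2

theorem lead_ne_zero (hJ : IsJack al J) (han : Aniso al) {n : ℕ} (θ : n.Partition) :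
    (real n (J n θ)).coeff (rowexp n θ) ≠ 0 := by
  classical
  intro h0
  obtain ⟨c, hc⟩ := J1_span hJ han (Finset.univ.filter fun μ => Dom θ (rowexp n μ) ∧ μ ≠ θ) (by
    intro μ hμ ν hν
    rw [Finset.mem_filter] at hμ ⊢
    refine ⟨Finset.mem_univ _, Dom_trans θ μ _ hμ.2.1 hν, ?_⟩
    rintro rfl
    exact hμ.2.2 (Dom_antisymm _ _ hν hμ.2.1)) (J n θ) (hJ.hom n θ) (by
    intro μ hμ
    rw [Finset.mem_filter]
    refine ⟨Finset.mem_univ _, hJ.tri n θ _ hμ, ?_⟩
    rintro rfl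
    exact hμ h0)
  apply nrm_ne_zero hJ han n θ
  unfold nrm
  conv_lhs => rw [hc]
  rw [pair_sum_left]
  refine Finset.sum_eq_zero fun μ hμ => ?_
  rw [← hc, pair_C_mul_left, hJ.orth n μ θ, mul_zero]
  rw [Finset.mem_filter] at hμ
  exact hμ.2.2

end H25BC
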