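import Pool.Agent.H25.BC.J1
import Pool.Agent.H25.BC.A2V
import Pool.Agent.H25.BC.A3

/-!
# Module J2: `Mom_l` and `D` are diagonal on the Jack functions

`f = Mom_l (J n θ)` is homogeneous (`IsHom_Mom`) and `Tri θ (real n f)` (`Mom_tri`, `hJ.tri`). If
`pair f (J n ψ) ≠ 0` then `Dom θ (rowexp n ψ)` (`span_tri`); by `pair_Mom`, `pair_comm` it equals
`pair (Mom_l (J n ψ)) (J n θ)`, so also `Dom ψ (rowexp n θ)`; hence `ψ = θ` (`Dom_antisymm`). Now
`basis_expand`. `Mom_0 f = f`, `Mom_1 f = coeff 0 (DD f) = 0`.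
`Dop_J` follows from the definition of `Dop` and `eev`.
-/

open MvPolynomial

namespace H25BC

variable {K : Type*} [Field K] [CharZero K] {al b : K}
  {J : ∀ n : ℕ, n.Partition → MvPolynomial ℕ K}

theorem Mom_J (hJ : IsJack al J) (han : Aniso al) (hb : b = al - 1) (l n : ℕ) (θ : n.Partition) :
    Mom al b l (J n θ) = C (Mev al b J l n θ) * J n θ := by
  have hf : IsHom n (Mom al b l (J n θ)) := IsHom_Mom al b l (hJ.hom n θ)
  have hD : ∀ φ ψ : n.Partition, pair al (Mom al b l (J n φ)) (J n ψ) ≠ 0 →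
      Dom φ (rowexp n ψ) := fun φ ψ h =>
    span_tri hJ han φ _ (IsHom_Mom al b l (hJ.hom n φ))
      (Mom_tri al b hb φ l _ (hJ.tri n φ)) ψ h
  refine (basis_expand hJ han _ hf).trans ?_
  rw [Finset.sum_eq_single θ]
  · rfl
  · intro ψ _ hψ
    by_cases h : pair al (Mom al b l (J n θ)) (J n ψ) = 0
    · rw [h, mul_zero, C_0, zero_mul]
    · exfalso
      have h1 := hD θ ψ h
      rw [pair_Mom, pair_comm] at h
      exact hψ (Dom_antisymm θ ψ h1 (hD ψ θ h)).symm
  · intro h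
    exact absurd (Finset.mem_univ θ) h

theorem Mev_zero (hJ : IsJack al J) (han : Aniso al) (n : ℕ) (θ : n.Partition) :
    Mev al b J 0 n θ = 1 := by
  have h1 : Mom al b 0 (J n θ) = J n θ := by
    simp [Mom, Cl]
  rw [Mev, h1]
  exact inv_mul_cancel₀ (nrm_ne_zero hJ han n θ)

theorem Mev_one (n : ℕ) (θ : n.Partition) : Mev al b J 1 n θ = 0 := by
  have h1 : Mom al b 1 (J n θ) = 0 := by
    have h2 : Mom al b 1 (J n θ) = (Lam al b (Polynomial.C (J n θ))).coeff 0 := by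
      rw [Mom, pow_one]
      rfl
    rw [h2, Lam_C, DD_coeff_zero]
  rw [Mev, h1, pair_zero_left, mul_zero]

theorem Dop_J (hJ : IsJack al J) (han : Aniso al) (hb : b = al - 1) (n : ℕ) (θ : n.Partition) :
    Dop al b (J n θ) = C (eev al b J n θ) * J n θ := by
  have h1 : Dop al b (J n θ) = (2 * al)⁻¹ • (Mom al b 3 (J n θ) - b • Mom al b 2 (J n θ)) := rfl
  rw [h1, Mom_J hJ han hb, Mom_J hJ han hb, eev, MvPolynomial.smul_eq_C_mul,
    MvPolynomial.smul_eq_C_mul, C_mul, C_sub, C_mul]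
  ring

end H25BC
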