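import Pool.Agent.H25.BC.A2

/-!
# Module P1: partitions, rows, exponents

`row θ i` is the `i`-th entry of the decreasingly sorted list of parts (`0` beyond its length).
* `row_antitone`, `row_eq_zero` (at most `n` parts), `sum_row`, `row_inj` (the list of non-zero
  rows is the sorted list of parts).
* `Dom θ (rowexp n φ)` says `∑_{k ∈ T} row φ k ≤ ∑_{i<#T} row θ i` for all `T`; for
  `T = {0..s-1}` this is the inequality of partial sums (`Dom_rowexp_iff`); conversely
  `∑_{k∈T} row φ k ≤ ∑_{i<#T} row φ i` as the rows are decreasing.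
* `Dom_antisymm`: partial sums agree for all `s ≤ n`, so the rows agree. `Dom_trans`.
* `expo θ`: the exponent `m_i = count (i+1)`; `wt (expo θ) = ∑ parts = n`; bijection between
  partitions of `n` and exponents of weight `n`.
-/

open MvPolynomial

namespace H25BC

private theorem P1_length {n : ℕ} (θ : n.Partition) :
    (θ.parts.sort (· ≥ ·)).length ≤ n := by
  rw [Multiset.length_sort]
  have h1 := Multiset.card_nsmul_le_sum (s := θ.parts) (a := 1)
    (fun x hx => θ.parts_pos hx)
  rw [θ.parts_sum, smul_eq_mul, mul_one] at h1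
  exact h1

private theorem P1_sum (l : List ℕ) (n : ℕ) (h : l.length ≤ n) :
    ∑ i ∈ Finset.range n, l.getD i 0 = l.sum := by
  induction l generalizing n with
  | nil => simp
  | cons a l ih =>
    obtain ⟨m, rfl⟩ : ∃ m, n = m + 1 := ⟨n - 1, by
      rw [List.length_cons] at h
      omega⟩
    rw [Finset.sum_range_succ', List.sum_cons]
    simp only [List.getD_cons_succ, List.getD_cons_zero]
    rw [ih m (by
      rw [List.length_cons] at h
      omega), add_comm]

private theorem P1_list (l l' : List ℕ) (hl : ∀ x ∈ l, 0 < x) (hl' : ∀ x ∈ l', 0 < x)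
    (h : ∀ i, l.getD i 0 = l'.getD i 0) : l = l' := by
  induction l generalizing l' with
  | nil =>
    cases l' with
    | nil => rfl
    | cons b t =>
      have h0 := h 0
      rw [List.getD_cons_zero, List.getD_nil] at h0
      have := hl' b (List.mem_cons_self)
      omega
  | cons a s ih =>
    cases l' with
    | nil =>
      have h0 := h 0
      rw [List.getD_cons_zero, List.getD_nil] at h0
      have := hl a (List.mem_cons_self)
      omega
    | cons b t =>
      have h0 := h 0
      rw [List.getD_cons_zero, List.getD_cons_zero] at h0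
      rw [h0, ih t (fun x hx => hl x (List.mem_cons_of_mem _ hx))
        (fun x hx => hl' x (List.mem_cons_of_mem _ hx)) fun i => by
          have h1 := h (i + 1)
          rw [List.getD_cons_succ, List.getD_cons_succ] at h1
          exact h1]

/-- the first values of a decreasing function have the largest sum -/
theorem P1_range (f : ℕ → ℕ) (hf : Antitone f) (T : Finset ℕ) :
    ∑ k ∈ T, f k ≤ ∑ i ∈ Finset.range T.card, f i := by
  induction T using Finset.induction_on_max with
  | empty => simp
  | insert a s hs ih =>
    have ha : a ∉ s := fun h => lt_irrefl _ (hs a h)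
    have h1 : s.card ≤ a := by
      have h2 : s ⊆ Finset.range a := fun x hx => Finset.mem_range.2 (hs x hx)
      have h3 := Finset.card_le_card h2
      rwa [Finset.card_range] at h3
    rw [Finset.sum_insert ha, Finset.card_insert_of_notMem ha, Finset.sum_range_succ]
    have h4 := hf h1
    omega

theorem row_antitone {n : ℕ} (θ : n.Partition) : Antitone (row θ) := by
  intro i j hij
  unfold row
  set l := θ.parts.sort (· ≥ ·) with hl
  have hp : l.Pairwise (· ≥ ·) := Multiset.pairwise_sort _ _
  rcases lt_or_ge j l.length with h | h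
  · have h' : i < l.length := lt_of_le_of_lt hij h
    rw [List.getD_eq_getElem _ _ h, List.getD_eq_getElem _ _ h']
    rcases eq_or_lt_of_le hij with h1 | h1
    · subst h1
      exact le_rfl
    · exact (List.pairwise_iff_getElem.1 hp) i j h' h h1
  · rw [List.getD_eq_default _ _ h]
    exact Nat.zero_le _

theorem row_eq_zero {n : ℕ} (θ : n.Partition) (i : ℕ) (hi : n ≤ i) : row θ i = 0 := by
  unfold row
  exact List.getD_eq_default _ _ ((P1_length θ).trans hi)

theorem sum_row {n : ℕ} (θ : n.Partition) : ∑ i ∈ Finset.range n, row θ i = n := by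
  unfold row
  rw [P1_sum _ _ (P1_length θ), ← Multiset.sum_coe, Multiset.sort_eq, θ.parts_sum]

theorem row_inj {n : ℕ} (θ φ : n.Partition) (h : ∀ i, row θ i = row φ i) : θ = φ := by
  have h1 : ∀ (ψ : n.Partition), ∀ x ∈ ψ.parts.sort (· ≥ ·), 0 < x := by
    intro ψ x hx
    rw [Multiset.mem_sort] at hx
    exact ψ.parts_pos hx
  have h2 := P1_list _ _ (h1 θ) (h1 φ) h
  apply Nat.Partition.ext
  rw [← Multiset.sort_eq θ.parts (· ≥ ·), h2, Multiset.sort_eq]

theorem Dom_rowexp_iff {n : ℕ} (θ φ : n.Partition) :
    Dom θ (rowexp n φ) ↔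
      ∀ s ≤ n, ∑ i ∈ Finset.range s, row φ i ≤ ∑ i ∈ Finset.range s, row θ i := by
  have hr : ∀ k : Fin n, rowexp n φ k = row φ k := fun k => rfl
  constructor
  · intro h s hs
    set T : Finset (Fin n) := Finset.univ.filter (fun k : Fin n => (k : ℕ) < s) with hT
    have h1 : T.image (fun k : Fin n => (k : ℕ)) = Finset.range s := by
      ext i
      rw [Finset.mem_image, Finset.mem_range]
      constructor
      · rintro ⟨k, hk, rfl⟩
        rw [hT, Finset.mem_filter] at hk
        exact hk.2
      · intro hi
        exact ⟨⟨i, by omega⟩, by rw [hT, Finset.mem_filter]; exact ⟨Finset.mem_univ _, hi⟩, rfl⟩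
    have h2 : T.card = s := by
      rw [← Finset.card_range s, ← h1, Finset.card_image_of_injective _ Fin.val_injective]
    have h3 : ∑ k ∈ T, rowexp n φ k = ∑ i ∈ Finset.range s, row φ i := by
      rw [← h1, Finset.sum_image fun x _ y _ h => Fin.val_injective h]
      rfl
    have h4 := h T
    rw [h2, h3] at h4
    exact h4
  · intro h T
    have h1 : ∑ k ∈ T, rowexp n φ k = ∑ i ∈ T.image (fun k : Fin n => (k : ℕ)), row φ i := by
      rw [Finset.sum_image fun x _ y _ h => Fin.val_injective h]
      rfl
    have h2 : (T.image (fun k : Fin n => (k : ℕ))).card = T.card :=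
      Finset.card_image_of_injective _ Fin.val_injective
    have h3 := P1_range (row φ) (row_antitone φ) (T.image (fun k : Fin n => (k : ℕ)))
    rw [h2] at h3
    have h4 : T.card ≤ n := by
      have := Finset.card_le_univ T
      rwa [Fintype.card_fin] at this
    rw [h1]
    exact h3.trans (h _ h4)

theorem Dom_refl {n : ℕ} (θ : n.Partition) : Dom θ (rowexp n θ) := by
  rw [Dom_rowexp_iff]
  exact fun s _ => le_rfl

theorem Dom_antisymm {n : ℕ} (θ φ : n.Partition) (h : Dom θ (rowexp n φ))
    (h' : Dom φ (rowexp n θ)) : θ = φ := by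
  rw [Dom_rowexp_iff] at h h'
  have h1 : ∀ s ≤ n, ∑ i ∈ Finset.range s, row φ i = ∑ i ∈ Finset.range s, row θ i :=
    fun s hs => le_antisymm (h s hs) (h' s hs)
  apply row_inj
  intro i
  rcases lt_or_ge i n with hi | hi
  · have h2 := h1 i hi.le
    have h3 := h1 (i + 1) hi
    rw [Finset.sum_range_succ, Finset.sum_range_succ, h2] at h3
    omega
  · rw [row_eq_zero θ i hi, row_eq_zero φ i hi]

theorem Dom_trans {n : ℕ} (θ φ : n.Partition) (a : Fin n →₀ ℕ) (h : Dom θ (rowexp n φ))
    (h' : Dom φ a) : Dom θ a := by
  rw [Dom_rowexp_iff] at h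
  intro T
  have h4 : T.card ≤ n := by
    have := Finset.card_le_univ T
    rwa [Fintype.card_fin] at this
  exact (h' T).trans (h _ h4)

end H25BC
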