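import Pool.Agent.H25.BC.R3
import Pool.Agent.H25.BC.P1

/-!
# Module R4: the leading coefficients

`coeff_dunkl`. Let `a' = ex N θ i` (the rows of `θ` with the entries `0` and `i` exchanged), so
`a'_0 = row θ i`, `a'_i = row θ 0`, `a'_j = row θ j` otherwise. The part `al x_0 ∂_0` contributes
`al (row θ i) c_i`, `c_i = coeff a' g`. Fix `j ≠ 0`. A monomial `x^a` of `g` (so `Dom θ a`)
contributes to the coefficient of `x^{a'}` in `dd 0 j` only if `a` agrees with `a'` outside
`{0,j}`, `a_0 + a_j = a'_0 + a'_j`, and `{a_0, a_j}` is at least as spread out as `{a'_0, a'_j}`.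
It cannot be more spread out: let `M = max(a'_0, a'_j)`, attained at `u ∈ {0,j}`, and
`T = {k : a'_k > M} ∪ {u}`; the sum of `a'` over `T` is the sum of the `#T` largest rows, and the
sum of `a` over `(T \ {u}) ∪ {argmax(a_0,a_j)}` would be larger, contradicting `Dom θ a`. So
`{a_0,a_j} = {a'_0,a'_j}`. From the definition of `dd`:
if `a'_j > a'_0` the contributions are `a = a' ∘ swap 0 j` (first branch, `i = 0`): `+1`, and
`a = a'` (second branch, `i = 0`): `-1`; if `a'_j ≤ a'_0`: nothing (in the first branch `a = a'`
would need `i = a_0 - a_j`, excluded; the second branch has `a_0 < a_j`, values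
`a'_0 = a_0 + i < a'_j`..., which is impossible as well).
So the coefficient is `al r_i c_i + ∑_{j ≠ 0, a'_j > r_i} (coeff (a' ∘ swap 0 j) g - c_i)`,
`r_i = row θ i`. By the symmetry of `g` in `x_1, .., x_N` the coefficient of an arrangement of the
rows depends only on the value of the exponent of `x_0`; so the sum is
`∑_{j : r_j > r_i} (c_j - c_i)` over all rows `j` (the term `j = i` of the first sum, present if
`r_0 > r_i`, corresponds to row `0`), and since `c_j = c_i` if `r_j = r_i`, it is
`∑_{j<i} (c_j - c_i) = ∑_{j<i} c_j - i c_i`.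

`coeff_sum_realV`: `realV k v = rename (swap 0 k) (realV 0 v)` (`realV_rename`), and the coefficient
of `rowexp` in `rename σ g` is the coefficient of `rowexp ∘ σ` in `g`.
-/

open MvPolynomial

namespace H25BC

variable {K : Type*} [Field K] {N : ℕ} (al b : K)

/-- invariance of the coefficients under a transposition -/
theorem R4_sym {M : ℕ} (g : MvPolynomial (Fin M) K) (p q : Fin M)
    (h : rename (Equiv.swap p q) g = g) (b c : Fin M →₀ ℕ)
    (hbc : ∀ l, b (Equiv.swap p q l) = c l) : g.coeff b = g.coeff c := by
  have h1 := coeff_rename_mapDomain (R := K) (Equiv.swap p q) (Equiv.injective _) g b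
  rw [h] at h1
  rw [← h1]
  congr 1
  ext l
  rw [Finsupp.mapDomain_equiv_apply, Equiv.symm_swap, hbc]

private theorem R4_swap {α : Type*} [DecidableEq α] (z i j l : α) (hi : i ≠ z) (hj : j ≠ z)
    (hij : j ≠ i) :
    Equiv.swap z i (Equiv.swap z j (Equiv.swap i j l)) = Equiv.swap z j l := by
  rcases eq_or_ne l z with rfl | h1
  · rw [Equiv.swap_apply_of_ne_of_ne hi.symm hj.symm, Equiv.swap_apply_left,
      Equiv.swap_apply_of_ne_of_ne hj hij]
  · rcases eq_or_ne l i with rfl | h2
    · rw [Equiv.swap_apply_left, Equiv.swap_apply_right, Equiv.swap_apply_left,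
        Equiv.swap_apply_of_ne_of_ne hi hij.symm]
    · rcases eq_or_ne l j with rfl | h3
      · rw [Equiv.swap_apply_right, Equiv.swap_apply_right,
          Equiv.swap_apply_of_ne_of_ne hi hij.symm, Equiv.swap_apply_right]
      · rw [Equiv.swap_apply_of_ne_of_ne h2 h3, Equiv.swap_apply_of_ne_of_ne h1 h3,
          Equiv.swap_apply_of_ne_of_ne h1 h2]

private theorem R4_swap2 {α : Type*} [DecidableEq α] (z i j l : α) (hi : i ≠ z) (hj : j ≠ z)
    (hij : j ≠ i) :
    Equiv.swap z i (Equiv.swap i j l) = Equiv.swap z j l ∨
      (Equiv.swap z i (Equiv.swap i j l) = i ∧ Equiv.swap z j l = j) ∨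
      (Equiv.swap z i (Equiv.swap i j l) = j ∧ Equiv.swap z j l = i) := by
  rcases eq_or_ne l z with rfl | h1
  · right
    left
    rw [Equiv.swap_apply_of_ne_of_ne hi.symm hj.symm, Equiv.swap_apply_left,
      Equiv.swap_apply_left]
    exact ⟨rfl, rfl⟩
  · rcases eq_or_ne l i with rfl | h2
    · right
      right
      rw [Equiv.swap_apply_left, Equiv.swap_apply_of_ne_of_ne hj hij,
        Equiv.swap_apply_of_ne_of_ne hi hij.symm]
      exact ⟨rfl, rfl⟩
    · rcases eq_or_ne l j with rfl | h3
      · left
        rw [Equiv.swap_apply_right, Equiv.swap_apply_right, Equiv.swap_apply_right]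
      · left
        rw [Equiv.swap_apply_of_ne_of_ne h2 h3, Equiv.swap_apply_of_ne_of_ne h1 h2,
          Equiv.swap_apply_of_ne_of_ne h1 h3]

/-- the largest rows -/
theorem R4_top {n : ℕ} (θ : n.Partition) (M m : ℕ) (S : Finset (Fin M))
    (hS : S = Finset.univ.filter (fun l : Fin M => m < row θ l)) :
    (∀ l : Fin M, l ∈ S ↔ (l : ℕ) < S.card) ∧
      ∑ l ∈ S, row θ l = ∑ i ∈ Finset.range S.card, row θ i := by
  have hmem : ∀ l : Fin M, l ∈ S ↔ m < row θ l := by
    intro l
    rw [hS]
    simp
  have h1 : ∀ l : Fin M, l ∈ S ↔ (l : ℕ) < S.card := by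
    intro l
    constructor
    · intro hl
      have h2 : Finset.Iic l ⊆ S := by
        intro l' hl'
        rw [Finset.mem_Iic] at hl'
        rw [hmem] at hl ⊢
        exact lt_of_lt_of_le hl (row_antitone θ hl')
      have h3 := Finset.card_le_card h2
      rw [Fin.card_Iic] at h3
      omega
    · intro hl
      by_contra hcon
      have h2 : S ⊆ Finset.Iio l := by
        intro l' hl'
        rw [Finset.mem_Iio]
        by_contra h3
        apply hcon
        rw [hmem] at hl' ⊢
        exact lt_of_lt_of_le hl' (row_antitone θ (not_lt.1 h3))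
      have h3 := Finset.card_le_card h2
      rw [Fin.card_Iio] at h3
      omega
  refine ⟨h1, ?_⟩
  refine Finset.sum_bij (fun l _ => (l : ℕ)) ?_ ?_ ?_ ?_
  · intro l hl
    rw [Finset.mem_range]
    exact (h1 l).1 hl
  · intro l _ l' _ h
    exact Fin.ext h
  · intro i hi
    rw [Finset.mem_range] at hi
    have h2 : S.card ≤ M := by
      have := Finset.card_le_univ S
      rwa [Fintype.card_fin] at this
    exact ⟨⟨i, by omega⟩, (h1 _).2 hi, rfl⟩
  · intro l _
    rfl

/-- a dominated exponent which agrees with an arrangement outside `{k, j}` is not more spread -/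
theorem R4_max {n M : ℕ} (θ : n.Partition) (σ : Equiv.Perm (Fin M)) (a' a : Fin M →₀ ℕ)
    (ha' : ∀ l, a' l = row θ (σ l)) (ha : Dom θ a) (k j : Fin M)
    (hA : ∀ l, l ≠ k → l ≠ j → a l = a' l) : max (a k) (a j) ≤ max (a' k) (a' j) := by
  classical
  by_contra hcon
  rw [not_le] at hcon
  set m := max (a' k) (a' j) with hm
  obtain ⟨v, hv, hvkj⟩ : ∃ v, m < a v ∧ (v = k ∨ v = j) := by
    rcases lt_max_iff.1 hcon with h | h
    · exact ⟨k, h, Or.inl rfl⟩
    · exact ⟨j, h, Or.inr rfl⟩
  obtain ⟨S, hS⟩ : ∃ S, S = Finset.univ.filter (fun l : Fin M => m < row θ l) := ⟨_, rfl⟩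
  obtain ⟨h1, h2⟩ := R4_top θ M m S hS
  set T := Finset.univ.filter (fun l : Fin M => m < a' l) with hT
  have hTS : T.image σ = S := by
    ext l
    rw [Finset.mem_image, hS, Finset.mem_filter]
    constructor
    · rintro ⟨l', hl', rfl⟩
      rw [hT, Finset.mem_filter, ha'] at hl'
      exact ⟨Finset.mem_univ _, hl'.2⟩
    · rintro ⟨_, hl⟩
      refine ⟨σ.symm l, ?_, σ.apply_symm_apply l⟩
      rw [hT, Finset.mem_filter, ha', σ.apply_symm_apply]
      exact ⟨Finset.mem_univ _, hl⟩
  have hcard : T.card = S.card := by
    rw [← hTS, Finset.card_image_of_injective _ σ.injective]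
  have hsum : ∑ l ∈ T, a' l = ∑ i ∈ Finset.range S.card, row θ i := by
    rw [← h2, ← hTS, Finset.sum_image fun x _ y _ h => σ.injective h]
    exact Finset.sum_congr rfl fun l _ => ha' l
  have hkT : k ∉ T := by
    rw [hT, Finset.mem_filter, not_and, not_lt]
    exact fun _ => le_max_left _ _
  have hjT : j ∉ T := by
    rw [hT, Finset.mem_filter, not_and, not_lt]
    exact fun _ => le_max_right _ _
  have hvT : v ∉ T := by
    rcases hvkj with h | h <;> rw [h]
    · exact hkT
    · exact hjT
  have hD := ha (insert v T)
  have hsa : ∑ l ∈ T, a l = ∑ l ∈ T, a' l := by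
    refine Finset.sum_congr rfl fun l hl => hA l ?_ ?_
    · rintro rfl
      exact hkT hl
    · rintro rfl
      exact hjT hl
  rw [Finset.sum_insert hvT, Finset.card_insert_of_notMem hvT, Finset.sum_range_succ, hcard, hsa,
    hsum] at hD
  have hσk : σ k ∉ S := by
    rw [hS, Finset.mem_filter, not_and, not_lt, ← ha']
    exact fun _ => le_max_left _ _
  have h3 : S.card ≤ (σ k : ℕ) := by
    by_contra h4
    exact hσk ((h1 _).2 (not_le.1 h4))
  have h5 : S.card < M := lt_of_le_of_lt h3 (σ k).2
  have h6 : (⟨S.card, h5⟩ : Fin M) ∉ S := by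
    rw [h1]
    exact lt_irrefl _
  have h7 : row θ S.card ≤ m := by
    by_contra h8
    apply h6
    have h9 : ∀ l : Fin M, m < row θ l → l ∈ S := by
      intro l hl
      rw [hS, Finset.mem_filter]
      exact ⟨Finset.mem_univ _, hl⟩
    exact h9 _ (not_le.1 h8)
  omega

/-- coefficients of `dd k j` of a monomial -/
theorem R4_mon {M : ℕ} (k j : Fin M) (hkj : k ≠ j) (a a' : Fin M →₀ ℕ)
    (hmax : (∀ l, l ≠ k → l ≠ j → a l = a' l) → max (a k) (a j) ≤ max (a' k) (a' j)) :
    (dd k j (monomial a (1 : K))).coeff a' =
      if a' k < a' j then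
        (if a = Finsupp.update (Finsupp.update a' k (a' j)) j (a' k) then 1 else 0) -
          (if a = a' then 1 else 0)
      else 0 := by
  classical
  have hupd : ∀ (c : Fin M →₀ ℕ) (x y : ℕ) (d : Fin M →₀ ℕ),
      Finsupp.update (Finsupp.update c k x) j y = d ↔
        (∀ l, l ≠ k → l ≠ j → c l = d l) ∧ x = d k ∧ y = d j := by
    intro c x y d
    constructor
    · rintro rfl
      refine ⟨fun l h1 h2 => ?_, ?_, ?_⟩
      · simp [h1, h2, Function.update_of_ne]
      · simp [hkj]
      · simp
    · rintro ⟨h1, h2, h3⟩
      ext l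
      by_cases h4 : l = j
      · rw [h4]
        simp [h3]
      · by_cases h5 : l = k
        · rw [h5]
          simp [hkj, h2]
        · simp [h4, h5, Function.update_of_ne, h1 l h5 h4]
  have hb : (a = Finsupp.update (Finsupp.update a' k (a' j)) j (a' k)) ↔
      (∀ l, l ≠ k → l ≠ j → a' l = a l) ∧ a' j = a k ∧ a' k = a j := by
    rw [eq_comm, hupd]
  have hc : (a = a') ↔ (∀ l, l ≠ k → l ≠ j → a l = a' l) ∧ a k = a' k ∧ a j = a' j := by
    constructor
    · rintro rfl
      exact ⟨fun _ _ _ => rfl, rfl, rfl⟩
    · rintro ⟨h1, h2, h3⟩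
      ext l
      by_cases h4 : l = j
      · rw [h4, h3]
      · by_cases h5 : l = k
        · rw [h5, h2]
        · exact h1 l h5 h4
  rw [dd_mon1]
  by_cases hA : ∀ l, l ≠ k → l ≠ j → a l = a' l
  · have hm := hmax hA
    have hA' : ∀ l, l ≠ k → l ≠ j → a' l = a l := fun l h1 h2 => (hA l h1 h2).symm
    by_cases hs : a k + a j = a' k + a' j
    · by_cases h1 : a j < a k
      · rw [if_pos h1]
        by_cases h2 : a' k < a' j
        · rw [if_pos h2]
          have hn : ¬ (a = a') := by
            rw [hc]
            rintro ⟨_, h5, h6⟩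
            omega
          rw [if_neg hn, sub_zero]
          by_cases h3 : a = Finsupp.update (Finsupp.update a' k (a' j)) j (a' k)
          · rw [if_pos h3]
            obtain ⟨_, h5, h6⟩ := hb.1 h3
            rw [coeff_sum, Finset.sum_eq_single 0]
            · rw [coeff_monomial, if_pos ((hupd _ _ _ _).2 ⟨hA, by omega, by omega⟩)]
            · intro i hi hi0
              rw [coeff_monomial, if_neg]
              intro h7
              have h8 := (hupd _ _ _ _).1 h7
              omega
            · intro h7
              rw [Finset.mem_range, not_lt] at h7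
              omega
          · rw [if_neg h3, coeff_sum]
            refine Finset.sum_eq_zero fun i hi => ?_
            rw [coeff_monomial, if_neg]
            intro h7
            have h8 := (hupd _ _ _ _).1 h7
            have h9 := Finset.mem_range.1 hi
            apply h3
            rw [hb]
            refine ⟨hA', ?_, ?_⟩ <;> omega
        · rw [if_neg h2, coeff_sum]
          refine Finset.sum_eq_zero fun i hi => ?_
          rw [coeff_monomial, if_neg]
          intro h7
          have h8 := (hupd _ _ _ _).1 h7
          have h9 := Finset.mem_range.1 hi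
          omega
      · rw [if_neg h1]
        by_cases h2 : a' k < a' j
        · rw [if_pos h2]
          have hn : ¬ (a = Finsupp.update (Finsupp.update a' k (a' j)) j (a' k)) := by
            rw [hb]
            rintro ⟨_, h5, h6⟩
            omega
          rw [if_neg hn, zero_sub]
          by_cases h3 : a = a'
          · rw [if_pos h3]
            obtain ⟨_, h5, h6⟩ := hc.1 h3
            rw [coeff_neg, coeff_sum, Finset.sum_eq_single 0]
            · rw [coeff_monomial, if_pos ((hupd _ _ _ _).2 ⟨hA, by omega, by omega⟩)]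
            · intro i hi hi0
              rw [coeff_monomial, if_neg]
              intro h7
              have h8 := (hupd _ _ _ _).1 h7
              omega
            · intro h7
              rw [Finset.mem_range, not_lt] at h7
              omega
          · rw [if_neg h3, coeff_neg, coeff_sum, Finset.sum_eq_zero]
            intro i hi
            rw [coeff_monomial, if_neg]
            intro h7
            have h8 := (hupd _ _ _ _).1 h7
            have h9 := Finset.mem_range.1 hi
            apply h3
            rw [hc]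
            refine ⟨hA, ?_, ?_⟩ <;> omega
        · rw [if_neg h2, coeff_neg, coeff_sum, Finset.sum_eq_zero, neg_zero]
          intro i hi
          rw [coeff_monomial, if_neg]
          intro h7
          have h8 := (hupd _ _ _ _).1 h7
          have h9 := Finset.mem_range.1 hi
          omega
    · have hz1 : ¬ (a = Finsupp.update (Finsupp.update a' k (a' j)) j (a' k)) := by
        rw [hb]
        rintro ⟨_, h1, h2⟩
        omega
      have hz2 : ¬ (a = a') := by
        rw [hc]
        rintro ⟨_, h1, h2⟩
        omega
      rw [if_neg hz1, if_neg hz2, sub_zero, ite_self]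
      split_ifs with h1
      · rw [coeff_sum]
        refine Finset.sum_eq_zero fun i hi => ?_
        rw [coeff_monomial, if_neg]
        intro h7
        have h8 := (hupd _ _ _ _).1 h7
        have h9 := Finset.mem_range.1 hi
        omega
      · rw [coeff_neg, coeff_sum, Finset.sum_eq_zero, neg_zero]
        intro i hi
        rw [coeff_monomial, if_neg]
        intro h7
        have h8 := (hupd _ _ _ _).1 h7
        have h9 := Finset.mem_range.1 hi
        omega
  · have hz1 : ¬ (a = Finsupp.update (Finsupp.update a' k (a' j)) j (a' k)) := by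
      rw [hb]
      rintro ⟨h1, _, _⟩
      exact hA fun l h2 h3 => (h1 l h2 h3).symm
    have hz2 : ¬ (a = a') := by
      rw [hc]
      rintro ⟨h1, _, _⟩
      exact hA h1
    rw [if_neg hz1, if_neg hz2, sub_zero, ite_self]
    split_ifs with h1
    · rw [coeff_sum]
      refine Finset.sum_eq_zero fun i hi => ?_
      rw [coeff_monomial, if_neg]
      intro h7
      exact hA ((hupd _ _ _ _).1 h7).1
    · rw [coeff_neg, coeff_sum, Finset.sum_eq_zero, neg_zero]
      intro i hi
      rw [coeff_monomial, if_neg]
      intro h7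
      exact hA ((hupd _ _ _ _).1 h7).1

/-- coefficients of `dd k j` at arrangements of the rows -/
theorem R4_dd {n M : ℕ} (θ : n.Partition) (σ : Equiv.Perm (Fin M)) (k j : Fin M) (hkj : k ≠ j)
    (g : MvPolynomial (Fin M) K) (hg : Tri θ g) (a' : Fin M →₀ ℕ)
    (ha' : ∀ l, a' l = row θ (σ l)) :
    (dd k j g).coeff a' =
      if a' k < a' j then
        g.coeff (Finsupp.update (Finsupp.update a' k (a' j)) j (a' k)) - g.coeff a'
      else 0 := by
  classical
  have h1 : (dd k j g).coeff a' =
      ∑ a ∈ g.support, g.coeff a * (dd k j (monomial a (1 : K))).coeff a' := by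
    conv_lhs => rw [g.as_sum, map_sum, coeff_sum]
    refine Finset.sum_congr rfl fun a _ => ?_
    have h2 : monomial a (coeff a g) = (coeff a g) • monomial a (1 : K) := by
      rw [smul_monomial, smul_eq_mul, mul_one]
    rw [h2, map_smul, coeff_smul, smul_eq_mul]
  have h2 : ∀ b, ∑ a ∈ g.support, g.coeff a * (if a = b then (1 : K) else 0) = g.coeff b := by
    intro b
    simp only [mul_ite, mul_one, mul_zero]
    rw [Finset.sum_ite_eq']
    split_ifs with h
    · rfl
    · exact (notMem_support_iff.1 h).symm
  rw [h1]
  have h3 : ∀ a ∈ g.support, g.coeff a * (dd k j (monomial a (1 : K))).coeff a' =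
      if a' k < a' j then
        g.coeff a * (if a = Finsupp.update (Finsupp.update a' k (a' j)) j (a' k) then 1 else 0) -
          g.coeff a * (if a = a' then 1 else 0) else 0 := by
    intro a ha
    rw [R4_mon k j hkj a a' fun hA =>
      R4_max θ σ a' a ha' (hg a (mem_support_iff.1 ha)) k j hA]
    split_ifs <;> ring
  rw [Finset.sum_congr rfl h3]
  by_cases h4 : a' k < a' j
  · simp only [if_pos h4]
    rw [Finset.sum_sub_distrib, h2, h2]
  · simp only [if_neg h4]
    exact Finset.sum_const_zero

theorem coeff_dunkl (θ : (N + 1).Partition) (g : MvPolynomial (Fin (N + 1)) K)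
    (hsym : ∀ j k : Fin (N + 1), j ≠ 0 → k ≠ 0 → rename (Equiv.swap j k) g = g)
    (hg : Tri θ g) (i : Fin (N + 1)) :
    (dunkl al 0 g).coeff (ex N θ i) =
      (al * (row θ i : K) - (i : ℕ)) * g.coeff (ex N θ i)
        + ∑ j ∈ Finset.univ.filter (fun j : Fin (N + 1) => j < i), g.coeff (ex N θ j) := by
  classical
  set a' := ex N θ i with ha'
  have hval : ∀ l, a' l = row θ (Equiv.swap 0 i l : Fin (N + 1)) := fun l => rfl
  have hex : ∀ j l, ex N θ j l = row θ (Equiv.swap 0 j l : Fin (N + 1)) := fun j l => rfl
  have h0 : a' 0 = row θ i := by rw [hval, Equiv.swap_apply_left]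
  -- coefficients of arrangements
  have hcj : ∀ j : Fin (N + 1), j ≠ 0 →
      g.coeff (Finsupp.update (Finsupp.update a' 0 (a' j)) j (a' 0)) =
        if j = i then g.coeff (ex N θ 0) else g.coeff (ex N θ j) := by
    intro j hj
    have hb : ∀ l, (Finsupp.update (Finsupp.update a' 0 (a' j)) j (a' 0)) l =
        a' (Equiv.swap 0 j l) := by
      intro l
      simp only [Finsupp.coe_update]
      by_cases h1 : l = j
      · rw [h1, Function.update_self, Equiv.swap_apply_right]
      · rw [Function.update_of_ne h1]
        by_cases h2 : l = 0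
        · rw [h2, Function.update_self, Equiv.swap_apply_left]
        · rw [Function.update_of_ne h2, Equiv.swap_apply_of_ne_of_ne h2 h1]
    by_cases hji : j = i
    · rw [if_pos hji]
      congr 1
      ext l
      rw [hb, hval, hex, hji, Equiv.swap_apply_self, Equiv.swap_self, Equiv.refl_apply]
    · rw [if_neg hji]
      by_cases hi : i = 0
      · congr 1
        ext l
        rw [hb, hval, hex, hi, Equiv.swap_self, Equiv.refl_apply]
      · refine R4_sym g i j (hsym i j hi hj) _ _ fun l => ?_
        rw [hb, hval, hex, R4_swap _ _ _ _ hi hj hji]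
  have hdd : ∀ j : Fin (N + 1), j ≠ 0 → (dd 0 j g).coeff a' =
      if row θ i < a' j then
        (if j = i then g.coeff (ex N θ 0) else g.coeff (ex N θ j)) - g.coeff a' else 0 := by
    intro j hj
    rw [R4_dd θ (Equiv.swap 0 i) 0 j (Ne.symm hj) g hg a' hval, h0, ← hcj j hj, h0]
  unfold dunkl
  rw [coeff_add, mul_assoc, coeff_C_mul, coeff_X_pderiv, h0, coeff_sum]
  have hsum : ∑ j ∈ Finset.univ.erase (0 : Fin (N + 1)), (dd 0 j g).coeff a' =
      ∑ j : Fin (N + 1), if row θ i < row θ j then g.coeff (ex N θ j) - g.coeff a' else 0 := by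
    rw [Finset.sum_congr rfl fun j hj => hdd j (Finset.mem_erase.1 hj).1]
    by_cases hi : i = 0
    · have hz1 : ∀ j ∈ Finset.univ.erase (0 : Fin (N + 1)), (if row θ i < a' j then
          (if j = i then g.coeff (ex N θ 0) else g.coeff (ex N θ j)) - g.coeff a' else 0) = 0 := by
        intro j _
        rw [if_neg]
        rw [hval, hi, not_lt]
        exact row_antitone θ (Nat.zero_le _)
      have hz2 : ∀ j ∈ (Finset.univ : Finset (Fin (N + 1))),
          (if row θ i < row θ j then g.coeff (ex N θ j) - g.coeff a' else 0) = 0 := by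
        intro j _
        rw [if_neg]
        rw [hi, not_lt]
        exact row_antitone θ (Nat.zero_le _)
      rw [Finset.sum_eq_zero hz1, Finset.sum_eq_zero hz2]
    · have hi' : i ∈ Finset.univ.erase (0 : Fin (N + 1)) := by simp [hi]
      have hi'' : i ∈ (Finset.univ : Finset (Fin (N + 1))) := Finset.mem_univ i
      have h0' : (0 : Fin (N + 1)) ∈ Finset.univ.erase i := by simp [Ne.symm hi]
      rw [← Finset.add_sum_erase _ _ hi', ← Finset.add_sum_erase _ _ hi'',
        ← Finset.add_sum_erase _ _ h0', if_neg (lt_irrefl (row θ i)), zero_add,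
        Finset.erase_right_comm]
      congr 1
      · rw [if_pos rfl, hval i, Equiv.swap_apply_right]
      · refine Finset.sum_congr rfl fun j hj => ?_
        have hj1 : j ≠ i ∧ j ≠ 0 := by
          simp only [Finset.mem_erase, Finset.mem_univ, and_true] at hj
          tauto
        rw [if_neg hj1.1, hval j, Equiv.swap_apply_of_ne_of_ne hj1.2 hj1.1]
  have hsum2 : (∑ j : Fin (N + 1), if row θ i < row θ j then g.coeff (ex N θ j) - g.coeff a'
      else 0) = ∑ j ∈ Finset.univ.filter (fun j : Fin (N + 1) => j < i),
        (g.coeff (ex N θ j) - g.coeff a') := by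
    rw [Finset.sum_filter]
    refine Finset.sum_congr rfl fun j _ => ?_
    by_cases hji : j < i
    · rw [if_pos hji]
      split_ifs with h
      · rfl
      · have h1 : row θ j = row θ i :=
          le_antisymm (not_lt.1 h) (row_antitone θ (le_of_lt hji))
        have h2 : g.coeff (ex N θ j) = g.coeff a' := by
          have hi : i ≠ 0 := by
            rintro rfl
            exact absurd hji (Fin.not_lt_zero j)
          by_cases hj : j = 0
          · congr 1
            ext l
            rw [hval, hex, hj, Equiv.swap_self, Equiv.refl_apply]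
            rw [hj] at h1
            by_cases h3 : l = 0
            · rw [h3, Equiv.swap_apply_left]
              exact h1
            · by_cases h4 : l = i
              · rw [h4, Equiv.swap_apply_right]
                exact h1.symm
              · rw [Equiv.swap_apply_of_ne_of_ne h3 h4]
          · refine (R4_sym g i j (hsym i j hi hj) _ _ fun l => ?_).symm
            rw [hval, hex]
            rcases R4_swap2 0 i j l hi hj (ne_of_lt hji) with h3 | ⟨h3, h4⟩ | ⟨h3, h4⟩
            · rw [h3]
            · rw [h3, h4, h1]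
            · rw [h3, h4, h1]
        rw [h2, sub_self]
    · rw [if_neg hji, if_neg]
      rw [not_lt]
      exact row_antitone θ (not_lt.1 hji)
  rw [hsum, hsum2, Finset.sum_sub_distrib, Finset.sum_const, nsmul_eq_mul]
  have hcard : (Finset.univ.filter (fun j : Fin (N + 1) => j < i)).card = (i : ℕ) := by
    have h1 : Finset.univ.filter (fun j : Fin (N + 1) => j < i) = Finset.Iio i := by
      ext j
      simp
    rw [h1, Fin.card_Iio]
  rw [hcard]
  ring

theorem coeff_sum_realV (θ : (N + 1).Partition) (v : Polynomial (MvPolynomial ℕ K)) :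
    (∑ k : Fin (N + 1), realV k v).coeff (rowexp (N + 1) θ) =
      ∑ i : Fin (N + 1), (realV 0 v).coeff (ex N θ i) := by
  classical
  rw [coeff_sum]
  refine Finset.sum_congr rfl fun k _ => ?_
  have h1 : realV k v = rename (Equiv.swap 0 k) (realV (0 : Fin (N + 1)) v) := by
    rw [realV_rename, Equiv.swap_apply_left]
  have h2 := coeff_rename_mapDomain (R := K) (Equiv.swap (0 : Fin (N + 1)) k)
    (Equiv.injective _) (realV (0 : Fin (N + 1)) v) (ex N θ k)
  rw [← h2, ← h1]
  congr 1
  ext l
  rw [Finsupp.mapDomain_equiv_apply, Equiv.symm_swap]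
  change row θ l = row θ (Equiv.swap 0 k (Equiv.swap 0 k l) : Fin (N + 1))
  rw [Equiv.swap_apply_self]

end H25BC
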