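import Pool.Agent.H25.BC.J2
import Pool.Agent.H25.BC.R4

/-!
# Module J3: the eigenvalues of `Mom_l`, row formula

Let `F = real (N+1) (J θ)`, `v_l = Λ^l (C (J θ))`, `g_l = realV 0 v_l` (symmetric in
`x_1,..,x_N` by `realV_rename`, `Tri θ` by `Tri_realV_pow`), `c^{(l)}_i = coeff (ex N θ i) g_l`.
`coeff_dunkl` and `realV_Lam`: `c^{(l+1)}_i = (al r_i - i) c^{(l)}_i + ∑_{j<i} c^{(l)}_j`,
`c^{(0)}_i = c` for all `i` (`F` is symmetric), `c = coeff (rowexp θ) F ≠ 0` (`lead_ne_zero`).
By `coeff_sum_realV`, `sum_realV`, `coeff0_Lam`, `Mom_J`: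
`∑_i c^{(l)}_i = (M_{l+1} + (N+1) M_l) c`, `M_l = Mev l`.
Power series `x_i = ∑_l c^{(l)}_i t^l / c`: `(1 - (al r_i - i) t) x_i = 1 + t ∑_{j<i} x_j =: s_i`,
`s_{i+1} = s_i + t x_i`, so `s_{i+1} (1 - (al r_i - i) t) = s_i (1 - (al r_i - i - 1) t)`, `s_0 = 1`,
and `s_{N+1} = 1 + t ∑_l (M_{l+1} + (N+1) M_l) t^l = (1 + (N+1) t) Mser` (as `M_0 = 1`).
-/

open MvPolynomial

namespace H25BC

variable {K : Type*} [Field K] [CharZero K] {al b : K}
  {J : ∀ n : ℕ, n.Partition → MvPolynomial ℕ K}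

omit [CharZero K] in
private theorem ser_abs (n : ℕ) (a : ℕ → K) (d : ℕ → ℕ → K) (M : ℕ → K)
    (h0 : ∀ i < n, d 0 i = 1)
    (h1 : ∀ l, ∀ i < n, d (l + 1) i = a i * d l i + ∑ j ∈ Finset.range i, d l j)
    (h2 : ∀ l, ∑ i ∈ Finset.range n, d l i = M (l + 1) + (n : K) * M l) (hM : M 0 = 1) :
    (1 + PowerSeries.C (n : K) * PowerSeries.X) * PowerSeries.mk M *
        ∏ i ∈ Finset.range n, (1 - PowerSeries.C (a i) * PowerSeries.X) =
      ∏ i ∈ Finset.range n, (1 - PowerSeries.C (a i - 1) * PowerSeries.X) := by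
  let x : ℕ → PowerSeries K := fun i => PowerSeries.mk fun l => d l i
  let s : ℕ → PowerSeries K := fun i => 1 + PowerSeries.X * ∑ j ∈ Finset.range i, x j
  have hx : ∀ i < n, (1 - PowerSeries.C (a i) * PowerSeries.X) * x i = s i := by
    intro i hi
    ext l
    rcases l with _ | l
    · simp only [x, s, sub_mul, one_mul, map_sub, map_add, mul_assoc, PowerSeries.coeff_C_mul,
        PowerSeries.coeff_zero_X_mul, PowerSeries.coeff_mk, h0 i hi, mul_zero, sub_zero, add_zero,
        PowerSeries.coeff_zero_one]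
    · simp only [x, s, sub_mul, one_mul, map_sub, map_add, mul_assoc, PowerSeries.coeff_C_mul,
        PowerSeries.coeff_succ_X_mul, PowerSeries.coeff_mk, h1 l i hi, PowerSeries.coeff_one,
        map_sum]
      rw [if_neg (Nat.succ_ne_zero l)]
      ring
  have hs : ∀ i < n, s (i + 1) * (1 - PowerSeries.C (a i) * PowerSeries.X) =
      s i * (1 - PowerSeries.C (a i - 1) * PowerSeries.X) := by
    intro i hi
    have h3 : s (i + 1) = s i + PowerSeries.X * x i := by
      simp only [s, Finset.sum_range_succ]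
      ring
    have h4 := hx i hi
    have h5 : PowerSeries.X * ((1 - PowerSeries.C (a i) * PowerSeries.X) * x i) =
        PowerSeries.X * s i := by rw [h4]
    rw [h3, map_sub, map_one]
    linear_combination h5
  have hp : ∀ i ≤ n, s i * ∏ j ∈ Finset.range i, (1 - PowerSeries.C (a j) * PowerSeries.X) =
      ∏ j ∈ Finset.range i, (1 - PowerSeries.C (a j - 1) * PowerSeries.X) := by
    intro i
    induction i with
    | zero =>
      intro _
      simp [s]
    | succ i ih =>
      intro hi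
      rw [Finset.prod_range_succ, Finset.prod_range_succ, ← ih (by omega)]
      have := hs i (by omega)
      linear_combination (∏ j ∈ Finset.range i, (1 - PowerSeries.C (a j) * PowerSeries.X)) * this
  rw [← hp n le_rfl]
  congr 1
  ext l
  rcases l with _ | l
  · simp only [s, add_mul, one_mul, map_add, mul_assoc, PowerSeries.coeff_C_mul,
      PowerSeries.coeff_zero_X_mul, PowerSeries.coeff_mk, hM, mul_zero, add_zero,
      PowerSeries.coeff_zero_one]
  · simp only [x, s, add_mul, one_mul, map_add, mul_assoc, PowerSeries.coeff_C_mul,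
      PowerSeries.coeff_succ_X_mul, PowerSeries.coeff_mk, PowerSeries.coeff_one, map_sum]
    rw [if_neg (Nat.succ_ne_zero l), h2, zero_add]

theorem Mser_row (hJ : IsJack al J) (han : Aniso al) (hb : b = al - 1) (N : ℕ)
    (θ : (N + 1).Partition) :
    (1 + PowerSeries.C ((N : K) + 1) * PowerSeries.X) * Mser al b J (N + 1) θ *
        ∏ i ∈ Finset.range (N + 1),
          (1 - PowerSeries.C (al * (row θ i : K) - (i : K)) * PowerSeries.X) =
      ∏ i ∈ Finset.range (N + 1),
        (1 - PowerSeries.C (al * (row θ i : K) - (i : K) - 1) * PowerSeries.X) := by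
  classical
  obtain ⟨v, hv⟩ : ∃ v : ℕ → Polynomial (MvPolynomial ℕ K),
      v = fun l => ((Lam al b) ^ l) (Polynomial.C (J (N + 1) θ)) := ⟨_, rfl⟩
  have hv0 : v 0 = Polynomial.C (J (N + 1) θ) := by rw [hv]; rfl
  have hvs : ∀ l, v (l + 1) = Lam al b (v l) := by
    intro l
    simp only [hv]
    rw [pow_succ', Module.End.mul_apply]
  have hvM : ∀ l, (v l).coeff 0 = C (Mev al b J l (N + 1) θ) * J (N + 1) θ := by
    intro l
    rw [← Mom_J hJ han hb, hv]
    rfl
  have hreal : realV (0 : Fin (N + 1)) (v 0) = real (N + 1) (J (N + 1) θ) := by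
    rw [hv0, ← Polynomial.monomial_zero_left, realV_monomial, pow_zero, one_mul]
  have htri : ∀ l, Tri θ (realV (0 : Fin (N + 1)) (v l)) := by
    intro l
    have h1 : Tri θ (realV (0 : Fin (N + 1)) (Polynomial.C (J (N + 1) θ))) := by
      rw [← hv0, hreal]
      exact hJ.tri (N + 1) θ
    rw [hv]
    exact Tri_realV_pow al b hb θ 0 l _ h1
  have hsym : ∀ l, ∀ j k : Fin (N + 1), j ≠ 0 → k ≠ 0 →
      rename (Equiv.swap j k) (realV (0 : Fin (N + 1)) (v l)) = realV 0 (v l) := by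
    intro l j k hj hk
    rw [realV_rename, Equiv.swap_apply_of_ne_of_ne hj.symm hk.symm]
  obtain ⟨c0, hc0⟩ : ∃ c0, c0 = (real (N + 1) (J (N + 1) θ)).coeff (rowexp (N + 1) θ) := ⟨_, rfl⟩
  have hc0n : c0 ≠ 0 := hc0 ▸ lead_ne_zero hJ han θ
  have hc : ∀ i : Fin (N + 1), (realV (0 : Fin (N + 1)) (v 0)).coeff (ex N θ i) = c0 := by
    intro i
    rw [hreal, hc0]
    refine R4_sym _ 0 i (real_swap 0 i _) _ _ fun l => ?_
    change row θ (Equiv.swap 0 i (Equiv.swap 0 i l) : Fin (N + 1)) = row θ l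
    rw [Equiv.swap_apply_self]
  have hstep : ∀ l (i : Fin (N + 1)), (realV (0 : Fin (N + 1)) (v (l + 1))).coeff (ex N θ i) =
      (al * (row θ i : K) - (i : ℕ)) * (realV (0 : Fin (N + 1)) (v l)).coeff (ex N θ i)
        + ∑ j ∈ Finset.univ.filter (fun j : Fin (N + 1) => j < i),
          (realV (0 : Fin (N + 1)) (v l)).coeff (ex N θ j) := by
    intro l i
    rw [hvs, realV_Lam al b hb, coeff_dunkl al θ _ (hsym l) (htri l) i]
  have hsum : ∀ l, ∑ i : Fin (N + 1), (realV (0 : Fin (N + 1)) (v l)).coeff (ex N θ i) =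
      (Mev al b J (l + 1) (N + 1) θ + ((N + 1 : ℕ) : K) * Mev al b J l (N + 1) θ) * c0 := by
    intro l
    rw [← coeff_sum_realV, sum_realV, ← coeff0_Lam al b, ← hvs, hvM, hvM, coeff_add, map_mul,
      map_mul, hc0]
    have h1 : ∀ z : K, real (N + 1) (C z : MvPolynomial ℕ K) = C z := by
      intro z
      exact algHom_C _ z
    rw [h1, h1, coeff_C_mul, coeff_C_mul, coeff_C_mul]
    ring
  obtain ⟨d, hd⟩ : ∃ d : ℕ → ℕ → K, d = fun l i => if h : i < N + 1 then
      (realV (0 : Fin (N + 1)) (v l)).coeff (ex N θ ⟨i, h⟩) / c0 else 0 := ⟨_, rfl⟩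
  have hdi : ∀ l (i : Fin (N + 1)), d l i =
      (realV (0 : Fin (N + 1)) (v l)).coeff (ex N θ i) / c0 := by
    intro l i
    rw [hd]
    simp only
    rw [dif_pos i.isLt]
  have key := ser_abs (N + 1) (fun i => al * (row θ i : K) - (i : K)) d
    (fun l => Mev al b J l (N + 1) θ) ?_ ?_ ?_ (Mev_zero hJ han (N + 1) θ)
  · have h1 : ((N + 1 : ℕ) : K) = (N : K) + 1 := by push_cast; ring
    rw [h1] at key
    exact key
  · intro i hi
    have h1 := hdi 0 ⟨i, hi⟩
    rw [hc, div_self hc0n] at h1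
    exact h1
  · intro l i hi
    have h1 := hdi (l + 1) ⟨i, hi⟩
    have h2 := hdi l ⟨i, hi⟩
    simp only at h1 h2
    rw [h1, h2, hstep, add_div, mul_div_assoc, Finset.sum_div]
    congr 1
    have h3 : ∀ j ∈ Finset.univ.filter (fun j : Fin (N + 1) => j < ⟨i, hi⟩),
        (realV (0 : Fin (N + 1)) (v l)).coeff (ex N θ j) / c0 = d l j := fun j _ => (hdi l j).symm
    rw [Finset.sum_congr rfl h3, Finset.sum_filter]
    have h4 : ∑ j : Fin (N + 1), (if j < ⟨i, hi⟩ then d l j else 0) =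
        ∑ j : Fin (N + 1), (fun k : ℕ => if k < i then d l k else 0) (j : ℕ) := by
      refine Finset.sum_congr rfl fun j _ => ?_
      simp only [Fin.lt_def]
    rw [h4, Fin.sum_univ_eq_sum_range (fun k : ℕ => if k < i then d l k else 0) (N + 1),
      ← Finset.sum_filter]
    congr 1
    ext j
    rw [Finset.mem_filter, Finset.mem_range, Finset.mem_range]
    omega
  · intro l
    rw [← Fin.sum_univ_eq_sum_range (fun k : ℕ => d l k) (N + 1)]
    rw [Finset.sum_congr rfl fun i _ => hdi l i, ← Finset.sum_div, hsum,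
      mul_div_cancel_right₀ _ hc0n]

end H25BC
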