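import Pool.Agent.H25.BC.J3

/-!
# Module J3c: the eigenvalues of `Mom_l`, content formula

`n = 0`: `cont = 0`, `J 0 θ = 1` (`J_zero`), `Mom_l 1 = 0` for `l ≥ 1` (`DD 1 = 0`), so `Mser = 1`.
`n = N+1`: for a row `i` of length `r`, telescoping in `j` (with `b = al - 1`,
`al j - i + b = al (j+1) - i - 1`):
`∏_{j<r} rf(al j - i) * (1 - (al r - i) t) (1 + (i+1) t)
   = ∏_{j<r} rg(al j - i) * (1 + i t) (1 - (al r - i - 1) t)` (induction on `r`).
Multiply over `i < N+1`; `∏_{i<N+1} (1 + i t) * (1 + (N+1) t) = ∏_{i<N+1} (1 + (i+1) t)`. With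
`Mser_row` and cancellation in the domain `K⟦t⟧` the claim follows.
(`rf b c = (1 - c t)(1 - (c+b) t)`, `rg al c = (1 - (c+al) t)(1 - (c-1) t)`.)
-/

open MvPolynomial

namespace H25BC

variable {K : Type*} [Field K] [CharZero K] {al b : K}
  {J : ∀ n : ℕ, n.Partition → MvPolynomial ℕ K}

/-- the linear factor `1 - c t` -/
noncomputable def j3cL (c : K) : PowerSeries K := 1 - PowerSeries.C c * PowerSeries.X

theorem j3c_ne (c : K) : j3cL c ≠ 0 := by
  intro h
  have h1 := congrArg (PowerSeries.constantCoeff (R := K)) h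
  simp [j3cL] at h1

theorem j3c_tel (i r : ℕ) :
    (∏ j ∈ Finset.range r, rf (al - 1) (al * (j : K) - (i : K))) *
        (j3cL (al * (r : K) - (i : K)) * j3cL (-((i : K) + 1))) =
      (∏ j ∈ Finset.range r, rg al (al * (j : K) - (i : K))) *
        (j3cL (-(i : K)) * j3cL (al * (r : K) - (i : K) - 1)) := by
  induction r with
  | zero =>
    rw [Finset.prod_range_zero, Finset.prod_range_zero, one_mul, one_mul, Nat.cast_zero, mul_zero,
      zero_sub]
    congr 2
    ring
  | succ r ih =>
    rw [Finset.prod_range_succ, Finset.prod_range_succ]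
    have e1 : rf (al - 1) (al * (r : K) - (i : K)) =
        j3cL (al * (r : K) - (i : K)) * j3cL (al * ((r + 1 : ℕ) : K) - (i : K) - 1) := by
      unfold rf j3cL
      congr 4
      push_cast
      ring
    have e2 : rg al (al * (r : K) - (i : K)) =
        j3cL (al * ((r + 1 : ℕ) : K) - (i : K)) * j3cL (al * (r : K) - (i : K) - 1) := by
      unfold rg j3cL
      congr 4
      push_cast
      ring
    rw [e1, e2]
    linear_combination (j3cL (al * ((r + 1 : ℕ) : K) - (i : K) - 1) *
      j3cL (al * ((r + 1 : ℕ) : K) - (i : K))) * ih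

theorem j3c_shift (N : ℕ) :
    (∏ i ∈ Finset.range N, j3cL (-(i : K))) * j3cL (-(N : K)) =
      ∏ i ∈ Finset.range N, j3cL (-((i : K) + 1)) := by
  rw [← Finset.prod_range_succ (fun i : ℕ => j3cL (-(i : K))) N, Finset.prod_range_succ']
  have h1 : j3cL (-((0 : ℕ) : K)) = 1 := by
    unfold j3cL
    simp
  rw [h1, mul_one]
  refine Finset.prod_congr rfl fun i _ => ?_
  push_cast
  rfl

theorem j3c_cont {n : ℕ} (θ : n.Partition) (g : K → PowerSeries K) :
    ((cont al θ).map g).prod =
      ∏ i ∈ Finset.range n, ∏ j ∈ Finset.range (row θ i), g (al * (j : K) - (i : K)) := by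
  unfold cont
  rw [Multiset.map_bind, Multiset.prod_bind]
  simp only [Multiset.map_map, Function.comp_def]
  rfl

theorem Mser_cont (hJ : IsJack al J) (han : Aniso al) (hb : b = al - 1) (n : ℕ)
    (θ : n.Partition) :
    Mser al b J n θ * ((cont al θ).map (rg al)).prod = ((cont al θ).map (rf b)).prod := by
  rw [j3c_cont, j3c_cont]
  cases n with
  | zero =>
    rw [Finset.prod_range_zero, Finset.prod_range_zero, mul_one]
    apply PowerSeries.ext
    intro l
    unfold Mser
    rw [PowerSeries.coeff_mk, PowerSeries.coeff_one]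
    cases l with
    | zero => rw [if_pos rfl, Mev_zero hJ han]
    | succ l =>
      rw [if_neg (Nat.succ_ne_zero l)]
      have h1 : Mom al b (l + 1) (J 0 θ) = 0 := by
        rw [J_zero hJ θ]
        unfold Mom
        simp only [LinearMap.comp_apply]
        have h2 : (Lam al b ^ (l + 1)) (Cl K 1) = 0 := by
          rw [pow_succ, Module.End.mul_apply]
          have h3 : Lam al b (Cl K 1) = 0 := by
            have h4 : Cl K (1 : MvPolynomial ℕ K) = Polynomial.C 1 := rfl
            rw [h4, Lam_C]
            exact Derivation.map_one_eq_zero _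
          rw [h3, map_zero]
        rw [h2, map_zero]
      unfold Mev
      rw [h1, pair_zero_left, mul_zero]
  | succ N =>
    subst hb
    have hrow := Mser_row (J := J) hJ han (rfl : al - 1 = al - 1) N θ
    set A := ∏ i ∈ Finset.range (N + 1), j3cL (al * (row θ i : K) - (i : K)) with hA
    set B := ∏ i ∈ Finset.range (N + 1), j3cL (al * (row θ i : K) - (i : K) - 1) with hB
    set E0 := ∏ i ∈ Finset.range (N + 1), j3cL (-(i : K)) with hE0
    set E1 := ∏ i ∈ Finset.range (N + 1), j3cL (-((i : K) + 1)) with hE1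
    have hEs : E0 * j3cL (-((N + 1 : ℕ) : K)) = E1 := j3c_shift (N + 1)
    have hcoef : (1 + PowerSeries.C ((N : K) + 1) * PowerSeries.X : PowerSeries K) =
        j3cL (-((N + 1 : ℕ) : K)) := by
      unfold j3cL
      rw [map_neg]
      push_cast
      ring
    have hrow' : j3cL (-((N + 1 : ℕ) : K)) * Mser al (al - 1) J (N + 1) θ * A = B := by
      rw [← hcoef]
      exact hrow
    have htel : (∏ i ∈ Finset.range (N + 1), ∏ j ∈ Finset.range (row θ i),
          rf (al - 1) (al * (j : K) - (i : K))) * (A * E1) =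
        (∏ i ∈ Finset.range (N + 1), ∏ j ∈ Finset.range (row θ i),
          rg al (al * (j : K) - (i : K))) * (E0 * B) := by
      rw [hA, hB, hE0, hE1, ← Finset.prod_mul_distrib, ← Finset.prod_mul_distrib,
        ← Finset.prod_mul_distrib, ← Finset.prod_mul_distrib]
      exact Finset.prod_congr rfl fun i _ => j3c_tel i (row θ i)
    have hA0 : A ≠ 0 := Finset.prod_ne_zero_iff.2 fun i _ => j3c_ne _
    have hE10 : E1 ≠ 0 := Finset.prod_ne_zero_iff.2 fun i _ => j3c_ne _
    refine mul_right_cancel₀ (mul_ne_zero hA0 hE10) ?_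
    rw [htel, ← hEs, ← hrow']
    ring

end H25BC
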