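import Pool.Agent.H25.BC.J2
import Pool.Agent.H25.BC.A5c

/-!
# Module J4: the operators `R_l = Θ w Λ^l ι` on the Jack functions

Write `c_φ = eev φ - eev θ`.
* `XLam_pow`: `w Λ^l (C J_θ) = (Dext - eev θ)^l (w C J_θ)`: since `Dext (w u) = w Dext u + w Λ u`
  and `Dext (Λ^l (C J_θ)) = Λ^l (C (D J_θ)) = eev θ • Λ^l (C J_θ)` (`Dext_Lam`, `Dext_C`, `Dop_J`),
  `w Λ^{l+1} (C J_θ) = Dext (w Λ^l C J_θ) - eev θ • w Λ^l C J_θ`.
* `R_J`: `Θ (w Λ^{l+1} ..) = Θ(Dext (w Λ^l ..)) - eev θ Θ(w Λ^l ..) = D (Θ (w Λ^l ..)) - eev θ ..`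
  (`Theta_Dext`); for `l = 0`, `Θ (w C J_θ) = X 0 * J_θ` (`X_mul_J`); induction with `Dop_J`.
* `Mev_sum`: apply `eps`: `eps (Θ (w v)) = eps (v.coeff 0)` (`Θ(w^{j+1} f) = X_j f`,
  `eps X_j = 0` for `j ≥ 1`), and `(Λ^l C J_θ).coeff 0 = Mom_l J_θ = Mev l • J_θ`, `eps J = 1`.
-/

open MvPolynomial

namespace H25BC

variable {K : Type*} [Field K] [CharZero K] {al b : K}
  {J : ∀ n : ℕ, n.Partition → MvPolynomial ℕ K}

private theorem Dext_Lam_pow (hal : al ≠ 0) (l : ℕ) (v : Polynomial (MvPolynomial ℕ K)) :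
    Dext al b (((Lam al b) ^ l) v) = ((Lam al b) ^ l) (Dext al b v) := by
  induction l with
  | zero => rfl
  | succ l ih =>
    rw [pow_succ', Module.End.mul_apply, Module.End.mul_apply, Dext_Lam al b hal two_ne_zero, ih]

omit [CharZero K] in
private theorem C_smul' (c : K) (f : MvPolynomial ℕ K) :
    (Polynomial.C (C c * f) : Polynomial (MvPolynomial ℕ K)) = c • Polynomial.C f := by
  rw [Polynomial.smul_C, smul_eq_C_mul]

theorem XLam_succ (hJ : IsJack al J) (han : Aniso al) (hb : b = al - 1) (hal : al ≠ 0) (l n : ℕ)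
    (θ : n.Partition) :
    Polynomial.X * ((Lam al b) ^ (l + 1)) (Polynomial.C (J n θ)) =
      Dext al b (Polynomial.X * ((Lam al b) ^ l) (Polynomial.C (J n θ)))
        - eev al b J n θ • (Polynomial.X * ((Lam al b) ^ l) (Polynomial.C (J n θ))) := by
  rw [Dext_X_mul, Dext_Lam_pow hal, Dext_C, Dop_J hJ han hb, C_smul', map_smul, mul_smul_comm,
    add_sub_cancel_left, pow_succ', Module.End.mul_apply]

theorem R_J (hJ : IsJack al J) (han : Aniso al) (hb : b = al - 1) (hal : al ≠ 0) (l n : ℕ)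
    (θ : n.Partition) :
    Theta K (Polynomial.X * ((Lam al b) ^ l) (Polynomial.C (J n θ))) =
      ∑ φ : (n + 1).Partition,
        C (kap al J 0 n θ φ * (eev al b J (n + 1) φ - eev al b J n θ) ^ l) * J (n + 1) φ := by
  induction l with
  | zero =>
    rw [pow_zero, Module.End.one_apply, ← Polynomial.monomial_zero_left,
      Polynomial.X_mul_monomial, Theta_monomial_succ, X_mul_J hJ han]
    refine Finset.sum_congr rfl fun φ _ => ?_
    rw [pow_zero, mul_one]
  | succ l ih =>
    rw [XLam_succ hJ han hb hal, map_sub, Theta_Dext al b hal two_ne_zero, map_smul, ih, map_sum,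
      Finset.smul_sum, ← Finset.sum_sub_distrib]
    refine Finset.sum_congr rfl fun φ _ => ?_
    rw [← smul_eq_C_mul, map_smul, Dop_J hJ han hb, smul_eq_C_mul, smul_eq_C_mul, smul_eq_C_mul]
    simp only [map_mul, map_pow, map_sub]
    ring

omit [CharZero K] in
private theorem eps_Theta (v : Polynomial (MvPolynomial ℕ K)) :
    eps K (Theta K (Polynomial.X * v)) = eps K (v.coeff 0) := by
  induction v using Polynomial.induction_on' with
  | add p q hp hq => rw [mul_add, map_add, map_add, hp, hq, Polynomial.coeff_add, map_add]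
  | monomial j f =>
    rw [Polynomial.X_mul_monomial, Theta_monomial_succ, map_mul, Polynomial.coeff_monomial]
    have h1 : eps K (X j : MvPolynomial ℕ K) = if j = 0 then 1 else 0 := by
      unfold eps
      rw [aeval_X]
    rw [h1]
    split_ifs
    · rw [one_mul]
    · rw [zero_mul, map_zero]

theorem Mev_sum (hJ : IsJack al J) (han : Aniso al) (hb : b = al - 1) (hal : al ≠ 0) (l n : ℕ)
    (θ : n.Partition) :
    Mev al b J l n θ = ∑ φ : (n + 1).Partition,
      kap al J 0 n θ φ * (eev al b J (n + 1) φ - eev al b J n θ) ^ l := by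
  have h1 := congrArg (eps K) (R_J hJ han hb hal l n θ)
  have h2 : (((Lam al b) ^ l) (Polynomial.C (J n θ))).coeff 0 = Mom al b l (J n θ) := rfl
  have hC : ∀ c : K, eps K (C c : MvPolynomial ℕ K) = c := by
    intro c
    unfold eps
    rw [aeval_C]
    rfl
  rw [eps_Theta, h2, Mom_J hJ han hb, map_mul, hC, eps_J hJ, mul_one, map_sum] at h1
  rw [h1]
  refine Finset.sum_congr rfl fun φ _ => ?_
  rw [map_mul, hC, eps_J hJ, mul_one]

end H25BC
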