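import Pool.Agent.H25.BC.J4

/-!
# Module J5: the step formula for the eigenvalues

Let `c = eev φ - eev θ`, `κ = kap 0 θ φ ≠ 0`, `M_k(θ) = Mev k n θ`.
(1) `Λ^k (w v) = w (Λ+b)^k v + ∑_{a<k} Λ^{k-1-a} (C (Θ (w (Λ+b)^a v)))`: induction on `k` with
`Lam_X_mul`. Hence (coefficient of `w^0`)
`(Λ^k (w v)).coeff 0 = ∑_{a<k} Mom_{k-1-a} (Θ (w (Λ+b)^a v))`.
(2) For `v = Λ^l (C J_θ)`: `Θ (w (Λ+b)^a Λ^l C J_θ) = ∑_φ κ_φ (c_φ+b)^a c_φ^l J_φ` (`R_J`, binomial
expansion or induction on `a`), so the coefficient of `J_φ` in `(Λ^k w Λ^l C J_θ).coeff 0` is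
`κ c^l S_k`, `S_k = ∑_{a<k} M_{k-1-a}(φ) (c+b)^a`.
(3) Let `N_{k,l}` be the coefficient of `J_φ` in `(Λ^k (C (X 0) * Λ^l C J_θ)).coeff 0`. By
`Lam_Xm_mul` (`m = 0`): `N_{k+1,l} - N_{k,l+1} = al κ c^l S_k`. `N_{0,l} = κ M_l(θ)`
(`(Λ^l C J_θ).coeff 0 = M_l(θ) J_θ`), `N_{k,0} = κ M_k(φ)` (`C (X 0) C J_θ = C (∑ κ_φ J_φ)`).
(4) So `M_k(φ) = M_k(θ) + al ∑_{j<k} c^j S_{k-1-j}` (divide by `κ`). In power series, with
`S = ∑ S_m t^m`, `(1 - (c+b) t) S = t Mser φ` and
`(1 - c t) (Mser φ - Mser θ) = al t S`, whence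
`Mser φ ((1 - c t)(1 - (c+b) t) - al t^2) = Mser θ (1 - c t)(1 - (c+b) t)`, and
`(1 - c t)(1 - (c+b) t) - al t^2 = (1 - (c+al) t)(1 - (c-1) t)` because `b = al - 1`.
-/

set_option linter.unusedSectionVars false

open MvPolynomial

namespace H25BC

variable {K : Type*} [Field K] [CharZero K] {al b : K}
  {J : ∀ n : ℕ, n.Partition → MvPolynomial ℕ K}

/-- `Λ + b` -/
noncomputable def j5_LB (al b : K) :
    Polynomial (MvPolynomial ℕ K) →ₗ[K] Polynomial (MvPolynomial ℕ K) :=
  Lam al b + b • (LinearMap.id :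
    Polynomial (MvPolynomial ℕ K) →ₗ[K] Polynomial (MvPolynomial ℕ K))

theorem j5_LB_apply (v : Polynomial (MvPolynomial ℕ K)) :
    j5_LB al b v = Lam al b v + b • v := rfl

theorem j5_Lam_X_mul (v : Polynomial (MvPolynomial ℕ K)) :
    Lam al b (Polynomial.X * v) =
      Polynomial.X * j5_LB al b v + Polynomial.C (Theta K (Polynomial.X * v)) := by
  have h : b • v = Polynomial.C (C b) * v := by
    ext j m
    rw [Polynomial.coeff_smul, Polynomial.coeff_C_mul, smul_eq_C_mul]
  have h1 : Polynomial.X * (b • v) = Polynomial.C (C b) * (Polynomial.X * v) := by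
    rw [h, mul_left_comm]
  rw [Lam_X_mul, j5_LB_apply, mul_add, h1]

theorem j5_pow_succ_apply (T : Polynomial (MvPolynomial ℕ K) →ₗ[K] Polynomial (MvPolynomial ℕ K))
    (k : ℕ) (v : Polynomial (MvPolynomial ℕ K)) : (T ^ (k + 1)) v = (T ^ k) (T v) := by
  rw [pow_succ]; rfl

theorem j5_pow_succ_apply' (T : Polynomial (MvPolynomial ℕ K) →ₗ[K] Polynomial (MvPolynomial ℕ K))
    (k : ℕ) (v : Polynomial (MvPolynomial ℕ K)) : (T ^ (k + 1)) v = T ((T ^ k) v) := by
  rw [pow_succ']; rfl

theorem j5_pow_X_mul (k : ℕ) (v : Polynomial (MvPolynomial ℕ K)) :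
    ((Lam al b) ^ k) (Polynomial.X * v) =
      Polynomial.X * ((j5_LB al b) ^ k) v +
        ∑ a ∈ Finset.range k, ((Lam al b) ^ (k - 1 - a))
          (Polynomial.C (Theta K (Polynomial.X * ((j5_LB al b) ^ a) v))) := by
  induction k generalizing v with
  | zero =>
    rw [Finset.sum_range_zero, add_zero]
    rfl
  | succ k ih =>
    rw [j5_pow_succ_apply, j5_Lam_X_mul, map_add, ih, Finset.sum_range_succ', ← j5_pow_succ_apply,
      add_assoc]
    congr 1
    congr 1
    refine Finset.sum_congr rfl fun a _ => ?_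
    rw [← j5_pow_succ_apply]
    congr 2
    omega

/-- (1) -/
theorem coeff0_pow_X_mul (k : ℕ) (v : Polynomial (MvPolynomial ℕ K)) :
    (((Lam al b) ^ k) (Polynomial.X * v)).coeff 0 =
      ∑ a ∈ Finset.range k, Mom al b (k - 1 - a)
        (Theta K (Polynomial.X * ((Lam al b + b • (LinearMap.id :
          Polynomial (MvPolynomial ℕ K) →ₗ[K] Polynomial (MvPolynomial ℕ K))) ^ a) v)) := by
  rw [j5_pow_X_mul, Polynomial.coeff_add, Polynomial.coeff_X_mul_zero, zero_add,
    Polynomial.finsetSum_coeff]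
  rfl

theorem j5_Theta_LB (hJ : IsJack al J) (han : Aniso al) (hb : b = al - 1) (hal : al ≠ 0)
    (a l n : ℕ) (θ : n.Partition) :
    Theta K (Polynomial.X * ((j5_LB al b) ^ a) (((Lam al b) ^ l) (Polynomial.C (J n θ)))) =
      ∑ φ : (n + 1).Partition,
        C (kap al J 0 n θ φ * (((eev al b J (n + 1) φ - eev al b J n θ) + b) ^ a *
          (eev al b J (n + 1) φ - eev al b J n θ) ^ l)) * J (n + 1) φ := by
  induction a generalizing l with
  | zero =>
    have h1 : ((j5_LB al b) ^ 0) (((Lam al b) ^ l) (Polynomial.C (J n θ))) =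
        ((Lam al b) ^ l) (Polynomial.C (J n θ)) := rfl
    rw [h1, R_J hJ han hb hal]
    refine Finset.sum_congr rfl fun φ _ => ?_
    rw [pow_zero, one_mul]
  | succ a ih =>
    rw [j5_pow_succ_apply, j5_LB_apply, ← j5_pow_succ_apply', map_add, map_smul, mul_add,
      mul_smul_comm, map_add, map_smul, ih, ih, Finset.smul_sum, ← Finset.sum_add_distrib]
    refine Finset.sum_congr rfl fun φ _ => ?_
    simp only [smul_eq_C_mul, map_mul, map_add, map_sub, map_pow]
    ring

/-- pairing of `Mom_m (∑ C s_ψ J_ψ)` with `J_φ` -/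
theorem j5_pair_Mom (hJ : IsJack al J) (han : Aniso al) (hb : b = al - 1) (m n : ℕ)
    (s : n.Partition → K) (φ : n.Partition) :
    pair al (Mom al b m (∑ ψ : n.Partition, C (s ψ) * J n ψ)) (J n φ) =
      nrm al J n φ * (s φ * Mev al b J m n φ) := by
  rw [pair_Mom, Mom_J hJ han hb, pair_C_mul_right, pair_sum_left, Finset.sum_eq_single φ]
  · rw [pair_C_mul_left]
    have h : pair al (J n φ) (J n φ) = nrm al J n φ := rfl
    rw [h]
    ring
  · intro ψ _ hψ
    rw [pair_C_mul_left, hJ.orth _ _ _ hψ, mul_zero]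
  · intro h
    exact absurd (Finset.mem_univ _) h

theorem j5_pair_pow_X (hJ : IsJack al J) (han : Aniso al) (hb : b = al - 1) (hal : al ≠ 0)
    (k l n : ℕ) (θ : n.Partition) (φ : (n + 1).Partition) :
    pair al ((((Lam al b) ^ k) (Polynomial.X * ((Lam al b) ^ l)
        (Polynomial.C (J n θ)))).coeff 0) (J (n + 1) φ) =
      nrm al J (n + 1) φ * kap al J 0 n θ φ *
        ((eev al b J (n + 1) φ - eev al b J n θ) ^ l *
        ∑ a ∈ Finset.range k, Mev al b J (k - 1 - a) (n + 1) φ *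
          ((eev al b J (n + 1) φ - eev al b J n θ) + b) ^ a) := by
  rw [coeff0_pow_X_mul, pair_sum_left, Finset.mul_sum, Finset.mul_sum]
  refine Finset.sum_congr rfl fun a _ => ?_
  have h := j5_Theta_LB hJ han hb hal a l n θ
  unfold j5_LB at h
  rw [h, j5_pair_Mom hJ han hb]
  ring

theorem j5_pairV_pow (l : ℕ) (u v : Polynomial (MvPolynomial ℕ K)) :
    pairV al (((Lam al b) ^ l) u) v = pairV al u (((Lam al b) ^ l) v) := by
  induction l generalizing u v with
  | zero => rfl
  | succ l ih => rw [j5_pow_succ_apply, ih, pairV_Lam, ← j5_pow_succ_apply']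

/-- (2) for `l = 0`, in the form used for the spanning theorem: the pairing of `w ι J_θ` with
`Λ^k ι J_φ` -/
theorem pairV_X_J (hJ : IsJack al J) (han : Aniso al) (hb : b = al - 1) (hal : al ≠ 0) (k n : ℕ)
    (θ : n.Partition) (φ : (n + 1).Partition) :
    pairV al (((Lam al b) ^ k) (Polynomial.C (J (n + 1) φ)))
        (Polynomial.X * Polynomial.C (J n θ)) =
      nrm al J (n + 1) φ * kap al J 0 n θ φ *
        ∑ a ∈ Finset.range k, Mev al b J (k - 1 - a) (n + 1) φ *
          ((eev al b J (n + 1) φ - eev al b J n θ) + b) ^ a := by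
  rw [j5_pairV_pow, pairV_C, pair_comm]
  have h := j5_pair_pow_X hJ han hb hal k 0 n θ φ
  have h0 : ((Lam al b) ^ 0) (Polynomial.C (J n θ)) = Polynomial.C (J n θ) := rfl
  rw [h0, pow_zero, one_mul] at h
  exact h

theorem j5_N (hJ : IsJack al J) (han : Aniso al) (hb : b = al - 1) (hal : al ≠ 0) (n : ℕ)
    (θ : n.Partition) (φ : (n + 1).Partition) (k l : ℕ) :
    pair al ((((Lam al b) ^ k) (Polynomial.C (X 0) * ((Lam al b) ^ l)
        (Polynomial.C (J n θ)))).coeff 0) (J (n + 1) φ) =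
      nrm al J (n + 1) φ * kap al J 0 n θ φ * (Mev al b J (k + l) n θ +
        al * ∑ j ∈ Finset.range k, (eev al b J (n + 1) φ - eev al b J n θ) ^ (l + j) *
          ∑ a ∈ Finset.range (k - 1 - j), Mev al b J (k - 1 - j - 1 - a) (n + 1) φ *
            ((eev al b J (n + 1) φ - eev al b J n θ) + b) ^ a) := by
  induction k generalizing l with
  | zero =>
    have h1 : ((Lam al b) ^ 0) (Polynomial.C (X 0) * ((Lam al b) ^ l) (Polynomial.C (J n θ))) =
      Polynomial.C (X 0) * ((Lam al b) ^ l) (Polynomial.C (J n θ)) := rfl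
    rw [h1, Polynomial.coeff_C_mul, Finset.sum_range_zero, mul_zero, add_zero, zero_add]
    have h2 : (((Lam al b) ^ l) (Polynomial.C (J n θ))).coeff 0 = Mom al b l (J n θ) := rfl
    rw [h2, Mom_J hJ han hb, mul_left_comm, pair_C_mul_left]
    have h3 : pair al (X 0 * J n θ) (J (n + 1) φ) =
        nrm al J (n + 1) φ * kap al J 0 n θ φ := by
      unfold kap
      rw [← mul_assoc, mul_inv_cancel₀ (nrm_ne_zero hJ han (n + 1) φ), one_mul]
    rw [h3]
    ring
  | succ k ih =>
    have h1 : Lam al b (Polynomial.C (X 0) * ((Lam al b) ^ l) (Polynomial.C (J n θ))) =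
        Polynomial.C (X 0) * ((Lam al b) ^ (l + 1)) (Polynomial.C (J n θ)) +
          al • (Polynomial.X * ((Lam al b) ^ l) (Polynomial.C (J n θ))) := by
      rw [Lam_Xm_mul, ← j5_pow_succ_apply']
      congr 1
      have h : ∀ v : Polynomial (MvPolynomial ℕ K), al • v = Polynomial.C (C al) * v := by
        intro v
        ext j m
        rw [Polynomial.coeff_smul, Polynomial.coeff_C_mul, smul_eq_C_mul]
      rw [h]
      simp
    rw [j5_pow_succ_apply, h1, map_add, map_smul, Polynomial.coeff_add, Polynomial.coeff_smul,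
      pair_add_left, ih, smul_eq_C_mul, pair_C_mul_left, j5_pair_pow_X hJ han hb hal,
      Finset.sum_range_succ']
    have h2 : k + 1 - 1 - 0 = k := by omega
    have h3 : k + 1 + l = k + (l + 1) := by omega
    rw [h2, h3, add_zero]
    have h4 : ∑ j ∈ Finset.range k, (eev al b J (n + 1) φ - eev al b J n θ) ^ (l + (j + 1)) *
          ∑ a ∈ Finset.range (k + 1 - 1 - (j + 1)),
            Mev al b J (k + 1 - 1 - (j + 1) - 1 - a) (n + 1) φ *
            ((eev al b J (n + 1) φ - eev al b J n θ) + b) ^ a =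
        ∑ j ∈ Finset.range k, (eev al b J (n + 1) φ - eev al b J n θ) ^ (l + 1 + j) *
          ∑ a ∈ Finset.range (k - 1 - j), Mev al b J (k - 1 - j - 1 - a) (n + 1) φ *
            ((eev al b J (n + 1) φ - eev al b J n θ) + b) ^ a := by
      refine Finset.sum_congr rfl fun j _ => ?_
      have h5 : k + 1 - 1 - (j + 1) = k - 1 - j := by omega
      have h6 : l + (j + 1) = l + 1 + j := by omega
      rw [h5, h6]
    rw [h4]
    ring

theorem j5_M (hJ : IsJack al J) (han : Aniso al) (hb : b = al - 1) (hal : al ≠ 0) (n : ℕ)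
    (θ : n.Partition) (φ : (n + 1).Partition) (h : kap al J 0 n θ φ ≠ 0) (k : ℕ) :
    Mev al b J k (n + 1) φ = Mev al b J k n θ +
        al * ∑ j ∈ Finset.range k, (eev al b J (n + 1) φ - eev al b J n θ) ^ j *
          ∑ a ∈ Finset.range (k - 1 - j), Mev al b J (k - 1 - j - 1 - a) (n + 1) φ *
            ((eev al b J (n + 1) φ - eev al b J n θ) + b) ^ a := by
  have h1 := j5_N hJ han hb hal n θ φ k 0
  have h2 : (((Lam al b) ^ k) (Polynomial.C (X 0) * ((Lam al b) ^ 0)
      (Polynomial.C (J n θ)))).coeff 0 = Mom al b k (X 0 * J n θ) := by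
    have h3 : ((Lam al b) ^ 0) (Polynomial.C (J n θ)) = Polynomial.C (J n θ) := rfl
    rw [h3, ← Polynomial.C_mul]
    rfl
  rw [h2, pair_Mom, Mom_J hJ han hb, pair_C_mul_right] at h1
  have h4 : pair al (X 0 * J n θ) (J (n + 1) φ) =
      nrm al J (n + 1) φ * kap al J 0 n θ φ := by
    unfold kap
    rw [← mul_assoc, mul_inv_cancel₀ (nrm_ne_zero hJ han (n + 1) φ), one_mul]
  rw [h4, mul_comm] at h1
  have h5 := mul_left_cancel₀ (mul_ne_zero (nrm_ne_zero hJ han (n + 1) φ) h) h1
  rw [h5, add_zero]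
  congr 2
  refine Finset.sum_congr rfl fun j _ => ?_
  rw [zero_add]

theorem Mser_step (hJ : IsJack al J) (han : Aniso al) (hb : b = al - 1) (hal : al ≠ 0) (n : ℕ)
    (θ : n.Partition) (φ : (n + 1).Partition) (h : kap al J 0 n θ φ ≠ 0) :
    Mser al b J (n + 1) φ * rg al (eev al b J (n + 1) φ - eev al b J n θ) =
      Mser al b J n θ * rf b (eev al b J (n + 1) φ - eev al b J n θ) := by
  set c := eev al b J (n + 1) φ - eev al b J n θ with hc
  set Ss : PowerSeries K := PowerSeries.mk fun k =>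
    ∑ a ∈ Finset.range k, Mev al b J (k - 1 - a) (n + 1) φ * (c + b) ^ a with hSs
  have hS : (1 - PowerSeries.C (c + b) * PowerSeries.X) * Ss =
      PowerSeries.X * Mser al b J (n + 1) φ := by
    ext k
    rw [sub_mul, one_mul, map_sub, mul_assoc, PowerSeries.coeff_C_mul]
    cases k with
    | zero =>
      rw [PowerSeries.coeff_zero_X_mul, PowerSeries.coeff_zero_X_mul, mul_zero, sub_zero, hSs,
        PowerSeries.coeff_mk, Finset.sum_range_zero]
    | succ k =>
      rw [PowerSeries.coeff_succ_X_mul, PowerSeries.coeff_succ_X_mul, hSs, PowerSeries.coeff_mk,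
        PowerSeries.coeff_mk, Finset.sum_range_succ', Finset.mul_sum]
      unfold Mser
      rw [PowerSeries.coeff_mk]
      have h1 : ∑ a ∈ Finset.range k, Mev al b J (k + 1 - 1 - (a + 1)) (n + 1) φ *
          (c + b) ^ (a + 1) =
          ∑ a ∈ Finset.range k, (c + b) * (Mev al b J (k - 1 - a) (n + 1) φ * (c + b) ^ a) := by
        refine Finset.sum_congr rfl fun a _ => ?_
        have h2 : k + 1 - 1 - (a + 1) = k - 1 - a := by omega
        rw [h2, pow_succ]
        ring
      rw [h1]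
      simp
  have hM := j5_M hJ han hb hal n θ φ h
  have hD : (1 - PowerSeries.C c * PowerSeries.X) *
      (Mser al b J (n + 1) φ - Mser al b J n θ) = PowerSeries.C al * PowerSeries.X * Ss := by
    ext k
    rw [sub_mul, one_mul, map_sub, mul_assoc, mul_assoc, PowerSeries.coeff_C_mul,
      PowerSeries.coeff_C_mul]
    cases k with
    | zero =>
      rw [PowerSeries.coeff_zero_X_mul, PowerSeries.coeff_zero_X_mul, mul_zero, mul_zero,
        sub_zero, map_sub]
      unfold Mser
      rw [PowerSeries.coeff_mk, PowerSeries.coeff_mk, hM 0, Finset.sum_range_zero, mul_zero,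
        add_zero, sub_self]
    | succ k =>
      rw [PowerSeries.coeff_succ_X_mul, PowerSeries.coeff_succ_X_mul, hSs, PowerSeries.coeff_mk,
        map_sub, map_sub]
      unfold Mser
      rw [PowerSeries.coeff_mk, PowerSeries.coeff_mk, PowerSeries.coeff_mk, PowerSeries.coeff_mk]
      have e1 : Mev al b J (k + 1) (n + 1) φ - Mev al b J (k + 1) n θ =
          al * ∑ j ∈ Finset.range (k + 1), c ^ j *
            ∑ a ∈ Finset.range (k + 1 - 1 - j), Mev al b J (k + 1 - 1 - j - 1 - a) (n + 1) φ *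
              (c + b) ^ a := by
        rw [hM (k + 1)]; ring
      have e2 : Mev al b J k (n + 1) φ - Mev al b J k n θ =
          al * ∑ j ∈ Finset.range k, c ^ j *
            ∑ a ∈ Finset.range (k - 1 - j), Mev al b J (k - 1 - j - 1 - a) (n + 1) φ *
              (c + b) ^ a := by
        rw [hM k]; ring
      rw [e1, e2, Finset.sum_range_succ']
      have h1 : ∑ j ∈ Finset.range k, c ^ (j + 1) *
            ∑ a ∈ Finset.range (k + 1 - 1 - (j + 1)),
              Mev al b J (k + 1 - 1 - (j + 1) - 1 - a) (n + 1) φ * (c + b) ^ a =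
          c * ∑ j ∈ Finset.range k, c ^ j *
            ∑ a ∈ Finset.range (k - 1 - j), Mev al b J (k - 1 - j - 1 - a) (n + 1) φ *
              (c + b) ^ a := by
        rw [Finset.mul_sum]
        refine Finset.sum_congr rfl fun j _ => ?_
        have h2 : k + 1 - 1 - (j + 1) = k - 1 - j := by omega
        rw [h2, pow_succ]
        ring
      rw [h1]
      have h3 : k + 1 - 1 - 0 = k := by omega
      rw [h3, pow_zero, one_mul]
      ring
  have hrg : rg al c = rf b c - PowerSeries.C al * PowerSeries.X ^ 2 := by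
    unfold rg rf
    rw [hb]
    simp only [map_add, map_sub, map_one]
    ring
  have hfin : (1 - PowerSeries.C (c + b) * PowerSeries.X) *
      ((1 - PowerSeries.C c * PowerSeries.X) *
      (Mser al b J (n + 1) φ - Mser al b J n θ)) =
      PowerSeries.C al * PowerSeries.X * (PowerSeries.X * Mser al b J (n + 1) φ) := by
    rw [hD, ← hS]
    ring
  rw [hrg]
  unfold rf
  linear_combination hfin

end H25BC
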