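import Pool.Agent.H25.BC.Def

/-!
# Module J6a: a multiset identity

`multiset_eq`: let `A, A'` have the same cardinality and `∏_A rf ∏_{A'} rg = ∏_A rg ∏_{A'} rf`.
In `K⟦t⟧` (indeed polynomials in `t`), `∏_{c∈B} (1 - c t)` determines the multiset of non-zero
elements of `B` (unique factorisation / roots of the polynomial: `1 - c t` with `c ≠ 0` has the
single root `1/c`); the cardinality then determines the multiplicity of `0`. So
`A + (A+b) + (A'+al) + (A'-1) = (A+al) + (A-1) + A' + (A'+b)` as multisets. With
`D(x) = count_A(x) - count_{A'}(x) ∈ ℤ`: `D(x) + D(x-b) = D(x-al) + D(x+1)` for all `x`, i.e.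
(`b = al - 1`) `E(x) = E(x - al)` for `E(x) = D(x) - D(x+1)`. `E` has finite support and `al ≠ 0`
has infinite additive order (characteristic zero), so `E = 0`; then `D(x) = D(x+1)`, so `D = 0`.
-/

open MvPolynomial

namespace H25BC

variable {K : Type*} [Field K] [CharZero K] {al b : K}

/-- the polynomial `∏_{c ∈ B} (1 - c X)` -/
private noncomputable def pp {K : Type*} [Field K] (B : Multiset K) : Polynomial K :=
  (B.map fun c => 1 - Polynomial.C c * Polynomial.X).prod

private theorem pp_add {K : Type*} [Field K] (B B' : Multiset K) : pp (B + B') = pp B * pp B' := by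
  simp [pp]

private theorem natDegree_lin {K : Type*} [Field K] (c : K) :
    (1 - Polynomial.C c * Polynomial.X : Polynomial K).natDegree ≤ 1 := by
  compute_degree

private theorem natDegree_pp {K : Type*} [Field K] (B : Multiset K) :
    (pp B).natDegree ≤ B.card := by
  induction B using Multiset.induction_on with
  | empty => simp [pp]
  | cons c B ih =>
    have h1 : pp (c ::ₘ B) = (1 - Polynomial.C c * Polynomial.X) * pp B := by simp [pp]
    rw [h1, Multiset.card_cons]
    refine Polynomial.natDegree_mul_le.trans ?_
    have := natDegree_lin c
    omega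

private theorem reflect_lin {K : Type*} [Field K] (c : K) :
    Polynomial.reflect 1 (1 - Polynomial.C c * Polynomial.X : Polynomial K) =
      Polynomial.X - Polynomial.C c := by
  rw [Polynomial.reflect_sub, Polynomial.reflect_one, Polynomial.reflect_C_mul]
  have : (Polynomial.X : Polynomial K).reflect 1 = 1 := by
    have := Polynomial.reflect_monomial (R := K) 1 1
    simp
  rw [this]
  simp

private theorem reflect_pp {K : Type*} [Field K] (B : Multiset K) :
    Polynomial.reflect B.card (pp B) = (B.map fun c => Polynomial.X - Polynomial.C c).prod := by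
  induction B using Multiset.induction_on with
  | empty => simp [pp, Polynomial.reflect_one]
  | cons c B ih =>
    have h1 : pp (c ::ₘ B) = (1 - Polynomial.C c * Polynomial.X) * pp B := by simp [pp]
    rw [h1, Multiset.card_cons, add_comm, Polynomial.reflect_mul _ _ (natDegree_lin c)
      (natDegree_pp B), ih, reflect_lin]
    simp

private theorem pp_inj {K : Type*} [Field K] (B B' : Multiset K) (hc : B.card = B'.card)
    (h : pp B = pp B') : B = B' := by
  have h1 := reflect_pp B
  have h2 := reflect_pp B'
  rw [h, hc, h2] at h1
  have h3 := Polynomial.roots_multiset_prod_X_sub_C B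
  have h4 := Polynomial.roots_multiset_prod_X_sub_C B'
  rw [← h3, ← h4, h1]

private theorem rf_prod {K : Type*} [Field K] (b : K) (A : Multiset K) :
    (A.map (rf b)).prod = ((pp (A + A.map (· + b)) : Polynomial K) : PowerSeries K) := by
  induction A using Multiset.induction_on with
  | empty => simp [pp]
  | cons c A ih =>
    rw [Multiset.map_cons, Multiset.prod_cons, ih, pp_add, pp_add]
    have h1 : pp (c ::ₘ A) = (1 - Polynomial.C c * Polynomial.X) * pp A := by simp [pp]
    have h2 : pp ((c ::ₘ A).map (· + b)) =
        (1 - Polynomial.C (c + b) * Polynomial.X) * pp (A.map (· + b)) := by simp [pp]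
    rw [h1, h2, rf]
    push_cast
    ring

private theorem rg_prod {K : Type*} [Field K] (al : K) (A : Multiset K) :
    (A.map (rg al)).prod =
      ((pp (A.map (· + al) + A.map (· - 1)) : Polynomial K) : PowerSeries K) := by
  induction A using Multiset.induction_on with
  | empty => simp [pp]
  | cons c A ih =>
    rw [Multiset.map_cons, Multiset.prod_cons, ih, pp_add, pp_add]
    have h1 : pp ((c ::ₘ A).map (· + al)) =
        (1 - Polynomial.C (c + al) * Polynomial.X) * pp (A.map (· + al)) := by simp [pp]
    have h2 : pp ((c ::ₘ A).map (· - 1)) =
        (1 - Polynomial.C (c - 1) * Polynomial.X) * pp (A.map (· - 1)) := by simp [pp]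
    rw [h1, h2, rg]
    push_cast
    ring

/-- a periodic function of finite support is zero -/
private theorem periodic_zero {K : Type*} [Field K] [CharZero K] (F : K → ℤ) (s : K) (hs : s ≠ 0)
    (S : Finset K) (hS : ∀ x, F x ≠ 0 → x ∈ S) (hF : ∀ x, F x = F (x - s)) (x : K) : F x = 0 := by
  by_contra hx
  have h1 : ∀ n : ℕ, F (x - n * s) = F x := by
    intro n
    induction n with
    | zero => simp
    | succ n ih =>
      rw [← ih, hF (x - n * s)]
      congr 1
      push_cast
      ring
  have h2 : ∀ n : ℕ, x - n * s ∈ (S : Set K) := fun n => hS _ (by rw [h1]; exact hx)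
  have hinj : Function.Injective fun n : ℕ => x - (n : K) * s := by
    intro m n hmn
    have h3 : (m : K) * s = n * s := by
      have := hmn
      simp only at this
      linear_combination -this
    exact_mod_cast mul_right_cancel₀ hs h3
  exact Set.infinite_of_injective_forall_mem hinj h2 S.finite_toSet

theorem multiset_eq (hb : b = al - 1) (hal : al ≠ 0) (A A' : Multiset K)
    (hc : A.card = A'.card)
    (h : (A.map (rf b)).prod * (A'.map (rg al)).prod =
      (A.map (rg al)).prod * (A'.map (rf b)).prod) : A = A' := by
  classical
  rw [rf_prod, rf_prod, rg_prod, rg_prod, ← Polynomial.coe_mul, ← Polynomial.coe_mul,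
    ← pp_add, ← pp_add] at h
  have h1 := Polynomial.coe_injective K h
  have h2 := pp_inj _ _ (by simp [hc]) h1
  have inj : ∀ y : K, Function.Injective fun x : K => x + y := fun y => add_left_injective y
  have inj1 : Function.Injective fun x : K => x - 1 := sub_left_injective
  have cnt : ∀ (B : Multiset K) (y x : K), Multiset.count x (B.map (· + y)) =
      Multiset.count (x - y) B := by
    intro B y x
    have := Multiset.count_map_eq_count' (fun z : K => z + y) B (inj y) (x - y)
    simpa using this
  have cnt1 : ∀ (B : Multiset K) (x : K), Multiset.count x (B.map (· - 1)) =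
      Multiset.count (x + 1) B := by
    intro B x
    have := Multiset.count_map_eq_count' (fun z : K => z - 1) B inj1 (x + 1)
    simpa using this
  set D : K → ℤ := fun x => (Multiset.count x A : ℤ) - Multiset.count x A' with hD
  have hDeq : ∀ x, D x + D (x - b) = D (x - al) + D (x + 1) := by
    intro x
    have h3 := congrArg (Multiset.count x) h2
    simp only [Multiset.count_add, cnt, cnt1] at h3
    simp only [hD]
    have h4 : ((Multiset.count x A + Multiset.count (x - b) A +
      (Multiset.count (x - al) A' + Multiset.count (x + 1) A') : ℕ) : ℤ) =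
      ((Multiset.count (x - al) A + Multiset.count (x + 1) A +
        (Multiset.count x A' + Multiset.count (x - b) A') : ℕ) : ℤ) := by exact_mod_cast h3
    push_cast at h4
    linarith
  have hDS : ∀ x, D x ≠ 0 → x ∈ (A + A').toFinset := by
    intro x hx
    by_contra hn
    rw [Multiset.mem_toFinset, Multiset.mem_add, not_or] at hn
    apply hx
    simp [hD, Multiset.count_eq_zero_of_notMem hn.1, Multiset.count_eq_zero_of_notMem hn.2]
  have hE : ∀ x, D x - D (x + 1) = 0 := by
    refine periodic_zero (fun x => D x - D (x + 1)) al hal
      ((A + A').toFinset ∪ (A + A').toFinset.image (· - 1)) ?_ ?_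
    · intro x hx
      rw [Finset.mem_union]
      by_cases h3 : D x = 0
      · right
        rw [Finset.mem_image]
        refine ⟨x + 1, hDS _ ?_, by ring⟩
        intro h4
        exact hx (by simp [h3, h4])
      · left
        exact hDS x h3
    · intro x
      have h3 := hDeq x
      have h4 : x - b = x - al + 1 := by rw [hb]; ring
      rw [h4] at h3
      linarith
  have hD0 : ∀ x, D x = 0 := by
    refine periodic_zero D (-1) (by simp) _ hDS ?_
    intro x
    have := hE x
    rw [sub_neg_eq_add]
    linarith
  refine Multiset.ext.2 fun x => ?_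
  have := hD0 x
  simp only [hD] at this
  have h5 : (Multiset.count x A : ℤ) = Multiset.count x A' := by linarith
  exact_mod_cast h5

end H25BC
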