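import Pool.Agent.H25.BC.J3c
import Pool.Agent.H25.BC.J5
import Pool.Agent.H25.BC.J6a

/-!
# Module J6: contents

`cont_step`: multiply `Mser_step` by the products of `Mser_cont` for `θ` and `φ`; cancel
`Mser φ`, `Mser θ` (constant coefficient `Mev 0 = 1`), and use `multiset_eq` with
`A = cont φ`, `A' = c ::ₘ cont θ` (cardinalities `n+1`: `card (cont θ) = ∑ rows = n`, `sum_row`).

`cont_inj`: `(i, j) ↦ al j - i` is injective on `ℕ × ℕ` (`Irr`), so `al j - i ∈ cont θ ↔ j < row θ i`
and the multiset determines all rows; `row_inj`.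
-/

open MvPolynomial

namespace H25BC

variable {K : Type*} [Field K] [CharZero K] {al b : K}
  {J : ∀ n : ℕ, n.Partition → MvPolynomial ℕ K}

theorem card_cont (al : K) {n : ℕ} (θ : n.Partition) : (cont al θ).card = n := by
  unfold cont
  rw [Multiset.card_bind]
  have h1 : (Multiset.card ∘ fun i : ℕ =>
      (Multiset.range (row θ i)).map fun j : ℕ => al * (j : K) - (i : K)) =
      fun i => row θ i := by
    funext i
    simp
  rw [h1]
  exact sum_row θ

theorem cont_step (hJ : IsJack al J) (han : Aniso al) (hb : b = al - 1) (hal : al ≠ 0) (n : ℕ)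
    (θ : n.Partition) (φ : (n + 1).Partition) (h : kap al J 0 n θ φ ≠ 0) :
    cont al φ = (eev al b J (n + 1) φ - eev al b J n θ) ::ₘ cont al θ := by
  set c := eev al b J (n + 1) φ - eev al b J n θ with hc
  refine multiset_eq hb hal _ _ ?_ ?_
  · rw [card_cont, Multiset.card_cons, card_cont]
  · have h1 := Mser_step hJ han hb hal n θ φ h
    have h2 := Mser_cont hJ han hb (n + 1) φ
    have h3 := Mser_cont hJ han hb n θ
    rw [← hc] at h1
    rw [Multiset.map_cons, Multiset.map_cons, Multiset.prod_cons, Multiset.prod_cons, ← h2, ← h3]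
    linear_combination ((cont al φ).map (rg al)).prod * ((cont al θ).map (rg al)).prod * h1

private theorem mem_cont (hir : Irr al) {n : ℕ} (θ : n.Partition) (i j : ℕ) :
    al * (j : K) - (i : K) ∈ cont al θ ↔ j < row θ i := by
  unfold cont
  rw [Multiset.mem_bind]
  constructor
  · rintro ⟨i', _, hi'⟩
    rw [Multiset.mem_map] at hi'
    obtain ⟨j', hj', h1⟩ := hi'
    rw [Multiset.mem_range] at hj'
    have h2 : (((j' : ℤ) - (j : ℤ) : ℤ) : K) * al = (((i' : ℤ) - (i : ℤ) : ℤ) : K) := by
      push_cast
      linear_combination h1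
    have h3 : j' = j := by
      have := hir _ _ h2
      omega
    subst h3
    have h4 : (i' : K) = (i : K) := by linear_combination -h1
    have h5 : i' = i := by exact_mod_cast h4
    rw [← h5]
    exact hj'
  · intro hj
    have hi : i < n := by
      by_contra h
      rw [row_eq_zero θ i (by omega)] at hj
      exact Nat.not_lt_zero _ hj
    exact ⟨i, Multiset.mem_range.2 hi, Multiset.mem_map.2 ⟨j, Multiset.mem_range.2 hj, rfl⟩⟩

theorem cont_inj (hir : Irr al) {n : ℕ} (θ φ : n.Partition) (h : cont al θ = cont al φ) :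
    θ = φ := by
  refine row_inj θ φ fun i => ?_
  have h1 : ∀ j, j < row θ i ↔ j < row φ i := by
    intro j
    rw [← mem_cont hir θ, ← mem_cont hir φ, h]
  rcases lt_trichotomy (row θ i) (row φ i) with h2 | h2 | h2
  · exact absurd ((h1 _).2 h2) (lt_irrefl _)
  · exact h2
  · exact absurd ((h1 _).1 h2) (lt_irrefl _)

end H25BC
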