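import Pool.Agent.H25.BC.A2V
import Pool.Agent.H25.BC.A6b

/-!
# Module J7a: orthogonal projection

`W` a finite dimensional subspace of `V = K[p][w]`, `pairV` symmetric and anisotropic
(`pairV_self_eq_zero`). The linear map `W → Dual W`, `w ↦ pairV · w` is injective, hence bijective;
so for `v ∈ V` there is `w ∈ W` with `pairV x w = pairV x v` for all `x ∈ W`.
-/

open MvPolynomial

namespace H25BC

variable {K : Type*} [Field K] {al : K}

private theorem pairV_add_right (al : K) (u v v' : Polynomial (MvPolynomial ℕ K)) :
    pairV al u (v + v') = pairV al u v + pairV al u v' := by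
  rw [pairV_comm, pairV_add_left, pairV_comm al v, pairV_comm al v']

private theorem pairV_smul_right (al c : K) (u v : Polynomial (MvPolynomial ℕ K)) :
    pairV al u (c • v) = c * pairV al u v := by
  rw [pairV_comm, pairV_smul_left, pairV_comm al v]

/-- the form as a bilinear map -/
private noncomputable def BV (al : K) : Polynomial (MvPolynomial ℕ K) →ₗ[K]
    Polynomial (MvPolynomial ℕ K) →ₗ[K] K :=
  LinearMap.mk₂ K (pairV al) (pairV_add_left al)
    (fun c u v => by rw [pairV_smul_left, smul_eq_mul]) (pairV_add_right al)
    (fun c u v => by rw [pairV_smul_right, smul_eq_mul])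

private theorem BV_apply (al : K) (u v : Polynomial (MvPolynomial ℕ K)) :
    BV al u v = pairV al u v := rfl

private theorem surj_of_inj (K V : Type*) [Field K] [AddCommGroup V] [Module K V]
    [FiniteDimensional K V] (f : V →ₗ[K] V →ₗ[K] K) (hinj : Function.Injective f) :
    Function.Surjective f := by
  have hfr : Module.finrank K V = Module.finrank K (V →ₗ[K] K) :=
    (Subspace.dual_finrank_eq (K := K) (V := V)).symm
  exact (LinearMap.injective_iff_surjective_of_finrank_eq_finrank hfr (f := f)).1 hinj

theorem exists_proj (han : Aniso al) (W : Submodule K (Polynomial (MvPolynomial ℕ K)))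
    [FiniteDimensional K W] (v : Polynomial (MvPolynomial ℕ K)) :
    ∃ w ∈ W, ∀ x ∈ W, pairV al x (v - w) = 0 := by
  have hinj : Function.Injective ((BV al).domRestrict₁₂ W W) := by
    rw [injective_iff_map_eq_zero]
    intro w hw
    have h1 : pairV al (w : Polynomial (MvPolynomial ℕ K)) w = 0 := by
      have := LinearMap.congr_fun hw w
      exact this
    exact Subtype.ext (pairV_self_eq_zero al han _ h1)
  have hsurj : Function.Surjective ((BV al).domRestrict₁₂ W W) :=
    surj_of_inj K W _ hinj
  obtain ⟨w, hw⟩ := hsurj ((BV al v).domRestrict W)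
  refine ⟨w, w.2, fun x hx => ?_⟩
  have h1 : pairV al (w : Polynomial (MvPolynomial ℕ K)) x = pairV al v x := by
    have := LinearMap.congr_fun hw ⟨x, hx⟩
    exact this
  have h2 : v - w = v + (-1 : K) • (w : Polynomial (MvPolynomial ℕ K)) := by
    rw [neg_one_smul, sub_eq_add_neg]
  rw [h2, pairV_add_right, pairV_smul_right, pairV_comm al x, pairV_comm al x, h1]
  ring

private theorem mul_le_wt (m : ℕ →₀ ℕ) (i : ℕ) : (i + 1) * m i ≤ wt m := by
  unfold wt Finsupp.sum
  by_cases h : i ∈ m.support
  · exact Finset.single_le_sum (f := fun i => (i + 1) * m i) (fun _ _ => Nat.zero_le _) h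
  · rw [Finsupp.notMem_support_iff] at h
    rw [h, mul_zero]
    exact Nat.zero_le _

/-- the space of homogeneous elements is finite dimensional -/
theorem HomV_finite (n : ℕ) (W : Submodule K (Polynomial (MvPolynomial ℕ K)))
    (hW : ∀ v ∈ W, HomV n v) : FiniteDimensional K W := by
  classical
  set g : ℕ →₀ ℕ := ∑ i ∈ Finset.range n, Finsupp.single i n with hg
  have hgi : ∀ i, i < n → g i = n := by
    intro i hi
    rw [hg, Finsupp.finsetSum_apply, Finset.sum_eq_single i]
    · simp
    · intro j _ hj
      simp [hj]
    · intro h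
      exact absurd (Finset.mem_range.2 hi) h
  set F : Finset (ℕ × (ℕ →₀ ℕ)) := Finset.range (n + 1) ×ˢ Finset.Icc 0 g with hF
  have key : W ≤ Submodule.span K
      ((F.image fun p => Polynomial.monomial p.1 (monomial p.2 (1 : K)) :
        Finset (Polynomial (MvPolynomial ℕ K))) : Set (Polynomial (MvPolynomial ℕ K))) := by
    intro v hv
    have hh := hW v hv
    rw [v.as_sum_support]
    refine Submodule.sum_mem _ fun j _ => ?_
    have h1 : Polynomial.monomial j (v.coeff j) = ∑ m ∈ (v.coeff j).support,
        (v.coeff j).coeff m • Polynomial.monomial j (monomial m (1 : K)) := by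
      conv_lhs => rw [(v.coeff j).as_sum]
      rw [map_sum]
      refine Finset.sum_congr rfl fun m _ => ?_
      rw [Polynomial.smul_monomial, smul_monomial, smul_eq_mul, mul_one]
    rw [h1]
    refine Submodule.sum_mem _ fun m hm => Submodule.smul_mem _ _ (Submodule.subset_span ?_)
    rw [mem_support_iff] at hm
    have h2 := hh j m hm
    rw [Finset.mem_coe, Finset.mem_image]
    refine ⟨(j, m), ?_, rfl⟩
    rw [hF, Finset.mem_product, Finset.mem_range, Finset.mem_Icc]
    refine ⟨by simp only; omega, zero_le, ?_⟩
    intro i
    have h3 := mul_le_wt m i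
    by_cases hi : i < n
    · rw [hgi i hi]
      have h4 : m i ≤ (i + 1) * m i := Nat.le_mul_of_pos_left _ (Nat.succ_pos _)
      simp only
      omega
    · have h4 : m i = 0 := by
        by_contra h5
        have h6 : 1 ≤ m i := Nat.one_le_iff_ne_zero.2 h5
        have h7 : (i + 1) * 1 ≤ (i + 1) * m i := Nat.mul_le_mul_left _ h6
        omega
      simp only [h4]
      exact Nat.zero_le _
  exact Submodule.finiteDimensional_of_le key

end H25BC
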