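import Pool.Agent.H25.BC.J4
import Pool.Agent.H25.BC.A2V

/-!
# Module J7b: polynomials in `Λ` applied to `ι J_θ`

`pL h` is the polynomial `h(Λ)` (`Polynomial.aeval` in `Module.End`).
`R_J_poly`: linear in `h`, for `h = X^l` it is `R_J`.
`pairV_pL`: `Λ` is self-adjoint (`pairV_Lam`), so
`pairV (h(Λ) ι J_θ) (h'(Λ) ι J_θ) = pairV (ι J_θ) ((h h')(Λ) ι J_θ) = pair J_θ (((h h')(Λ) ι J_θ).coeff 0)`
(`pairV_C`), bilinear in `h`, `h'`: for `h = X^k`, `h' = X^l` it is
`pair J_θ (Mom_{k+l} J_θ) = Mev (k+l) nrm θ` (`Mom_J`), and `Mev_sum`.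
-/

open MvPolynomial

namespace H25BC

variable {K : Type*} [Field K] [CharZero K] {al b : K}
  {J : ∀ n : ℕ, n.Partition → MvPolynomial ℕ K}

omit [CharZero K] in
private theorem pL_add' (h h' : Polynomial K) (v : Polynomial (MvPolynomial ℕ K)) :
    pL al b (h + h') v = pL al b h v + pL al b h' v := by
  simp [pL]

omit [CharZero K] in
private theorem pL_mul' (h h' : Polynomial K) (v : Polynomial (MvPolynomial ℕ K)) :
    pL al b (h * h') v = pL al b h (pL al b h' v) := by
  simp [pL]

omit [CharZero K] in
private theorem pL_monomial' (k : ℕ) (c : K) (v : Polynomial (MvPolynomial ℕ K)) :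
    pL al b (Polynomial.monomial k c) v = c • ((Lam al b) ^ k) v := by
  simp [pL, Polynomial.aeval_monomial]

omit [CharZero K] in
private theorem pairV_add_right' (u v v' : Polynomial (MvPolynomial ℕ K)) :
    pairV al u (v + v') = pairV al u v + pairV al u v' := by
  rw [pairV_comm, pairV_add_left, pairV_comm al v, pairV_comm al v']

omit [CharZero K] in
private theorem pairV_smul_right' (c : K) (u v : Polynomial (MvPolynomial ℕ K)) :
    pairV al u (c • v) = c * pairV al u v := by
  rw [pairV_comm, pairV_smul_left, pairV_comm al v]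

omit [CharZero K] in
private theorem pairV_Lam_pow' (k : ℕ) (u v : Polynomial (MvPolynomial ℕ K)) :
    pairV al (((Lam al b) ^ k) u) v = pairV al u (((Lam al b) ^ k) v) := by
  induction k generalizing u v with
  | zero => simp
  | succ k ih =>
    rw [pow_succ', Module.End.mul_apply, pairV_Lam, ih, ← Module.End.mul_apply, ← pow_succ,
      pow_succ']

omit [CharZero K] in
private theorem pairV_pL_left (h : Polynomial K) (u v : Polynomial (MvPolynomial ℕ K)) :
    pairV al (pL al b h u) v = pairV al u (pL al b h v) := by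
  induction h using Polynomial.induction_on' with
  | add p q hp hq => rw [pL_add', pairV_add_left, hp, hq, pL_add', pairV_add_right']
  | monomial k c =>
    rw [pL_monomial', pL_monomial', pairV_smul_left, pairV_smul_right', pairV_Lam_pow']

/-- linear version of `R_J` -/
theorem R_J_poly (hJ : IsJack al J) (han : Aniso al) (hb : b = al - 1) (hal : al ≠ 0) (n : ℕ)
    (θ : n.Partition) (h : Polynomial K) :
    Theta K (Polynomial.X * pL al b h (Polynomial.C (J n θ))) =
      ∑ φ : (n + 1).Partition,
        C (kap al J 0 n θ φ * h.eval (eev al b J (n + 1) φ - eev al b J n θ)) * J (n + 1) φ := by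
  induction h using Polynomial.induction_on' with
  | add p q hp hq =>
    rw [pL_add', mul_add, map_add, hp, hq, ← Finset.sum_add_distrib]
    refine Finset.sum_congr rfl fun φ _ => ?_
    rw [Polynomial.eval_add, mul_add, C_add, add_mul]
  | monomial k c =>
    rw [pL_monomial', mul_smul_comm, map_smul, R_J hJ han hb hal, Finset.smul_sum]
    refine Finset.sum_congr rfl fun φ _ => ?_
    rw [Polynomial.eval_monomial, smul_eq_C_mul, ← mul_assoc, ← C_mul]
    congr 2
    ring

private theorem pairV_pL_aux (hJ : IsJack al J) (han : Aniso al) (hb : b = al - 1)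
    (hal : al ≠ 0) (n : ℕ) (θ : n.Partition) (h : Polynomial K) :
    pairV al (Polynomial.C (J n θ)) (pL al b h (Polynomial.C (J n θ))) =
      nrm al J n θ * ∑ φ : (n + 1).Partition, kap al J 0 n θ φ *
        h.eval (eev al b J (n + 1) φ - eev al b J n θ) := by
  induction h using Polynomial.induction_on' with
  | add p q hp hq =>
    rw [pL_add', pairV_add_right', hp, hq, ← mul_add, ← Finset.sum_add_distrib]
    congr 1
    refine Finset.sum_congr rfl fun φ _ => ?_
    rw [Polynomial.eval_add, mul_add]
  | monomial k c =>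
    have h1 : (((Lam al b) ^ k) (Polynomial.C (J n θ))).coeff 0 = Mom al b k (J n θ) := by
      simp [Mom, Cl]
    rw [pL_monomial', pairV_smul_right', pairV_C, h1, Mom_J hJ han hb, pair_C_mul_right,
      Mev_sum hJ han hb hal]
    have h2 : pair al (J n θ) (J n θ) = nrm al J n θ := rfl
    rw [h2]
    have h3 : ∑ φ : (n + 1).Partition, kap al J 0 n θ φ *
        (Polynomial.monomial k c).eval (eev al b J (n + 1) φ - eev al b J n θ) =
        c * ∑ φ : (n + 1).Partition,
          kap al J 0 n θ φ * (eev al b J (n + 1) φ - eev al b J n θ) ^ k := by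
      rw [Finset.mul_sum]
      refine Finset.sum_congr rfl fun φ _ => ?_
      rw [Polynomial.eval_monomial]
      ring
    rw [h3]
    ring

/-- `‖h(Λ) ι J_θ‖²` -/
theorem pairV_pL (hJ : IsJack al J) (han : Aniso al) (hb : b = al - 1) (hal : al ≠ 0) (n : ℕ)
    (θ : n.Partition) (h h' : Polynomial K) :
    pairV al (pL al b h (Polynomial.C (J n θ))) (pL al b h' (Polynomial.C (J n θ))) =
      nrm al J n θ * ∑ φ : (n + 1).Partition, kap al J 0 n θ φ *
        (h.eval (eev al b J (n + 1) φ - eev al b J n θ) *
          h'.eval (eev al b J (n + 1) φ - eev al b J n θ)) := by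
  rw [pairV_pL_left, ← pL_mul', pairV_pL_aux hJ han hb hal]
  simp only [Polynomial.eval_mul]

end H25BC
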