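import Pool.Agent.H25.BC.J6
import Pool.Agent.H25.BC.J7a
import Pool.Agent.H25.BC.J7b

/-!
# Module J7: the vectors `Λ^l ι J_θ` span

`pL h` is the polynomial `h(Λ)`. Induction on `n`. `n = 0`: `HomV 0 v` means `v = C (C c)`, and
`J 0 θ = 1` for the unique partition of `0`.

Step `n → n+1`. Let `W` be the span of all `Λ^k ι J_φ`, `φ ⊢ n+1` (elements are `HomV (n+1)`, so
`W` is finite dimensional, `HomV_finite`). Given `v` with `HomV (n+1) v` take `w ∈ W` with
`u = v - w ⊥ W` (`exists_proj`); show `u = 0`. For all `k` and `f` with `IsHom (n+1) f`,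
`0 = pairV (Λ^k ι f) u = pair f ((Λ^k u).coeff 0)` (`pairV_Lam`, `pairV_C`, `basis_expand`), so
`(Λ^k u).coeff 0 = 0` (it is homogeneous; anisotropy). `k = 0`: `u = w v'` with `v' = u.divX`
(`HomV n v'`). By `coeff0_pow_X_mul`, `∑_{a<k} Mom_{k-1-a} (Θ (w (Λ+b)^a v')) = 0` for all `k ≥ 1`;
as `Mom_0 = id`, induction on `k` gives `Θ (w (Λ+b)^a v') = 0`, hence `Θ (w Λ^a v') = 0` for all
`a` (and for all polynomials in `Λ`). By the induction hypothesis `v' = ∑_θ h_θ(Λ) ι J_θ`. By `R_J`
(linear in the polynomial): `∑_θ κ_{θφ} h_θ(c_{θφ}) c_{θφ}^a = 0` for every `φ ⊢ n+1` and `a ≥ 0`,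
`c_{θφ} = eev φ - eev θ`. For fixed `φ` the `c_{θφ}` with `κ_{θφ} ≠ 0` are pairwise different: if
`c_{θφ} = c_{θ'φ}` then `cont θ = cont φ - {c} = cont θ'` (`cont_step`) and `θ = θ'` (`cont_inj`).
So (Vandermonde / Lagrange polynomial instead of `z^a`) `κ_{θφ} h_θ(c_{θφ}) = 0` for all `θ, φ`.
Then for each `θ`, `pairV (h_θ(Λ) ι J_θ) (h_θ(Λ) ι J_θ) = pair J_θ ((h_θ^2(Λ) ι J_θ).coeff 0)
= nrm θ ∑_φ κ_{θφ} h_θ(c_{θφ})^2 = 0` (`Mev_sum`, linear in the polynomial), so
`h_θ(Λ) ι J_θ = 0`, `v' = 0`, `u = 0`, `v = w ∈ W`; and an element of `W` has the claimed form.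
-/

open MvPolynomial

namespace H25BC

variable {K : Type*} [Field K] [CharZero K] {al b : K}
  {J : ∀ n : ℕ, n.Partition → MvPolynomial ℕ K}

omit [CharZero K] in
private theorem pL_X_pow (k : ℕ) (v : Polynomial (MvPolynomial ℕ K)) :
    pL al b (Polynomial.X ^ k) v = ((Lam al b) ^ k) v := by
  simp [pL]

omit [CharZero K] in
private theorem pL_mul (h h' : Polynomial K) (v : Polynomial (MvPolynomial ℕ K)) :
    pL al b (h * h') v = pL al b h (pL al b h' v) := by
  simp [pL]

omit [CharZero K] in
private theorem pL_add (h h' : Polynomial K) (v : Polynomial (MvPolynomial ℕ K)) :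
    pL al b (h + h') v = pL al b h v + pL al b h' v := by
  simp [pL]

omit [CharZero K] in
private theorem pL_C (c : K) (v : Polynomial (MvPolynomial ℕ K)) :
    pL al b (Polynomial.C c) v = c • v := by
  simp [pL]

omit [CharZero K] in
private theorem pL_XC_pow (k : ℕ) (v : Polynomial (MvPolynomial ℕ K)) :
    pL al b ((Polynomial.X + Polynomial.C b) ^ k) v =
      ((Lam al b + b • (LinearMap.id :
          Polynomial (MvPolynomial ℕ K) →ₗ[K] Polynomial (MvPolynomial ℕ K))) ^ k) v := by
  have h1 : pL al b ((Polynomial.X + Polynomial.C b) ^ k) =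
      (Lam al b + b • (LinearMap.id :
          Polynomial (MvPolynomial ℕ K) →ₗ[K] Polynomial (MvPolynomial ℕ K))) ^ k := by
    unfold pL
    rw [map_pow, map_add, Polynomial.aeval_X, Polynomial.aeval_C]
    congr 2
  rw [h1]

omit [CharZero K] in
private theorem HomV_zero (n : ℕ) : HomV n (0 : Polynomial (MvPolynomial ℕ K)) := by
  intro j m h
  simp at h

omit [CharZero K] in
private theorem HomV_sub {n : ℕ} {u v : Polynomial (MvPolynomial ℕ K)} (hu : HomV n u)
    (hv : HomV n v) : HomV n (u - v) := by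
  have := HomV_add hu (HomV_smul (-1 : K) hv)
  rwa [neg_one_smul, ← sub_eq_add_neg] at this

omit [CharZero K] in
private theorem HomV_Lam_pow {n : ℕ} (k : ℕ) {u : Polynomial (MvPolynomial ℕ K)}
    (hu : HomV n u) : HomV n (((Lam al b) ^ k) u) := by
  induction k with
  | zero => simpa using hu
  | succ k ih =>
    rw [pow_succ', Module.End.mul_apply]
    exact HomV_Lam al b ih

omit [CharZero K] in
private theorem pairV_Lam_pow (k : ℕ) (u v : Polynomial (MvPolynomial ℕ K)) :
    pairV al (((Lam al b) ^ k) u) v = pairV al u (((Lam al b) ^ k) v) := by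
  induction k generalizing u v with
  | zero => simp
  | succ k ih =>
    rw [pow_succ', Module.End.mul_apply, pairV_Lam, ih, ← Module.End.mul_apply, ← pow_succ,
      pow_succ']

/-- the span of the vectors `Λ^k ι J_φ` -/
private noncomputable def Wn (al b : K) (J : ∀ n : ℕ, n.Partition → MvPolynomial ℕ K) (n : ℕ) :
    Submodule K (Polynomial (MvPolynomial ℕ K)) :=
  Submodule.span K (Set.range fun p : ℕ × n.Partition =>
    ((Lam al b) ^ p.1) (Polynomial.C (J n p.2)))

omit [CharZero K] in
private theorem Wn_HomV (hJ : IsJack al J) (n : ℕ) : ∀ v ∈ Wn al b J n, HomV n v := by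
  intro v hv
  refine Submodule.span_induction ?_ ?_ ?_ ?_ hv
  · rintro x ⟨p, rfl⟩
    exact HomV_Lam_pow _ (HomV_C (hJ.hom n p.2))
  · exact HomV_zero n
  · intro x y _ _ hx hy
    exact HomV_add hx hy
  · intro a x _ hx
    exact HomV_smul a hx

omit [CharZero K] in
private theorem Wn_form (n : ℕ) : ∀ v ∈ Wn al b J n, ∃ h : n.Partition → Polynomial K,
      v = ∑ θ : n.Partition, pL al b (h θ) (Polynomial.C (J n θ)) := by
  classical
  intro v hv
  refine Submodule.span_induction ?_ ?_ ?_ ?_ hv
  · rintro x ⟨p, rfl⟩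
    refine ⟨fun θ => if θ = p.2 then Polynomial.X ^ p.1 else 0, ?_⟩
    rw [Finset.sum_eq_single p.2]
    · simp only [if_true]
      rw [pL_X_pow]
    · intro θ _ hθ
      simp only [if_neg hθ]
      simp [pL]
    · intro h
      exact absurd (Finset.mem_univ _) h
  · refine ⟨fun _ => 0, ?_⟩
    simp [pL]
  · rintro x y _ _ ⟨h, hx⟩ ⟨h', hy⟩
    refine ⟨fun θ => h θ + h' θ, ?_⟩
    rw [hx, hy, ← Finset.sum_add_distrib]
    refine Finset.sum_congr rfl fun θ _ => ?_
    rw [pL_add]
  · rintro a x _ ⟨h, hx⟩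
    refine ⟨fun θ => Polynomial.C a * h θ, ?_⟩
    rw [hx, Finset.smul_sum]
    refine Finset.sum_congr rfl fun θ _ => ?_
    rw [pL_mul, pL_C]

private theorem J_indep (hJ : IsJack al J) (han : Aniso al) (n : ℕ) (c : n.Partition → K)
    (h : ∑ φ : n.Partition, C (c φ) * J n φ = 0) (φ : n.Partition) : c φ = 0 := by
  classical
  have h1 : pair al (∑ ψ : n.Partition, C (c ψ) * J n ψ) (J n φ) = 0 := by
    rw [h, pair_zero_left]
  rw [pair_sum_left, Finset.sum_eq_single φ] at h1
  · rw [pair_C_mul_left] at h1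
    rcases mul_eq_zero.1 h1 with h2 | h2
    · exact h2
    · exact absurd h2 (nrm_ne_zero hJ han n φ)
  · intro ψ _ hψ
    rw [pair_C_mul_left, hJ.orth n ψ φ hψ, mul_zero]
  · intro h
    exact absurd (Finset.mem_univ _) h

omit [CharZero K] in
/-- separation: a vanishing combination of evaluations at distinct points -/
private theorem eval_sep {ι : Type*} [Fintype ι] (z x : ι → K)
    (h : ∀ a : ℕ, ∑ i, z i * x i ^ a = 0)
    (hx : ∀ i j, z i ≠ 0 → z j ≠ 0 → x i = x j → i = j) (i : ι) : z i = 0 := by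
  classical
  by_contra hi
  have hq : ∀ q : Polynomial K, ∑ j, z j * q.eval (x j) = 0 := by
    intro q
    have h1 : ∀ j, z j * q.eval (x j) =
        ∑ a ∈ Finset.range (q.natDegree + 1), q.coeff a * (z j * x j ^ a) := by
      intro j
      rw [Polynomial.eval_eq_sum_range, Finset.mul_sum]
      refine Finset.sum_congr rfl fun a _ => ?_
      ring
    rw [Finset.sum_congr rfl fun j _ => h1 j, Finset.sum_comm]
    refine Finset.sum_eq_zero fun a _ => ?_
    rw [← Finset.mul_sum, h a, mul_zero]
  have h2 := hq (∏ j ∈ (Finset.univ.filter fun j => z j ≠ 0).erase i,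
    (Polynomial.X - Polynomial.C (x j)))
  rw [Finset.sum_eq_single i] at h2
  · rcases mul_eq_zero.1 h2 with h3 | h3
    · exact hi h3
    · rw [Polynomial.eval_prod, Finset.prod_eq_zero_iff] at h3
      obtain ⟨j, hj, h4⟩ := h3
      rw [Finset.mem_erase, Finset.mem_filter] at hj
      rw [Polynomial.eval_sub, Polynomial.eval_X, Polynomial.eval_C, sub_eq_zero] at h4
      exact hj.1 (hx j i hj.2.2 hi h4.symm)
  · intro j _ hj
    by_cases hz : z j = 0
    · rw [hz, zero_mul]
    · rw [Polynomial.eval_prod, Finset.prod_eq_zero (i := j), mul_zero]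
      · rw [Finset.mem_erase, Finset.mem_filter]
        exact ⟨hj, Finset.mem_univ _, hz⟩
      · simp
  · intro h
    exact absurd (Finset.mem_univ _) h

private theorem spanning_step (hJ : IsJack al J) (han : Aniso al) (hb : b = al - 1) (hal : al ≠ 0)
    (hir : Irr al) (n : ℕ)
    (ih : ∀ v : Polynomial (MvPolynomial ℕ K), HomV n v → ∃ h : n.Partition → Polynomial K,
      v = ∑ θ : n.Partition, pL al b (h θ) (Polynomial.C (J n θ)))
    (u : Polynomial (MvPolynomial ℕ K)) (hu : HomV (n + 1) u)
    (horth : ∀ k (φ : (n + 1).Partition),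
      pairV al (((Lam al b) ^ k) (Polynomial.C (J (n + 1) φ))) u = 0) : u = 0 := by
  classical
  -- step A
  have hA : ∀ k, (((Lam al b) ^ k) u).coeff 0 = 0 := by
    intro k
    have h1 : IsHom (n + 1) ((((Lam al b) ^ k) u).coeff 0) := IsHom_coeff0 (HomV_Lam_pow k hu)
    rw [basis_expand hJ han _ h1]
    refine Finset.sum_eq_zero fun φ _ => ?_
    have h2 := horth k φ
    rw [pairV_Lam_pow, pairV_C] at h2
    rw [pair_comm, h2, mul_zero, map_zero, zero_mul]
  -- step B
  have hB : u = Polynomial.X * u.divX := by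
    have h1 := Polynomial.divX_mul_X_add u
    have h2 := hA 0
    rw [pow_zero, Module.End.one_apply] at h2
    rw [h2, map_zero, add_zero] at h1
    rw [mul_comm]
    exact h1.symm
  have hv' : HomV n u.divX := HomV_divX hu
  set v' := u.divX with hv'def
  -- step C
  have hC : ∀ a : ℕ, Theta K (Polynomial.X * pL al b ((Polynomial.X + Polynomial.C b) ^ a) v')
      = 0 := by
    intro a
    induction a using Nat.strong_induction_on with
    | _ a iha =>
      have h1 := coeff0_pow_X_mul (al := al) (b := b) (a + 1) v'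
      rw [← hB, hA, Finset.sum_range_succ, Finset.sum_eq_zero, zero_add] at h1
      · rw [pL_XC_pow]
        have h2 : a + 1 - 1 - a = 0 := by omega
        rw [h2] at h1
        have h3 : ∀ f : MvPolynomial ℕ K, Mom al b 0 f = f := by
          intro f
          simp [Mom, Cl]
        rw [h3] at h1
        exact h1.symm
      · intro a' ha'
        rw [Finset.mem_range] at ha'
        rw [← pL_XC_pow, iha a' ha', map_zero]
  obtain ⟨h, hh⟩ := ih v' hv'
  -- step D
  have hD : ∀ (a : ℕ) (φ : (n + 1).Partition), ∑ θ : n.Partition,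
      (kap al J 0 n θ φ * (h θ).eval (eev al b J (n + 1) φ - eev al b J n θ)) *
        (eev al b J (n + 1) φ - eev al b J n θ + b) ^ a = 0 := by
    intro a φ
    have h1 := hC a
    have h2 : Theta K (Polynomial.X * pL al b ((Polynomial.X + Polynomial.C b) ^ a) v') =
        ∑ φ : (n + 1).Partition, C (∑ θ : n.Partition,
          (kap al J 0 n θ φ * (h θ).eval (eev al b J (n + 1) φ - eev al b J n θ)) *
            (eev al b J (n + 1) φ - eev al b J n θ + b) ^ a) * J (n + 1) φ := by
      rw [hh, map_sum, Finset.mul_sum, map_sum]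
      have h3 : ∀ θ : n.Partition, Theta K (Polynomial.X *
          pL al b ((Polynomial.X + Polynomial.C b) ^ a) (pL al b (h θ) (Polynomial.C (J n θ)))) =
          ∑ φ : (n + 1).Partition, C ((kap al J 0 n θ φ *
            (h θ).eval (eev al b J (n + 1) φ - eev al b J n θ)) *
            (eev al b J (n + 1) φ - eev al b J n θ + b) ^ a) * J (n + 1) φ := by
        intro θ
        rw [← pL_mul, R_J_poly hJ han hb hal]
        refine Finset.sum_congr rfl fun ψ _ => ?_
        congr 2
        simp only [Polynomial.eval_mul, Polynomial.eval_pow, Polynomial.eval_add,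
          Polynomial.eval_X, Polynomial.eval_C]
        ring
      rw [Finset.sum_congr rfl fun θ _ => h3 θ, Finset.sum_comm]
      refine Finset.sum_congr rfl fun ψ _ => ?_
      rw [map_sum, Finset.sum_mul]
    rw [h2] at h1
    exact J_indep hJ han (n + 1) _ h1 φ
  -- step E
  have hE : ∀ (θ : n.Partition) (φ : (n + 1).Partition),
      kap al J 0 n θ φ * (h θ).eval (eev al b J (n + 1) φ - eev al b J n θ) = 0 := by
    intro θ φ
    refine eval_sep (fun θ : n.Partition =>
      kap al J 0 n θ φ * (h θ).eval (eev al b J (n + 1) φ - eev al b J n θ))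
      (fun θ => eev al b J (n + 1) φ - eev al b J n θ + b) (fun a => hD a φ) ?_ θ
    intro θ₁ θ₂ h1 h2 h3
    have hk1 : kap al J 0 n θ₁ φ ≠ 0 := left_ne_zero_of_mul h1
    have hk2 : kap al J 0 n θ₂ φ ≠ 0 := left_ne_zero_of_mul h2
    have c1 := cont_step hJ han hb hal n θ₁ φ hk1
    have c2 := cont_step hJ han hb hal n θ₂ φ hk2
    have h4 : eev al b J (n + 1) φ - eev al b J n θ₁ = eev al b J (n + 1) φ - eev al b J n θ₂ :=
      add_right_cancel h3
    rw [c1, h4] at c2
    exact cont_inj hir _ _ ((Multiset.cons_inj_right _).1 c2)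
  -- step F
  have hF : ∀ θ : n.Partition, pL al b (h θ) (Polynomial.C (J n θ)) = 0 := by
    intro θ
    refine pairV_self_eq_zero al han _ ?_
    rw [pairV_pL hJ han hb hal, Finset.sum_eq_zero, mul_zero]
    intro φ _
    rw [← mul_assoc, hE, zero_mul]
  rw [hB, hh, Finset.sum_eq_zero fun θ _ => hF θ, mul_zero]

theorem spanning (hJ : IsJack al J) (han : Aniso al) (hb : b = al - 1) (hal : al ≠ 0)
    (hir : Irr al) (n : ℕ) (v : Polynomial (MvPolynomial ℕ K)) (hv : HomV n v) :
    ∃ h : n.Partition → Polynomial K,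
      v = ∑ θ : n.Partition, pL al b (h θ) (Polynomial.C (J n θ)) := by
  induction n generalizing v with
  | zero =>
    have h1 : v = Polynomial.C (v.coeff 0) := by
      ext j : 1
      rw [Polynomial.coeff_C]
      split_ifs with hj
      · rw [hj]
      · ext m
        rw [coeff_zero]
        by_contra hm
        have := hv j m hm
        omega
    refine ⟨fun θ => Polynomial.C ((nrm al J 0 θ)⁻¹ * pair al (v.coeff 0) (J 0 θ)), ?_⟩
    have h2 := basis_expand hJ han (v.coeff 0) (IsHom_coeff0 hv)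
    conv_lhs => rw [h1, h2]
    rw [map_sum]
    refine Finset.sum_congr rfl fun θ _ => ?_
    rw [pL_C, ← smul_eq_C_mul]
    exact (Polynomial.smul_C _ _).symm
  | succ n ih =>
    have := HomV_finite (n + 1) (Wn al b J (n + 1)) (Wn_HomV hJ (n + 1))
    obtain ⟨w, hw, hort⟩ := exists_proj han (Wn al b J (n + 1)) v
    have h0 : v - w = 0 := by
      refine spanning_step hJ han hb hal hir n (fun v hv => ih v hv) (v - w)
        (HomV_sub hv (Wn_HomV hJ (n + 1) w hw)) ?_
      intro k φ
      exact hort _ (Submodule.subset_span ⟨(k, φ), rfl⟩)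
    have h1 : v = w := sub_eq_zero.1 h0
    rw [h1]
    exact Wn_form (n + 1) w hw

end H25BC
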