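import Pool.Agent.H25.BC.J7

/-!
# Module J8: the structure of `w Λ^l ι J_θ`

`w ι J_θ` is `HomV (n+1)`, so `w ι J_θ = ∑_φ v_φ(Λ) ι J_φ` (`spanning`). By `XLam_succ` and
`Dext (v_φ(Λ) ι J_φ) = eev φ • v_φ(Λ) ι J_φ` (`Dext_Lam`, `Dext_C`, `Dop_J`), induction on `l` gives
the formula with `c_φ^l`. For `φ ≠ φ'`, `pairV (h(Λ) ι J_φ) (h'(Λ) ι J_φ') = pair J_φ
((h h')(Λ) ι J_φ').coeff 0 = 0` (`Mom_J`, orthogonality). If `kap 0 θ φ = 0` then by `pairV_X_J`
`w ι J_θ ⊥ Λ^k ι J_φ` for all `k`, so `v_φ(Λ) ι J_φ` is orthogonal to itself, hence `0`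
(`pairV_self_eq_zero`). If `kap 0 θ φ ≠ 0`: `cont_step`.
-/

set_option linter.unusedSectionVars false

open MvPolynomial

namespace H25BC

variable {K : Type*} [Field K] [CharZero K] {al b : K}
  {J : ∀ n : ℕ, n.Partition → MvPolynomial ℕ K}

theorem j8_pL_add (h h' : Polynomial K) (v : Polynomial (MvPolynomial ℕ K)) :
    pL al b (h + h') v = pL al b h v + pL al b h' v := by
  unfold pL
  rw [map_add]
  rfl

theorem j8_pL_monomial (l : ℕ) (c : K) (v : Polynomial (MvPolynomial ℕ K)) :
    pL al b (Polynomial.monomial l c) v = c • ((Lam al b) ^ l) v := by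
  unfold pL
  rw [Polynomial.aeval_monomial]
  rfl

theorem j8_pairV_pow (l : ℕ) (u v : Polynomial (MvPolynomial ℕ K)) :
    pairV al (((Lam al b) ^ l) u) v = pairV al u (((Lam al b) ^ l) v) := by
  induction l generalizing u v with
  | zero => rfl
  | succ l ih =>
    have h1 : ((Lam al b) ^ (l + 1)) u = ((Lam al b) ^ l) (Lam al b u) := by
      rw [pow_succ]; rfl
    have h2 : ((Lam al b) ^ (l + 1)) v = Lam al b (((Lam al b) ^ l) v) := by
      rw [pow_succ']; rfl
    rw [h1, ih, pairV_Lam, h2]

theorem j8_orth_pow (hJ : IsJack al J) (han : Aniso al) (hb : b = al - 1) (n : ℕ)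
    (φ ψ : n.Partition) (h : φ ≠ ψ) (k l : ℕ) :
    pairV al (((Lam al b) ^ k) (Polynomial.C (J n φ)))
      (((Lam al b) ^ l) (Polynomial.C (J n ψ))) = 0 := by
  rw [j8_pairV_pow]
  have h1 : ((Lam al b) ^ k) (((Lam al b) ^ l) (Polynomial.C (J n ψ))) =
      ((Lam al b) ^ (k + l)) (Polynomial.C (J n ψ)) := by
    rw [pow_add]; rfl
  rw [h1, pairV_C]
  have h2 : (((Lam al b) ^ (k + l)) (Polynomial.C (J n ψ))).coeff 0 =
      Mom al b (k + l) (J n ψ) := rfl
  rw [h2, Mom_J hJ han hb, pair_C_mul_right, hJ.orth _ _ _ h, mul_zero]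

theorem j8_pairV_smul_right (c : K) (u v : Polynomial (MvPolynomial ℕ K)) :
    pairV al u (c • v) = c * pairV al u v := by
  rw [pairV_comm, pairV_smul_left, pairV_comm]

theorem j8_pairV_add_right (u v v' : Polynomial (MvPolynomial ℕ K)) :
    pairV al u (v + v') = pairV al u v + pairV al u v' := by
  rw [pairV_comm, pairV_add_left, pairV_comm, pairV_comm al v' u]

theorem j8_pairV_zero_right (u : Polynomial (MvPolynomial ℕ K)) : pairV al u 0 = 0 := by
  have h := j8_pairV_smul_right (al := al) (0 : K) u 0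
  rwa [smul_zero, zero_mul] at h

theorem j8_pairV_sum_right {κ : Type*} (s : Finset κ) (u : Polynomial (MvPolynomial ℕ K))
    (F : κ → Polynomial (MvPolynomial ℕ K)) :
    pairV al u (∑ i ∈ s, F i) = ∑ i ∈ s, pairV al u (F i) := by
  classical
  induction s using Finset.induction_on with
  | empty => rw [Finset.sum_empty, Finset.sum_empty, j8_pairV_zero_right]
  | insert a s ha ih => rw [Finset.sum_insert ha, Finset.sum_insert ha, j8_pairV_add_right, ih]

theorem j8_orth (hJ : IsJack al J) (han : Aniso al) (hb : b = al - 1) (n : ℕ)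
    (φ ψ : n.Partition) (h : φ ≠ ψ) (p q : Polynomial K) :
    pairV al (pL al b p (Polynomial.C (J n φ))) (pL al b q (Polynomial.C (J n ψ))) = 0 := by
  induction p using Polynomial.induction_on' with
  | add p p' hp hp' => rw [j8_pL_add, pairV_add_left, hp, hp', add_zero]
  | monomial k a =>
    rw [j8_pL_monomial, pairV_smul_left]
    induction q using Polynomial.induction_on' with
    | add q q' hq hq' =>
      rw [j8_pL_add, j8_pairV_add_right, mul_add, hq, hq', add_zero]
    | monomial l c =>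
      rw [j8_pL_monomial, j8_pairV_smul_right, j8_orth_pow hJ han hb n φ ψ h, mul_zero, mul_zero]

theorem j8_Dext_pow (hal : al ≠ 0) (l : ℕ) (v : Polynomial (MvPolynomial ℕ K)) :
    Dext al b (((Lam al b) ^ l) v) = ((Lam al b) ^ l) (Dext al b v) := by
  induction l generalizing v with
  | zero => rfl
  | succ l ih =>
    have h1 : ∀ u, ((Lam al b) ^ (l + 1)) u = ((Lam al b) ^ l) (Lam al b u) := by
      intro u
      rw [pow_succ]; rfl
    rw [h1, h1, ih, Dext_Lam al b hal two_ne_zero]

theorem j8_Dext_pL (hJ : IsJack al J) (han : Aniso al) (hb : b = al - 1) (hal : al ≠ 0) (n : ℕ)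
    (φ : n.Partition) (p : Polynomial K) :
    Dext al b (pL al b p (Polynomial.C (J n φ))) =
      eev al b J n φ • pL al b p (Polynomial.C (J n φ)) := by
  induction p using Polynomial.induction_on' with
  | add p p' hp hp' => rw [j8_pL_add, map_add, hp, hp', smul_add]
  | monomial l a =>
    rw [j8_pL_monomial, map_smul, j8_Dext_pow hal, Dext_C, Dop_J hJ han hb]
    have h1 : Polynomial.C (C (eev al b J n φ) * J n φ) =
        eev al b J n φ • (Polynomial.C (J n φ) : Polynomial (MvPolynomial ℕ K)) := by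
      rw [← smul_eq_C_mul, Polynomial.smul_C]
    rw [h1, map_smul, smul_comm]

theorem X_step (hJ : IsJack al J) (han : Aniso al) (hb : b = al - 1) (hal : al ≠ 0)
    (hir : Irr al) (n : ℕ) (θ : n.Partition) :
    ∃ v : (n + 1).Partition → Polynomial K,
      (∀ l : ℕ, Polynomial.X * ((Lam al b) ^ l) (Polynomial.C (J n θ)) =
        ∑ φ : (n + 1).Partition, ((eev al b J (n + 1) φ - eev al b J n θ) ^ l) •
          pL al b (v φ) (Polynomial.C (J (n + 1) φ))) ∧
      ∀ φ : (n + 1).Partition, pL al b (v φ) (Polynomial.C (J (n + 1) φ)) ≠ 0 →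
        cont al φ = (eev al b J (n + 1) φ - eev al b J n θ) ::ₘ cont al θ := by
  obtain ⟨v, hv⟩ := spanning hJ han hb hal hir (n + 1)
    (Polynomial.X * Polynomial.C (J n θ)) (HomV_X_mul (HomV_C (hJ.hom n θ)))
  refine ⟨v, ?_, ?_⟩
  · intro l
    induction l with
    | zero =>
      have h1 : ((Lam al b) ^ 0) (Polynomial.C (J n θ)) = Polynomial.C (J n θ) := rfl
      rw [h1, hv]
      refine Finset.sum_congr rfl fun φ _ => ?_
      rw [pow_zero, one_smul]
    | succ l ih =>
      rw [XLam_succ hJ han hb hal, ih, map_sum, Finset.smul_sum, ← Finset.sum_sub_distrib]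
      refine Finset.sum_congr rfl fun φ _ => ?_
      rw [map_smul, j8_Dext_pL hJ han hb hal, smul_comm (eev al b J n θ), ← smul_sub,
        ← sub_smul, smul_smul, ← pow_succ]
  · intro φ hφ
    refine cont_step hJ han hb hal n θ φ ?_
    intro hk
    apply hφ
    refine pairV_self_eq_zero al han _ ?_
    have h1 : pairV al (pL al b (v φ) (Polynomial.C (J (n + 1) φ)))
        (Polynomial.X * Polynomial.C (J n θ)) = 0 := by
      have h2 : ∀ p : Polynomial K, pairV al (pL al b p (Polynomial.C (J (n + 1) φ)))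
          (Polynomial.X * Polynomial.C (J n θ)) = 0 := by
        intro p
        induction p using Polynomial.induction_on' with
        | add p p' hp hp' => rw [j8_pL_add, pairV_add_left, hp, hp', add_zero]
        | monomial l a =>
          rw [j8_pL_monomial, pairV_smul_left, pairV_X_J hJ han hb hal, hk, mul_zero, zero_mul,
            mul_zero]
      exact h2 (v φ)
    rw [hv, j8_pairV_sum_right, Finset.sum_eq_single φ] at h1
    · exact h1
    · intro ψ _ hψ
      exact j8_orth hJ han hb (n + 1) φ ψ (Ne.symm hψ) _ _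
    · intro h
      exact absurd (Finset.mem_univ _) h

end H25BC
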