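import Pool.Agent.H25.BC.J8
import Pool.Agent.H25.BC.A7

/-!
# Module J9: the formula `f_G(θ) B_j J_θ = ∑_φ f_G(φ) κ^{(j)}_{θφ} J_φ`

Over `S` (a commutative `K`-algebra) write `ι J_θ = C (map J_θ)`, `Λ` with parameters
`algebraMap al`, `algebraMap b`; all vectors below are images of vectors over `K` (`map_Lam`).

(1) From `X_step`, for every polynomial `h` over `K` and `G(z) = 1 + ∑_{l<L} g_l z^{l+1}`:
`Zop (h(Λ) ι J_θ) = w G(Λ) h(Λ) ι J_θ = ∑_φ G(c_φ) h(c_φ) v_φ(Λ) ι J_φ`, where
`G(c) = Gval L g c ∈ S` (linearity; `w z^l ↦ c_φ^l`).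
(2) Claim: for every `m` and `θ ⊢ n` there are `y_φ ∈ K[z]`, `φ ⊢ n+m`, independent of `G`, with
`f_G(θ) • Zop^m (ι J_θ) = ∑_{φ ⊢ n+m} f_G(φ) • y_φ(Λ) ι J_φ` (for every `S, L, g`).
`m = 0`: `y = δ`. Step: apply `Zop`; by (1)
`∑_φ f_G(φ) ∑_ψ G(c_{φψ}) y_φ(c_{φψ}) v_{φψ}(Λ) ι J_ψ`, and `f_G(φ) G(c_{φψ}) = f_G(ψ)` whenever
`v_{φψ}(Λ) ι J_ψ ≠ 0` (`X_step`, definition of `fG` as a product over `cont`); take
`y'_ψ = ∑_φ y_φ(c_{φψ}) v_{φψ}`.
(3) Apply `Θ`: `Θ (y(Λ) ι J_φ) = (Λ y(Λ) ι J_φ).coeff 0` (`coeff0_Lam`) is a scalar `s_φ ∈ K` times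
`J_φ` (`Mom_J`), independent of `G`. So `f_G(θ) B_j J_θ = ∑_φ f_G(φ) s_φ J_φ`, `m = j+1`.
(4) For `g = 0` (`L = 0`, `S = K`): `Zop = w`, `B_j J_θ = X_j J_θ`, `f_G = 1`:
`X_j J_θ = ∑ s_φ J_φ`; comparing with `X_mul_J` (the `J_φ` are linearly independent) `s_φ = kap`.

To avoid the universe problem of independence of `G`: the statement for `K` itself (`L = 0`) and
for `S` may be proved together: in the induction carry the family `y` from a single application of
`X_step` (choice), i.e. prove: `∃ y, (Xl^m (ι J_θ) = ∑ y_φ(Λ) ι J_φ over K) ∧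
(f_G(θ) • Zop^m ι J_θ = ∑ f_G(φ) • map (y_φ(Λ) ι J_φ) over S)` for the given `S, L, g`.
-/

set_option linter.unusedSectionVars false

open MvPolynomial

namespace H25BC

variable {K : Type*} [Field K] [CharZero K] {al b : K}
  {J : ∀ n : ℕ, n.Partition → MvPolynomial ℕ K}
  {S : Type*} [CommRing S] [Algebra K S]

theorem j9_pL_add (h h' : Polynomial K) (v : Polynomial (MvPolynomial ℕ K)) :
    pL al b (h + h') v = pL al b h v + pL al b h' v := by
  unfold pL
  rw [map_add]
  rfl

theorem j9_pL_monomial (l : ℕ) (c : K) (v : Polynomial (MvPolynomial ℕ K)) :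
    pL al b (Polynomial.monomial l c) v = c • ((Lam al b) ^ l) v := by
  unfold pL
  rw [Polynomial.aeval_monomial]
  rfl

theorem j9_pL_C_mul (c : K) (h : Polynomial K) (v : Polynomial (MvPolynomial ℕ K)) :
    pL al b (Polynomial.C c * h) v = c • pL al b h v := by
  unfold pL
  rw [map_mul, Polynomial.aeval_C]
  rfl

theorem j9_pL_sum {κ : Type*} (s : Finset κ) (F : κ → Polynomial K)
    (v : Polynomial (MvPolynomial ℕ K)) :
    pL al b (∑ i ∈ s, F i) v = ∑ i ∈ s, pL al b (F i) v := by
  unfold pL
  rw [map_sum, LinearMap.sum_apply]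

theorem j9_pL_X_pow_mul (l : ℕ) (h : Polynomial K) (v : Polynomial (MvPolynomial ℕ K)) :
    pL al b (Polynomial.X ^ l * h) v = ((Lam al b) ^ l) (pL al b h v) := by
  unfold pL
  rw [map_mul, map_pow, Polynomial.aeval_X]
  rfl

theorem j9_pL_one (v : Polynomial (MvPolynomial ℕ K)) : pL al b 1 v = v := by
  unfold pL
  rw [map_one]
  rfl

/-- `X_step` for polynomials in `Λ` -/
theorem j9_X_step_poly (n : ℕ) (θ : n.Partition) (c : (n + 1).Partition → K)
    (v : (n + 1).Partition → Polynomial K)
    (hv : ∀ l : ℕ, Polynomial.X * ((Lam al b) ^ l) (Polynomial.C (J n θ)) =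
        ∑ φ : (n + 1).Partition, (c φ ^ l) •
          pL al b (v φ) (Polynomial.C (J (n + 1) φ))) (h : Polynomial K) :
    Polynomial.X * pL al b h (Polynomial.C (J n θ)) =
      ∑ φ : (n + 1).Partition, (h.eval (c φ)) • pL al b (v φ) (Polynomial.C (J (n + 1) φ)) := by
  induction h using Polynomial.induction_on' with
  | add p q hp hq =>
    rw [j9_pL_add, mul_add, hp, hq, ← Finset.sum_add_distrib]
    refine Finset.sum_congr rfl fun φ _ => ?_
    rw [Polynomial.eval_add, add_smul]
  | monomial l a =>
    rw [j9_pL_monomial, mul_smul_comm, hv, Finset.smul_sum]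
    refine Finset.sum_congr rfl fun φ _ => ?_
    rw [Polynomial.eval_monomial, smul_smul]

/-- base change on `K[p][w]` -/
theorem j9_bc_smul (k : K) (v : Polynomial (MvPolynomial ℕ K)) :
    Polynomial.map (map (algebraMap K S)) (k • v) =
      (algebraMap K S k) • Polynomial.map (map (algebraMap K S)) v := by
  ext j m
  simp [Polynomial.coeff_map, coeff_map, Algebra.smul_def]

theorem j9_bc_Lam_pow (l : ℕ) (v : Polynomial (MvPolynomial ℕ K)) :
    Polynomial.map (map (algebraMap K S)) (((Lam al b) ^ l) v) =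
      ((Lam (algebraMap K S al) (algebraMap K S b)) ^ l)
        (Polynomial.map (map (algebraMap K S)) v) := by
  induction l with
  | zero => rfl
  | succ l ih =>
    rw [pow_succ', pow_succ']
    show Polynomial.map (map (algebraMap K S)) (Lam al b (((Lam al b) ^ l) v)) =
      Lam (algebraMap K S al) (algebraMap K S b)
        (((Lam (algebraMap K S al) (algebraMap K S b)) ^ l)
          (Polynomial.map (map (algebraMap K S)) v))
    rw [map_Lam, ih]

theorem j9_Zop_step (L : ℕ) (g : ℕ → S) (n : ℕ) (θ : n.Partition) (c : (n + 1).Partition → K)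
    (v : (n + 1).Partition → Polynomial K)
    (hv : ∀ l : ℕ, Polynomial.X * ((Lam al b) ^ l) (Polynomial.C (J n θ)) =
        ∑ φ : (n + 1).Partition, (c φ ^ l) •
          pL al b (v φ) (Polynomial.C (J (n + 1) φ))) (h : Polynomial K) :
    Zop (algebraMap K S al) (algebraMap K S b) L g
        (Polynomial.map (map (algebraMap K S)) (pL al b h (Polynomial.C (J n θ)))) =
      ∑ φ : (n + 1).Partition, (Gval L g (c φ) : S) •
        Polynomial.map (map (algebraMap K S))
          ((h.eval (c φ)) • pL al b (v φ) (Polynomial.C (J (n + 1) φ))) := by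
  have hXl : ∀ w : Polynomial (MvPolynomial ℕ S), Xl S w = Polynomial.X * w := fun w => rfl
  have hbX : ∀ u : Polynomial (MvPolynomial ℕ K),
      Polynomial.X * Polynomial.map (map (algebraMap K S)) u =
        Polynomial.map (map (algebraMap K S)) (Polynomial.X * u) := by
    intro u
    rw [Polynomial.map_mul, Polynomial.map_X]
  have key : ∀ l : ℕ, Polynomial.X * ((Lam (algebraMap K S al) (algebraMap K S b)) ^ l)
        (Polynomial.map (map (algebraMap K S)) (pL al b h (Polynomial.C (J n θ)))) =
      ∑ φ : (n + 1).Partition, (algebraMap K S (c φ ^ l)) •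
        Polynomial.map (map (algebraMap K S))
          ((h.eval (c φ)) • pL al b (v φ) (Polynomial.C (J (n + 1) φ))) := by
    intro l
    rw [← j9_bc_Lam_pow, hbX, ← j9_pL_X_pow_mul, j9_X_step_poly n θ c v hv, Polynomial.map_sum]
    refine Finset.sum_congr rfl fun φ _ => ?_
    rw [Polynomial.eval_mul, Polynomial.eval_pow, Polynomial.eval_X, mul_smul, j9_bc_smul]
  have h0 := key 0
  unfold Zop Gop
  rw [LinearMap.comp_apply, hXl, LinearMap.add_apply, LinearMap.id_apply, mul_add]
  rw [pow_zero] at h0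
  have h0' : Polynomial.X * (Polynomial.map (map (algebraMap K S))
      (pL al b h (Polynomial.C (J n θ)))) = ∑ φ : (n + 1).Partition,
        Polynomial.map (map (algebraMap K S))
          ((h.eval (c φ)) • pL al b (v φ) (Polynomial.C (J (n + 1) φ))) := by
    have : ((1 : Module.End S (Polynomial (MvPolynomial ℕ S)))
        (Polynomial.map (map (algebraMap K S)) (pL al b h (Polynomial.C (J n θ))))) =
        Polynomial.map (map (algebraMap K S)) (pL al b h (Polynomial.C (J n θ))) := rfl
    rw [this] at h0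
    rw [h0]
    refine Finset.sum_congr rfl fun φ _ => ?_
    rw [pow_zero, map_one, one_smul]
  rw [h0', LinearMap.sum_apply, Finset.mul_sum]
  have h1 : ∀ l ∈ Finset.range L,
      Polynomial.X * ((g l • (Lam (algebraMap K S al) (algebraMap K S b)) ^ (l + 1))
        (Polynomial.map (map (algebraMap K S)) (pL al b h (Polynomial.C (J n θ))))) =
      ∑ φ : (n + 1).Partition, (algebraMap K S (c φ ^ (l + 1)) * g l) •
        Polynomial.map (map (algebraMap K S))
          ((h.eval (c φ)) • pL al b (v φ) (Polynomial.C (J (n + 1) φ))) := by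
    intro l _
    rw [LinearMap.smul_apply, mul_smul_comm, key, Finset.smul_sum]
    refine Finset.sum_congr rfl fun φ _ => ?_
    rw [smul_smul, mul_comm (g l)]
  rw [Finset.sum_congr rfl h1, Finset.sum_comm, ← Finset.sum_add_distrib]
  refine Finset.sum_congr rfl fun φ _ => ?_
  unfold Gval
  rw [add_smul, one_smul, Finset.sum_smul]

theorem j9_Zop_pow (hJ : IsJack al J) (han : Aniso al) (hb : b = al - 1) (hal : al ≠ 0)
    (hir : Irr al) (L : ℕ) (g : ℕ → S) (n : ℕ) (θ : n.Partition) (m : ℕ) :
    ∃ y : (n + m).Partition → Polynomial K,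
      (Polynomial.X ^ m * Polynomial.C (J n θ) =
        ∑ φ : (n + m).Partition, pL al b (y φ) (Polynomial.C (J (n + m) φ))) ∧
      (fG al L g n θ • ((Zop (algebraMap K S al) (algebraMap K S b) L g) ^ m)
          (Polynomial.map (map (algebraMap K S)) (Polynomial.C (J n θ))) =
        ∑ φ : (n + m).Partition, fG al L g (n + m) φ •
          Polynomial.map (map (algebraMap K S))
            (pL al b (y φ) (Polynomial.C (J (n + m) φ)))) := by
  classical
  induction m with
  | zero =>
    refine ⟨fun φ => if φ = θ then 1 else 0, ?_, ?_⟩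
    · rw [pow_zero, one_mul]
      show _ = ∑ φ : n.Partition, pL al b (if φ = θ then 1 else 0) (Polynomial.C (J n φ))
      rw [Finset.sum_eq_single θ]
      · rw [if_pos rfl, j9_pL_one]
      · intro φ _ hφ
        rw [if_neg hφ]
        unfold pL
        rw [map_zero]
        rfl
      · intro h
        exact absurd (Finset.mem_univ _) h
    · show _ = ∑ φ : n.Partition, fG al L g n φ • Polynomial.map (map (algebraMap K S))
        (pL al b (if φ = θ then 1 else 0) (Polynomial.C (J n φ)))
      rw [Finset.sum_eq_single θ]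
      · rw [if_pos rfl, j9_pL_one]
        rfl
      · intro φ _ hφ
        rw [if_neg hφ]
        unfold pL
        rw [map_zero]
        show fG al L g n φ • Polynomial.map (map (algebraMap K S)) 0 = 0
        rw [Polynomial.map_zero, smul_zero]
      · intro h
        exact absurd (Finset.mem_univ _) h
  | succ m ih =>
    obtain ⟨y, hy1, hy2⟩ := ih
    choose v hv hv0 using fun φ : (n + m).Partition => X_step hJ han hb hal hir (n + m) φ
    refine ⟨fun ψ => ∑ φ : (n + m).Partition, Polynomial.C ((y φ).eval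
      (eev al b J (n + m + 1) ψ - eev al b J (n + m) φ)) * v φ ψ, ?_, ?_⟩
    · rw [pow_succ', mul_assoc, hy1, Finset.mul_sum]
      have h1 : ∀ φ ∈ (Finset.univ : Finset (n + m).Partition),
          Polynomial.X * pL al b (y φ) (Polynomial.C (J (n + m) φ)) =
          ∑ ψ : (n + m + 1).Partition, ((y φ).eval
            (eev al b J (n + m + 1) ψ - eev al b J (n + m) φ)) •
            pL al b (v φ ψ) (Polynomial.C (J (n + m + 1) ψ)) := fun φ _ =>
        j9_X_step_poly (n + m) φ (fun ψ => eev al b J (n + m + 1) ψ - eev al b J (n + m) φ)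
          (v φ) (hv φ) (y φ)
      rw [Finset.sum_congr rfl h1, Finset.sum_comm]
      show _ = ∑ ψ : (n + m + 1).Partition, pL al b (∑ φ : (n + m).Partition,
        Polynomial.C ((y φ).eval (eev al b J (n + m + 1) ψ - eev al b J (n + m) φ)) * v φ ψ)
          (Polynomial.C (J (n + m + 1) ψ))
      refine Finset.sum_congr rfl fun ψ _ => ?_
      rw [j9_pL_sum]
      refine Finset.sum_congr rfl fun φ _ => ?_
      rw [j9_pL_C_mul]
    · rw [pow_succ']
      show fG al L g n θ • (Zop (algebraMap K S al) (algebraMap K S b) L g)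
        (((Zop (algebraMap K S al) (algebraMap K S b) L g) ^ m)
          (Polynomial.map (map (algebraMap K S)) (Polynomial.C (J n θ)))) =
        ∑ ψ : (n + m + 1).Partition, fG al L g (n + m + 1) ψ •
          Polynomial.map (map (algebraMap K S)) (pL al b (∑ φ : (n + m).Partition,
            Polynomial.C ((y φ).eval (eev al b J (n + m + 1) ψ - eev al b J (n + m) φ)) *
              v φ ψ) (Polynomial.C (J (n + m + 1) ψ)))
      rw [← map_smul, hy2, map_sum]
      have h1 : ∀ φ ∈ (Finset.univ : Finset (n + m).Partition),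
          Zop (algebraMap K S al) (algebraMap K S b) L g (fG al L g (n + m) φ •
            Polynomial.map (map (algebraMap K S))
              (pL al b (y φ) (Polynomial.C (J (n + m) φ)))) =
          ∑ ψ : (n + m + 1).Partition, fG al L g (n + m + 1) ψ •
            Polynomial.map (map (algebraMap K S)) (((y φ).eval
              (eev al b J (n + m + 1) ψ - eev al b J (n + m) φ)) •
              pL al b (v φ ψ) (Polynomial.C (J (n + m + 1) ψ))) := by
        intro φ _
        rw [map_smul, j9_Zop_step L g (n + m) φ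
          (fun ψ => eev al b J (n + m + 1) ψ - eev al b J (n + m) φ) (v φ) (hv φ) (y φ),
          Finset.smul_sum]
        refine Finset.sum_congr rfl fun ψ _ => ?_
        rw [smul_smul]
        by_cases h0 : pL al b (v φ ψ) (Polynomial.C (J (n + m + 1) ψ)) = 0
        · rw [h0, smul_zero, Polynomial.map_zero, smul_zero, smul_zero]
        · have h2 := hv0 φ ψ h0
          congr 1
          unfold fG
          rw [h2, Multiset.map_cons, Multiset.prod_cons, mul_comm]
      rw [Finset.sum_congr rfl h1, Finset.sum_comm]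
      refine Finset.sum_congr rfl fun ψ _ => ?_
      rw [j9_pL_sum, Polynomial.map_sum, Finset.smul_sum]
      refine Finset.sum_congr rfl fun φ _ => ?_
      rw [j9_pL_C_mul]

theorem j9_coeff0_pL (hJ : IsJack al J) (han : Aniso al) (hb : b = al - 1) (n : ℕ)
    (θ : n.Partition) (h : Polynomial K) :
    ∃ s : K, (pL al b h (Polynomial.C (J n θ))).coeff 0 = C s * J n θ := by
  induction h using Polynomial.induction_on' with
  | add p q hp hq =>
    obtain ⟨s, hs⟩ := hp
    obtain ⟨s', hs'⟩ := hq
    exact ⟨s + s', by rw [j9_pL_add, Polynomial.coeff_add, hs, hs', map_add, add_mul]⟩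
  | monomial l a =>
    refine ⟨a * Mev al b J l n θ, ?_⟩
    have h1 := Mom_J hJ han hb l n θ
    have h2 : Mom al b l (J n θ) = (((Lam al b) ^ l) (Polynomial.C (J n θ))).coeff 0 := rfl
    rw [j9_pL_monomial, Polynomial.coeff_smul, ← h2, h1, map_mul, mul_assoc, smul_eq_C_mul]

theorem B_J (hJ : IsJack al J) (han : Aniso al) (hb : b = al - 1) (hal : al ≠ 0)
    (hir : Irr al) (L : ℕ) (g : ℕ → S) (j n : ℕ) (θ : n.Partition) :
    C (fG al L g n θ) *
        Bop (algebraMap K S al) (algebraMap K S b) L g j (map (algebraMap K S) (J n θ)) =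
      ∑ φ : (n + j + 1).Partition,
        C (fG al L g (n + j + 1) φ * algebraMap K S (kap al J j n θ φ)) *
          map (algebraMap K S) (J (n + j + 1) φ) := by
  obtain ⟨y, hy1, hy2⟩ := j9_Zop_pow hJ han hb hal hir L g n θ (j + 1)
  change Polynomial.X ^ (j + 1) * Polynomial.C (J n θ) =
    ∑ φ : (n + j + 1).Partition, pL al b (y φ) (Polynomial.C (J (n + j + 1) φ)) at hy1
  change _ = ∑ φ : (n + j + 1).Partition, fG al L g (n + j + 1) φ •
          Polynomial.map (map (algebraMap K S))
            (pL al b (y φ) (Polynomial.C (J (n + j + 1) φ))) at hy2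
  have hs : ∀ φ : (n + j + 1).Partition, ∃ s : K,
      Theta K (pL al b (y φ) (Polynomial.C (J (n + j + 1) φ))) = C s * J (n + j + 1) φ := by
    intro φ
    rw [← coeff0_Lam al b]
    obtain ⟨s, hs⟩ := j9_coeff0_pL hJ han hb (n + j + 1) φ (Polynomial.X ^ 1 * y φ)
    refine ⟨s, ?_⟩
    rw [j9_pL_X_pow_mul, pow_one] at hs
    exact hs
  choose s hs using hs
  have h1 : X j * J n θ = ∑ φ : (n + j + 1).Partition, C (s φ) * J (n + j + 1) φ := by
    have h2 := congrArg (Theta K) hy1
    rw [map_sum] at h2
    have h3 : Polynomial.X ^ (j + 1) * Polynomial.C (J n θ) =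
        Polynomial.monomial (j + 1) (J n θ) := by
      rw [mul_comm, Polynomial.C_mul_X_pow_eq_monomial]
    rw [h3, Theta_monomial_succ] at h2
    rw [h2]
    exact Finset.sum_congr rfl fun φ _ => hs φ
  have hk : ∀ φ : (n + j + 1).Partition, kap al J j n θ φ = s φ := by
    intro φ
    unfold kap
    rw [h1, pair_sum_left, Finset.sum_eq_single φ]
    · rw [pair_C_mul_left]
      have h4 := nrm_ne_zero hJ han (n + j + 1) φ
      have h5 : pair al (J (n + j + 1) φ) (J (n + j + 1) φ) = nrm al J (n + j + 1) φ := rfl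
      rw [h5]
      field_simp
    · intro ψ _ hψ
      rw [pair_C_mul_left, hJ.orth _ _ _ hψ, mul_zero]
    · intro h
      exact absurd (Finset.mem_univ _) h
  have h6 : C (fG al L g n θ) *
      Bop (algebraMap K S al) (algebraMap K S b) L g j (map (algebraMap K S) (J n θ)) =
      Theta S (fG al L g n θ • ((Zop (algebraMap K S al) (algebraMap K S b) L g) ^ (j + 1))
        (Polynomial.map (map (algebraMap K S)) (Polynomial.C (J n θ)))) := by
    rw [map_smul, smul_eq_C_mul, Polynomial.map_C]
    rfl
  rw [h6, hy2, map_sum]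
  refine Finset.sum_congr rfl fun φ _ => ?_
  rw [map_smul, ← map_Theta, hs, map_mul, map_C, hk, smul_eq_C_mul, map_mul, mul_assoc]

end H25BC
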