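import Pool.Agent.H25.BC.L1

/-!
# Module L2: the symmetric induction

`sw = commAlgEquiv S ℕ ℕ : S[q][p] ≃ S[p][q]` exchanges the alphabets (both are
`MvPolynomial ℕ (MvPolynomial ℕ S)`); it preserves `cS ℕ (cS ℕ 𝒞)` and is an involution.
Let `U_i = (lift (aop i) T) * T⁻¹` (`invOfUnit`, `T_0 = 1`). `hB`, `hlow` say
`lift sw (lift (aop j) T) = t^{j+1} lift (B_j) T`. Applying `sw` to `lift (aop j) T = U_j T`
(`sw T = T`): `sw(U_j) T = t^{j+1} B_j T`.
Strong induction on `n`: suppose all `coeff k (U_i)`, `k < n`, `i` arbitrary, have coefficients in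
`𝒞`. By `B_twist` (`t = n-1`; ring `S[q]`, subsemiring `cS ℕ 𝒞`) `B_j T = Q T` with `Q` in `𝒞` up to
`n - 1`; so `sw(U_j) = t^{j+1} Q` has its coefficient `n` in `𝒞` (it is `coeff (n-j-1) Q` or `0`),
hence so has `U_j`. (`n = 0`: `coeff 0 (sw U_j) = 0`.)
-/

set_option linter.unusedSectionVars false

open MvPolynomial

namespace H25BC

variable {S : Type*} [CommRing S] {𝒞 : Subsemiring S} {al b : S}

theorem l2_comm_monomial (m m' : ℕ →₀ ℕ) (c : S) :
    commAlgEquiv S ℕ ℕ (monomial m (monomial m' c)) = monomial m' (monomial m c) :=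
  AddMonoidAlgebra.commAlgEquiv_single_single (R := S) m m' c

theorem l2_comm_invol (f : MvPolynomial ℕ (MvPolynomial ℕ S)) :
    commAlgEquiv S ℕ ℕ (commAlgEquiv S ℕ ℕ f) = f :=
  (commAlgEquiv S ℕ ℕ).symm_apply_apply f

theorem l2_comm_coeff (f : MvPolynomial ℕ (MvPolynomial ℕ S)) (m m' : ℕ →₀ ℕ) :
    ((commAlgEquiv S ℕ ℕ f).coeff m).coeff m' = (f.coeff m').coeff m := by
  classical
  induction f using MvPolynomial.induction_on' with
  | add p q hp hq =>
    rw [map_add, coeff_add, coeff_add, coeff_add, coeff_add, hp, hq]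
  | monomial u a =>
    induction a using MvPolynomial.induction_on' with
    | add p q hp hq =>
      rw [map_add, map_add, coeff_add, coeff_add, coeff_add, coeff_add, hp, hq]
    | monomial u' c =>
      rw [l2_comm_monomial]
      simp only [coeff_monomial]
      by_cases h1 : u' = m <;> by_cases h2 : u = m' <;> simp [h1, h2]

theorem l2_comm_mem (f : MvPolynomial ℕ (MvPolynomial ℕ S)) (hf : f ∈ cS ℕ (cS ℕ 𝒞)) :
    commAlgEquiv S ℕ ℕ f ∈ cS ℕ (cS ℕ 𝒞) := by
  intro m m'
  rw [l2_comm_coeff]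
  exact hf m' m

theorem sym_induction (hal : al ∈ 𝒞) (hb : b ∈ 𝒞) (L : ℕ) (g : ℕ → S) (hg : ∀ l, g l ∈ 𝒞)
    (T : PowerSeries (MvPolynomial ℕ (MvPolynomial ℕ S))) (hT0 : PowerSeries.coeff 0 T = 1)
    (hsym : ∀ n, commAlgEquiv S ℕ ℕ (PowerSeries.coeff n T) = PowerSeries.coeff n T)
    (hB : ∀ j n, commAlgEquiv S ℕ ℕ (aop (C al) j (PowerSeries.coeff (n + j + 1) T)) =
      Bop (C al) (C b) L (fun l => C (g l)) j (PowerSeries.coeff n T))
    (hlow : ∀ j n, n < j + 1 → aop (C al) j (PowerSeries.coeff n T) = 0) :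
    ∀ j, ∃ U : PowerSeries (MvPolynomial ℕ (MvPolynomial ℕ S)),
      (∀ n, PowerSeries.coeff n U ∈ cS ℕ (cS ℕ 𝒞)) ∧ lift (aop (C al) j) T = U * T := by
  have hTi : T * PowerSeries.invOfUnit T 1 = 1 := by
    refine PowerSeries.mul_invOfUnit T 1 ?_
    rw [← PowerSeries.coeff_zero_eq_constantCoeff_apply, hT0]
    rfl
  have hcan : ∀ A B : PowerSeries (MvPolynomial ℕ (MvPolynomial ℕ S)),
      A * T = B * T → A = B := by
    intro A B h
    have h1 := congrArg (fun P => P * PowerSeries.invOfUnit T 1) h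
    simp only [mul_assoc, hTi, mul_one] at h1
    exact h1
  set U : ℕ → PowerSeries (MvPolynomial ℕ (MvPolynomial ℕ S)) := fun j =>
    lift (aop (C al) j) T * PowerSeries.invOfUnit T 1 with hU
  have hUT : ∀ j, lift (aop (C al) j) T = U j * T := by
    intro j
    rw [hU]
    simp only
    rw [mul_assoc, mul_comm _ T, hTi, mul_one]
  set V : ℕ → PowerSeries (MvPolynomial ℕ (MvPolynomial ℕ S)) := fun j =>
    lift (Bop (C al) (C b) L (fun l => C (g l)) j) T * PowerSeries.invOfUnit T 1 with hV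
  have hVT : ∀ j, lift (Bop (C al) (C b) L (fun l => C (g l)) j) T = V j * T := by
    intro j
    rw [hV]
    simp only
    rw [mul_assoc, mul_comm _ T, hTi, mul_one]
  set sw : MvPolynomial ℕ (MvPolynomial ℕ S) →+* MvPolynomial ℕ (MvPolynomial ℕ S) :=
    ((commAlgEquiv S ℕ ℕ : MvPolynomial ℕ (MvPolynomial ℕ S) ≃ₐ[S]
      MvPolynomial ℕ (MvPolynomial ℕ S)) : MvPolynomial ℕ (MvPolynomial ℕ S) →+*
        MvPolynomial ℕ (MvPolynomial ℕ S)) with hsw
  have hsa : ∀ f, sw f = commAlgEquiv S ℕ ℕ f := fun f => rfl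
  have hswT : PowerSeries.map sw T = T := by
    ext1 n
    rw [PowerSeries.coeff_map, hsa, hsym]
  have key : ∀ j, PowerSeries.map sw (U j) = PowerSeries.X ^ (j + 1) * V j := by
    intro j
    refine hcan _ _ ?_
    rw [mul_assoc, ← hVT]
    have h1 : PowerSeries.map sw (U j) * T = PowerSeries.map sw (U j * T) := by
      have h0 := map_mul (PowerSeries.map sw) (U j) T
      rw [hswT] at h0
      exact h0.symm
    rw [h1, ← hUT]
    ext1 n
    rw [PowerSeries.coeff_map, PowerSeries.coeff_X_pow_mul', hsa]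
    unfold lift
    rw [PowerSeries.coeff_mk]
    split_ifs with h
    · rw [PowerSeries.coeff_mk]
      obtain ⟨k, rfl⟩ := Nat.exists_eq_add_of_le h
      have h2 : j + 1 + k = k + j + 1 := by omega
      have h3 : j + 1 + k - (j + 1) = k := by omega
      rw [h3, h2, hB]
    · rw [hlow j n (by omega), map_zero]
  have main : ∀ n, ∀ j, PowerSeries.coeff n (U j) ∈ cS ℕ (cS ℕ 𝒞) := by
    intro n
    induction n using Nat.strong_induction_on with
    | _ n ih =>
      intro j
      have h1 : commAlgEquiv S ℕ ℕ (PowerSeries.coeff n (U j)) ∈ cS ℕ (cS ℕ 𝒞) := by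
        rw [← hsa, ← PowerSeries.coeff_map, key, PowerSeries.coeff_X_pow_mul']
        split_ifs with h
        · obtain ⟨Q, hQ, hQT⟩ := B_twist (𝒞 := cS ℕ 𝒞) (al := C al) (b := C b)
            (C_mem_cS ℕ al hal) (C_mem_cS ℕ b hb) L (fun l => C (g l))
            (fun l => C_mem_cS ℕ _ (hg l)) T hT0 U hUT (n - 1)
            (fun i k hk => ih k (by omega) i) j
          have h2 : V j = Q := hcan _ _ (by rw [← hVT, hQT])
          rw [h2]
          exact hQ _ (by omega)
        · exact zero_mem _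
      have h2 := l2_comm_mem _ h1
      rwa [l2_comm_invol] at h2
  intro j
  exact ⟨U j, fun n => main n j, hUT j⟩

end H25BC
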