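import Pool.Agent.H25.BC.J9
import Pool.Agent.H25.BC.L2

/-!
# Module L3: the series `τ_G(p,q) = ∑_θ f_G(θ) J_θ(p) J_θ(q) / j_θ` is good

`TG n = ∑_{θ ⊢ n} C(C(j_θ^{-1} f_G(θ))) * map (C ∘ algebraMap) (J_θ) * C (map algebraMap J_θ)` in
`S[q][p]` (outer variable `p`).
`hsym`: `commAlgEquiv` sends `C f ↦ map C f` and `map C f ↦ C f` (it is its own inverse).
`hB`: `aop j` on the outer variables: by `aop_J`
`aop_j (∑_φ j_φ^{-1} f_G(φ) J_φ(p) J_φ(q)) = ∑_φ ∑_θ j_φ^{-1} f_G(φ) κ_{θφ} j_φ j_θ^{-1} J_θ(p) J_φ(q)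
= ∑_θ j_θ^{-1} J_θ(p) ∑_φ f_G(φ) κ_{θφ} J_φ(q)`; after exchanging the alphabets
`∑_θ j_θ^{-1} (∑_φ f_G(φ) κ_{θφ} J_φ(p)) J_θ(q) = ∑_θ j_θ^{-1} (f_G(θ) B_j J_θ)(p) J_θ(q)` by `B_J`
(base change `map_Bop` along `C : S → S[q]`; `B_j` is `S[q]`-linear).
`hlow`: weights (`aop_eq_zero`). Then `sym_induction`.
-/

set_option linter.unusedSectionVars false

open MvPolynomial

namespace H25BC

variable {K : Type*} [Field K] [CharZero K] {al b : K}
  {J : ∀ n : ℕ, n.Partition → MvPolynomial ℕ K}
  {S : Type*} [CommRing S] [Algebra K S]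

/-- `τ_G(p,q)` (outer variables `p`) -/
noncomputable def TG (al : K) (J : ∀ n : ℕ, n.Partition → MvPolynomial ℕ K)
    (S : Type*) [CommRing S] [Algebra K S] (L : ℕ) (g : ℕ → S) :
    PowerSeries (MvPolynomial ℕ (MvPolynomial ℕ S)) :=
  PowerSeries.mk fun n => ∑ θ : n.Partition,
    C (C (algebraMap K S (nrm al J n θ)⁻¹ * fG al L g n θ)) *
      map ((C : S →+* MvPolynomial ℕ S).comp (algebraMap K S)) (J n θ) *
        C (map (algebraMap K S) (J n θ))

theorem l3_comm_map (f : MvPolynomial ℕ S) :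
    commAlgEquiv S ℕ ℕ (map (C : S →+* MvPolynomial ℕ S) f) = C f := by
  have h : (commAlgEquiv S ℕ ℕ).symm (C f) = map (C : S →+* MvPolynomial ℕ S) f := by
    rw [AlgEquiv.symm_apply_eq]
    induction f using MvPolynomial.induction_on with
    | C a =>
      rw [map_C, commAlgEquiv_C, map_C]
    | add p q hp hq =>
      rw [map_add, map_add, map_add, hp, hq]
    | mul_X p i hp =>
      rw [map_mul, map_mul, map_mul, hp, map_X, commAlgEquiv_X]
  rw [← h, AlgEquiv.apply_symm_apply]

theorem l3_map_map (f : MvPolynomial ℕ K) :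
    map ((C : S →+* MvPolynomial ℕ S).comp (algebraMap K S)) f =
      map (C : S →+* MvPolynomial ℕ S) (map (algebraMap K S) f) := by
  rw [map_map]

theorem l3_comm_CC (c : S) : commAlgEquiv S ℕ ℕ (C (C c)) = C (C c) := by
  rw [commAlgEquiv_C, map_C]

theorem l3_pair_one (al : K) : pair al (1 : MvPolynomial ℕ K) 1 = 1 := by
  classical
  have h := pair_eq_sum al (1 : MvPolynomial ℕ K) 1 {0} (by
    intro m hm
    rw [mem_support_iff, coeff_one] at hm
    rw [Finset.mem_singleton]
    by_contra h0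
    exact hm (if_neg fun h => h0 h.symm))
  rw [h, Finset.sum_singleton, coeff_one, if_pos rfl]
  simp [zz, len]

theorem l3_cont_zero (al : K) (θ : (0 : ℕ).Partition) : cont al θ = 0 := by
  unfold cont
  rfl

theorem l3_aop_C_mul (al : S) (j : ℕ) (c : S) (f : MvPolynomial ℕ S) :
    aop al j (C c * f) = C c * aop al j f := by
  rw [← smul_eq_C_mul, ← smul_eq_C_mul, Derivation.map_smul]

theorem l3_Bop_C_mul (al b : S) (L : ℕ) (g : ℕ → S) (j : ℕ) (c : S) (f : MvPolynomial ℕ S) :
    Bop al b L g j (C c * f) = C c * Bop al b L g j f := by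
  rw [← smul_eq_C_mul, ← smul_eq_C_mul, map_smul]

theorem TG_good (hJ : IsJack al J) (han : Aniso al) (hb : b = al - 1) (hal : al ≠ 0)
    (hir : Irr al) (𝒞 : Subsemiring S) (hal' : algebraMap K S al ∈ 𝒞)
    (hb' : algebraMap K S b ∈ 𝒞) (L : ℕ) (g : ℕ → S) (hg : ∀ l, g l ∈ 𝒞) (j : ℕ) :
    ∃ U : PowerSeries (MvPolynomial ℕ (MvPolynomial ℕ S)),
      (∀ n, PowerSeries.coeff n U ∈ cS ℕ (cS ℕ 𝒞)) ∧
        lift (aop (C (algebraMap K S al)) j) (TG al J S L g) = U * TG al J S L g := by
  have hco : ∀ n, PowerSeries.coeff n (TG al J S L g) = ∑ θ : n.Partition,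
      C (C (algebraMap K S (nrm al J n θ)⁻¹ * fG al L g n θ)) *
        map (C : S →+* MvPolynomial ℕ S) (map (algebraMap K S) (J n θ)) *
          C (map (algebraMap K S) (J n θ)) := by
    intro n
    unfold TG
    rw [PowerSeries.coeff_mk]
    refine Finset.sum_congr rfl fun θ _ => ?_
    rw [l3_map_map]
  refine sym_induction hal' hb' L g hg (TG al J S L g) ?_ ?_ ?_ ?_ j
  · rw [hco, Fintype.sum_unique]
    have h1 : J 0 default = 1 := J_zero hJ _
    have h2 : nrm al J 0 default = 1 := by
      unfold nrm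
      rw [h1, l3_pair_one]
    have h3 : fG al L g 0 default = 1 := by
      unfold fG
      rw [l3_cont_zero]
      simp
    rw [h1, h2, h3]
    simp
  · intro n
    rw [hco, map_sum]
    refine Finset.sum_congr rfl fun θ _ => ?_
    rw [map_mul, map_mul, l3_comm_CC, l3_comm_map, commAlgEquiv_C]
    ring
  · intro j n
    rw [hco, hco, map_sum, map_sum, map_sum]
    have hL : ∀ φ ∈ (Finset.univ : Finset (n + j + 1).Partition),
        commAlgEquiv S ℕ ℕ (aop (C (algebraMap K S al)) j
          (C (C (algebraMap K S (nrm al J (n + j + 1) φ)⁻¹ * fG al L g (n + j + 1) φ)) *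
            map (C : S →+* MvPolynomial ℕ S) (map (algebraMap K S) (J (n + j + 1) φ)) *
              C (map (algebraMap K S) (J (n + j + 1) φ)))) =
        ∑ θ : n.Partition, C (C (algebraMap K S (nrm al J n θ)⁻¹ *
            (fG al L g (n + j + 1) φ * algebraMap K S (kap al J j n θ φ)))) *
          C (map (algebraMap K S) (J n θ)) *
            map (C : S →+* MvPolynomial ℕ S) (map (algebraMap K S) (J (n + j + 1) φ)) := by
      intro φ _
      have h1 : (C (C (algebraMap K S (nrm al J (n + j + 1) φ)⁻¹ * fG al L g (n + j + 1) φ)) *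
            map (C : S →+* MvPolynomial ℕ S) (map (algebraMap K S) (J (n + j + 1) φ)) *
              C (map (algebraMap K S) (J (n + j + 1) φ)) :
              MvPolynomial ℕ (MvPolynomial ℕ S)) =
          C (C (algebraMap K S (nrm al J (n + j + 1) φ)⁻¹ * fG al L g (n + j + 1) φ) *
            map (algebraMap K S) (J (n + j + 1) φ)) *
              map (C : S →+* MvPolynomial ℕ S) (map (algebraMap K S) (J (n + j + 1) φ)) := by
        simp only [map_mul]
        ring
      rw [h1, l3_aop_C_mul, ← map_aop, ← map_aop, aop_J hJ han]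
      rw [map_mul, commAlgEquiv_C, l3_comm_map, map_mul, map_C]
      rw [map_sum, map_sum, Finset.mul_sum]
      refine Finset.sum_congr rfl fun θ _ => ?_
      have h2 := nrm_ne_zero hJ han (n + j + 1) φ
      have h3 : algebraMap K S (nrm al J (n + j + 1) φ)⁻¹ *
          algebraMap K S (kap al J j n θ φ * nrm al J (n + j + 1) φ * (nrm al J n θ)⁻¹) =
          algebraMap K S (nrm al J n θ)⁻¹ * algebraMap K S (kap al J j n θ φ) := by
        rw [← map_mul, ← map_mul]
        congr 1
        field_simp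
      have h4 : algebraMap K S (nrm al J n θ)⁻¹ *
            (fG al L g (n + j + 1) φ * algebraMap K S (kap al J j n θ φ)) =
          (algebraMap K S (nrm al J (n + j + 1) φ)⁻¹ * fG al L g (n + j + 1) φ) *
          algebraMap K S (kap al J j n θ φ * nrm al J (n + j + 1) φ * (nrm al J n θ)⁻¹) := by
        have h5 : algebraMap K S (nrm al J n θ)⁻¹ *
            (fG al L g (n + j + 1) φ * algebraMap K S (kap al J j n θ φ)) =
            (algebraMap K S (nrm al J n θ)⁻¹ * algebraMap K S (kap al J j n θ φ)) *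
              fG al L g (n + j + 1) φ := by ring
        rw [h5, ← h3]
        ring
      rw [h4]
      simp only [map_mul, map_C]
      ring
    have hR : ∀ θ ∈ (Finset.univ : Finset n.Partition),
        Bop (C (algebraMap K S al)) (C (algebraMap K S b)) L (fun l => C (g l)) j
          (C (C (algebraMap K S (nrm al J n θ)⁻¹ * fG al L g n θ)) *
            map (C : S →+* MvPolynomial ℕ S) (map (algebraMap K S) (J n θ)) *
              C (map (algebraMap K S) (J n θ))) =
        ∑ φ : (n + j + 1).Partition, C (C (algebraMap K S (nrm al J n θ)⁻¹ *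
            (fG al L g (n + j + 1) φ * algebraMap K S (kap al J j n θ φ)))) *
          C (map (algebraMap K S) (J n θ)) *
            map (C : S →+* MvPolynomial ℕ S) (map (algebraMap K S) (J (n + j + 1) φ)) := by
      intro θ _
      have h1 : (C (C (algebraMap K S (nrm al J n θ)⁻¹ * fG al L g n θ)) *
            map (C : S →+* MvPolynomial ℕ S) (map (algebraMap K S) (J n θ)) *
              C (map (algebraMap K S) (J n θ)) : MvPolynomial ℕ (MvPolynomial ℕ S)) =
          C (C (algebraMap K S (nrm al J n θ)⁻¹) * map (algebraMap K S) (J n θ)) *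
            map (C : S →+* MvPolynomial ℕ S)
              (C (fG al L g n θ) * map (algebraMap K S) (J n θ)) := by
        simp only [map_mul, map_C]
        ring
      rw [h1, l3_Bop_C_mul, ← map_Bop, l3_Bop_C_mul, B_J hJ han hb hal hir, map_sum,
        Finset.mul_sum]
      refine Finset.sum_congr rfl fun φ _ => ?_
      simp only [map_mul, map_C]
      ring
    rw [Finset.sum_congr rfl hL, Finset.sum_congr rfl hR, Finset.sum_comm]
  · intro j n hn
    rw [hco, map_sum]
    refine Finset.sum_eq_zero fun θ _ => ?_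
    have h1 : (C (C (algebraMap K S (nrm al J n θ)⁻¹ * fG al L g n θ)) *
          map (C : S →+* MvPolynomial ℕ S) (map (algebraMap K S) (J n θ)) *
            C (map (algebraMap K S) (J n θ)) : MvPolynomial ℕ (MvPolynomial ℕ S)) =
        C (C (algebraMap K S (nrm al J n θ)⁻¹ * fG al L g n θ) *
          map (algebraMap K S) (J n θ)) *
            map (C : S →+* MvPolynomial ℕ S) (map (algebraMap K S) (J n θ)) := by
      simp only [map_mul]
      ring
    rw [h1, l3_aop_C_mul, ← map_aop, ← map_aop, aop_eq_zero al j (hJ.hom n θ) hn, map_zero,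
      map_zero, mul_zero]

theorem l3_eps_mem (𝒞 : Subsemiring S) (f : MvPolynomial ℕ S) (hf : f ∈ cS ℕ 𝒞) :
    eps S f ∈ 𝒞 := by
  unfold eps
  rw [aeval_def, eval₂_eq]
  refine sum_mem fun m _ => ?_
  refine mul_mem (hf m) (prod_mem fun i _ => pow_mem ?_ _)
  split_ifs
  · exact one_mem _
  · exact zero_mem _

theorem l3_eps_map (f : MvPolynomial ℕ K) :
    eps S (map (algebraMap K S) f) = algebraMap K S (eps K f) := by
  induction f using MvPolynomial.induction_on with
  | C a =>
    rw [map_C]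
    unfold eps
    rw [aeval_C, aeval_C]
    rfl
  | add p q hp hq => rw [map_add, map_add, map_add, map_add, hp, hq]
  | mul_X p i hp =>
    rw [map_mul, map_mul, map_mul, map_mul, hp, map_X]
    congr 1
    unfold eps
    rw [aeval_X, aeval_X]
    split_ifs <;> simp

/-- specialisation `q = (1, 0, 0, ...)`: the series `∑ f_G(θ) J_θ(x) / j_θ` is good
(apply the ring homomorphism `map (eps S) : S[q][p] → S[p]`; `eps (map J_θ) = 1`) -/
theorem OmG_good (hJ : IsJack al J) (han : Aniso al) (hb : b = al - 1) (hal : al ≠ 0)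
    (hir : Irr al) (𝒞 : Subsemiring S) (hal' : algebraMap K S al ∈ 𝒞)
    (hb' : algebraMap K S b ∈ 𝒞) (L : ℕ) (g : ℕ → S) (hg : ∀ l, g l ∈ 𝒞) (j : ℕ) :
    ∃ W : PowerSeries (MvPolynomial ℕ S),
      (∀ n, PowerSeries.coeff n W ∈ cS ℕ 𝒞) ∧
        lift (aop (algebraMap K S al) j) (Om al J (fG al L g)) = W * Om al J (fG al L g) := by
  obtain ⟨U, hU, hUT⟩ := TG_good hJ han hb hal hir 𝒞 hal' hb' L g hg j
  set φ : MvPolynomial ℕ S →+* S := ((eps S : MvPolynomial ℕ S →ₐ[S] S) :
    MvPolynomial ℕ S →+* S) with hφ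
  have hφC : ∀ c : S, φ (C c) = c := fun c => by
    rw [hφ]
    show eps S (C c) = c
    unfold eps
    rw [aeval_C]
    rfl
  have hTO : PowerSeries.map (map φ) (TG al J S L g) = Om al J (fG al L g) := by
    ext1 n
    rw [PowerSeries.coeff_map]
    unfold TG Om
    rw [PowerSeries.coeff_mk, PowerSeries.coeff_mk, map_sum]
    refine Finset.sum_congr rfl fun θ _ => ?_
    rw [map_mul, map_mul, map_C, map_C, hφC, l3_map_map, map_map]
    have h1 : φ (map (algebraMap K S) (J n θ)) = 1 := by
      show eps S (map (algebraMap K S) (J n θ)) = 1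
      rw [l3_eps_map, eps_J hJ, map_one]
    have h2 : φ.comp (C : S →+* MvPolynomial ℕ S) = RingHom.id S := by
      ext c
      exact hφC c
    rw [h1, h2, map_id, map_one, mul_one]
  refine ⟨PowerSeries.map (map φ) U, ?_, ?_⟩
  · intro n m
    rw [PowerSeries.coeff_map, coeff_map]
    exact l3_eps_mem 𝒞 _ (hU n m)
  · rw [← hTO, ← map_mul, ← hUT]
    ext1 n
    rw [PowerSeries.coeff_map]
    unfold lift
    rw [PowerSeries.coeff_mk, PowerSeries.coeff_mk, PowerSeries.coeff_map, map_aop, hφC]

end H25BC
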