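import Pool.Agent.H25.BC.N2b
import Pool.Agent.H25.BC.L3
import Pool.Agent.H25.BC.E4

/-!
# Module N1: three alphabets, nested form

`jx : K[(0,i),(1,i),(2,i)] → S1[x]`, `S1 = S[q][p]` (`p` outer), `S = K[g]`:
`(0,i) ↦ X i`, `(1,i) ↦ C (X i)`, `(2,i) ↦ C (C (X i))`.
`H3 θ = J_θ(p) J_θ(q)`.
* `jx_tau`: coefficientwise `jx (rename (0,·) J_θ) = map (algebraMap K S1) J_θ`,
  `jx (rename (1,·) J_θ) = C (map (C ∘ algebraMap) J_θ)`, `jx (rename (2,·) J_θ) = C (C (map .. J_θ))`.
* `jx_aop`: check on variables (both sides are derivations along `jx`).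
* `jx_root`: `aopF 1 j` acts only on the factor `J_θ(p)`; `jx ∘ aopF al 1 j` on
  `rename (0,·) f * h`, `h` in the alphabets 1, 2.
* `jx_mem`, `jx_mem_iff`: the coefficients of `jx f` are the coefficients of `f` (constants in `g`):
  `(((jx f).coeff m0).coeff m1).coeff m2 = C (f.coeff m)` with `m` the exponent with sections
  `m0, m1, m2`.
-/

open MvPolynomial

namespace H25BC

variable {K : Type*} [Field K] [CharZero K] {al b : K}
  {J : ∀ n : ℕ, n.Partition → MvPolynomial ℕ K}

/-- `K[g][q][p]` -/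
abbrev S1 (K : Type*) [Field K] : Type _ :=
  MvPolynomial ℕ (MvPolynomial ℕ (MvPolynomial ℕ K))

/-- the nesting homomorphism -/
noncomputable def jx (K : Type*) [Field K] :
    MvPolynomial (Fin 3 × ℕ) K →ₐ[K] MvPolynomial ℕ (S1 K) :=
  aeval fun s => if s.1 = 0 then X s.2 else if s.1 = 1 then C (X s.2) else C (C (X s.2))

/-- `J_θ(p) J_θ(q)` in `S1` -/
noncomputable def H3 (J : ∀ n : ℕ, n.Partition → MvPolynomial ℕ K) (n : ℕ) (θ : n.Partition) :
    S1 K :=
  map ((C : MvPolynomial ℕ K →+* MvPolynomial ℕ (MvPolynomial ℕ K)).comp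
      (C : K →+* MvPolynomial ℕ K)) (J n θ) *
    C (map (C : K →+* MvPolynomial ℕ K) (J n θ))

private theorem jx_C (c : K) : jx K (C c) = C (C (C (C c))) := by
  unfold jx
  rw [aeval_C]
  rfl

private theorem jx_X0 (i : ℕ) : jx K (X (0, i)) = X i := by
  unfold jx
  rw [aeval_X, if_pos rfl]

private theorem jx_X1 (i : ℕ) : jx K (X (1, i)) = C (X i) := by
  unfold jx
  rw [aeval_X, if_neg (by simp), if_pos rfl]

private theorem jx_X2 (i : ℕ) : jx K (X (2, i)) = C (C (X i)) := by
  unfold jx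
  rw [aeval_X, if_neg (by simp), if_neg (by simp)]

private theorem jx_r0 (f : MvPolynomial ℕ K) :
    jx K (rename (fun i => ((0 : Fin 3), i)) f) = map (algebraMap K (S1 K)) f := by
  induction f using MvPolynomial.induction_on with
  | C c => rw [rename_C, jx_C, map_C]; rfl
  | add p q hp hq => rw [map_add, map_add, map_add, hp, hq]
  | mul_X p i hp => rw [map_mul, map_mul, map_mul, hp, rename_X, jx_X0, map_X]

private theorem jx_r1 (f : MvPolynomial ℕ K) :
    jx K (rename (fun i => ((1 : Fin 3), i)) f) =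
      C (map ((C : MvPolynomial ℕ K →+* MvPolynomial ℕ (MvPolynomial ℕ K)).comp
        (C : K →+* MvPolynomial ℕ K)) f) := by
  induction f using MvPolynomial.induction_on with
  | C c => rw [rename_C, jx_C, map_C]; rfl
  | add p q hp hq => rw [map_add, map_add, map_add, map_add, hp, hq]
  | mul_X p i hp => rw [map_mul, map_mul, map_mul, map_mul, hp, rename_X, jx_X1, map_X]

private theorem jx_r2 (f : MvPolynomial ℕ K) :
    jx K (rename (fun i => ((2 : Fin 3), i)) f) = C (C (map (C : K →+* MvPolynomial ℕ K) f)) := by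
  induction f using MvPolynomial.induction_on with
  | C c => rw [rename_C, jx_C, map_C]
  | add p q hp hq => rw [map_add, map_add, map_add, map_add, map_add, hp, hq]
  | mul_X p i hp => rw [map_mul, map_mul, map_mul, map_mul, map_mul, hp, rename_X, jx_X2, map_X]

theorem jx_tau :
    PowerSeries.map ((jx K : MvPolynomial (Fin 3 × ℕ) K →ₐ[K] MvPolynomial ℕ (S1 K)) :
      MvPolynomial (Fin 3 × ℕ) K →+* MvPolynomial ℕ (S1 K)) (tau (Fin 3) al J) =
      Om al J (H3 J) := by
  ext1 n
  rw [PowerSeries.coeff_map, tau, Om, PowerSeries.coeff_mk, PowerSeries.coeff_mk]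
  change jx K (∑ θ : n.Partition, C (nrm al J n θ)⁻¹ *
    ∏ a : Fin 3, rename (fun i => (a, i)) (J n θ)) = _
  rw [map_sum]
  refine Finset.sum_congr rfl fun θ _ => ?_
  rw [map_mul, map_prod, Fin.prod_univ_three, jx_C, jx_r0, jx_r1, jx_r2, H3, map_mul, map_mul]
  have h1 : (C ((algebraMap K (S1 K)) (nrm al J n θ)⁻¹) : MvPolynomial ℕ (S1 K)) =
      C (C (C (C (nrm al J n θ)⁻¹))) := rfl
  rw [h1]
  ring

private theorem der_mul {R A : Type*} [CommRing R] [CommRing A] [Algebra R A]
    (D : Derivation R A A) (x y : A) : D (x * y) = x * D y + y * D x := by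
  rw [Derivation.leibniz, smul_eq_mul, smul_eq_mul]

private theorem aopF_X (al : K) (a : Fin 3) (i : ℕ) (s : Fin 3 × ℕ) :
    aopF al a i (X s : MvPolynomial (Fin 3 × ℕ) K) =
      if s = (a, i) then C (al * ((i : K) + 1)) else 0 := by
  classical
  rw [aopF, Derivation.smul_apply, pderiv_X, Pi.single_apply]
  by_cases h : s = (a, i)
  · rw [if_pos h, if_pos h, smul_eq_C_mul, mul_one]
  · rw [if_neg h, if_neg h, smul_zero]

private theorem aop_X' {S : Type*} [CommRing S] (al : S) (i k : ℕ) :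
    aop al i (X k : MvPolynomial ℕ S) = if k = i then C (al * ((i : S) + 1)) else 0 := by
  classical
  rw [aop, Derivation.smul_apply, pderiv_X, Pi.single_apply]
  by_cases h : k = i
  · rw [if_pos h, if_pos h, smul_eq_C_mul, mul_one]
  · rw [if_neg h, if_neg h, smul_zero]

private theorem aop_C' {S : Type*} [CommRing S] (al : S) (i : ℕ) (c : S) :
    aop al i (C c : MvPolynomial ℕ S) = 0 :=
  Derivation.map_algebraMap (aop al i) c

private theorem aopF_C' (al : K) (a : Fin 3) (i : ℕ) (c : K) :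
    aopF al a i (C c : MvPolynomial (Fin 3 × ℕ) K) = 0 :=
  Derivation.map_algebraMap (aopF al a i) c

private theorem jx_aop_X (i : ℕ) (s : Fin 3 × ℕ) :
    jx K (aopF al 0 i (X s)) = aop (algebraMap K (S1 K) al) i (jx K (X s)) := by
  obtain ⟨a, k⟩ := s
  rw [aopF_X]
  have h3 : a = 0 ∨ a = 1 ∨ a = 2 := by
    revert a
    decide
  rcases h3 with rfl | rfl | rfl
  · rw [jx_X0, aop_X']
    by_cases h : k = i
    · rw [if_pos h, if_pos (by rw [h]), jx_C]
      have h1 : (algebraMap K (S1 K) al * ((i : S1 K) + 1) : S1 K) =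
          algebraMap K (S1 K) (al * ((i : K) + 1)) := by
        rw [map_mul, map_add, map_natCast, map_one]
      rw [h1]
      rfl
    · rw [if_neg h, if_neg (fun h' => h (by simpa using h')), map_zero]
  · rw [jx_X1, aop_C', if_neg (by simp), map_zero]
  · rw [jx_X2, aop_C', if_neg (by simp), map_zero]

theorem jx_aop (i : ℕ) (f : MvPolynomial (Fin 3 × ℕ) K) :
    jx K (aopF al 0 i f) = aop (algebraMap K (S1 K) al) i (jx K f) := by
  induction f using MvPolynomial.induction_on with
  | C c => rw [aopF_C', map_zero, jx_C, aop_C']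
  | add p q hp hq => rw [map_add, map_add, map_add, map_add, hp, hq]
  | mul_X p s hp =>
    rw [der_mul, map_add, map_mul, map_mul, map_mul, der_mul, hp, jx_aop_X]

private theorem aopF_r (al : K) (a c : Fin 3) (hac : a ≠ c) (j : ℕ) (f : MvPolynomial ℕ K) :
    aopF al a j (rename (fun i => (c, i)) f) = 0 := by
  induction f using MvPolynomial.induction_on with
  | C c => rw [rename_C, aopF_C']
  | add p q hp hq => rw [map_add, map_add, hp, hq, add_zero]
  | mul_X p i hp =>
    rw [map_mul, der_mul, hp, rename_X, aopF_X, if_neg (by simp [hac.symm]), mul_zero,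
      mul_zero, add_zero]

private theorem aopF_r_self (al : K) (a : Fin 3) (j : ℕ) (f : MvPolynomial ℕ K) :
    aopF al a j (rename (fun i => (a, i)) f) = rename (fun i => (a, i)) (aop al j f) := by
  induction f using MvPolynomial.induction_on with
  | C c => rw [rename_C, aopF_C', aop_C', map_zero]
  | add p q hp hq => rw [map_add, map_add, map_add, map_add, hp, hq]
  | mul_X p i hp =>
    rw [map_mul, der_mul, hp, rename_X, aopF_X, der_mul, map_add, map_mul (rename _) p,
      map_mul (rename _) (X i), rename_X, aop_X']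
    congr 2
    by_cases h : i = j
    · rw [if_pos (by rw [h]), if_pos h, rename_C]
    · rw [if_neg (by simpa using h), if_neg h, map_zero]

theorem jx_root (j : ℕ) :
    PowerSeries.map ((jx K : MvPolynomial (Fin 3 × ℕ) K →ₐ[K] MvPolynomial ℕ (S1 K)) :
      MvPolynomial (Fin 3 × ℕ) K →+* MvPolynomial ℕ (S1 K))
        (lift (aopF al 1 j) (tau (Fin 3) al J)) =
      Om al J (fun n θ => aop (algebraMap K (MvPolynomial ℕ (MvPolynomial ℕ K)) al) j
        (H3 J n θ)) := by
  ext1 n
  rw [PowerSeries.coeff_map, lift, tau, Om, PowerSeries.coeff_mk, PowerSeries.coeff_mk,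
    PowerSeries.coeff_mk]
  change jx K (aopF al 1 j (∑ θ : n.Partition, C (nrm al J n θ)⁻¹ *
    ∏ a : Fin 3, rename (fun i => (a, i)) (J n θ))) = _
  rw [map_sum, map_sum]
  refine Finset.sum_congr rfl fun θ _ => ?_
  have h1 : aopF al 1 j (C (nrm al J n θ)⁻¹ * ∏ a : Fin 3, rename (fun i => (a, i)) (J n θ)) =
      C (nrm al J n θ)⁻¹ * (rename (fun i => ((0 : Fin 3), i)) (J n θ) *
        rename (fun i => ((1 : Fin 3), i)) (aop al j (J n θ)) *
          rename (fun i => ((2 : Fin 3), i)) (J n θ)) := by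
    rw [Fin.prod_univ_three, der_mul , aopF_C', mul_zero, add_zero, der_mul ,
      der_mul , aopF_r al 1 2 (by decide), aopF_r al 1 0 (by decide), aopF_r_self]
    ring
  have h2 : aop (algebraMap K (MvPolynomial ℕ (MvPolynomial ℕ K)) al) j (H3 J n θ) =
      map ((C : MvPolynomial ℕ K →+* MvPolynomial ℕ (MvPolynomial ℕ K)).comp
        (C : K →+* MvPolynomial ℕ K)) (aop al j (J n θ)) *
      C (map (C : K →+* MvPolynomial ℕ K) (J n θ)) := by
    rw [H3, der_mul , aop_C', mul_zero, zero_add, map_aop, mul_comm]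
    rfl
  rw [h1, h2, map_mul, map_mul, map_mul, jx_C, jx_r0, jx_r1, jx_r2, map_mul, map_mul]
  have h3 : (C ((algebraMap K (S1 K)) (nrm al J n θ)⁻¹) : MvPolynomial ℕ (S1 K)) =
      C (C (C (C (nrm al J n θ)⁻¹))) := rfl
  rw [h3]
  ring

private theorem C_mem {S : Type*} [CommRing S] {σ : Type*} {𝒟 : Subsemiring S} {c : S}
    (h : c ∈ 𝒟) : (C c : MvPolynomial σ S) ∈ cS σ 𝒟 := by
  classical
  intro m
  rw [coeff_C]
  split_ifs
  · exact h
  · exact zero_mem _

private theorem X_mem {S : Type*} [CommRing S] {σ : Type*} {𝒟 : Subsemiring S} (i : σ) :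
    (X i : MvPolynomial σ S) ∈ cS σ 𝒟 := by
  classical
  intro m
  rw [coeff_X]
  split_ifs
  · exact one_mem _
  · exact zero_mem _

theorem jx_mem (𝒞 : Subsemiring K) (f : MvPolynomial (Fin 3 × ℕ) K) (hf : f ∈ cS _ 𝒞) :
    jx K f ∈ cS ℕ (cS ℕ (cS ℕ (cS ℕ 𝒞))) := by
  unfold jx
  rw [aeval_def, eval₂_eq]
  refine sum_mem fun m _ => mul_mem (C_mem (C_mem (C_mem (C_mem (hf m)))))
    (prod_mem fun s _ => pow_mem ?_ _)
  split_ifs
  · exact X_mem _
  · exact C_mem (X_mem _)
  · exact C_mem (C_mem (X_mem _))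

private theorem sec_ne_zero (m : Fin 3 × ℕ →₀ ℕ) (h : m ≠ 0) :
    sec 0 m ≠ 0 ∨ sec 1 m ≠ 0 ∨ sec 2 m ≠ 0 := by
  by_contra h0
  push Not at h0
  obtain ⟨h1, h2, h3⟩ := h0
  refine h (Finsupp.ext fun s => ?_)
  obtain ⟨a, k⟩ := s
  have h4 : a = 0 ∨ a = 1 ∨ a = 2 := by
    clear h1 h2 h3
    revert a
    decide
  rcases h4 with rfl | rfl | rfl
  · exact DFunLike.congr_fun h1 k
  · exact DFunLike.congr_fun h2 k
  · exact DFunLike.congr_fun h3 k

private theorem sec_sub (c : Fin 3) (m m' : Fin 3 × ℕ →₀ ℕ) :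
    sec c (m - m') = sec c m - sec c m' := by
  ext i
  rfl

private theorem sec_single' (c : Fin 3) (i : ℕ) :
    sec c (Finsupp.single (c, i) 1) = Finsupp.single i 1 := by
  classical
  ext l
  change Finsupp.single (c, i) 1 (c, l) = _
  rw [Finsupp.single_apply, Finsupp.single_apply]
  simp

private theorem sec_single_ne' {a c : Fin 3} (hac : a ≠ c) (i : ℕ) :
    sec c (Finsupp.single (a, i) 1) = 0 := by
  classical
  ext l
  change Finsupp.single (a, i) 1 (c, l) = _
  rw [Finsupp.single_apply, Finsupp.zero_apply]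
  simp [hac]

/-- coefficients of `jx f`: constants in `g` -/
theorem jx_coeff (f : MvPolynomial (Fin 3 × ℕ) K) (m : Fin 3 × ℕ →₀ ℕ) :
    (((jx K f).coeff (sec 0 m)).coeff (sec 1 m)).coeff (sec 2 m) = C (f.coeff m) := by
  classical
  induction f using MvPolynomial.induction_on generalizing m with
  | C c =>
    rw [jx_C, coeff_C, coeff_C]
    by_cases h : (0 : Fin 3 × ℕ →₀ ℕ) = m
    · subst h
      have h0 : ∀ a : Fin 3, (0 : ℕ →₀ ℕ) = sec a (0 : Fin 3 × ℕ →₀ ℕ) := fun a => by
        ext i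
        rfl
      rw [if_pos (h0 0), if_pos rfl, coeff_C, if_pos (h0 1), coeff_C, if_pos (h0 2)]
    · rw [if_neg h, map_zero]
      rcases sec_ne_zero m (fun h' => h h'.symm) with h1 | h1 | h1
      · rw [if_neg (fun h' => h1 h'.symm), coeff_zero, coeff_zero]
      · split_ifs
        · rw [coeff_C, if_neg (fun h' => h1 h'.symm), coeff_zero]
        · rw [coeff_zero, coeff_zero]
      · split_ifs
        · rw [coeff_C]
          split_ifs
          · rw [coeff_C, if_neg (fun h' => h1 h'.symm)]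
          · rw [coeff_zero]
        · rw [coeff_zero, coeff_zero]
  | add p q hp hq =>
    rw [map_add, coeff_add, coeff_add, coeff_add, coeff_add, hp, hq, map_add]
  | mul_X p s hp =>
    obtain ⟨a, k⟩ := s
    have h3 : a = 0 ∨ a = 1 ∨ a = 2 := by
      clear hp
      revert a
      decide
    have hs : ∀ c : Fin 3, (k ∈ (sec c m).support ↔ (c, k) ∈ m.support) := fun c => by
      rw [Finsupp.mem_support_iff, Finsupp.mem_support_iff]
      rfl
    rw [map_mul, coeff_mul_X']
    rcases h3 with rfl | rfl | rfl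
    · rw [jx_X0, coeff_mul_X']
      by_cases h : ((0 : Fin 3), k) ∈ m.support
      · rw [if_pos h, if_pos ((hs 0).2 h), ← hp]
        rw [sec_sub, sec_sub, sec_sub, sec_single', sec_single_ne' (by decide),
          sec_single_ne' (by decide), tsub_zero, tsub_zero]
      · rw [if_neg h, if_neg (fun h' => h ((hs 0).1 h')), map_zero, coeff_zero, coeff_zero]
    · rw [jx_X1, mul_comm (jx K p), coeff_C_mul, mul_comm (X k), coeff_mul_X']
      by_cases h : ((1 : Fin 3), k) ∈ m.support
      · rw [if_pos h, if_pos ((hs 1).2 h), ← hp]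
        rw [sec_sub, sec_sub, sec_sub, sec_single', sec_single_ne' (by decide),
          sec_single_ne' (by decide), tsub_zero, tsub_zero]
      · rw [if_neg h, if_neg (fun h' => h ((hs 1).1 h')), map_zero, coeff_zero]
    · rw [jx_X2, mul_comm (jx K p), coeff_C_mul, coeff_C_mul, mul_comm (X k), coeff_mul_X']
      by_cases h : ((2 : Fin 3), k) ∈ m.support
      · rw [if_pos h, if_pos ((hs 2).2 h), ← hp]
        rw [sec_sub, sec_sub, sec_sub, sec_single', sec_single_ne' (by decide),
          sec_single_ne' (by decide), tsub_zero, tsub_zero]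
      · rw [if_neg h, if_neg (fun h' => h ((hs 2).1 h')), map_zero]

end H25BC
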