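import Pool.Agent.H25.BC.N1

/-!
# Module N1b: the functional `ω_G` for three alphabets

* `omg_H3`, `omg_aop_H3`: `lift_omg` (module E4) with `S = S1 K`, `H = H3` (resp. `a_j H3`),
  `H' = C (C (fG θ))`; compare with the definition of `TG` (module L3); `f_G(θ)` and `j_θ^{-1}` are
  constants for the derivation `a_j` in `p`, and `a_j` kills the factor `C (J_θ(q))`
  up to the obvious rule (`aop` is a derivation over the coefficient ring).
* `SD_S1`: base change of `OmG_good` along `C ∘ C : K[g] → S1` (`map_aop`; the image of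
  `Om al J (fG ..)` under the coefficientwise map is `Om al J (C (C fG ..))`), then `SD_of_good`
  (`Om_hom`, `Om_zero`; `cont` of the empty partition is `0`, so `fG = 1` for `n = 0`).
* `omg_word_S1`: `omg` on a monomial is by definition
  `zz m * al^len m * coefficient of Om at m`, and the coefficient is mapped by `C ∘ C`.
-/

open MvPolynomial

namespace H25BC

variable {K : Type*} [Field K] [CharZero K] {al b : K}
  {J : ∀ n : ℕ, n.Partition → MvPolynomial ℕ K}

/-- the base change `K[g] → K[g][q][p]` -/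
private noncomputable def ph (K : Type*) [Field K] : MvPolynomial ℕ K →+* S1 K :=
  (C : MvPolynomial ℕ (MvPolynomial ℕ K) →+* S1 K).comp
    (C : MvPolynomial ℕ K →+* MvPolynomial ℕ (MvPolynomial ℕ K))

omit [CharZero K] in
private theorem ph_alg (c : K) :
    ph K (algebraMap K (MvPolynomial ℕ K) c) = algebraMap K (S1 K) c := rfl

omit [CharZero K] in
private theorem ph_apply (x : MvPolynomial ℕ K) : ph K x = C (C x) := rfl

omit [CharZero K] in
private theorem ph_comp : (ph K).comp (algebraMap K (MvPolynomial ℕ K)) = algebraMap K (S1 K) :=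
  RingHom.ext ph_alg

private theorem Om_base (H : ∀ n : ℕ, n.Partition → MvPolynomial ℕ K) :
    PowerSeries.map (map (ph K)) (Om al J H) =
      Om al J (fun n θ => (C (C (H n θ)) : S1 K)) := by
  ext1 n
  rw [PowerSeries.coeff_map, Om, Om, PowerSeries.coeff_mk, PowerSeries.coeff_mk, map_sum]
  refine Finset.sum_congr rfl fun θ _ => ?_
  rw [map_mul, map_C, map_mul, map_map, ph_alg, ph_apply, ph_comp]

/-- the functional `ω_G` on `S1[x]`: `ω(Om (H3)) = TG`, `ω(Om (a_j H3)) = a_j TG`
(`lift_omg`; `f_G(θ)` is a constant for the derivation `a_j` in `p`) -/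
theorem omg_H3 (hJ : IsJack al J) (han : Aniso al) (L : ℕ) :
    lift (omg (algebraMap K (S1 K) al)
        (Om al J (fun n θ => (C (C (fG al L (fun i => (X i : MvPolynomial ℕ K)) n θ)) : S1 K))))
      (Om al J (H3 J)) = TG al J (MvPolynomial ℕ K) L (fun i => X i) := by
  rw [lift_omg hJ han]
  ext1 n
  rw [PowerSeries.coeff_mk, TG, PowerSeries.coeff_mk]
  refine Finset.sum_congr rfl fun θ _ => ?_
  rw [H3, map_mul, map_mul]
  have h1 : algebraMap K (S1 K) (nrm al J n θ)⁻¹ = C (C (C (nrm al J n θ)⁻¹)) := rfl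
  have h2 : algebraMap K (MvPolynomial ℕ K) (nrm al J n θ)⁻¹ = C (nrm al J n θ)⁻¹ := rfl
  have h3 : (algebraMap K (MvPolynomial ℕ K)) = (C : K →+* MvPolynomial ℕ K) := rfl
  rw [h1, h2, h3]
  ring

theorem omg_aop_H3 (hJ : IsJack al J) (han : Aniso al) (L j : ℕ) :
    lift (omg (algebraMap K (S1 K) al)
        (Om al J (fun n θ => (C (C (fG al L (fun i => (X i : MvPolynomial ℕ K)) n θ)) : S1 K))))
      (Om al J (fun n θ => aop (algebraMap K (MvPolynomial ℕ (MvPolynomial ℕ K)) al) j
        (H3 J n θ))) =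
      lift (aop (algebraMap K (MvPolynomial ℕ (MvPolynomial ℕ K)) al) j)
        (TG al J (MvPolynomial ℕ K) L (fun i => X i)) := by
  rw [lift_omg hJ han]
  ext1 n
  rw [coeff_lift, PowerSeries.coeff_mk, TG, PowerSeries.coeff_mk, map_sum]
  refine Finset.sum_congr rfl fun θ _ => ?_
  have h1 : algebraMap K (S1 K) (nrm al J n θ)⁻¹ = C (C (C (nrm al J n θ)⁻¹)) := rfl
  have h2 : algebraMap K (MvPolynomial ℕ K) (nrm al J n θ)⁻¹ = C (nrm al J n θ)⁻¹ := rfl
  have h3 : (algebraMap K (MvPolynomial ℕ K)) = (C : K →+* MvPolynomial ℕ K) := rfl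
  have h4 : (C (C (algebraMap K (MvPolynomial ℕ K) (nrm al J n θ)⁻¹ *
        fG al L (fun i => (X i : MvPolynomial ℕ K)) n θ)) *
      map ((C : MvPolynomial ℕ K →+* MvPolynomial ℕ (MvPolynomial ℕ K)).comp
        (algebraMap K (MvPolynomial ℕ K))) (J n θ) *
      C (map (algebraMap K (MvPolynomial ℕ K)) (J n θ)) : S1 K) =
      C (C (C (nrm al J n θ)⁻¹ * fG al L (fun i => (X i : MvPolynomial ℕ K)) n θ)) *
        H3 J n θ := by
    rw [h2, h3, H3, mul_assoc]
  rw [h4, l3_aop_C_mul, h1, map_mul, map_mul]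
  ring

private theorem C_mem2 {S : Type*} [CommRing S] {𝒟 : Subsemiring S} {c : S}
    (h : c ∈ 𝒟) : (C (C c) : MvPolynomial ℕ (MvPolynomial ℕ S)) ∈ cS ℕ (cS ℕ 𝒟) :=
  C_mem_cS ℕ _ (C_mem_cS ℕ _ h)

/-- Schwinger-Dyson for this functional: base change of `OmG_good` along
`C ∘ C : K[g] → S1`, then `SD_of_good` -/
theorem SD_S1 (hJ : IsJack al J) (han : Aniso al) (hb : b = al - 1) (hal : al ≠ 0)
    (hir : Irr al) (𝒞 : Subsemiring K) (hal' : al ∈ 𝒞) (hb' : b ∈ 𝒞) (L : ℕ) :
    SD (cS ℕ (cS ℕ (cS ℕ 𝒞))) (algebraMap K (S1 K) al)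
      (omg (algebraMap K (S1 K) al)
        (Om al J (fun n θ => (C (C (fG al L (fun i => (X i : MvPolynomial ℕ K)) n θ)) :
          S1 K)))) := by
  have h1 : ∀ j, ∃ W : PowerSeries (MvPolynomial ℕ (MvPolynomial ℕ K)),
      (∀ n, PowerSeries.coeff n W ∈ cS ℕ (cS ℕ 𝒞)) ∧
        lift (aop (algebraMap K (MvPolynomial ℕ K) al) j)
          (Om al J (fG al L (fun i => (X i : MvPolynomial ℕ K)))) =
          W * Om al J (fG al L (fun i => (X i : MvPolynomial ℕ K))) := fun j =>
    OmG_good hJ han hb hal hir (cS ℕ 𝒞) (C_mem_cS ℕ _ hal') (C_mem_cS ℕ _ hb') L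
      (fun i => (X i : MvPolynomial ℕ K)) (fun l => X_mem_cS ℕ l) j
  choose W hW1 hW2 using h1
  refine SD_of_good _ (Om_hom hJ _) (Om_zero hJ _ ?_)
    (fun j => PowerSeries.map (map (ph K)) (W j)) ?_ ?_
  · intro θ
    have h3 : fG al L (fun i => (X i : MvPolynomial ℕ K)) 0 θ = 1 := by
      unfold fG
      rw [l3_cont_zero]
      simp
    rw [h3, map_one, map_one]
  · intro j
    rw [← Om_base, ← map_mul, ← hW2 j]
    ext1 n
    have h4 := map_aop (S := MvPolynomial ℕ K) (S' := S1 K) (ph K) (algebraMap K (MvPolynomial ℕ K) al) j (PowerSeries.coeff n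
      (Om al J (fG al L (fun i => (X i : MvPolynomial ℕ K)))))
    rw [ph_alg] at h4
    rw [coeff_lift, PowerSeries.coeff_map, PowerSeries.coeff_map, coeff_lift]
    exact h4.symm
  · intro j n m
    rw [PowerSeries.coeff_map, coeff_map]
    exact C_mem2 (hW1 j n m)

/-- value on the monomial `∏_{i ∈ l} x_i` (`omg_word`, base change) -/
theorem omg_word_S1 (hJ : IsJack al J) (han : Aniso al) (hb : b = al - 1) (hal : al ≠ 0)
    (hir : Irr al) (L : ℕ) (m : ℕ →₀ ℕ) :
    (omg (algebraMap K (S1 K) al)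
        (Om al J (fun n θ => (C (C (fG al L (fun i => (X i : MvPolynomial ℕ K)) n θ)) : S1 K))))
      (monomial m 1) =
      C (C (omg (C al : MvPolynomial ℕ K) (Om al J (fG al L (fun i => (X i : MvPolynomial ℕ K))))
        (monomial m 1))) := by
  have h1 : ∀ {S : Type _} [CommRing S] (a : S) (Ω : PowerSeries (MvPolynomial ℕ S)),
      omg a Ω (monomial m 1) =
        (zz m : S) * a ^ len m * (PowerSeries.coeff (wt m) Ω).coeff m := by
    intro S _ a Ω
    have h2 : (monomial m (1 : S) : MvPolynomial ℕ S) = basisMonomials ℕ S m := by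
      rw [coe_basisMonomials]
    rw [h2]
    unfold omg
    rw [Module.Basis.constr_basis]
  rw [h1, h1, ← Om_base, PowerSeries.coeff_map, coeff_map, map_mul, map_mul, map_mul, map_mul,
    map_natCast, map_natCast, map_pow, map_pow, ph_apply]
  rfl

end H25BC
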