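import Pool.Agent.H25.BC.P3b

/-!
# Module N2: basic facts on `tau` and `Us`

* `tau_zero`: `J 0 θ = 1` (`J_zero`), `nrm = pair 1 1 = 1`, unique partition of `0`.
* `Us_spec`: `mul_invOfUnit`. `Us_unique`: `tau` is invertible.
* `Us_zero`: coefficient `0` of `lift (aopF a j) tau` is `aopF (1) = 0`.
* `map_tau`, `map_Us`: renaming of the alphabets along `e : ι ≃ κ`; `rename` is a ring
  homomorphism with `rename ∘ aopF a j = aopF (e a) j ∘ rename`; use `Us_unique`.
* `Us_weight`: give the variable `(c, i)` the weight `i+1` if `c = c0`, else `0`. Each coefficient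
  `tau_n` is homogeneous of weight `n` for this grading, `aopF a j` lowers the weight by
  `j + 1` if `a = c0`, else by `0`. Induction on `n`:
  `Us_n = (aopF tau)_n - ∑_{k<n} Us_k tau_{n-k}`.
-/

open MvPolynomial

namespace H25BC

variable {K : Type*} [Field K] [CharZero K] {al : K}
  {J : ∀ n : ℕ, n.Partition → MvPolynomial ℕ K} {ι κ : Type*} [Fintype ι] [Fintype κ]

omit [CharZero K] in
private theorem n2_pair_one : pair al (1 : MvPolynomial ℕ K) 1 = 1 := by
  classical
  have h : pair al (1 : MvPolynomial ℕ K) 1 = ∑ m ∈ ({0} : Finset (ℕ →₀ ℕ)),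
      (1 : MvPolynomial ℕ K).coeff m * (1 : MvPolynomial ℕ K).coeff m *
        ((zz m : K) * al ^ len m) := by
    apply pair_eq_sum
    intro m hm
    rw [MvPolynomial.mem_support_iff, MvPolynomial.coeff_one] at hm
    rw [Finset.mem_singleton]
    by_contra h0
    exact hm (if_neg (Ne.symm h0))
  rw [h, Finset.sum_singleton, MvPolynomial.coeff_zero_one]
  simp [zz, len]

private theorem n2_lift {M N : Type*} [Semiring M] [Semiring N] (φ : M → N) (A : PowerSeries M)
    (n : ℕ) : PowerSeries.coeff n (lift φ A) = φ (PowerSeries.coeff n A) := by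
  unfold lift
  rw [PowerSeries.coeff_mk]

theorem tau_zero (hJ : IsJack al J) : PowerSeries.coeff 0 (tau ι al J) = 1 := by
  unfold tau
  rw [PowerSeries.coeff_mk, Fintype.sum_unique]
  have h1 : ∀ θ : (0 : ℕ).Partition, J 0 θ = 1 := J_zero hJ
  rw [nrm, h1, n2_pair_one, inv_one, C_1, one_mul]
  simp only [map_one, Finset.prod_const_one]

theorem Us_spec (hJ : IsJack al J) (a : ι) (j : ℕ) :
    lift (aopF al a j) (tau ι al J) = Us ι al J a j * tau ι al J := by
  unfold Us
  rw [mul_assoc, PowerSeries.invOfUnit_mul, mul_one]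
  rw [← PowerSeries.coeff_zero_eq_constantCoeff_apply, tau_zero hJ, Units.val_one]

theorem Us_unique (hJ : IsJack al J) (a : ι) (j : ℕ)
    (V : PowerSeries (MvPolynomial (ι × ℕ) K))
    (h : lift (aopF al a j) (tau ι al J) = V * tau ι al J) : V = Us ι al J a j := by
  unfold Us
  rw [h, mul_assoc, PowerSeries.mul_invOfUnit, mul_one]
  rw [← PowerSeries.coeff_zero_eq_constantCoeff_apply, tau_zero hJ, Units.val_one]

theorem Us_zero (hJ : IsJack al J) (a : ι) (j : ℕ) :
    PowerSeries.coeff 0 (Us ι al J a j) = 0 := by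
  unfold Us
  rw [PowerSeries.coeff_zero_eq_constantCoeff_apply, map_mul,
    ← PowerSeries.coeff_zero_eq_constantCoeff_apply, n2_lift, tau_zero hJ,
    Derivation.map_one_eq_zero, zero_mul]

theorem map_tau (e : ι ≃ κ) :
    PowerSeries.map ((rename (R := K) (Prod.map e id) :
        MvPolynomial (ι × ℕ) K →ₐ[K] MvPolynomial (κ × ℕ) K) :
        MvPolynomial (ι × ℕ) K →+* MvPolynomial (κ × ℕ) K) (tau ι al J) = tau κ al J := by
  ext1 n
  rw [PowerSeries.coeff_map]
  unfold tau
  rw [PowerSeries.coeff_mk, PowerSeries.coeff_mk, RingHom.coe_coe, map_sum]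
  apply Finset.sum_congr rfl
  intro θ _
  rw [map_mul, MvPolynomial.rename_C, map_prod]
  congr 1
  rw [← Equiv.prod_comp e]
  apply Finset.prod_congr rfl
  intro a _
  rw [MvPolynomial.rename_rename]
  rfl

theorem map_Us (hJ : IsJack al J) (e : ι ≃ κ) (a : ι) (j : ℕ) :
    PowerSeries.map ((rename (R := K) (Prod.map e id) :
        MvPolynomial (ι × ℕ) K →ₐ[K] MvPolynomial (κ × ℕ) K) :
        MvPolynomial (ι × ℕ) K →+* MvPolynomial (κ × ℕ) K) (Us ι al J a j) =
      Us κ al J (e a) j := by
  apply Us_unique hJ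
  have hinj : Function.Injective (Prod.map e (id : ℕ → ℕ)) := e.injective.prodMap Function.injective_id
  rw [← map_tau e, ← map_mul, ← Us_spec hJ]
  ext1 n
  rw [n2_lift, PowerSeries.coeff_map, PowerSeries.coeff_map, n2_lift]
  unfold aopF
  rw [Derivation.smul_apply, Derivation.smul_apply, RingHom.coe_coe, map_smul,
    ← MvPolynomial.pderiv_rename hinj]
  rfl

/-- transport of coefficient properties along an equivalence of the alphabets -/
theorem Us_coeff_mem_iff (hJ : IsJack al J) (𝒞 : Subsemiring K) (e : ι ≃ κ) (a : ι) (j n : ℕ) :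
    PowerSeries.coeff n (Us κ al J (e a) j) ∈ cS (κ × ℕ) 𝒞 ↔
      PowerSeries.coeff n (Us ι al J a j) ∈ cS (ι × ℕ) 𝒞 := by
  classical
  have hinj : Function.Injective (Prod.map e (id : ℕ → ℕ)) := e.injective.prodMap Function.injective_id
  rw [← map_Us hJ e a j, PowerSeries.coeff_map, RingHom.coe_coe]
  constructor
  · intro h m
    have := h (Finsupp.mapDomain (Prod.map e (id : ℕ → ℕ)) m)
    rwa [MvPolynomial.coeff_rename_mapDomain _ hinj] at this
  · intro h m
    by_cases hm : ∃ u, Finsupp.mapDomain (Prod.map e (id : ℕ → ℕ)) u = m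
    · obtain ⟨u, rfl⟩ := hm
      rw [MvPolynomial.coeff_rename_mapDomain _ hinj]
      exact h u
    · rw [MvPolynomial.coeff_rename_eq_zero _ _ _ (fun u hu => absurd ⟨u, hu⟩ hm)]
      exact zero_mem _

end H25BC
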