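import Pool.Agent.H25.BC.N2
import Pool.Agent.H25.BC.A2

/-!
# Module N2b: weights in each alphabet

Give the variable `(c, i)` the weight `i+1` if `c` is the fixed alphabet, else `0`: the weight of
the exponent `m` is `wt (sec c m)`, additive in `m` (`wt_add`, `sec` is additive).
`tau_weight`: `tau_n = ∑ (nrm θ)⁻¹ ∏_a rename (a, ·) (J n θ)`; a monomial of the product is a sum of
monomials of the factors, the factor `a ≠ c` contributes weight `0`, the factor `c` weight `n`
(`hJ.hom`).
`Us_weight`, `Us_weight_self`: `aopF a j` lowers this weight by `j + 1` if `a = c`, else by `0`.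
Strong induction on `n`: `Us_n = (aopF a j tau)_n - ∑_{k<n} Us_k tau_{n-k}` (`Us_spec`, `tau_zero`).
-/

open MvPolynomial

namespace H25BC

variable {K : Type*} [Field K] [CharZero K] {al : K}
  {J : ∀ n : ℕ, n.Partition → MvPolynomial ℕ K} {ι κ : Type*} [Fintype ι] [Fintype κ]

/-- the part of an exponent in the alphabet `c` -/
noncomputable def sec {ι : Type*} (c : ι) (m : ι × ℕ →₀ ℕ) : ℕ →₀ ℕ :=
  m.comapDomain (fun i => (c, i)) (fun _ _ _ _ h => by simpa using h)

private theorem sec_apply {ι : Type*} (c : ι) (m : ι × ℕ →₀ ℕ) (i : ℕ) : sec c m i = m (c, i) :=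
  rfl

private theorem sec_add {ι : Type*} (c : ι) (m m' : ι × ℕ →₀ ℕ) :
    sec c (m + m') = sec c m + sec c m' := by
  ext i
  rw [Finsupp.add_apply, sec_apply, sec_apply, sec_apply, Finsupp.add_apply]

private theorem sec_zero {ι : Type*} (c : ι) : sec c (0 : ι × ℕ →₀ ℕ) = 0 := by
  ext i
  rw [sec_apply, Finsupp.zero_apply, Finsupp.zero_apply]

private theorem sec_single {ι : Type*} (c : ι) (i k : ℕ) :
    sec c (Finsupp.single (c, i) k) = Finsupp.single i k := by
  classical
  ext l
  rw [sec_apply, Finsupp.single_apply, Finsupp.single_apply]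
  simp

private theorem sec_single_ne {ι : Type*} {a c : ι} (hac : a ≠ c) (i k : ℕ) :
    sec c (Finsupp.single (a, i) k) = 0 := by
  classical
  ext l
  rw [sec_apply, Finsupp.single_apply, Finsupp.zero_apply]
  simp [hac]

/-- weights -/
private def W {ι : Type*} (c : ι) (d n : ℕ) (f : MvPolynomial (ι × ℕ) K) : Prop :=
  ∀ m, f.coeff m ≠ 0 → wt (sec c m) + d = n

private theorem W_sum {ι : Type*} {c : ι} {d n : ℕ} {T : Type*} (s : Finset T)
    (f : T → MvPolynomial (ι × ℕ) K) (h : ∀ t ∈ s, W c d n (f t)) : W c d n (∑ t ∈ s, f t) := by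
  intro m hm
  rw [coeff_sum] at hm
  obtain ⟨t, ht, h1⟩ := Finset.exists_ne_zero_of_sum_ne_zero hm
  exact h t ht m h1

private theorem W_sub {ι : Type*} {c : ι} {d n : ℕ} {f g : MvPolynomial (ι × ℕ) K}
    (hf : W c d n f) (hg : W c d n g) : W c d n (f - g) := by
  intro m hm
  rw [coeff_sub] at hm
  by_cases h1 : f.coeff m = 0
  · rw [h1, zero_sub, neg_ne_zero] at hm
    exact hg m hm
  · exact hf m h1

private theorem W_mul {ι : Type*} {c : ι} {d n k : ℕ} {f g : MvPolynomial (ι × ℕ) K}
    (hf : W c d n f) (hg : W c 0 k g) : W c d (n + k) (f * g) := by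
  classical
  intro m hm
  rw [coeff_mul] at hm
  obtain ⟨⟨m1, m2⟩, h1, h2⟩ := Finset.exists_ne_zero_of_sum_ne_zero hm
  replace h1 := Finset.HasAntidiagonal.mem_antidiagonal.1 h1
  dsimp only at h1 h2
  have a1 := hf m1 (left_ne_zero_of_mul h2)
  have a2 := hg m2 (right_ne_zero_of_mul h2)
  rw [← h1, sec_add, wt_add]
  omega

private theorem wt_zero : wt 0 = 0 := by simp [wt]

private theorem W_C {ι : Type*} (c : ι) (r : K) : W c 0 0 (C r : MvPolynomial (ι × ℕ) K) := by
  classical
  intro m hm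
  rw [coeff_C] at hm
  have : (0 : ι × ℕ →₀ ℕ) = m := by
    by_contra h
    rw [if_neg h] at hm
    exact hm rfl
  rw [← this, sec_zero, wt_zero]

private theorem W_prod {ι T : Type*} {c : ι} (s : Finset T) (n : T → ℕ)
    (f : T → MvPolynomial (ι × ℕ) K) (h : ∀ t ∈ s, W c 0 (n t) (f t)) :
    W c 0 (∑ t ∈ s, n t) (∏ t ∈ s, f t) := by
  classical
  induction s using Finset.induction_on with
  | empty =>
    rw [Finset.sum_empty, Finset.prod_empty, ← C_1]
    exact W_C c 1
  | insert a s ha ih =>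
    rw [Finset.sum_insert ha, Finset.prod_insert ha]
    exact W_mul (h a (Finset.mem_insert_self _ _))
      (ih fun t ht => h t (Finset.mem_insert_of_mem ht))

private theorem pair_inj {ι : Type*} (a : ι) : Function.Injective (fun i : ℕ => (a, i)) :=
  fun _ _ h => by simpa using h

private theorem sec_map {ι : Type*} (a : ι) (u : ℕ →₀ ℕ) :
    sec a (u.mapDomain (fun i => (a, i))) = u := by
  ext i
  rw [sec_apply]
  exact Finsupp.mapDomain_apply (pair_inj a) u i

private theorem sec_map_ne {ι : Type*} {a c : ι} (hac : a ≠ c) (u : ℕ →₀ ℕ) :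
    sec c (u.mapDomain (fun i => (a, i))) = 0 := by
  ext i
  rw [sec_apply, Finsupp.zero_apply]
  refine Finsupp.mapDomain_of_notMem_range u (c, i) ?_
  rintro ⟨k, hk⟩
  exact hac (by simpa using congrArg Prod.fst hk)

private theorem W_rename {ι : Type*} (c : ι) {n : ℕ} {f : MvPolynomial ℕ K} (hf : IsHom n f) :
    W c 0 n (rename (fun i => (c, i)) f) := by
  intro m hm
  obtain ⟨u, hu, h1⟩ := coeff_rename_ne_zero _ _ _ hm
  rw [← hu, sec_map, add_zero]
  exact hf u h1

private theorem W_rename_ne {ι : Type*} {a c : ι} (hac : a ≠ c) (f : MvPolynomial ℕ K) :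
    W c 0 0 (rename (fun i => (a, i)) f) := by
  intro m hm
  obtain ⟨u, hu, h1⟩ := coeff_rename_ne_zero _ _ _ hm
  rw [← hu, sec_map_ne hac, wt_zero]

private theorem W_tau (hJ : IsJack al J) (c : ι) (n : ℕ) :
    W c 0 n (PowerSeries.coeff n (tau ι al J)) := by
  classical
  rw [tau, PowerSeries.coeff_mk]
  refine W_sum _ _ fun θ _ => ?_
  have h1 : W c 0 (∑ a : ι, if a = c then n else 0)
      (∏ a : ι, rename (fun i => (a, i)) (J n θ)) := by
    refine W_prod _ _ _ fun a _ => ?_
    by_cases h : a = c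
    · subst h
      rw [if_pos rfl]
      exact W_rename a (hJ.hom n θ)
    · rw [if_neg h]
      exact W_rename_ne h _
  have h2 := W_mul (W_C (K := K) c (nrm al J n θ)⁻¹) h1
  rw [Finset.sum_ite_eq' Finset.univ c (fun _ => n), if_pos (Finset.mem_univ c), zero_add] at h2
  exact h2

theorem tau_weight (hJ : IsJack al J) (c : ι) (n : ℕ) (m : ι × ℕ →₀ ℕ)
    (h : (PowerSeries.coeff n (tau ι al J)).coeff m ≠ 0) : wt (sec c m) = n :=
  W_tau hJ c n m h

private theorem aopF_coeff {ι : Type*} (a : ι) (j : ℕ) (f : MvPolynomial (ι × ℕ) K)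
    (m : ι × ℕ →₀ ℕ) (h : (aopF al a j f).coeff m ≠ 0) :
    f.coeff (m + Finsupp.single (a, j) 1) ≠ 0 := by
  rw [aopF, Derivation.smul_apply, coeff_smul, coeff_pderiv, smul_eq_mul] at h
  exact left_ne_zero_of_mul (right_ne_zero_of_mul h)

private theorem W_aopF {ι : Type*} (a c : ι) (j n : ℕ) {f : MvPolynomial (ι × ℕ) K}
    (hf : W c 0 n f) [Decidable (a = c)] :
    W c (if a = c then j + 1 else 0) n (aopF al a j f) := by
  intro m hm
  have h1 := hf _ (aopF_coeff a j f m hm)
  rw [sec_add, wt_add, add_zero] at h1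
  by_cases h : a = c
  · subst h
    rw [if_pos rfl]
    rw [sec_single, wt_single, mul_one] at h1
    exact h1
  · rw [if_neg h]
    rw [sec_single_ne h, wt_zero] at h1
    exact h1

private theorem W_Us (hJ : IsJack al J) (a c : ι) [Decidable (a = c)] (j : ℕ) : ∀ n : ℕ,
    W c (if a = c then j + 1 else 0) n (PowerSeries.coeff n (Us ι al J a j)) := by
  intro n
  induction n using Nat.strong_induction_on with
  | _ n ih =>
    have h1 := congrArg (PowerSeries.coeff n) (Us_spec hJ a j)
    rw [PowerSeries.coeff_mul, Finset.Nat.sum_antidiagonal_eq_sum_range_succ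
      (fun k l => PowerSeries.coeff k (Us ι al J a j) * PowerSeries.coeff l (tau ι al J)) n,
      Finset.sum_range_succ, Nat.sub_self, tau_zero hJ, mul_one] at h1
    have h2 : PowerSeries.coeff n (Us ι al J a j) =
        aopF al a j (PowerSeries.coeff n (tau ι al J)) -
        ∑ k ∈ Finset.range n, PowerSeries.coeff k (Us ι al J a j) *
          PowerSeries.coeff (n - k) (tau ι al J) := by
      rw [lift, PowerSeries.coeff_mk] at h1
      rw [h1]
      ring
    rw [h2]
    refine W_sub (W_aopF a c j n (W_tau hJ c n)) (W_sum _ _ fun k hk => ?_)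
    have hk' := Finset.mem_range.1 hk
    have h3 := W_mul (ih k hk') (W_tau hJ c (n - k))
    rwa [Nat.add_sub_of_le hk'.le] at h3

theorem Us_weight (hJ : IsJack al J) (a c : ι) (hac : a ≠ c) (j n : ℕ) (m : ι × ℕ →₀ ℕ)
    (h : (PowerSeries.coeff n (Us ι al J a j)).coeff m ≠ 0) : wt (sec c m) = n := by
  classical
  have h1 := W_Us hJ a c j n m h
  rwa [if_neg hac, add_zero] at h1

theorem Us_weight_self (hJ : IsJack al J) (a : ι) (j n : ℕ) (m : ι × ℕ →₀ ℕ)
    (h : (PowerSeries.coeff n (Us ι al J a j)).coeff m ≠ 0) : wt (sec a m) + j + 1 = n := by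
  classical
  have h1 := W_Us hJ a a j n m h
  rw [if_pos rfl] at h1
  omega

end H25BC
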