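import Pool.Agent.H25.BC.P1

/-!
# Module P1b: exponents of partitions

`expo θ`: the exponent `m_i = count (i+1) θ.parts` (`i < n`; parts are `≤ n`).
`wt (expo θ) = ∑_i (i+1) count (i+1) = ∑ parts = n`; `expo` is injective (the counts determine the
multiset, all parts are positive), and surjective onto the exponents of weight `n`: given `m` with
`wt m = n` take the multiset `∑_i m_i • {i+1}`.
`expo_apply`: `row θ` lists the parts in decreasing order, so the number of `k < n` with
`row θ k = i + 1` is `count (i+1) θ.parts`.
-/

open MvPolynomial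

namespace H25BC



private theorem expo_count {n : ℕ} (θ : n.Partition) (i : ℕ) :
    expo θ i = θ.parts.count (i + 1) := by
  rw [expo, Finsupp.finsetSum_apply]
  by_cases hi : i < n
  · rw [Finset.sum_eq_single i]
    · rw [Finsupp.single_eq_same]
    · intro j _ hj
      rw [Finsupp.single_eq_of_ne (Ne.symm hj)]
    · intro h
      exact absurd (Finset.mem_range.mpr hi) h
  · rw [Finset.sum_eq_zero]
    · symm
      rw [Multiset.count_eq_zero]
      intro h
      have := Nat.Partition.le_of_mem_parts h
      omega
    · intro j hj
      rw [Finset.mem_range] at hj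
      rw [Finsupp.single_eq_of_ne (by omega)]

private theorem count_zero_parts {n : ℕ} (θ : n.Partition) : θ.parts.count 0 = 0 := by
  rw [Multiset.count_eq_zero]
  intro h
  exact absurd (θ.parts_pos h) (lt_irrefl 0)

theorem wt_expo {n : ℕ} (θ : n.Partition) : wt (expo θ) = n := by
  classical
  have h1 : (expo θ).support ⊆ Finset.range n := by
    intro i hi
    rw [Finsupp.mem_support_iff, expo_count] at hi
    rw [Finset.mem_range]
    have := Nat.Partition.le_of_mem_parts (Multiset.count_ne_zero.mp hi)
    omega
  rw [wt, Finsupp.sum_of_support_subset _ h1 _ (fun i _ => mul_zero _)]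
  have h2 : θ.parts.sum = ∑ i ∈ Finset.range (n + 1), θ.parts.count i • i := by
    refine Finset.sum_multiset_count_of_subset _ _ ?_
    intro i hi
    rw [Multiset.mem_toFinset] at hi
    rw [Finset.mem_range]
    have := Nat.Partition.le_of_mem_parts hi
    omega
  rw [Finset.sum_range_succ', smul_zero, add_zero, θ.parts_sum] at h2
  refine Eq.trans (Finset.sum_congr rfl fun i _ => ?_) h2.symm
  rw [expo_count, smul_eq_mul, mul_comm]

theorem expo_injective {n : ℕ} : Function.Injective (expo : n.Partition → ℕ →₀ ℕ) := by
  intro θ φ h
  apply Nat.Partition.ext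
  apply Multiset.ext'
  intro a
  rcases a with _ | a
  · rw [count_zero_parts, count_zero_parts]
  · rw [← expo_count, ← expo_count, h]

theorem expo_surj {n : ℕ} (m : ℕ →₀ ℕ) (hm : wt m = n) : ∃ θ : n.Partition, expo θ = m := by
  classical
  refine ⟨⟨∑ i ∈ m.support, Multiset.replicate (m i) (i + 1), ?_, ?_⟩, ?_⟩
  · intro a ha
    rw [Multiset.mem_sum] at ha
    obtain ⟨i, _, hi⟩ := ha
    rw [Multiset.eq_of_mem_replicate hi]
    exact Nat.succ_pos i
  · rw [← hm, wt, Finsupp.sum]
    have h1 : (∑ i ∈ m.support, Multiset.replicate (m i) (i + 1)).sum =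
        ∑ i ∈ m.support, (Multiset.replicate (m i) (i + 1)).sum :=
      map_sum Multiset.sumAddMonoidHom _ _
    rw [h1]
    refine Finset.sum_congr rfl fun i _ => ?_
    rw [Multiset.sum_replicate, smul_eq_mul, mul_comm]
  · ext i
    rw [expo_count, Multiset.count_sum']
    by_cases hi : i ∈ m.support
    · rw [Finset.sum_eq_single i]
      · rw [Multiset.count_replicate_self]
      · intro j _ hj
        rw [Multiset.count_replicate, if_neg (by omega)]
      · intro h
        exact absurd hi h
    · rw [Finset.sum_eq_zero]
      · rw [Finsupp.notMem_support_iff.mp hi]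
      · intro j hj
        rw [Multiset.count_replicate, if_neg]
        intro h
        have : j = i := by omega
        exact hi (this ▸ hj)

private theorem list_count (a : ℕ) (ha : a ≠ 0) (L : List ℕ) (n : ℕ) (hL : L.length ≤ n) :
    L.count a = ((Finset.range n).filter fun k => L.getD k 0 = a).card := by
  induction L generalizing n with
  | nil =>
    rw [List.count_nil]
    symm
    rw [Finset.card_eq_zero, Finset.filter_eq_empty_iff]
    intro k _
    rw [List.getD_nil]
    exact ha.symm
  | cons x L ih =>
    obtain ⟨n', rfl⟩ : ∃ n', n = n' + 1 := ⟨n - 1, by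
      rw [List.length_cons] at hL
      omega⟩
    have h1 := ih n' (by
      rw [List.length_cons] at hL
      omega)
    rw [Finset.card_filter] at h1 ⊢
    rw [Finset.sum_range_succ', List.count_cons, h1]
    simp

/-- number of rows equal to `i + 1` -/
theorem expo_apply {n : ℕ} (θ : n.Partition) (i : ℕ) :
    expo θ i = ((Finset.range n).filter fun k => row θ k = i + 1).card := by
  rw [expo_count]
  have h1 : θ.parts.count (i + 1) = (θ.parts.sort (· ≥ ·)).count (i + 1) := by
    rw [← Multiset.coe_count, Multiset.sort_eq]
  rw [h1]
  refine list_count (i + 1) (Nat.succ_ne_zero i) _ n ?_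
  rw [Multiset.length_sort]
  have h2 : θ.parts.card • 1 ≤ θ.parts.sum :=
    Multiset.card_nsmul_le_sum fun x hx => θ.parts_pos hx
  rw [θ.parts_sum] at h2
  simpa using h2

end H25BC
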