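import Pool.Agent.H25.BC.P1b

/-!
# Module P2: `f ∈ 𝓕_n` is determined by the coefficients of its realisation at the partitions

`mc_inj`: let `f ≠ 0` be homogeneous of weight `n` and choose `m` in its support with `len m`
maximal; let `μ` be the partition with `expo μ = m` (`expo_surj`). The monomial `p_{m'}` realised
in `n` variables, `∏_i (∑_k x_k^{i+1})^{m'_i}`, has only monomials `x^a` obtained by distributing
the parts of `m'` over the variables; so a monomial with `r` non-zero exponents needs
`len m' ≥ r`, and if `len m' = r = len m` every non-zero exponent is a single part, i.e. the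
non-zero exponents of `x^a` are exactly the parts of `m'`. Hence the coefficient of `x^{rows of μ}`
in `real n f` is `f_m * ∏ m_i!` (only `m' = m` contributes, and the number of ways is `∏ m_i!`;
it is enough to know that this number is a non-zero natural number). It is non-zero in
characteristic zero. Contradiction.

`norm_eps`: the coefficient of `x_1 ⋯ x_n` in `p_{m'}` is `0` unless all parts are `1`
(a part `≥ 2` gives an exponent `≥ 2`), and it is `n!` for `p_1^n` (`(∑ x_k)^n`).
`eps f` is the coefficient of `p_1^n` in `f`.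
-/

open MvPolynomial

namespace H25BC

variable {K : Type*} [Field K] [CharZero K]

/-- product of power sums in `n` variables, over the natural numbers -/
noncomputable def P2Q (n : ℕ) (w : Multiset ℕ) : MvPolynomial (Fin n) ℕ :=
  (w.map fun i => ∑ k : Fin n, (X k : MvPolynomial (Fin n) ℕ) ^ (i + 1)).prod

/-- the multiset of the non-zero exponents -/
def P2V (n : ℕ) (a : Fin n →₀ ℕ) : Multiset ℕ := a.support.val.map a

omit [CharZero K] in
private theorem P2_mon (n : ℕ) (m : ℕ →₀ ℕ) (c : K) :
    real n (monomial m c) = C c * map (Nat.castRingHom K) (P2Q n (Finsupp.toMultiset m)) := by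
  have h1 : ∀ m : ℕ →₀ ℕ, real n (monomial m (1 : K)) =
      map (Nat.castRingHom K) (P2Q n (Finsupp.toMultiset m)) := by
    intro m
    induction m using Finsupp.induction_linear with
    | zero =>
      change real n (1 : MvPolynomial ℕ K) = _
      rw [map_one, map_zero, P2Q, Multiset.map_zero, Multiset.prod_zero, map_one]
    | add m m' h h' =>
      have h2 : monomial (m + m') (1 : K) = monomial m 1 * monomial m' 1 := by
        rw [monomial_mul, one_mul]
      rw [h2, map_mul, h, h', map_add, P2Q, P2Q, P2Q, Multiset.map_add, Multiset.prod_add, map_mul]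
    | single i k =>
      have h2 : monomial (Finsupp.single i k) (1 : K) = X i ^ k := by
        rw [X_pow_eq_monomial]
      rw [h2, map_pow, Finsupp.toMultiset_single, P2Q, Multiset.map_nsmul, Multiset.prod_nsmul,
        Multiset.map_singleton, Multiset.prod_singleton, map_pow]
      congr 1
      unfold real
      rw [aeval_X, map_sum]
      refine Finset.sum_congr rfl fun k _ => ?_
      rw [map_pow, map_X]
  have h2 : monomial m c = C c * monomial m (1 : K) := by rw [C_mul_monomial, mul_one]
  rw [h2, map_mul, h1, ← algebraMap_eq, AlgHom.commutes, algebraMap_eq]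

omit [CharZero K] in
private theorem P2_coeff (n : ℕ) (f : MvPolynomial ℕ K) (a : Fin n →₀ ℕ) :
    (real n f).coeff a =
      ∑ m ∈ f.support, f.coeff m * ((coeff a (P2Q n (Finsupp.toMultiset m)) : ℕ) : K) := by
  conv_lhs => rw [f.as_sum, map_sum, coeff_sum]
  refine Finset.sum_congr rfl fun m _ => ?_
  rw [P2_mon, coeff_C_mul, coeff_map]
  rfl

private theorem P2_cons (n : ℕ) (i : ℕ) (w : Multiset ℕ) (a : Fin n →₀ ℕ) :
    coeff a (P2Q n (i ::ₘ w)) =
      ∑ k : Fin n, if i + 1 ≤ a k then coeff (a - Finsupp.single k (i + 1)) (P2Q n w) else 0 := by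
  rw [P2Q, Multiset.map_cons, Multiset.prod_cons, Finset.sum_mul, coeff_sum]
  refine Finset.sum_congr rfl fun k _ => ?_
  rw [X_pow_eq_monomial, coeff_monomial_mul', one_mul]
  simp only [Finsupp.single_le_iff]
  rfl

/-- removing one whole exponent -/
private theorem P2V_sub (n : ℕ) (a : Fin n →₀ ℕ) (k : Fin n) (i : ℕ) (h : a k = i + 1) :
    P2V n a = (i + 1) ::ₘ P2V n (a - Finsupp.single k (i + 1)) := by
  classical
  have hk : k ∈ a.support := by
    rw [Finsupp.mem_support_iff]
    omega
  have h1 : (a - Finsupp.single k (i + 1)).support = a.support.erase k := by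
    ext l
    rw [Finsupp.mem_support_iff, Finset.mem_erase, Finsupp.mem_support_iff]
    rw [Finsupp.coe_tsub, Pi.sub_apply, Finsupp.single_apply]
    by_cases hl : k = l
    · subst hl
      rw [if_pos rfl, h]
      simp
    · rw [if_neg hl]
      simp [Ne.symm hl]
  have h2 : ∀ l ∈ a.support.erase k, (a - Finsupp.single k (i + 1)) l = a l := by
    intro l hl
    have hl' := (Finset.mem_erase.1 hl).1
    rw [Finsupp.coe_tsub, Pi.sub_apply, Finsupp.single_apply, if_neg (Ne.symm hl'), Nat.sub_zero]
  unfold P2V
  rw [h1]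
  have h3 : (a.support.erase k).val.map (a - Finsupp.single k (i + 1)) =
      (a.support.erase k).val.map a := Multiset.map_congr rfl fun l hl => h2 l hl
  rw [h3, ← h, ← Multiset.map_cons, Finset.erase_val, Multiset.cons_erase hk]

private theorem P2V_card (n : ℕ) (a : Fin n →₀ ℕ) (k : Fin n) (i : ℕ) (h : i + 1 < a k) :
    (P2V n (a - Finsupp.single k (i + 1))).card = (P2V n a).card := by
  classical
  have h1 : (a - Finsupp.single k (i + 1)).support = a.support := by
    ext l
    rw [Finsupp.mem_support_iff, Finsupp.mem_support_iff]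
    rw [Finsupp.coe_tsub, Pi.sub_apply, Finsupp.single_apply]
    by_cases hl : k = l
    · subst hl
      rw [if_pos rfl]
      omega
    · rw [if_neg hl]
      simp
  unfold P2V
  rw [Multiset.card_map, Multiset.card_map, h1]

/-- the support of the coefficients -/
private theorem P2_supp (n : ℕ) (w : Multiset ℕ) (a : Fin n →₀ ℕ) (h : coeff a (P2Q n w) ≠ 0) :
    (P2V n a).card ≤ w.card ∧ (w.card ≤ (P2V n a).card → P2V n a = w.map (· + 1)) := by
  classical
  induction w using Multiset.induction_on generalizing a with
  | empty =>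
    have h1 : a = 0 := by
      rw [P2Q, Multiset.map_zero, Multiset.prod_zero, coeff_one] at h
      by_contra h2
      rw [if_neg (Ne.symm h2)] at h
      exact h rfl
    subst h1
    have h2 : P2V n 0 = 0 := by
      unfold P2V
      rw [Finsupp.support_zero, Finset.empty_val, Multiset.map_zero]
    rw [h2]
    exact ⟨le_rfl, fun _ => rfl⟩
  | cons i w ih =>
    rw [P2_cons] at h
    obtain ⟨k, _, hk⟩ := Finset.exists_ne_zero_of_sum_ne_zero h
    have hik : i + 1 ≤ a k := by
      by_contra h1
      rw [if_neg h1] at hk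
      exact hk rfl
    rw [if_pos hik] at hk
    obtain ⟨h1, h2⟩ := ih _ hk
    rcases eq_or_lt_of_le hik with h3 | h3
    · have h4 := P2V_sub n a k i h3.symm
      rw [h4, Multiset.card_cons, Multiset.card_cons, Multiset.map_cons]
      exact ⟨by omega, fun h5 => by rw [h2 (by omega)]⟩
    · have h4 := P2V_card n a k i h3
      rw [h4] at h1
      rw [Multiset.card_cons]
      exact ⟨by omega, fun h5 => by omega⟩

/-- the leading coefficient is positive -/
private theorem P2_pos (n : ℕ) (w : Multiset ℕ) (a : Fin n →₀ ℕ) (h : P2V n a = w.map (· + 1)) :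
    coeff a (P2Q n w) ≠ 0 := by
  classical
  induction w using Multiset.induction_on generalizing a with
  | empty =>
    have h1 : a = 0 := by
      rw [Multiset.map_zero] at h
      unfold P2V at h
      rw [Multiset.map_eq_zero] at h
      rw [← Finsupp.support_eq_empty]
      exact Finset.val_eq_zero.1 h
    rw [h1, P2Q, Multiset.map_zero, Multiset.prod_zero, coeff_one, if_pos rfl]
    exact one_ne_zero
  | cons i w ih =>
    have h1 : i + 1 ∈ P2V n a := by
      rw [h, Multiset.map_cons]
      exact Multiset.mem_cons_self _ _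
    unfold P2V at h1
    rw [Multiset.mem_map] at h1
    obtain ⟨k, _, hk⟩ := h1
    have h2 := P2V_sub n a k i hk
    rw [h2, Multiset.map_cons, Multiset.cons_inj_right] at h
    have h3 := ih _ h
    rw [P2_cons]
    intro h4
    rw [Finset.sum_eq_zero_iff] at h4
    have h5 := h4 k (Finset.mem_univ _)
    rw [if_pos (le_of_eq hk.symm)] at h5
    exact h3 h5

/-- the non-zero rows -/
private theorem P2_rows {n : ℕ} (μ : n.Partition) :
    P2V n (rowexp n μ) = (Finsupp.toMultiset (expo μ)).map (· + 1) := by
  classical
  ext c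
  have h1 : ∀ i, Multiset.count (i + 1) ((Finsupp.toMultiset (expo μ)).map (· + 1)) = expo μ i := by
    intro i
    rw [Multiset.count_map_eq_count' (fun x => x + 1) _ (fun a b hab => Nat.succ_injective hab),
      Finsupp.count_toMultiset]
  rcases Nat.eq_zero_or_pos c with h0 | h0
  · subst h0
    rw [Multiset.count_eq_zero_of_notMem, Multiset.count_eq_zero_of_notMem]
    · intro h2
      rw [Multiset.mem_map] at h2
      obtain ⟨x, _, hx⟩ := h2
      omega
    · unfold P2V
      intro h2
      rw [Multiset.mem_map] at h2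
      obtain ⟨x, hx, hx0⟩ := h2
      exact (Finsupp.mem_support_iff.1 hx) hx0
  · obtain ⟨i, rfl⟩ : ∃ i, c = i + 1 := ⟨c - 1, by omega⟩
    rw [h1, expo_apply]
    unfold P2V
    rw [Multiset.count_map]
    have h2 : ((rowexp n μ).support.val.filter fun k => i + 1 = rowexp n μ k).card =
        (Finset.univ.filter fun k : Fin n => row μ (k : ℕ) = i + 1).card := by
      rw [← Finset.filter_val, ← Finset.card_def]
      congr 1
      ext k
      rw [Finset.mem_filter, Finset.mem_filter, Finsupp.mem_support_iff]
      have hr : rowexp n μ k = row μ k := rfl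
      rw [hr]
      constructor
      · rintro ⟨_, h4⟩
        exact ⟨Finset.mem_univ _, h4.symm⟩
      · rintro ⟨_, h4⟩
        exact ⟨by omega, h4.symm⟩
    rw [h2]
    rw [← Finset.card_image_of_injective _ (Fin.val_injective (n := n))]
    congr 1
    ext j
    rw [Finset.mem_image, Finset.mem_filter, Finset.mem_range]
    constructor
    · rintro ⟨k, hk, rfl⟩
      exact ⟨k.2, (Finset.mem_filter.1 hk).2⟩
    · rintro ⟨hj, hj2⟩
      exact ⟨⟨j, hj⟩, Finset.mem_filter.2 ⟨Finset.mem_univ _, hj2⟩, rfl⟩

private theorem P2_len1 {n : ℕ} (m : ℕ →₀ ℕ) (h : ∀ i ≠ 0, m i = 0) (hw : wt m = n) :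
    m = Finsupp.single 0 n := by
  have h1 : m = Finsupp.single 0 (m 0) := by
    ext i
    rw [Finsupp.single_apply]
    split_ifs with h2
    · rw [h2]
    · exact h i (Ne.symm h2)
  rw [h1, wt_single] at hw
  rw [h1]
  congr 1
  omega

theorem mc_inj {n : ℕ} (f : MvPolynomial ℕ K) (hf : IsHom n f)
    (h : ∀ μ : n.Partition, (real n f).coeff (rowexp n μ) = 0) : f = 0 := by
  classical
  by_contra hne
  obtain ⟨m, hm, hmax⟩ := Finset.exists_max_image f.support len (support_nonempty.2 hne)
  obtain ⟨μ, hμ⟩ := expo_surj m (hf m (mem_support_iff.1 hm))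
  have h1 := h μ
  rw [P2_coeff, Finset.sum_eq_single m] at h1
  · rcases mul_eq_zero.1 h1 with h2 | h2
    · exact mem_support_iff.1 hm h2
    · have h3 : coeff (rowexp n μ) (P2Q n (Finsupp.toMultiset m)) ≠ 0 :=
        P2_pos n _ _ (by rw [P2_rows, hμ])
      exact h3 (by exact_mod_cast h2)
  · intro m' hm' hne'
    have h2 : coeff (rowexp n μ) (P2Q n (Finsupp.toMultiset m')) = 0 := by
      by_contra h3
      obtain ⟨h4, h5⟩ := P2_supp n _ _ h3
      have h6 : (P2V n (rowexp n μ)).card = len m := by
        rw [P2_rows, hμ, Multiset.card_map, Finsupp.card_toMultiset]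
        rfl
      have h7 := hmax m' hm'
      have h8 : (Finsupp.toMultiset m').card = len m' := by
        rw [Finsupp.card_toMultiset]
        rfl
      have h9 := h5 (by omega)
      rw [P2_rows, hμ] at h9
      apply hne'
      have h10 := Multiset.map_injective (fun a b hab => Nat.succ_injective hab) h9
      ext i
      rw [← Finsupp.count_toMultiset, ← h10, Finsupp.count_toMultiset]
    rw [h2, Nat.cast_zero, mul_zero]
  · intro h2
    exact absurd hm h2

theorem eps_eq_coeff {n : ℕ} (f : MvPolynomial ℕ K) (hf : IsHom n f) :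
    eps K f = f.coeff (Finsupp.single 0 n) := by
  classical
  have h1 : ∀ m : ℕ →₀ ℕ, ∀ c : K, eps K (monomial m c) = if ∀ i ≠ 0, m i = 0 then c else 0 := by
    intro m c
    unfold eps
    rw [aeval_monomial]
    split_ifs with h
    · rw [Finsupp.prod, Finset.prod_eq_one]
      · simp
      · intro i hi
        by_cases h2 : i = 0
        · rw [if_pos h2, one_pow]
        · exact absurd (h i h2) (Finsupp.mem_support_iff.1 hi)
    · push Not at h
      obtain ⟨i, hi, hi2⟩ := h
      rw [Finsupp.prod, Finset.prod_eq_zero (Finsupp.mem_support_iff.2 hi2), mul_zero]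
      rw [if_neg hi, zero_pow hi2]
  conv_lhs => rw [f.as_sum, map_sum]
  simp only [h1]
  by_cases h2 : Finsupp.single 0 n ∈ f.support
  · rw [Finset.sum_eq_single (Finsupp.single 0 n)]
    · rw [if_pos]
      intro i hi
      rw [Finsupp.single_apply, if_neg (Ne.symm hi)]
    · intro m hm hne
      rw [if_neg]
      intro h3
      exact hne (P2_len1 m h3 (hf m (mem_support_iff.1 hm)))
    · intro h3
      exact absurd h2 h3
  · rw [notMem_support_iff.1 h2]
    refine Finset.sum_eq_zero fun m hm => ?_
    rw [if_neg]
    intro h3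
    rw [P2_len1 m h3 (hf m (mem_support_iff.1 hm))] at hm
    exact h2 hm

private theorem P2_ones (n : ℕ) (S : Finset (Fin n)) :
    coeff (∑ k ∈ S, Finsupp.single k 1) (P2Q n (S.card • ({0} : Multiset ℕ))) =
      S.card.factorial := by
  classical
  obtain ⟨c, hc⟩ : ∃ c, S.card = c := ⟨_, rfl⟩
  induction c generalizing S with
  | zero =>
    have h1 : S = ∅ := Finset.card_eq_zero.1 hc
    subst h1
    rw [Finset.sum_empty, Finset.card_empty, zero_nsmul, P2Q, Multiset.map_zero,
      Multiset.prod_zero, coeff_one, if_pos rfl, Nat.factorial_zero]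
  | succ c ih =>
    rw [hc]
    have h1 : (c + 1) • ({0} : Multiset ℕ) = 0 ::ₘ (c • ({0} : Multiset ℕ)) := by
      rw [succ_nsmul, add_comm, Multiset.singleton_add]
    have hval : ∀ k, (∑ k ∈ S, Finsupp.single k 1 : Fin n →₀ ℕ) k = if k ∈ S then 1 else 0 := by
      intro k
      rw [Finsupp.finsetSum_apply]
      simp only [Finsupp.single_apply]
      rw [Finset.sum_ite_eq']
    rw [h1, P2_cons]
    have h2 : ∀ k : Fin n, (if 0 + 1 ≤ (∑ k ∈ S, Finsupp.single k 1 : Fin n →₀ ℕ) k then
        coeff ((∑ k ∈ S, Finsupp.single k 1 : Fin n →₀ ℕ) - Finsupp.single k (0 + 1))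
          (P2Q n (c • ({0} : Multiset ℕ))) else 0) = if k ∈ S then c.factorial else 0 := by
      intro k
      rw [hval]
      by_cases hk : k ∈ S
      · rw [if_pos hk, if_pos hk, if_pos (by norm_num)]
        have h3 : (∑ k ∈ S, Finsupp.single k 1 : Fin n →₀ ℕ) - Finsupp.single k (0 + 1) =
            ∑ k ∈ S.erase k, Finsupp.single k 1 := by
          rw [← Finset.add_sum_erase S _ hk, zero_add, add_tsub_cancel_left]
        have h4 : (S.erase k).card = c := by
          rw [Finset.card_erase_of_mem hk, hc, Nat.add_sub_cancel]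
        have h5 := ih (S.erase k) h4
        rw [h4] at h5
        rw [h3, h5]
      · rw [if_neg hk, if_neg hk, if_neg (by norm_num)]
    rw [Finset.sum_congr rfl fun k _ => h2 k, Finset.sum_ite_mem, Finset.univ_inter,
      Finset.sum_const, hc, smul_eq_mul, Nat.factorial_succ]

theorem norm_eps {n : ℕ} (f : MvPolynomial ℕ K) (hf : IsHom n f) :
    (real n f).coeff (Finsupp.equivFunOnFinite.symm fun _ => 1) = (n.factorial : K) * eps K f := by
  classical
  rw [P2_coeff, eps_eq_coeff f hf]
  have h1 : ∀ m ∈ f.support, m ≠ Finsupp.single 0 n →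
      coeff (Finsupp.equivFunOnFinite.symm fun _ => 1 : Fin n →₀ ℕ)
        (P2Q n (Finsupp.toMultiset m)) = 0 := by
    intro m hm hne
    by_contra h2
    apply hne
    refine P2_len1 m (fun i hi => ?_) (hf m (mem_support_iff.1 hm))
    by_contra h3
    have h4 : i ∈ Finsupp.toMultiset m := by
      rw [Finsupp.mem_toMultiset, Finsupp.mem_support_iff]
      exact h3
    obtain ⟨w, hw⟩ := Multiset.exists_cons_of_mem h4
    rw [hw, P2_cons] at h2
    apply h2
    refine Finset.sum_eq_zero fun k _ => ?_
    rw [if_neg]
    intro h5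
    have h6 : (Finsupp.equivFunOnFinite.symm fun _ => 1 : Fin n →₀ ℕ) k = 1 := rfl
    rw [h6] at h5
    omega
  have h2 : coeff (Finsupp.equivFunOnFinite.symm fun _ => 1 : Fin n →₀ ℕ)
      (P2Q n (Finsupp.toMultiset (Finsupp.single 0 n))) = n.factorial := by
    have h3 := P2_ones n (Finset.univ : Finset (Fin n))
    rw [Finset.card_univ, Fintype.card_fin] at h3
    rw [Finsupp.toMultiset_single]
    rw [← h3]
    congr 1
    ext k
    simp
  by_cases h3 : Finsupp.single 0 n ∈ f.support
  · rw [Finset.sum_eq_single (Finsupp.single 0 n)]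
    · rw [h2, mul_comm]
    · intro m hm hne
      rw [h1 m hm hne, Nat.cast_zero, mul_zero]
    · intro h4
      exact absurd h3 h4
  · rw [notMem_support_iff.1 h3, mul_zero]
    refine Finset.sum_eq_zero fun m hm => ?_
    rw [h1 m hm (fun h4 => h3 (h4 ▸ hm)), Nat.cast_zero, mul_zero]

end H25BC
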