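import Pool.Agent.H25.BC.P2
import Pool.Agent.H25.BC.A6b

/-!
# Module P3: the Jack functions form an orthogonal basis

`J_n θ ≠ 0` and `eps (J n θ) = 1` by `norm_eps` and `hJ.norm`. `nrm ≠ 0` by `han` (`N = 1`).
`basis_expand`: the space `𝓕_n = {f | IsHom n f}` has the basis of monomials `p_m`, `wt m = n`, so
its dimension is the number of partitions of `n` (`expo` is a bijection); the `J n θ` are linearly
independent (pair with `J n φ`: orthogonality, `nrm ≠ 0`), so they span; the coefficients are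
obtained by pairing. Alternatively: `f - ∑ ..` is orthogonal to all `J n φ`; hence orthogonal to
everything in `𝓕_n`, in particular to itself, and `han` gives `0`.
`X_mul_J`: `basis_expand` for `X j * J n θ` (weight `n+j+1`).
`aop_J`: `basis_expand` for `aop al j (J φ)`, and
`pair (aop_j J_φ) J_θ = pair (X_j J_θ) J_φ = kap * nrm φ` (`pair_X_mul`, `pair_comm`).
`J_zero`: `J 0 θ` is a constant (weight `0`), equal to `eps (J 0 θ) = 1`.
-/

open MvPolynomial

namespace H25BC

variable {K : Type*} [Field K] [CharZero K] {al : K}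
  {J : ∀ n : ℕ, n.Partition → MvPolynomial ℕ K}

theorem eps_J (hJ : IsJack al J) (n : ℕ) (θ : n.Partition) : eps K (J n θ) = 1 := by
  have h1 := norm_eps (J n θ) (hJ.hom n θ)
  rw [hJ.norm] at h1
  have h2 : (n.factorial : K) ≠ 0 := by exact_mod_cast n.factorial_ne_zero
  have h3 : (n.factorial : K) * 1 = (n.factorial : K) * eps K (J n θ) := by rw [mul_one]; exact h1
  exact (mul_left_cancel₀ h2 h3).symm

theorem J_ne_zero (hJ : IsJack al J) (n : ℕ) (θ : n.Partition) : J n θ ≠ 0 := by
  intro h
  have h1 := eps_J hJ n θ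
  rw [h, map_zero] at h1
  exact zero_ne_one h1

theorem nrm_ne_zero (hJ : IsJack al J) (han : Aniso al) (n : ℕ) (θ : n.Partition) :
    nrm al J n θ ≠ 0 := by
  intro h
  refine J_ne_zero hJ n θ (han 1 (fun _ => J n θ) ?_ 0 Nat.one_pos)
  rw [Finset.sum_range_one]
  exact h

theorem p3_ext {n : ℕ} {f g : MvPolynomial ℕ K} (hf : IsHom n f) (hg : IsHom n g)
    (h : ∀ μ : n.Partition, f.coeff (expo μ) = g.coeff (expo μ)) : f = g := by
  apply MvPolynomial.ext
  intro m
  by_cases hm : wt m = n
  · obtain ⟨μ, rfl⟩ := expo_surj m hm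
    exact h μ
  · have h1 : f.coeff m = 0 := by
      by_contra hc
      exact hm (hf m hc)
    have h2 : g.coeff m = 0 := by
      by_contra hc
      exact hm (hg m hc)
    rw [h1, h2]

theorem p3_coeff {n : ℕ} (c : n.Partition → K) (m : ℕ →₀ ℕ) :
    (∑ θ : n.Partition, C (c θ) * J n θ).coeff m = ∑ θ : n.Partition, c θ * (J n θ).coeff m := by
  rw [coeff_sum]
  exact Finset.sum_congr rfl fun θ _ => coeff_C_mul _ _ _

theorem p3_hom (hJ : IsJack al J) {n : ℕ} (c : n.Partition → K) :
    IsHom n (∑ θ : n.Partition, C (c θ) * J n θ) := by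
  intro m hm
  rw [p3_coeff] at hm
  obtain ⟨θ, _, h⟩ := Finset.exists_ne_zero_of_sum_ne_zero hm
  exact hJ.hom n θ m (right_ne_zero_of_mul h)

theorem p3_pair (hJ : IsJack al J) {n : ℕ} (c : n.Partition → K) (φ : n.Partition) :
    pair al (∑ θ : n.Partition, C (c θ) * J n θ) (J n φ) = c φ * nrm al J n φ := by
  rw [pair_sum_left, Finset.sum_eq_single φ]
  · rw [pair_C_mul_left]
    rfl
  · intro θ _ hne
    rw [pair_C_mul_left, hJ.orth n θ φ hne, mul_zero]
  · intro h
    exact absurd (Finset.mem_univ _) h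

/-- coordinates of the linear combinations of the Jack functions -/
noncomputable def p3_map (J : ∀ n : ℕ, n.Partition → MvPolynomial ℕ K) (n : ℕ) :
    (n.Partition → K) →ₗ[K] (n.Partition → K) where
  toFun c := fun μ => ∑ θ : n.Partition, c θ * (J n θ).coeff (expo μ)
  map_add' c d := by
    funext μ
    rw [Pi.add_apply, ← Finset.sum_add_distrib]
    exact Finset.sum_congr rfl fun θ _ => by rw [Pi.add_apply, add_mul]
  map_smul' a c := by
    funext μ
    rw [Pi.smul_apply, smul_eq_mul, Finset.mul_sum]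
    exact Finset.sum_congr rfl fun θ _ => by
      rw [Pi.smul_apply, smul_eq_mul, RingHom.id_apply, mul_assoc]

theorem p3_surj (hJ : IsJack al J) (han : Aniso al) (n : ℕ) :
    Function.Surjective (p3_map J n) := by
  apply LinearMap.surjective_of_injective
  rw [← LinearMap.ker_eq_bot, LinearMap.ker_eq_bot']
  intro c hc
  have h1 : (∑ θ : n.Partition, C (c θ) * J n θ) = 0 := by
    refine p3_ext (n := n) (p3_hom hJ c) (fun m hm => absurd (coeff_zero m) hm) ?_
    intro μ
    rw [p3_coeff, coeff_zero]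
    exact congrFun hc μ
  funext φ
  have h2 := p3_pair hJ c φ
  rw [h1, pair_zero_left] at h2
  exact (mul_eq_zero.1 h2.symm).resolve_right (nrm_ne_zero hJ han n φ)

theorem basis_expand (hJ : IsJack al J) (han : Aniso al) {n : ℕ} (f : MvPolynomial ℕ K)
    (hf : IsHom n f) :
    f = ∑ θ : n.Partition, C ((nrm al J n θ)⁻¹ * pair al f (J n θ)) * J n θ := by
  obtain ⟨c, hc⟩ := p3_surj hJ han n (fun μ => f.coeff (expo μ))
  have h1 : f = ∑ θ : n.Partition, C (c θ) * J n θ := by
    refine p3_ext (n := n) hf (p3_hom hJ c) ?_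
    intro μ
    rw [p3_coeff]
    exact (congrFun hc μ).symm
  have h2 : ∀ φ : n.Partition, (nrm al J n φ)⁻¹ * pair al f (J n φ) = c φ := by
    intro φ
    have h3 := p3_pair hJ c φ
    rw [← h1] at h3
    rw [h3, mul_comm (c φ), inv_mul_cancel_left₀ (nrm_ne_zero hJ han n φ)]
  calc f = ∑ θ : n.Partition, C (c θ) * J n θ := h1
    _ = _ := Finset.sum_congr rfl fun θ _ => by rw [h2]

end H25BC
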