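import Pool.Agent.H25.BC.Def

/-!
# Module R1: the operator `dd k j = x_j (1 - s_{kj}) / (x_k - x_j)`

* `dd_mul`: check on monomials `x^a`. If `a_j < a_k`, with `c` the monomial of the other variables:
  `(x_k - x_j) ∑_{i < a_k-a_j} x_k^{a_j+i} x_j^{a_k-i} = x_k^{a_k} x_j^{a_j+1} - x_k^{a_j} x_j^{a_k+1}`
  (telescoping) `= x_j (x^a - s x^a)`. Similarly in the other case.
* `dd_sym`: multiply by `x_k - x_j ≠ 0`: `(x_k - x_j) dd(g F) = x_j (gF - s(g) s(F))
  = x_j (g - s g) F = (x_k - x_j) dd(g) F`; cancel (`MvPolynomial` over a field is a domain).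
* `dd_pow`: `(x_k - x_j) ∑_{a<m} x_k^a x_j^{m-a} = x_j (x_k^m - x_j^m)`; cancel.
-/

open MvPolynomial

namespace H25BC

variable {K : Type*} [Field K] {N : ℕ}

theorem dd_mon1 (k j : Fin N) (a : Fin N →₀ ℕ) : dd k j (monomial a (1 : K)) =
    if a j < a k then
      ∑ i ∈ Finset.range (a k - a j),
        monomial (Finsupp.update (Finsupp.update a k (a j + i)) j (a k - i)) (1 : K)
    else
      - ∑ i ∈ Finset.range (a j - a k),
        monomial (Finsupp.update (Finsupp.update a k (a k + i)) j (a j - i)) (1 : K) := by
  unfold dd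
  have h1 : monomial a (1 : K) = basisMonomials (Fin N) K a := by
    rw [coe_basisMonomials]
  rw [h1, Module.Basis.constr_basis]

private theorem dd_fac (k j : Fin N) (hkj : k ≠ j) (a : Fin N →₀ ℕ) (x y : ℕ) :
    monomial (Finsupp.update (Finsupp.update a k x) j y) (1 : K) =
      X k ^ x * X j ^ y * monomial (Finsupp.update (Finsupp.update a k 0) j 0) (1 : K) := by
  rw [X_pow_eq_monomial, X_pow_eq_monomial, monomial_mul, monomial_mul, one_mul, one_mul]
  refine congrArg (fun e => monomial e (1 : K)) ?_
  ext i
  simp only [Finsupp.coe_update, Finsupp.add_apply]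
  by_cases h1 : i = j
  · rw [h1]
    simp [hkj]
  · by_cases h2 : i = k
    · rw [h2]
      simp [hkj]
    · simp [h1, h2, Function.update_of_ne, Finsupp.single_apply, Ne.symm h1, Ne.symm h2]

private theorem dd_ne (k j : Fin N) (hkj : k ≠ j) : (X k - X j : MvPolynomial (Fin N) K) ≠ 0 := by
  rw [sub_ne_zero]
  intro h
  exact hkj (X_injective h)

theorem dd_mul (k j : Fin N) (hkj : k ≠ j) (g : MvPolynomial (Fin N) K) :
    (X k - X j) * dd k j g = X j * (g - rename (Equiv.swap k j) g) := by
  classical
  have hk : ∀ a : Fin N →₀ ℕ, (X k - X j) * dd k j (monomial a (1 : K)) =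
      X j * (monomial a (1 : K) - rename (Equiv.swap k j) (monomial a (1 : K))) := by
    intro a
    obtain ⟨R, hR⟩ : ∃ R, R = monomial (Finsupp.update (Finsupp.update a k 0) j 0) (1 : K) :=
      ⟨_, rfl⟩
    have h1 : ∀ x y, monomial (Finsupp.update (Finsupp.update a k x) j y) (1 : K) =
        X k ^ x * X j ^ y * R := by
      intro x y
      rw [hR]
      exact dd_fac k j hkj a x y
    have h2 : monomial a (1 : K) = X k ^ (a k) * X j ^ (a j) * R := by
      rw [← h1]
      refine congrArg (fun e => monomial e (1 : K)) ?_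
      ext i
      by_cases h3 : i = j
      · rw [h3]
        simp
      · by_cases h4 : i = k
        · rw [h4]
          simp [hkj]
        · simp [h3, h4, Function.update_of_ne]
    have h3 : rename (Equiv.swap k j) (monomial a (1 : K)) = X k ^ (a j) * X j ^ (a k) * R := by
      have h4 : rename (Equiv.swap k j) R = R := by
        rw [hR, rename_monomial]
        refine congrArg (fun e => monomial e (1 : K)) ?_
        ext i
        rw [Finsupp.mapDomain_equiv_apply]
        rw [Equiv.symm_swap]
        by_cases h3 : i = j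
        · rw [h3]
          simp [hkj]
        · by_cases h4 : i = k
          · rw [h4]
            simp [hkj]
          · rw [Equiv.swap_apply_of_ne_of_ne h4 h3]
      rw [h2, map_mul, map_mul, map_pow, map_pow, rename_X, rename_X, h4, Equiv.swap_apply_left,
        Equiv.swap_apply_right]
      ring
    rw [h3, dd_mon1, h2]
    split_ifs with h5
    · obtain ⟨d, hd⟩ := Nat.exists_eq_add_of_lt h5
      have h6 : a k - a j = d + 1 := by omega
      have h7 : ∀ i ∈ Finset.range (d + 1),
          monomial (Finsupp.update (Finsupp.update a k (a j + i)) j (a k - i)) (1 : K) =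
          (X k ^ (a j) * X j ^ (a j + 1) * R) * (X k ^ i * X j ^ (d + 1 - 1 - i)) := by
        intro i hi
        have := Finset.mem_range.1 hi
        rw [h1]
        have h8 : a k - i = (a j + 1) + (d + 1 - 1 - i) := by omega
        rw [h8, pow_add, pow_add]
        ring
      rw [h6, Finset.sum_congr rfl h7, ← Finset.mul_sum]
      have h9 := (Commute.all (X k : MvPolynomial (Fin N) K) (X j)).geom_sum₂_mul (d + 1)
      have h10 : a k = a j + (d + 1) := by omega
      rw [h10, pow_add, pow_add (X j) (a j) (d + 1)]
      calc _ = (X k ^ (a j) * X j ^ (a j + 1) * R) *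
            ((∑ i ∈ Finset.range (d + 1), X k ^ i * X j ^ (d + 1 - 1 - i)) * (X k - X j)) := by
            ring
        _ = _ := by
            rw [h9]
            ring
    · obtain ⟨d, hd⟩ := Nat.exists_eq_add_of_le (not_lt.1 h5)
      have h6 : a j - a k = d := by omega
      have h7 : ∀ i ∈ Finset.range d,
          monomial (Finsupp.update (Finsupp.update a k (a k + i)) j (a j - i)) (1 : K) =
          (X k ^ (a k) * X j ^ (a k + 1) * R) * (X k ^ i * X j ^ (d - 1 - i)) := by
        intro i hi
        have := Finset.mem_range.1 hi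
        rw [h1]
        have h8 : a j - i = (a k + 1) + (d - 1 - i) := by omega
        rw [h8, pow_add, pow_add]
        ring
      rw [h6, Finset.sum_congr rfl h7, ← Finset.mul_sum]
      have h9 := (Commute.all (X k : MvPolynomial (Fin N) K) (X j)).geom_sum₂_mul d
      rw [hd, pow_add, pow_add (X k) (a k) d]
      calc _ = - ((X k ^ (a k) * X j ^ (a k + 1) * R) *
            ((∑ i ∈ Finset.range d, X k ^ i * X j ^ (d - 1 - i)) * (X k - X j))) := by
            ring
        _ = _ := by
            rw [h9]
            ring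
  induction g using MvPolynomial.induction_on' with
  | monomial a c =>
    have h1 : monomial a c = C c * monomial a (1 : K) := by rw [C_mul_monomial, mul_one]
    have h2 : dd k j (monomial a c) = C c * dd k j (monomial a (1 : K)) := by
      have h3 : monomial a c = c • monomial a (1 : K) := by
        rw [smul_monomial, smul_eq_mul, mul_one]
      rw [h3, map_smul, smul_eq_C_mul]
    rw [h2, h1, map_mul, rename_C]
    calc _ = C c * ((X k - X j) * dd k j (monomial a (1 : K))) := by ring
      _ = _ := by
          rw [hk]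
          ring
  | add p q hp hq =>
    rw [map_add, map_add, mul_add, hp, hq]
    ring

theorem dd_sym (k j : Fin N) (hkj : k ≠ j) (g F : MvPolynomial (Fin N) K)
    (hF : rename (Equiv.swap k j) F = F) : dd k j (g * F) = dd k j g * F := by
  apply mul_left_cancel₀ (dd_ne k j hkj)
  rw [dd_mul k j hkj, ← mul_assoc, dd_mul k j hkj, map_mul, hF]
  ring

theorem dd_pow (k j : Fin N) (hkj : k ≠ j) (m : ℕ) :
    dd k j ((X k : MvPolynomial (Fin N) K) ^ m) =
      ∑ a ∈ Finset.range m, (X k) ^ a * (X j) ^ (m - a) := by
  apply mul_left_cancel₀ (dd_ne k j hkj)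
  rw [dd_mul k j hkj, map_pow, rename_X, Equiv.swap_apply_left]
  have h1 : ∀ a ∈ Finset.range m, (X k : MvPolynomial (Fin N) K) ^ a * X j ^ (m - a) =
      X j * (X k ^ a * X j ^ (m - 1 - a)) := by
    intro a ha
    have := Finset.mem_range.1 ha
    have h2 : m - a = (m - 1 - a) + 1 := by omega
    rw [h2, pow_succ]
    ring
  rw [Finset.sum_congr rfl h1, ← Finset.mul_sum]
  have h3 := (Commute.all (X k : MvPolynomial (Fin N) K) (X j)).geom_sum₂_mul m
  rw [← h3]
  ring

end H25BC
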