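import Pool.Agent.H25.BC.A1
import Pool.Agent.H25.BC.R1

/-!
# Module R2: in `N` variables `Λ` is the Dunkl operator

`realV k (w^j f) = x_k^j F`, `F = real N f`, a symmetric polynomial (`real_swap`).
* `realV_DD`: `realV k (DD f) = al x_k ∂_k F`: both sides are derivations in `f` along
  `real N`; on `X i`: `al (i+1) x_k^{i+1}`.
* `realV_Lam`: by linearity `v = w^m f`. By `Lam_monomial`
  `realV k (Λ(w^m f)) = x_k^m al x_k ∂_k F + ∑_{i<m} x_k^{m-1-i} P_{i+1} F + b m x_k^m F` with
  `P_i = ∑_l x_l^i`. On the other side `al x_k ∂_k (x_k^m F) = al m x_k^m F + x_k^m al x_k ∂_k F`,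
  and by `dd_sym`, `dd_pow`, `∑_{j≠k} dd k j (x_k^m F) = F ∑_{a<m} x_k^a ∑_{j≠k} x_j^{m-a}
  = F ∑_{a<m} x_k^a (P_{m-a} - x_k^{m-a}) = F (∑_{i<m} x_k^{m-1-i} P_{i+1} - m x_k^m)`.
  Finally `al m - m = b m`.
* `sum_realV`: check on `w^j f`: `∑_k x_k^j F = P_j F` for `j ≥ 1`, `N F` for `j = 0`.
-/

open MvPolynomial

namespace H25BC

variable {K : Type*} [Field K] {N : ℕ} (al b : K)

theorem real_perm (σ : Equiv.Perm (Fin N)) (f : MvPolynomial ℕ K) :
    rename σ (real N f) = real N f := by
  have h : (rename σ : MvPolynomial (Fin N) K →ₐ[K] MvPolynomial (Fin N) K).comp (real N) =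
      real N := by
    apply algHom_ext
    intro i
    rw [AlgHom.comp_apply]
    unfold real
    rw [aeval_X, map_sum]
    simp only [map_pow, rename_X]
    exact Equiv.sum_comp σ fun k => (X k : MvPolynomial (Fin N) K) ^ (i + 1)
  exact DFunLike.congr_fun h f

theorem real_swap (k j : Fin N) (f : MvPolynomial ℕ K) :
    rename (Equiv.swap k j) (real N f) = real N f := by
  exact real_perm _ f

theorem realV_monomial (k : Fin N) (j : ℕ) (f : MvPolynomial ℕ K) :
    realV k (Polynomial.monomial j f) = (X k) ^ j * real N f := by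
  unfold realV
  rw [Polynomial.coe_eval₂RingHom, Polynomial.eval₂_monomial, mul_comm]
  rfl

theorem realV_DD (k : Fin N) (f : MvPolynomial ℕ K) :
    realV k (DD al f) = C al * X k * pderiv k (real N f) := by
  induction f using MvPolynomial.induction_on with
  | C c =>
    have h1 : DD al (C c) = 0 := by
      rw [← algebraMap_eq]
      exact Derivation.map_algebraMap _ _
    have h2 : real N (C c : MvPolynomial ℕ K) = C c := by
      rw [← algebraMap_eq, AlgHom.commutes, algebraMap_eq]
    rw [h1, h2, map_zero, pderiv_C, mul_zero]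
  | add p q hp hq =>
    rw [map_add, map_add, hp, hq, map_add, map_add, mul_add]
  | mul_X p i hp =>
    have h1 : DD al (X i : MvPolynomial ℕ K) =
        Polynomial.monomial (i + 1) (C (al * ((i : K) + 1))) := by
      unfold DD
      rw [mkDerivation_X]
    have h2 : realV k (Polynomial.C p : Polynomial (MvPolynomial ℕ K)) = real N p := by
      rw [← Polynomial.monomial_zero_left, realV_monomial, pow_zero, one_mul]
    have h3 : realV k (Polynomial.C (X i) : Polynomial (MvPolynomial ℕ K)) = real N (X i) := by
      rw [← Polynomial.monomial_zero_left, realV_monomial, pow_zero, one_mul]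
    have h4 : real N (X i : MvPolynomial ℕ K) = ∑ l : Fin N, X l ^ (i + 1) := by
      unfold real
      rw [aeval_X]
    have h5 : pderiv k (real N (X i : MvPolynomial ℕ K)) = C ((i : K) + 1) * X k ^ i := by
      rw [h4, map_sum, Finset.sum_eq_single k]
      · rw [pderiv_pow, pderiv_X_self, mul_one, Nat.add_sub_cancel]
        simp
      · intro l _ hl
        rw [pderiv_pow, pderiv_X_of_ne hl, mul_zero]
      · intro h
        exact absurd (Finset.mem_univ _) h
    rw [Derivation.leibniz, map_add, Polynomial.smul_eq_C_mul, Polynomial.smul_eq_C_mul,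
      map_mul (realV k), map_mul (realV k), hp, h1, h2, h3, realV_monomial,
      map_mul (real N) p (X i), Derivation.leibniz, h5]
    have h6 : real N (C (al * ((i : K) + 1)) : MvPolynomial ℕ K) = C al * C ((i : K) + 1) := by
      rw [← algebraMap_eq, AlgHom.commutes, algebraMap_eq, C_mul]
    rw [h6, smul_eq_mul, smul_eq_mul, pow_succ]
    ring

theorem dunkl_add (k : Fin N) (g h : MvPolynomial (Fin N) K) :
    dunkl al k (g + h) = dunkl al k g + dunkl al k h := by
  unfold dunkl
  simp only [map_add, mul_add, Finset.sum_add_distrib]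
  ring

theorem dunkl_sum {ι : Type*} (s : Finset ι) (k : Fin N) (g : ι → MvPolynomial (Fin N) K) :
    dunkl al k (∑ i ∈ s, g i) = ∑ i ∈ s, dunkl al k (g i) := by
  classical
  induction s using Finset.induction_on with
  | empty =>
    simp [dunkl]
  | insert a s ha ih => rw [Finset.sum_insert ha, Finset.sum_insert ha, dunkl_add, ih]

theorem realV_Lam (hb : b = al - 1) (k : Fin N) (v : Polynomial (MvPolynomial ℕ K)) :
    realV k (Lam al b v) = dunkl al k (realV k v) := by
  induction v using Polynomial.induction_on' with
  | add p q hp hq => rw [map_add, map_add, hp, hq, map_add, dunkl_add]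
  | monomial m f =>
    have hX : realV k (Polynomial.X : Polynomial (MvPolynomial ℕ K)) = X k := by
      unfold realV
      rw [Polynomial.coe_eval₂RingHom, Polynomial.eval₂_X]
    have hC : ∀ c : K, real N (C c : MvPolynomial ℕ K) = C c := by
      intro c
      rw [← algebraMap_eq, AlgHom.commutes, algebraMap_eq]
    have hP : ∀ i, real N (X i : MvPolynomial ℕ K) = ∑ l : Fin N, X l ^ (i + 1) := by
      intro i
      unfold real
      rw [aeval_X]
    set F := real N f with hF
    rw [Lam_monomial, map_add, map_add, map_mul, map_pow, hX, realV_DD, map_sum, realV_monomial,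
      realV_monomial, map_mul, hC]
    simp only [realV_monomial, map_mul, hP]
    rw [← hF]
    -- the other side
    have h1 : ∀ j ∈ Finset.univ.erase k, dd k j (X k ^ m * F) =
        ∑ a ∈ Finset.range m, X k ^ a * X j ^ (m - a) * F := by
      intro j hj
      have hkj : k ≠ j := fun h => (Finset.mem_erase.1 hj).1 h.symm
      rw [dd_sym k j hkj _ _ (real_swap k j f), dd_pow k j hkj, Finset.sum_mul]
    have h2 : ∑ j ∈ Finset.univ.erase k, ∑ a ∈ Finset.range m,
        (X k : MvPolynomial (Fin N) K) ^ a * X j ^ (m - a) * F =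
        ∑ a ∈ Finset.range m, X k ^ a * (∑ l : Fin N, X l ^ (m - a)) * F - (m : K) • (X k ^ m * F) := by
      rw [Finset.sum_comm]
      have h3 : ∀ a ∈ Finset.range m, ∑ j ∈ Finset.univ.erase k,
          (X k : MvPolynomial (Fin N) K) ^ a * X j ^ (m - a) * F =
          X k ^ a * (∑ l : Fin N, X l ^ (m - a)) * F - X k ^ m * F := by
        intro a ha
        have ha' := Finset.mem_range.1 ha
        rw [← Finset.add_sum_erase _ _ (Finset.mem_univ k), mul_add, add_mul, ← pow_add,
          Nat.add_sub_cancel' ha'.le, Finset.mul_sum, Finset.sum_mul]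
        ring
      rw [Finset.sum_congr rfl h3, Finset.sum_sub_distrib, Finset.sum_const, Finset.card_range]
      congr 1
      rw [nsmul_eq_mul, smul_eq_C_mul]
      simp
    have h4 : ∑ i ∈ Finset.range m, (X k : MvPolynomial (Fin N) K) ^ (m - 1 - i) *
        ((∑ l : Fin N, X l ^ (i + 1)) * F) =
        ∑ a ∈ Finset.range m, X k ^ a * (∑ l : Fin N, X l ^ (m - a)) * F := by
      rw [← Finset.sum_range_reflect]
      refine Finset.sum_congr rfl fun a ha => ?_
      have ha' := Finset.mem_range.1 ha
      have h5 : m - 1 - (m - 1 - a) = a := by omega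
      have h6 : m - 1 - a + 1 = m - a := by omega
      rw [h5, h6]
      ring
    have h7 : C al * X k * pderiv k (X k ^ m * F) =
        (al * m) • (X k ^ m * F) + X k ^ m * (C al * X k * pderiv k F) := by
      rw [Derivation.leibniz, pderiv_pow, pderiv_X_self, smul_eq_mul, smul_eq_mul, smul_eq_C_mul,
        C_mul]
      rcases Nat.eq_zero_or_pos m with h0 | h0
      · subst h0
        simp
      · have h8 : (X k : MvPolynomial (Fin N) K) ^ m = X k ^ (m - 1) * X k := by
          rw [← pow_succ, Nat.sub_add_cancel h0]
        have h9 : (C (m : K) : MvPolynomial (Fin N) K) = (m : MvPolynomial (Fin N) K) := by simp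
        rw [h9]
        conv_rhs => rw [h8]
        rw [h8]
        ring
    unfold dunkl
    rw [h7, Finset.sum_congr rfl h1, h2, h4, hb]
    simp only [smul_eq_C_mul, C_mul, C_sub, C_1]
    ring

theorem sum_realV (v : Polynomial (MvPolynomial ℕ K)) :
    ∑ k : Fin N, realV k v = real N (Theta K v) + C (N : K) * real N (v.coeff 0) := by
  induction v using Polynomial.induction_on' with
  | add p q hp hq =>
    simp only [map_add, Finset.sum_add_distrib, Polynomial.coeff_add, mul_add]
    rw [hp, hq]
    ring
  | monomial m f =>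
    simp only [realV_monomial]
    rcases Nat.eq_zero_or_pos m with h0 | h0
    · subst h0
      rw [Theta_monomial_zero, map_zero, zero_add, Polynomial.coeff_monomial, if_pos rfl]
      simp
    · obtain ⟨n, rfl⟩ : ∃ n, m = n + 1 := ⟨m - 1, by omega⟩
      rw [Theta_monomial_succ, Polynomial.coeff_monomial, if_neg (by omega), map_zero, mul_zero,
        add_zero, map_mul, ← Finset.sum_mul]
      congr 1
      unfold real
      rw [aeval_X]

/-- renaming the variables moves the distinguished one -/
theorem realV_rename (k : Fin N) (σ : Equiv.Perm (Fin N)) (v : Polynomial (MvPolynomial ℕ K)) :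
    rename σ (realV k v) = realV (σ k) v := by
  induction v using Polynomial.induction_on' with
  | add p q hp hq => rw [map_add, map_add, hp, hq, map_add]
  | monomial m f =>
    rw [realV_monomial, realV_monomial, map_mul, map_pow, rename_X, real_perm]

end H25BC
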