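import Pool.Agent.H25.BC.A1
import Pool.Agent.H25.BC.A2

/-!
# Module W2: the filtration by `wt γ + rank + w-degree`

`S = MvPolynomial ℕ R` (variables `g_l = X l`, weight `l+1`). `OrdV k v`: every monomial
`g^γ p_m w^j` of `v` satisfies `k ≤ wt γ + rk m + j`, `rk m = ∑ i m_i`.
* `a_i` lowers `rk` by `i`, `w^{i+1}` raises: the part `w^{i+1} a_i` raises the order by `1`; the
  part `X_i · (lowering of w by i+1)` lowers it by `1`; `b w d/dw` keeps it. So
  `OrdV (k+1) v → OrdV k (Λ v)`, and with `Mlow (w^j f) = ∑_{i<j} w^{j-1-i} X_i f` (the third part of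
  `Λ`), `OrdV k v → OrdV k (Λ v - Mlow v)`.
* `X l • Λ^{l+1} v` keeps `OrdV k`, and `X l • (Λ^{l+1} v - Mlow^{l+1} v)` gives `OrdV (k+1)`
  (telescoping `Λ^{l+1} - M^{l+1} = ∑ Λ^{a} (Λ - M) M^{l-a}`; `M` also lowers by at most `1`).
* `w` raises by `1`, `Θ` lowers by `1`.
Hence `Bop j` maps `Ord k` to `Ord (k+j)` and, modulo `Ord (k+j+1)`, it is the same expression with
`M` in place of `Λ`; as `M` is `S[p]`-linear this is multiplication by
`beta j = Θ ((w G(M))^{j+1} 1)`. So `Bword l 1 ≡ ∏ beta` modulo `Ord (l.sum + 1)`, `∏ beta` and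
`Bword l 1` are in `Ord l.sum`. Applying `eps` (which keeps only monomials with `rk m = 0`):
`W_low` and `W_lead`.
-/

open MvPolynomial

namespace H25BC

/-- lowering part of `Λ` -/
noncomputable def Mlow (S : Type*) [CommRing S] :
    Polynomial (MvPolynomial ℕ S) →ₗ[S] Polynomial (MvPolynomial ℕ S) :=
  Polynomial.lsum fun j => ∑ i ∈ Finset.range j,
    ((Polynomial.monomial (R := MvPolynomial ℕ S) (j - 1 - i)).restrictScalars S) ∘ₗ
      (LinearMap.mulLeft S (X i : MvPolynomial ℕ S))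

/-- `beta_j = Θ ((w (1 + ∑_{l<L} g_l M^{l+1}))^{j+1} 1)` -/
noncomputable def beta {S : Type*} [CommRing S] (L : ℕ) (g : ℕ → S) (j : ℕ) : MvPolynomial ℕ S :=
  Theta S (((Xl S ∘ₗ (LinearMap.id + ∑ l ∈ Finset.range L, g l • (Mlow S) ^ (l + 1))) ^ (j + 1)) 1)

private def w2rk (m : ℕ →₀ ℕ) : ℕ := m.sum fun i k => i * k

private theorem w2rk_add (m m' : ℕ →₀ ℕ) : w2rk (m + m') = w2rk m + w2rk m' := by
  unfold w2rk
  exact Finsupp.sum_add_index' (fun _ => by simp) (fun _ _ _ => by ring)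

private theorem w2rk_single (i : ℕ) : w2rk (Finsupp.single i 1) = i := by
  unfold w2rk
  rw [Finsupp.sum_single_index (by simp), mul_one]

/-- a filtration of the ring `S` by ideals -/
private structure W2F {S : Type*} [CommRing S] (I : ℤ → Ideal S) (g : ℕ → S) : Prop where
  one : ∀ s : S, s ∈ I 0
  anti : ∀ k k' : ℤ, k' ≤ k → I k ≤ I k'
  g : ∀ (l : ℕ) (k : ℤ) (s : S), s ∈ I k → g l * s ∈ I (k + (l + 1))

section abs

variable {S : Type*} [CommRing S] {I : ℤ → Ideal S} {g : ℕ → S}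

private def w2M (I : ℤ → Ideal S) (k : ℤ) : AddSubgroup (MvPolynomial ℕ S) where
  carrier := {f | ∀ m, f.coeff m ∈ I (k - w2rk m)}
  add_mem' := by
    intro f g hf hg m
    rw [coeff_add]
    exact add_mem (hf m) (hg m)
  zero_mem' := by
    intro m
    rw [coeff_zero]
    exact zero_mem _
  neg_mem' := by
    intro f hf m
    rw [coeff_neg]
    exact neg_mem (hf m)

private theorem w2M_anti (hI : W2F I g) {k k' : ℤ} (h : k' ≤ k) : w2M I k ≤ w2M I k' :=
  fun _ hf m => hI.anti _ _ (by omega) (hf m)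

private def w2V (I : ℤ → Ideal S) (k : ℤ) : AddSubgroup (Polynomial (MvPolynomial ℕ S)) where
  carrier := {v | ∀ j : ℕ, v.coeff j ∈ w2M I (k - j)}
  add_mem' := by
    intro f g hf hg j
    rw [Polynomial.coeff_add]
    exact add_mem (hf j) (hg j)
  zero_mem' := by
    intro j
    rw [Polynomial.coeff_zero]
    exact zero_mem _
  neg_mem' := by
    intro f hf j
    rw [Polynomial.coeff_neg]
    exact neg_mem (hf j)

private theorem w2V_anti (hI : W2F I g) {k k' : ℤ} (h : k' ≤ k) : w2V I k ≤ w2V I k' :=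
  fun _ hf j => w2M_anti hI (by omega) (hf j)

private theorem w2V_mono {k : ℤ} (j : ℕ) {f : MvPolynomial ℕ S}
    (hf : f ∈ w2M I (k - j)) : Polynomial.monomial j f ∈ w2V I k := by
  intro j'
  rw [Polynomial.coeff_monomial]
  split_ifs with h
  · subst h
    exact hf
  · exact zero_mem _

private theorem w2M_X {k : ℤ} (i : ℕ) {f : MvPolynomial ℕ S}
    (hf : f ∈ w2M I k) : (X i * f : MvPolynomial ℕ S) ∈ w2M I (k + i) := by
  classical
  intro m
  rw [coeff_X_mul']
  split_ifs with h1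
  · have h2 := hf (m - Finsupp.single i 1)
    have h3 : m = (m - Finsupp.single i 1) + Finsupp.single i 1 := by
      rw [tsub_add_cancel_of_le]
      rw [Finsupp.single_le_iff]
      exact Nat.one_le_iff_ne_zero.2 (Finsupp.mem_support_iff.1 h1)
    have h4 : w2rk m = w2rk (m - Finsupp.single i 1) + i := by
      conv_lhs => rw [h3]
      rw [w2rk_add, w2rk_single]
    rw [h4]
    rwa [show k + (i : ℤ) - ((w2rk (m - Finsupp.single i 1) + i : ℕ) : ℤ) =
      k - w2rk (m - Finsupp.single i 1) by push_cast; ring]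
  · exact zero_mem _

private theorem w2M_C {k : ℤ} (c : S) {f : MvPolynomial ℕ S}
    (hf : f ∈ w2M I k) : C c * f ∈ w2M I k := by
  intro m
  rw [coeff_C_mul]
  exact Ideal.mul_mem_left _ _ (hf m)

private theorem w2M_aop {k : ℤ} (al : S) (i : ℕ) {f : MvPolynomial ℕ S}
    (hf : f ∈ w2M I k) : aop al i f ∈ w2M I (k - i) := by
  intro m
  have h2 : aop al i f = (al * ((i : S) + 1)) • pderiv i f := rfl
  rw [h2, coeff_smul, coeff_pderiv, smul_eq_mul]
  refine Ideal.mul_mem_left _ _ (Ideal.mul_mem_right _ _ ?_)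
  have h3 := hf (m + Finsupp.single i 1)
  rw [w2rk_add, w2rk_single] at h3
  rwa [show k - ((w2rk m + i : ℕ) : ℤ) = k - i - w2rk m by push_cast; ring] at h3

private theorem w2V_DD (hI : W2F I g) {k : ℤ} (al : S) (j : ℕ) {f : MvPolynomial ℕ S}
    (hf : f ∈ w2M I (k - j)) : Polynomial.X ^ j * DD al f ∈ w2V I k := by
  intro j'
  rw [Polynomial.coeff_X_pow_mul']
  split_ifs with h
  · obtain ⟨e, rfl⟩ := Nat.exists_eq_add_of_le h
    rw [Nat.add_sub_cancel_left]
    cases e with
    | zero =>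
      rw [DD_coeff_zero]
      exact zero_mem _
    | succ i =>
      rw [DD_coeff_succ]
      exact w2M_anti hI (by push_cast; linarith) (w2M_aop al i hf)
  · exact zero_mem _

private def w2Sh (I : ℤ → Ideal S) (s : ℤ)
    (T : Polynomial (MvPolynomial ℕ S) →ₗ[S] Polynomial (MvPolynomial ℕ S)) : Prop :=
  ∀ (k : ℤ) (v : Polynomial (MvPolynomial ℕ S)), v ∈ w2V I k → T v ∈ w2V I (k + s)

private theorem w2Sh_of {s : ℤ}
    {T : Polynomial (MvPolynomial ℕ S) →ₗ[S] Polynomial (MvPolynomial ℕ S)}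
    (h : ∀ (k : ℤ) (j : ℕ) (f : MvPolynomial ℕ S), f ∈ w2M I (k - j) →
      T (Polynomial.monomial j f) ∈ w2V I (k + s)) : w2Sh I s T := by
  intro k v hv
  rw [v.as_sum_support, map_sum]
  exact sum_mem fun j _ => h k j _ (hv j)

private def w2Cl (I : ℤ → Ideal S) (s : ℤ)
    (T T' : Polynomial (MvPolynomial ℕ S) →ₗ[S] Polynomial (MvPolynomial ℕ S)) : Prop :=
  w2Sh I s T ∧ w2Sh I s T' ∧ ∀ (k : ℤ) (v : Polynomial (MvPolynomial ℕ S)), v ∈ w2V I k →
    T v - T' v ∈ w2V I (k + (s + 1))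

private theorem w2Cl_self {s : ℤ}
    {T : Polynomial (MvPolynomial ℕ S) →ₗ[S] Polynomial (MvPolynomial ℕ S)} (h : w2Sh I s T) :
    w2Cl I s T T := by
  refine ⟨h, h, fun k v _ => ?_⟩
  rw [sub_self]
  exact zero_mem _

private theorem w2Sh_comp {s s' : ℤ}
    {T U : Polynomial (MvPolynomial ℕ S) →ₗ[S] Polynomial (MvPolynomial ℕ S)}
    (hT : w2Sh I s T) (hU : w2Sh I s' U) : w2Sh I (s + s') (T ∘ₗ U) := by
  intro k v hv
  have h := hT _ _ (hU _ _ hv)
  rwa [show k + s' + s = k + (s + s') by ring] at h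

private theorem w2Cl_comp {s s' : ℤ}
    {T T' U U' : Polynomial (MvPolynomial ℕ S) →ₗ[S] Polynomial (MvPolynomial ℕ S)}
    (hT : w2Cl I s T T') (hU : w2Cl I s' U U') : w2Cl I (s + s') (T ∘ₗ U) (T' ∘ₗ U') := by
  refine ⟨w2Sh_comp hT.1 hU.1, w2Sh_comp hT.2.1 hU.2.1, fun k v hv => ?_⟩
  have e : (T ∘ₗ U) v - (T' ∘ₗ U') v = T (U v - U' v) + (T (U' v) - T' (U' v)) := by
    rw [LinearMap.comp_apply, LinearMap.comp_apply, map_sub]
    abel
  rw [e]
  have h1 := hT.1 _ _ (hU.2.2 _ _ hv)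
  have h2 := hT.2.2 _ _ (hU.2.1 _ _ hv)
  rw [show k + (s' + 1) + s = k + (s + s' + 1) by ring] at h1
  rw [show k + s' + (s + 1) = k + (s + s' + 1) by ring] at h2
  exact add_mem h1 h2

private theorem w2Cl_add {s : ℤ}
    {T T' U U' : Polynomial (MvPolynomial ℕ S) →ₗ[S] Polynomial (MvPolynomial ℕ S)}
    (hT : w2Cl I s T T') (hU : w2Cl I s U U') : w2Cl I s (T + U) (T' + U') := by
  refine ⟨fun k v hv => add_mem (hT.1 k v hv) (hU.1 k v hv),
    fun k v hv => add_mem (hT.2.1 k v hv) (hU.2.1 k v hv), fun k v hv => ?_⟩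
  have e : (T + U) v - (T' + U') v = (T v - T' v) + (U v - U' v) := by
    rw [LinearMap.add_apply, LinearMap.add_apply]
    abel
  rw [e]
  exact add_mem (hT.2.2 k v hv) (hU.2.2 k v hv)

private theorem w2Cl_pow {s : ℤ}
    {T T' : Polynomial (MvPolynomial ℕ S) →ₗ[S] Polynomial (MvPolynomial ℕ S)}
    (hT : w2Cl I s T T') (n : ℕ) : w2Cl I ((n : ℤ) * s) (T ^ n) (T' ^ n) := by
  induction n with
  | zero =>
    rw [Nat.cast_zero, zero_mul, pow_zero, pow_zero]
    refine w2Cl_self fun k v hv => ?_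
    rw [add_zero]
    exact hv
  | succ n ih =>
    rw [pow_succ, pow_succ]
    have h := w2Cl_comp ih hT
    have e : ((n + 1 : ℕ) : ℤ) * s = (n : ℤ) * s + s := by push_cast; ring
    rw [e]
    exact h

private theorem w2V_smul (hI : W2F I g) {k : ℤ} (l : ℕ) {v : Polynomial (MvPolynomial ℕ S)}
    (hv : v ∈ w2V I k) : g l • v ∈ w2V I (k + (l + 1)) := by
  intro j m
  rw [Polynomial.coeff_smul, coeff_smul, smul_eq_mul]
  have h := hI.g l _ _ (hv j m)
  rwa [show k - (j : ℤ) - w2rk m + ((l : ℤ) + 1) = k + ((l : ℤ) + 1) - j - w2rk m by ring] at h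

private theorem w2Cl_smul (hI : W2F I g) {s : ℤ}
    {T T' : Polynomial (MvPolynomial ℕ S) →ₗ[S] Polynomial (MvPolynomial ℕ S)}
    (hT : w2Cl I s T T') (l : ℕ) : w2Cl I (s + (l + 1)) (g l • T) (g l • T') := by
  refine ⟨fun k v hv => ?_, fun k v hv => ?_, fun k v hv => ?_⟩
  · have h := w2V_smul hI l (hT.1 k v hv)
    rwa [show k + s + ((l : ℤ) + 1) = k + (s + (l + 1)) by ring] at h
  · have h := w2V_smul hI l (hT.2.1 k v hv)
    rwa [show k + s + ((l : ℤ) + 1) = k + (s + (l + 1)) by ring] at h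
  · have h := w2V_smul hI l (hT.2.2 k v hv)
    rw [show k + (s + 1) + ((l : ℤ) + 1) = k + (s + (l + 1) + 1) by ring] at h
    have e : (g l • T) v - (g l • T') v = g l • (T v - T' v) := by
      rw [LinearMap.smul_apply, LinearMap.smul_apply, smul_sub]
    rw [e]
    exact h

private theorem w2_Mlow_mono (j : ℕ) (f : MvPolynomial ℕ S) :
    Mlow S (Polynomial.monomial j f) =
      ∑ i ∈ Finset.range j, Polynomial.monomial (j - 1 - i) (X i * f) := by
  have h : Mlow S (Polynomial.monomial j f) = (Polynomial.monomial j f).sum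
      (fun j f => (∑ i ∈ Finset.range j,
        ((Polynomial.monomial (R := MvPolynomial ℕ S) (j - 1 - i)).restrictScalars S) ∘ₗ
        (LinearMap.mulLeft S (X i : MvPolynomial ℕ S))) f) := rfl
  rw [h, Polynomial.sum_monomial_index _ _ (by simp), LinearMap.sum_apply]
  rfl

private theorem w2Sh_Mlow (hI : W2F I g) : w2Sh I (-1) (Mlow S) := by
  refine w2Sh_of fun k j f hf => ?_
  rw [w2_Mlow_mono]
  refine sum_mem fun i hi => w2V_mono _ ?_
  have hi' := Finset.mem_range.1 hi
  refine w2M_anti hI ?_ (w2M_X i hf)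
  omega

private theorem w2Sh_N (hI : W2F I g) (al b : S) (k : ℤ)
    (v : Polynomial (MvPolynomial ℕ S)) (hv : v ∈ w2V I k) :
    Lam al b v - Mlow S v ∈ w2V I k := by
  rw [v.as_sum_support, map_sum, map_sum, ← Finset.sum_sub_distrib]
  refine sum_mem fun j _ => ?_
  have hf := hv j
  generalize v.coeff j = f at hf
  rw [Lam_monomial, w2_Mlow_mono]
  have e : Polynomial.X ^ j * DD al f +
      ∑ i ∈ Finset.range j, Polynomial.monomial (j - 1 - i) ((X i : MvPolynomial ℕ S) * f) +
      Polynomial.monomial j (C (b * (j : S)) * f) -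
      ∑ i ∈ Finset.range j, Polynomial.monomial (j - 1 - i) ((X i : MvPolynomial ℕ S) * f) =
      Polynomial.X ^ j * DD al f + Polynomial.monomial j (C (b * (j : S)) * f) := by abel
  rw [e]
  exact add_mem (w2V_DD hI al j hf) (w2V_mono j (w2M_C _ hf))

private theorem w2Cl_Lam (hI : W2F I g) (al b : S) : w2Cl I (-1) (Lam al b) (Mlow S) := by
  refine ⟨fun k v hv => ?_, w2Sh_Mlow hI, fun k v hv => ?_⟩
  · have e : Lam al b v = (Lam al b v - Mlow S v) + Mlow S v := by
      rw [sub_add_cancel]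
    rw [e]
    exact add_mem (w2V_anti hI (by omega) (w2Sh_N hI al b k v hv)) (w2Sh_Mlow hI k v hv)
  · have h := w2Sh_N hI al b k v hv
    rwa [show k + (-1 + 1) = k by ring]

private theorem w2Sh_X (hI : W2F I g) : w2Sh I 1 (Xl S) := by
  refine w2Sh_of fun k j f hf => ?_
  have e : Xl S (Polynomial.monomial j f) = Polynomial.monomial (j + 1) f :=
    Polynomial.X_mul_monomial j f
  rw [e]
  refine w2V_mono _ (w2M_anti hI ?_ hf)
  push_cast
  linarith

private noncomputable def w2Z (L : ℕ) (g : ℕ → S) :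
    Polynomial (MvPolynomial ℕ S) →ₗ[S] Polynomial (MvPolynomial ℕ S) :=
  Xl S ∘ₗ (LinearMap.id + ∑ l ∈ Finset.range L, g l • (Mlow S) ^ (l + 1))

private theorem w2Cl_sum (hI : W2F I g) (al b : S) (L : ℕ) : w2Cl I 0
    (∑ l ∈ Finset.range L, g l • (Lam al b) ^ (l + 1))
    (∑ l ∈ Finset.range L, g l • (Mlow S) ^ (l + 1)) := by
  induction L with
  | zero =>
    rw [Finset.sum_range_zero, Finset.sum_range_zero]
    exact w2Cl_self fun k v _ => zero_mem _
  | succ L ih =>
    rw [Finset.sum_range_succ, Finset.sum_range_succ]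
    refine w2Cl_add ih ?_
    have h := w2Cl_smul hI (w2Cl_pow (w2Cl_Lam hI al b) (L + 1)) L
    have e : ((L + 1 : ℕ) : ℤ) * (-1) + ((L : ℤ) + 1) = 0 := by push_cast; ring
    rwa [e] at h

private theorem w2Cl_Z (hI : W2F I g) (al b : S) (L : ℕ) (j : ℕ) : w2Cl I ((j : ℤ) + 1)
    ((Zop al b L g) ^ (j + 1)) ((w2Z L g) ^ (j + 1)) := by
  have h1 : w2Cl I (1 + 0) (Zop al b L g) (w2Z L g) := by
    refine w2Cl_comp (w2Cl_self (w2Sh_X hI)) ?_
    refine w2Cl_add (w2Cl_self fun k v hv => ?_) (w2Cl_sum hI al b L)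
    rw [add_zero]
    exact hv
  have h2 := w2Cl_pow h1 (j + 1)
  have e : ((j + 1 : ℕ) : ℤ) * (1 + 0) = (j : ℤ) + 1 := by push_cast; ring
  rwa [e] at h2

private theorem w2_Theta (hI : W2F I g) {k : ℤ} {v : Polynomial (MvPolynomial ℕ S)}
    (hv : v ∈ w2V I k) : Theta S v ∈ w2M I (k - 1) := by
  rw [v.as_sum_support, map_sum]
  refine sum_mem fun j _ => ?_
  cases j with
  | zero =>
    rw [Theta_monomial_zero]
    exact zero_mem _
  | succ i =>
    rw [Theta_monomial_succ]
    refine w2M_anti hI ?_ (w2M_X i (hv (i + 1)))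
    push_cast
    linarith

private theorem w2_Theta_mul (v : Polynomial (MvPolynomial ℕ S))
    (h : MvPolynomial ℕ S) : Theta S (v * Polynomial.C h) = Theta S v * h := by
  induction v using Polynomial.induction_on' with
  | add p q hp hq =>
    rw [add_mul, map_add, hp, hq, map_add]
    ring
  | monomial j f =>
    rw [Polynomial.monomial_mul_C]
    cases j with
    | zero => rw [Theta_monomial_zero, Theta_monomial_zero, zero_mul]
    | succ i =>
      rw [Theta_monomial_succ, Theta_monomial_succ]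
      ring

private theorem w2_Mlow_mul (v : Polynomial (MvPolynomial ℕ S))
    (h : MvPolynomial ℕ S) : Mlow S (v * Polynomial.C h) = Mlow S v * Polynomial.C h := by
  induction v using Polynomial.induction_on' with
  | add p q hp hq =>
    rw [add_mul, map_add, hp, hq, map_add]
    ring
  | monomial j f =>
    rw [Polynomial.monomial_mul_C, w2_Mlow_mono, w2_Mlow_mono, Finset.sum_mul]
    refine Finset.sum_congr rfl fun i _ => ?_
    rw [Polynomial.monomial_mul_C, mul_assoc]

private def w2Lin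
    (T : Polynomial (MvPolynomial ℕ S) →ₗ[S] Polynomial (MvPolynomial ℕ S)) : Prop :=
  ∀ v h, T (v * Polynomial.C h) = T v * Polynomial.C h

private theorem w2Lin_pow
    {T : Polynomial (MvPolynomial ℕ S) →ₗ[S] Polynomial (MvPolynomial ℕ S)} (hT : w2Lin T)
    (n : ℕ) : w2Lin (T ^ n) := by
  induction n with
  | zero => exact fun v h => rfl
  | succ n ih =>
    intro v h
    rw [pow_succ, Module.End.mul_apply, Module.End.mul_apply, hT, ih]

private theorem w2Lin_Z (L : ℕ) : w2Lin (w2Z L g) := by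
  have h1 : ∀ (v : Polynomial (MvPolynomial ℕ S)) (h : MvPolynomial ℕ S),
      (∑ l ∈ Finset.range L, g l • (Mlow S) ^ (l + 1)) (v * Polynomial.C h) =
      (∑ l ∈ Finset.range L, g l • (Mlow S) ^ (l + 1)) v * Polynomial.C h := by
    intro v h
    rw [LinearMap.sum_apply, LinearMap.sum_apply, Finset.sum_mul]
    refine Finset.sum_congr rfl fun l _ => ?_
    rw [LinearMap.smul_apply, LinearMap.smul_apply, w2Lin_pow w2_Mlow_mul, smul_mul_assoc]
  intro v h
  have e : ∀ u, w2Z L g u = Polynomial.X * (u + (∑ l ∈ Finset.range L,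
      g l • (Mlow S) ^ (l + 1)) u) := fun u => rfl
  rw [e, e, h1]
  ring

private theorem w2_B (hI : W2F I g) (al b : S) (L j : ℕ) {k : ℤ} {f : MvPolynomial ℕ S}
    (hf : f ∈ w2M I k) :
    Bop al b L g j f ∈ w2M I (k + j) ∧ beta L g j * f ∈ w2M I (k + j) ∧
    Bop al b L g j f - beta L g j * f ∈ w2M I (k + j + 1) := by
  have hC : Polynomial.C f ∈ w2V I k := by
    rw [← Polynomial.monomial_zero_left]
    refine w2V_mono 0 ?_
    rw [Nat.cast_zero, sub_zero]
    exact hf
  obtain ⟨h1, h2, h3⟩ := w2Cl_Z hI al b L j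
  have e1 : Bop al b L g j f = Theta S ((Zop al b L g ^ (j + 1)) (Polynomial.C f)) := rfl
  have e2 : beta L g j * f = Theta S ((w2Z L g ^ (j + 1)) (Polynomial.C f)) := by
    have e3 : beta L g j = Theta S ((w2Z L g ^ (j + 1)) 1) := rfl
    rw [e3, ← w2_Theta_mul, ← w2Lin_pow (w2Lin_Z L), one_mul]
  refine ⟨?_, ?_, ?_⟩
  · rw [e1]
    have := w2_Theta hI (h1 _ _ hC)
    rwa [show k + ((j : ℤ) + 1) - 1 = k + j by ring] at this
  · rw [e2]
    have := w2_Theta hI (h2 _ _ hC)
    rwa [show k + ((j : ℤ) + 1) - 1 = k + j by ring] at this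
  · rw [e1, e2, ← map_sub]
    have := w2_Theta hI (h3 _ _ hC)
    rwa [show k + ((j : ℤ) + 1 + 1) - 1 = k + j + 1 by ring] at this

private theorem w2_words (hI : W2F I g) (al b : S) (L : ℕ) (l : List ℕ) :
    Bword al b L g l 1 ∈ w2M I (l.sum : ℕ) ∧
    (l.map fun j => beta L g j).prod ∈ w2M I (l.sum : ℕ) ∧
    Bword al b L g l 1 - (l.map fun j => beta L g j).prod ∈ w2M I ((l.sum : ℕ) + 1) := by
  induction l with
  | nil =>
    have h : (1 : MvPolynomial ℕ S) ∈ w2M I (([] : List ℕ).sum : ℕ) := by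
      intro m
      refine hI.anti 0 _ ?_ (hI.one _)
      rw [List.sum_nil]
      push_cast
      linarith [Int.natCast_nonneg (w2rk m)]
    refine ⟨h, h, ?_⟩
    have e : Bword al b L g [] 1 = 1 := rfl
    rw [e, List.map_nil, List.prod_nil, sub_self]
    exact zero_mem _
  | cons j l ih =>
    obtain ⟨h1, h2, h3⟩ := ih
    have e1 : Bword al b L g (j :: l) 1 = Bop al b L g j (Bword al b L g l 1) := rfl
    rw [e1, List.map_cons, List.prod_cons, List.sum_cons]
    have e2 : ((j + l.sum : ℕ) : ℤ) = (l.sum : ℕ) + (j : ℤ) := by push_cast; ring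
    rw [e2]
    refine ⟨(w2_B hI al b L j h1).1, (w2_B hI al b L j h2).2.1, ?_⟩
    have h4 := (w2_B hI al b L j h3).1
    have h5 := (w2_B hI al b L j h2).2.2
    rw [map_sub] at h4
    have h6 := add_mem (w2M_anti hI (by linarith) h4) h5
    rwa [sub_add_sub_cancel] at h6

private theorem w2_eps {k : ℤ} {f : MvPolynomial ℕ S} (hf : f ∈ w2M I k) : eps S f ∈ I k := by
  rw [← f.support_sum_monomial_coeff, map_sum]
  refine sum_mem fun m _ => ?_
  unfold eps
  rw [aeval_monomial]
  by_cases hm : ∃ i ∈ m.support, i ≠ 0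
  · obtain ⟨i, hi, hi0⟩ := hm
    have e : (m.prod fun i k => (if i = 0 then (1 : S) else 0) ^ k) = 0 := by
      refine Finset.prod_eq_zero hi ?_
      simp only
      rw [if_neg hi0, zero_pow (Finsupp.mem_support_iff.1 hi)]
    rw [e, mul_zero]
    exact zero_mem _
  · have h0 : w2rk m = 0 := by
      unfold w2rk
      refine Finset.sum_eq_zero fun i hi => ?_
      have : i = 0 := by
        by_contra h1
        exact hm ⟨i, hi, h1⟩
      rw [this]
      exact zero_mul _
    have h3 := hf m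
    rw [h0, Nat.cast_zero, sub_zero] at h3
    exact Ideal.mul_mem_right _ _ h3

private theorem w2_low (hI : W2F I g) (al b : S) (L : ℕ) (l : List ℕ) :
    eps S (Bword al b L g l 1) ∈ I (l.sum : ℕ) := w2_eps (w2_words hI al b L l).1

private theorem w2_lead (hI : W2F I g) (al b : S) (L : ℕ) (l : List ℕ) :
    eps S (Bword al b L g l 1) - (l.map fun j => eps S (beta L g j)).prod ∈
      I ((l.sum : ℕ) + 1) := by
  have e : (l.map fun j => eps S (beta L g j)).prod = eps S (l.map fun j => beta L g j).prod := by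
    rw [map_list_prod, List.map_map]
    rfl
  rw [e, ← map_sub]
  exact w2_eps (w2_words hI al b L l).2.2

end abs

variable {R : Type*} [CommRing R]

/-- the filtration of `MvPolynomial ℕ R` by the weight -/
private def w2I (R : Type*) [CommRing R] (k : ℤ) : Ideal (MvPolynomial ℕ R) where
  carrier := {s | ∀ γ, s.coeff γ ≠ 0 → k ≤ (wt γ : ℤ)}
  add_mem' := by
    intro f g hf hg γ h
    by_cases h1 : f.coeff γ = 0
    · apply hg γ
      intro h2
      apply h
      rw [coeff_add, h1, h2, add_zero]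
    · exact hf γ h1
  zero_mem' := by
    intro γ h
    exact absurd (coeff_zero γ) h
  smul_mem' := by
    classical
    intro c s hs γ h
    rw [smul_eq_mul, coeff_mul] at h
    obtain ⟨x, hx, h1⟩ := Finset.exists_ne_zero_of_sum_ne_zero h
    have h2 := hs _ (right_ne_zero_of_mul h1)
    have h3 := Finset.HasAntidiagonal.mem_antidiagonal.1 hx
    rw [← h3, wt_add]
    push_cast
    linarith [Int.natCast_nonneg (wt x.1)]

private theorem w2F : W2F (w2I R) (fun i => (X i : MvPolynomial ℕ R)) where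
  one := fun s γ _ => Int.natCast_nonneg _
  anti := fun k k' h s hs γ h1 => h.trans (hs γ h1)
  g := by
    classical
    intro l k s hs γ h
    rw [coeff_X_mul'] at h
    split_ifs at h with h1
    · have h2 := hs _ h
      have h3 : γ = (γ - Finsupp.single l 1) + Finsupp.single l 1 := by
        rw [tsub_add_cancel_of_le]
        rw [Finsupp.single_le_iff]
        exact Nat.one_le_iff_ne_zero.2 (Finsupp.mem_support_iff.1 h1)
      have h4 : wt γ = wt (γ - Finsupp.single l 1) + (l + 1) := by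
        conv_lhs => rw [h3]
        rw [wt_add, wt_single, mul_one]
      rw [h4]
      push_cast
      linarith
    · exact absurd rfl h

theorem W_low (al b : R) (L : ℕ) (l : List ℕ) (γ : ℕ →₀ ℕ)
    (h : (eps (MvPolynomial ℕ R) (Bword (C al) (C b) L (fun i => X i) l 1)).coeff γ ≠ 0) :
    l.sum ≤ wt γ := by
  have h1 := w2_low w2F (C al) (C b) L l γ h
  exact_mod_cast h1

theorem W_lead (al b : R) (L : ℕ) (l : List ℕ) (γ : ℕ →₀ ℕ) (hγ : wt γ = l.sum) :
    (eps (MvPolynomial ℕ R) (Bword (C al) (C b) L (fun i => X i) l 1)).coeff γ =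
      ((l.map fun j => eps (MvPolynomial ℕ R) (beta L (fun i => X i) j)).prod).coeff γ := by
  by_contra h
  have h1 := w2_lead w2F (C al) (C b) L l γ (by
    rw [coeff_sub]
    exact sub_ne_zero.2 h)
  rw [hγ] at h1
  omega

end H25BC
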