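import Pool.Agent.H25.BC.W2

/-!
# Module W3: the leading coefficients `w_j = eps (beta_j)`

`eps` applied to all coefficients (`Polynomial.map (eps S)`) turns `Mlow` into `divX` on
`S[w]` (only `i = 0` survives: `eps X_0 = 1`, `eps X_i = 0`) and `Θ` into the coefficient of `w^1`.
So `w_j` is the coefficient of `w^1` in `Y^{j+1} 1`, `Y u = w (u + ∑_{l<L} g_l divX^{l+1} u)`.
Claim, by induction on `s`: `Y^s 1 = w^s + ∑_{l<L, l+1<s} (s-l-1) g_l w^{s-l-1}+ (monomials with at
least two factors g)`: since `Y` applied to `w^s` gives `w^{s+1} + ∑_{l<L, l+1 ≤ s} g_l w^{s-l}`.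
(number of steps at which the lowering by `l+1` is possible: `s - l - 1`.) For `s = j+1` and `w^1`:
`s - l - 1 = 1`, i.e. `l = j - 1`, coefficient `1`; the term `w^s = w^1` only for `j = 0`. So
`w_0 = 1` (there are no further terms: `Y 1 = w`), and for `1 ≤ j ≤ L`,
`w_j = g_{j-1} + (monomials g^γ with len γ ≥ 2)`.

`W_tri`: the product over the list: the factors with `j = 0` are `1`, so every monomial of the
product has `len γ ≥ #{j ∈ l, j ≠ 0}` and the only one with equality is `∏ g_{j-1}`, i.e.
`γ = sh l`, coefficient `1`. Use `W_lead`.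
-/

open MvPolynomial

namespace H25BC

/-- exponent `∏_{j ∈ l, j ≠ 0} g_{j-1}` -/
noncomputable def sh (l : List ℕ) : ℕ →₀ ℕ :=
  ((l.filter (fun j => j ≠ 0)).map fun j => Finsupp.single (j - 1) 1).sum

private theorem sh_cons_zero (l : List ℕ) : sh (0 :: l) = sh l := by
  simp [sh]

private theorem sh_cons (j : ℕ) (l : List ℕ) (hj : j ≠ 0) :
    sh (j :: l) = Finsupp.single (j - 1) 1 + sh l := by
  simp [sh, hj]

theorem wt_sh (l : List ℕ) : wt (sh l) = l.sum := by
  induction l with
  | nil => simp [sh, wt]
  | cons j l ih =>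
    by_cases hj : j = 0
    · subst hj
      rw [sh_cons_zero, ih, List.sum_cons, zero_add]
    · rw [sh_cons j l hj, wt_add, wt_single, ih, List.sum_cons]
      omega

theorem len_sh (l : List ℕ) : len (sh l) = (l.filter (fun j => j ≠ 0)).length := by
  induction l with
  | nil => simp [sh, len]
  | cons j l ih =>
    by_cases hj : j = 0
    · subst hj
      rw [sh_cons_zero, ih]
      simp
    · rw [sh_cons j l hj, len_add, len_single, ih]
      simp [hj]
      omega

private theorem len_eq_zero {γ : ℕ →₀ ℕ} (h : len γ = 0) : γ = 0 := by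
  ext i
  by_contra hi
  have h1 : i ∈ γ.support := Finsupp.mem_support_iff.2 hi
  unfold len at h
  rw [Finsupp.sum, Finset.sum_eq_zero_iff] at h
  exact hi (h i h1)

private theorem len_eq_one {γ : ℕ →₀ ℕ} (h : len γ = 1) : ∃ i, γ = Finsupp.single i 1 := by
  have hne : γ ≠ 0 := by
    rintro rfl
    simp [len] at h
  obtain ⟨i, hi⟩ := Finsupp.ne_iff.1 hne
  rw [Finsupp.coe_zero, Pi.zero_apply] at hi
  refine ⟨i, ?_⟩
  have hle : Finsupp.single i 1 ≤ γ := by
    rw [Finsupp.single_le_iff]
    omega
  have h1 : Finsupp.single i 1 + (γ - Finsupp.single i 1) = γ := add_tsub_cancel_of_le hle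
  have h2 := congrArg len h1
  rw [len_add, len_single, h] at h2
  have h3 : len (γ - Finsupp.single i 1) = 0 := by omega
  rw [len_eq_zero h3, add_zero] at h1
  exact h1.symm

section low

variable {S : Type*} [CommRing S]

private theorem Mlow_monomial (j : ℕ) (f : MvPolynomial ℕ S) :
    Mlow S (Polynomial.monomial j f) =
      ∑ i ∈ Finset.range j, Polynomial.monomial (j - 1 - i) (X i * f) := by
  unfold Mlow
  rw [Polynomial.lsum_apply, Polynomial.sum_monomial_index]
  · simp
  · simp

private theorem eps_X (i : ℕ) : eps S (X i) = if i = 0 then 1 else 0 := by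
  simp [eps]

/-- `eps` of a coefficient -/
private noncomputable def ec (v : Polynomial (MvPolynomial ℕ S)) (k : ℕ) : S := eps S (v.coeff k)

private theorem ec_add (v u : Polynomial (MvPolynomial ℕ S)) (k : ℕ) :
    ec (v + u) k = ec v k + ec u k := by
  simp [ec]

private theorem ec_smul (c : S) (v : Polynomial (MvPolynomial ℕ S)) (k : ℕ) :
    ec (c • v) k = c * ec v k := by
  simp [ec]

private theorem ec_sum {κ : Type*} (s : Finset κ) (F : κ → Polynomial (MvPolynomial ℕ S)) (k : ℕ) :
    ec (∑ i ∈ s, F i) k = ∑ i ∈ s, ec (F i) k := by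
  simp [ec, Polynomial.finsetSum_coeff]

private theorem ec_monomial (j : ℕ) (f : MvPolynomial ℕ S) (k : ℕ) :
    ec (Polynomial.monomial j f) k = if j = k then eps S f else 0 := by
  unfold ec
  rw [Polynomial.coeff_monomial]
  split_ifs <;> simp

private theorem ec_Mlow (v : Polynomial (MvPolynomial ℕ S)) (k : ℕ) :
    ec (Mlow S v) k = ec v (k + 1) := by
  induction v using Polynomial.induction_on' with
  | add v u hv hu => rw [map_add, ec_add, ec_add, hv, hu]
  | monomial j f =>
    rw [Mlow_monomial, ec_sum, ec_monomial]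
    simp only [ec_monomial, map_mul, eps_X]
    rcases j with _ | j
    · simp
    · rw [Finset.sum_eq_single_of_mem 0 (by simp)]
      · simp
      · intro i _ hi
        simp [hi]

private theorem ec_Mlow_pow (l : ℕ) (v : Polynomial (MvPolynomial ℕ S)) (k : ℕ) :
    ec (((Mlow S) ^ l) v) k = ec v (k + l) := by
  induction l generalizing k with
  | zero => simp
  | succ l ih =>
    rw [pow_succ', Module.End.mul_apply, ec_Mlow, ih]
    congr 1
    omega

private theorem eps_Theta (v : Polynomial (MvPolynomial ℕ S)) : eps S (Theta S v) = ec v 1 := by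
  induction v using Polynomial.induction_on' with
  | add v u hv hu => rw [map_add, map_add, ec_add, hv, hu]
  | monomial j f =>
    rcases j with _ | j
    · rw [Theta_monomial_zero, ec_monomial]
      simp
    · rw [Theta_monomial_succ, ec_monomial, map_mul, eps_X]
      by_cases hj : j = 0
      · simp [hj]
      · simp [hj]

/-- the operator `Y` -/
private noncomputable def Yop (L : ℕ) (g : ℕ → S) :
    Polynomial (MvPolynomial ℕ S) →ₗ[S] Polynomial (MvPolynomial ℕ S) :=
  Xl S ∘ₗ (LinearMap.id + ∑ l ∈ Finset.range L, g l • (Mlow S) ^ (l + 1))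

private theorem ec_Xl_zero (v : Polynomial (MvPolynomial ℕ S)) : ec (Xl S v) 0 = 0 := by
  simp [ec, Xl]

private theorem ec_Xl_succ (v : Polynomial (MvPolynomial ℕ S)) (k : ℕ) :
    ec (Xl S v) (k + 1) = ec v k := by
  simp [ec, Xl]

private theorem ec_Y_zero (L : ℕ) (g : ℕ → S) (v : Polynomial (MvPolynomial ℕ S)) :
    ec (Yop L g v) 0 = 0 := ec_Xl_zero _

private theorem ec_Y_succ (L : ℕ) (g : ℕ → S) (v : Polynomial (MvPolynomial ℕ S)) (k : ℕ) :
    ec (Yop L g v) (k + 1) = ec v k + ∑ l ∈ Finset.range L, g l * ec v (k + (l + 1)) := by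
  unfold Yop
  rw [LinearMap.comp_apply, ec_Xl_succ, LinearMap.add_apply, LinearMap.id_apply, ec_add,
    LinearMap.sum_apply, ec_sum]
  congr 1
  refine Finset.sum_congr rfl fun l _ => ?_
  rw [LinearMap.smul_apply, ec_smul, ec_Mlow_pow]

private theorem ec_one (k : ℕ) : ec (1 : Polynomial (MvPolynomial ℕ S)) k = if k = 0 then 1 else 0 := by
  unfold ec
  rw [Polynomial.coeff_one]
  split_ifs <;> simp

private theorem beta_eq (L : ℕ) (g : ℕ → S) (j : ℕ) :
    eps S (beta L g j) = ec (((Yop L g) ^ (j + 1)) 1) 1 := by
  unfold beta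
  rw [eps_Theta]
  rfl

end low

variable {R : Type*} [CommRing R]

theorem beta_zero (L : ℕ) :
    eps (MvPolynomial ℕ R) (beta L (fun i => (X i : MvPolynomial ℕ R)) 0) = 1 := by
  rw [beta_eq, zero_add, pow_one, show (1 : ℕ) = 0 + 1 from rfl, ec_Y_succ, ec_one]
  have h1 : ∀ l ∈ Finset.range L, (X l : MvPolynomial ℕ R) *
      ec (1 : Polynomial (MvPolynomial ℕ (MvPolynomial ℕ R))) (0 + (l + 1)) = 0 := by
    intro l _
    rw [ec_one]
    simp
  rw [Finset.sum_congr rfl h1]
  simp

private theorem ec_Y_pow (L s : ℕ) :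
    (∀ k, (ec (((Yop L (fun i => (X i : MvPolynomial ℕ R))) ^ s) 1) k).coeff 0 =
      if k = s then 1 else 0) ∧
    (∀ k l, (ec (((Yop L (fun i => (X i : MvPolynomial ℕ R))) ^ s) 1) k).coeff
      (Finsupp.single l 1) = if l < L ∧ k + l + 1 = s then (k : R) else 0) := by
  classical
  induction s with
  | zero =>
    constructor
    · intro k
      rw [pow_zero, Module.End.one_apply, ec_one]
      by_cases hk : k = 0
      · rw [if_pos hk, if_pos hk, coeff_zero_one]
      · rw [if_neg hk, if_neg hk, coeff_zero]
    · intro k l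
      rw [pow_zero, Module.End.one_apply, ec_one]
      have h1 : ¬ (l < L ∧ k + l + 1 = 0) := by omega
      rw [if_neg h1]
      split_ifs
      · rw [coeff_one, if_neg]
        intro h
        have h2 := congrArg len h
        rw [len_single] at h2
        simp [len] at h2
      · rw [coeff_zero]
  | succ s ih =>
    obtain ⟨ih0, ih1⟩ := ih
    constructor
    · intro k
      rw [pow_succ', Module.End.mul_apply]
      rcases k with _ | k
      · rw [ec_Y_zero, coeff_zero, if_neg (by omega)]
      · rw [ec_Y_succ, coeff_add, ih0, coeff_sum]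
        have h1 : ∀ l ∈ Finset.range L, ((X l : MvPolynomial ℕ R) *
            ec (((Yop L (fun i => (X i : MvPolynomial ℕ R))) ^ s) 1) (k + (l + 1))).coeff 0 =
              0 := by
          intro l _
          rw [coeff_X_mul', if_neg]
          simp
        rw [Finset.sum_congr rfl h1, Finset.sum_const_zero, add_zero]
        simp
    · intro k l
      rw [pow_succ', Module.End.mul_apply]
      rcases k with _ | k
      · rw [ec_Y_zero, coeff_zero]
        simp
      · rw [ec_Y_succ, coeff_add, ih1, coeff_sum]
        have h1 : ∀ i ∈ Finset.range L, ((X i : MvPolynomial ℕ R) *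
            ec (((Yop L (fun i => (X i : MvPolynomial ℕ R))) ^ s) 1) (k + (i + 1))).coeff
              (Finsupp.single l 1) = if l = i then (if k + (i + 1) = s then 1 else 0) else 0 := by
          intro i _
          rw [coeff_X_mul']
          by_cases hil : l = i
          · subst hil
            rw [if_pos rfl, if_pos (by simp), tsub_self, ih0]
          · rw [if_neg hil, if_neg]
            rw [Finsupp.mem_support_iff, Finsupp.single_apply]
            simp [hil]
        rw [Finset.sum_congr rfl h1, Finset.sum_ite_eq]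
        by_cases hlL : l < L
        · rw [if_pos (Finset.mem_range.2 hlL)]
          by_cases hk : k + l + 1 = s
          · rw [if_pos ⟨hlL, hk⟩, if_pos (by omega), if_pos ⟨hlL, by omega⟩]
            push_cast
            ring
          · rw [if_neg (fun h => hk h.2), if_neg (by omega), if_neg (by omega), add_zero]
        · rw [if_neg (fun h => hlL h.1), if_neg (fun h => hlL (Finset.mem_range.1 h)),
            if_neg (fun h => hlL h.1), add_zero]

theorem beta_coeff (L j : ℕ) (hj : 1 ≤ j) (hjL : j ≤ L) (γ : ℕ →₀ ℕ) (hγ : len γ ≤ 1) :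
    (eps (MvPolynomial ℕ R) (beta L (fun i => (X i : MvPolynomial ℕ R)) j)).coeff γ =
      if γ = Finsupp.single (j - 1) 1 then 1 else 0 := by
  rw [beta_eq]
  obtain ⟨h0, h1⟩ := ec_Y_pow (R := R) L (j + 1)
  rcases Nat.lt_or_ge (len γ) 1 with hlt | hge
  · have hz : γ = 0 := len_eq_zero (by omega)
    subst hz
    rw [h0, if_neg (by omega), if_neg]
    intro h
    have h2 := congrArg len h
    rw [len_single] at h2
    simp [len] at h2
  · obtain ⟨l, rfl⟩ := len_eq_one (le_antisymm hγ hge)
    rw [h1]
    by_cases hl : l = j - 1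
    · subst hl
      rw [if_pos ⟨by omega, by omega⟩, if_pos rfl, Nat.cast_one]
    · rw [if_neg (by omega), if_neg]
      intro h
      exact hl (Finsupp.single_left_injective one_ne_zero h)

private theorem W_tri_aux (L : ℕ) (l : List ℕ) (hL : ∀ j ∈ l, j ≤ L) (γ : ℕ →₀ ℕ)
    (hlen : len γ ≤ (l.filter (fun j => j ≠ 0)).length) :
    ((l.map fun j => eps (MvPolynomial ℕ R)
      (beta L (fun i => (X i : MvPolynomial ℕ R)) j)).prod).coeff γ =
      if γ = sh l then 1 else 0 := by
  classical
  induction l generalizing γ with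
  | nil =>
    have h1 : γ = 0 := len_eq_zero (by simpa using hlen)
    subst h1
    simp [sh]
  | cons j l ih =>
    rw [List.map_cons, List.prod_cons]
    by_cases hj : j = 0
    · subst hj
      rw [beta_zero, one_mul, sh_cons_zero]
      refine ih (fun i hi => hL i (List.mem_cons_of_mem _ hi)) γ ?_
      simpa using hlen
    · have hjL : j ≤ L := hL j List.mem_cons_self
      have hL' : ∀ i ∈ l, i ≤ L := fun i hi => hL i (List.mem_cons_of_mem _ hi)
      have hn : ((j :: l).filter (fun j => j ≠ 0)).length =
          (l.filter (fun j => j ≠ 0)).length + 1 := by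
        simp [hj]
      rw [hn] at hlen
      rw [sh_cons j l hj, coeff_mul]
      have hterm : ∀ x ∈ Finset.HasAntidiagonal.antidiagonal γ,
          (eps (MvPolynomial ℕ R) (beta L (fun i => (X i : MvPolynomial ℕ R)) j)).coeff x.1 *
          ((l.map fun j => eps (MvPolynomial ℕ R)
            (beta L (fun i => (X i : MvPolynomial ℕ R)) j)).prod).coeff x.2 =
          if x = (Finsupp.single (j - 1) 1, sh l) then 1 else 0 := by
        rintro ⟨γ1, γ2⟩ hx
        rw [Finset.HasAntidiagonal.mem_antidiagonal] at hx
        dsimp only at hx ⊢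
        have hlen2 : len γ1 + len γ2 = len γ := by rw [← len_add, hx]
        have hsh := len_sh l
        by_cases h1 : len γ1 ≤ 1
        · rw [beta_coeff L j (by omega) hjL γ1 h1]
          by_cases h2 : γ1 = Finsupp.single (j - 1) 1
          · have h3 : len γ2 ≤ (l.filter (fun j => j ≠ 0)).length := by
              have h4 := congrArg len h2
              rw [len_single] at h4
              omega
            rw [ih hL' γ2 h3, if_pos h2, one_mul]
            by_cases h4 : γ2 = sh l
            · rw [if_pos h4, if_pos (by rw [h2, h4])]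
            · rw [if_neg h4, if_neg (fun h => h4 (congrArg Prod.snd h))]
          · rw [if_neg h2, zero_mul, if_neg (fun h => h2 (congrArg Prod.fst h))]
        · have h3 : len γ2 ≤ (l.filter (fun j => j ≠ 0)).length := by omega
          rw [ih hL' γ2 h3, if_neg, mul_zero, if_neg]
          · intro h
            have h4 := congrArg len (congrArg Prod.fst h)
            dsimp only at h4
            rw [len_single] at h4
            omega
          · intro h4
            rw [h4, hsh] at hlen2
            omega
      rw [Finset.sum_congr rfl hterm, Finset.sum_ite_eq']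
      have hiff : ((Finsupp.single (j - 1) 1, sh l) ∈ Finset.HasAntidiagonal.antidiagonal γ) ↔
          γ = Finsupp.single (j - 1) 1 + sh l := by
        rw [Finset.HasAntidiagonal.mem_antidiagonal]
        exact eq_comm
      by_cases h : γ = Finsupp.single (j - 1) 1 + sh l
      · rw [if_pos (hiff.2 h), if_pos h]
      · rw [if_neg (fun h' => h (hiff.1 h')), if_neg h]

theorem W_tri (al b : R) (L : ℕ) (l : List ℕ) (hL : ∀ j ∈ l, j ≤ L) (γ : ℕ →₀ ℕ)
    (hγ : wt γ = l.sum) (hlen : len γ ≤ (l.filter (fun j => j ≠ 0)).length) :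
    (eps (MvPolynomial ℕ R) (Bword (C al) (C b) L (fun i => X i) l 1)).coeff γ =
      if γ = sh l then 1 else 0 := by
  rw [W_lead al b L l γ hγ]
  exact W_tri_aux L l hL γ hlen

end H25BC
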